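import Pool.Agent.H22.QF.RefSys
import Pool.Agent.H22.QK.QCount

/-!
# AvgRef: the density of a random refined piece (about 130 lines)

`D v (w0, z) = |Y| |Z| |Z'| 𝔼_w B (w0 + f' w) iv (hs w + hs 0 + z = 0)`.

PROOF of `avg_ref`. Interchange the averages: `𝔼_z iv (hs w + hs 0 + z = 0) = 1/|Z'|` (exactly one
`z`), `𝔼_w0 B (w0 + f' w) = 𝔼 B`.

PROOF of `upper_ref`. `SprV` for the piece `(f', w0, w ↦ hs w + hs 0 + z)`:
`𝔼 B (w0 + f' w) iv (..) ≤ T 𝔼 iv (g (w0 + f' w) = 0) iv (hs w + hs 0 + z = 0)`; the map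
`w ↦ (g (w0 + f' w), hs w + hs 0 + z) ∈ Y1 × Z'` is quadratic with polarisation
`bpair (pb b1 f') cs`, `Reg σ'`, so by `count_zero` the last average is at most
`1/(|Y1| |Z'|) + (1/2)^σ'`. Multiply by `|Y1| |Z'|`; `|Y1| |Z'| (1/2)^σ' ≤ η`.

PROOF of `markov_ref`: `(1-δ) T ≤ 𝔼_p D_p` and `D_p ≤ (1+η) T`. Let `μ` be the proportion of the `p`
with `D_p < (1-δ') T`. Then `(1-δ) T ≤ (1-μ)(1+η) T + μ (1-δ') T`, so `μ (δ' + η) ≤ δ + η` and
`μ ≤ (δ+η)/δ' ≤ 1/8`.
-/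

set_option autoImplicit false

open Finset Function Module
open scoped BigOperators
open Pool.Agent.H77.KM
open Pool.Agent.H22.QK

namespace Pool.Agent.H22.QF

private lemma ar_one {Z' : Type} [AddCommGroup Z'] [Module (ZMod 2) Z'] [Fintype Z']
    (c : ℝ) (y : Z') : (Fintype.card Z' : ℝ) * 𝔼 z : Z', c * iv (y + z = 0) = c := by
  classical
  have h1 : ∀ z : Z', c * iv (y + z = 0) = if z = y then c else 0 := by
    intro z
    by_cases h : z = y
    · subst h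
      rw [iv_pos (ZModModule.add_self z), mul_one, if_pos rfl]
    · rw [iv_neg, mul_zero, if_neg h]
      intro h2
      apply h
      have h3 : y + y = 0 := ZModModule.add_self y
      exact add_left_cancel (h2.trans h3.symm)
  have h2 : (Fintype.card Z' : ℝ) ≠ 0 := by exact_mod_cast Fintype.card_ne_zero
  rw [Finset.expect_congr rfl fun z _ => h1 z, Fintype.expect_eq_sum_div_card,
    Finset.sum_ite_eq' Finset.univ y, if_pos (Finset.mem_univ _)]
  field_simp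

theorem avg_ref {W W' Z' : Type} [AddCommGroup W] [Module (ZMod 2) W] [Fintype W]
    [AddCommGroup W'] [Module (ZMod 2) W'] [Fintype W'] [AddCommGroup Z'] [Module (ZMod 2) Z']
    [Fintype Z'] (B : W → ℝ) (f' : W' →ₗ[ZMod 2] W) (hs : W' → Z') :
    𝔼 p : W × Z', (Fintype.card Z' : ℝ) *
      𝔼 w, B (p.1 + f' w) * iv (hs w + hs 0 + p.2 = 0) = 𝔼 w, B w := by
  have h1 : 𝔼 p : W × Z', (Fintype.card Z' : ℝ) *
      𝔼 w, B (p.1 + f' w) * iv (hs w + hs 0 + p.2 = 0)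
      = 𝔼 a : W, 𝔼 z : Z', (Fintype.card Z' : ℝ) *
        𝔼 w, B (a + f' w) * iv (hs w + hs 0 + z = 0) := by
    rw [← Finset.univ_product_univ, Finset.expect_product]
  rw [h1]
  have h2 : ∀ a : W, 𝔼 z : Z', (Fintype.card Z' : ℝ) *
        𝔼 w, B (a + f' w) * iv (hs w + hs 0 + z = 0) = 𝔼 w, B (a + f' w) := by
    intro a
    rw [← Finset.mul_expect, Finset.expect_comm, Finset.mul_expect]
    refine Finset.expect_congr rfl fun w _ => ?_
    exact ar_one (B (a + f' w)) (hs w + hs 0)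
  rw [Finset.expect_congr rfl fun a _ => h2 a, Finset.expect_comm]
  have h3 : ∀ w : W', 𝔼 a : W, B (a + f' w) = 𝔼 a, B a := fun w =>
    Fintype.expect_equiv (Equiv.addRight (f' w)) _ _ fun _ => rfl
  rw [Finset.expect_congr rfl fun w _ => h3 w, Fintype.expect_const]

theorem upper_ref {W W' Y1 Z' : Type} [AddCommGroup W] [Module (ZMod 2) W] [Fintype W]
    [AddCommGroup W'] [Module (ZMod 2) W'] [Fintype W'] [AddCommGroup Y1] [Module (ZMod 2) Y1]
    [Fintype Y1] [AddCommGroup Z'] [Module (ZMod 2) Z'] [Fintype Z']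
    {g : W → Y1} {b1 : W →ₗ[ZMod 2] W →ₗ[ZMod 2] Y1} (hg : IsQM g b1) {B : W → ℝ}
    {κ r : ℕ} {T : ℝ} (hT : 0 ≤ T) (hB : SprV B g κ r T) (f' : W' →ₗ[ZMod 2] W)
    (hf' : Injective f') (hκ : finrank (ZMod 2) W ≤ finrank (ZMod 2) W' + κ)
    (hr : finrank (ZMod 2) Z' ≤ r) {hs : W' → Z'} {cs : W' →ₗ[ZMod 2] W' →ₗ[ZMod 2] Z'}
    (hhs : IsQM hs cs) {σ' : ℕ} (hreg : Reg (bpair (pb b1 f') cs) σ') {η : ℝ}
    (hη : (Fintype.card Y1 : ℝ) * Fintype.card Z' * (1 / 2) ^ σ' ≤ η) (w0 : W) (z : Z') :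
    (Fintype.card Y1 : ℝ) * Fintype.card Z' *
      𝔼 w, B (w0 + f' w) * iv (hs w + hs 0 + z = 0) ≤ (1 + η) * T := by
  have hq : IsQM (fun w => hs w + hs 0 + z) cs := by
    have h := hhs.addAffine 0 (hs 0 + z)
    have e : (fun x => hs x + (0 : W' →ₗ[ZMod 2] Z') x + (hs 0 + z)) = fun w => hs w + hs 0 + z := by
      funext x
      rw [LinearMap.zero_apply, add_zero, add_assoc]
    rwa [e] at h
  have h1 := hB W' Z' f' hf' hκ hr w0 (fun w => hs w + hs 0 + z) cs hq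
  have h2 := count_zero ((hg.pull f' w0).pair hq) hreg
  have h3 : ∀ w : W', iv (((g (w0 + f' w), hs w + hs 0 + z) : Y1 × Z') = 0)
      = iv (g (w0 + f' w) = 0) * iv (hs w + hs 0 + z = 0) := by
    intro w
    rw [← iv_and]
    exact iv_congr Prod.mk_eq_zero
  rw [Finset.expect_congr rfl fun w _ => h3 w, Fintype.card_prod] at h2
  have h4 := (abs_le.1 h2).2
  set E1 := 𝔼 w, B (w0 + f' w) * iv (hs w + hs 0 + z = 0) with hE1
  set E2 := 𝔼 w, iv (g (w0 + f' w) = 0) * iv (hs w + hs 0 + z = 0) with hE2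
  have hc1 : (0 : ℝ) < Fintype.card Y1 := by exact_mod_cast Fintype.card_pos
  have hc2 : (0 : ℝ) < Fintype.card Z' := by exact_mod_cast Fintype.card_pos
  set a : ℝ := (Fintype.card Y1 : ℝ) * Fintype.card Z' with ha
  have ha0 : 0 < a := mul_pos hc1 hc2
  have h5 : E2 ≤ 1 / a + (1 / 2) ^ σ' := by
    have h6 : (((Fintype.card Y1 * Fintype.card Z' : ℕ)) : ℝ) = a := by
      rw [ha]; push_cast; ring
    rw [h6] at h4
    linarith
  calc a * E1 ≤ a * (T * E2) := mul_le_mul_of_nonneg_left h1 ha0.le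
    _ ≤ a * (T * (1 / a + (1 / 2) ^ σ')) :=
        mul_le_mul_of_nonneg_left (mul_le_mul_of_nonneg_left h5 hT) ha0.le
    _ = (1 + a * (1 / 2) ^ σ') * T := by
        field_simp
    _ ≤ (1 + η) * T := by
        refine mul_le_mul_of_nonneg_right ?_ hT
        linarith

theorem markov_ref {P : Type} [Fintype P] [Nonempty P] (D : P → ℝ) {T δ δ' η : ℝ} (hT : 0 < T)
    (hη : 0 ≤ η) (hδ' : 0 < δ') (h8 : 8 * (δ + η) ≤ δ') (havg : (1 - δ) * T ≤ 𝔼 p, D p)
    (hup : ∀ p, D p ≤ (1 + η) * T) :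
    𝔼 p, iv (D p < (1 - δ') * T) ≤ 1 / 8 := by
  set μ := 𝔼 p, iv (D p < (1 - δ') * T) with hμ
  have h1 : ∀ p, D p ≤ (1 + η) * T - (δ' + η) * T * iv (D p < (1 - δ') * T) := by
    intro p
    by_cases h : D p < (1 - δ') * T
    · rw [iv_pos h]
      linarith
    · rw [iv_neg h]
      have := hup p
      linarith
  have h2 : 𝔼 p, D p ≤ (1 + η) * T - (δ' + η) * T * μ := by
    calc 𝔼 p, D p ≤ 𝔼 p, ((1 + η) * T - (δ' + η) * T * iv (D p < (1 - δ') * T)) :=
          Finset.expect_le_expect fun p _ => h1 p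
      _ = (1 + η) * T - (δ' + η) * T * μ := by
          rw [Finset.expect_sub_distrib, Fintype.expect_const, ← Finset.mul_expect]
  have hμ0 : 0 ≤ μ := Finset.expect_nonneg fun p _ => iv_nonneg _
  have h3 : (δ' + η) * μ * T ≤ (δ + η) * T := by linarith
  have h4 : (δ' + η) * μ ≤ δ + η := le_of_mul_le_mul_right h3 hT
  have h5 : δ' * μ ≤ δ' * (1 / 8) := by
    have : 0 ≤ η * μ := mul_nonneg hη hμ0
    linarith
  exact le_of_mul_le_mul_left h5 hδ'

end Pool.Agent.H22.QF
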