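import Pool.Agent.H22.QK.QBase
import Pool.Agent.H22.QK.QBias
import Pool.Agent.H22.QK.QCount

/-!
# Indep: `k (y + y') = 0` is independent of functions of `y` and of `y'` (about 120 lines)

PROOF of `bil_bound`. Cauchy-Schwarz in `y`: the square of the left side is at most
`𝔼_y (𝔼_z a' z sgn (l (b y z)))^2 = 𝔼_z 𝔼_z' a' z a' z' 𝔼_y sgn (l (b y (z + z')))`, of absolute
value at most `𝔼_z 𝔼_z' iv (bl b l (z+z') = 0) = |ker| / |V| ≤ (1/2)^(2s)` (`b` is symmetric,
`expect_chi`, translation invariance, `ker_count` with `z = 0`).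

PROOF of `bil_indep`. Substitute `z → y + z` (`k (y + z)` instead of `k z`);
`iv (k (y+z) = 0) = |Y|^-1 ∑_{l ∈ Dual Y} sgn (l (k (y + z)))`; the term `l = 0` gives
`|Y|^-1 𝔼 f 𝔼 f'`; for `l ≠ 0`, `l (k (y+z)) = l (k y) + l (k z) + l (k 0) + l (b y z)` and
`bil_bound` with `a y = f y sgn (l (k y))`, `a' z = f' z sgn (l (k z))` (the constant only changes
the sign). There are fewer than `|Y|` such `l`, and the factor `|Y|^-1`.
(`iv (y = 0) = |Y|^-1 ∑_l sgn (l y)`: see the proofs in `QK/QCount.lean`, `QK/FrDist.lean`.)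

PROOF of `one_dir_prod`: on the support of `f`, `f'` the factors `iv (g y = 0)`,
`iv (g (y+z) = 0)` are `1`; multiply `bil_indep` by `|Y|^3`.
-/

set_option autoImplicit false

open Finset Function Module
open scoped BigOperators
open Pool.Agent.H77.KM
open Pool.Agent.H22.QK

namespace Pool.Agent.H22.QF

section

variable {V : Type} [AddCommGroup V] [Module (ZMod 2) V] [Fintype V]
variable {Y : Type} [AddCommGroup Y] [Module (ZMod 2) Y] [Fintype Y]
variable {g k : V → Y} {b : V →ₗ[ZMod 2] V →ₗ[ZMod 2] Y} {m : ℕ}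

omit [Module (ZMod 2) V] in
private theorem abs_expect_le (f : V → ℝ) {B : ℝ} (hf : ∀ x, |f x| ≤ B) : |𝔼 x, f x| ≤ B := by
  have h1 : |𝔼 x, f x| ≤ 𝔼 x, |f x| := Finset.abs_expect_le _ _
  refine h1.trans ?_
  refine (Finset.expect_le_expect (fun x _ => hf x)).trans ?_
  rw [Finset.expect_const Finset.univ_nonempty]

theorem bil_bound (hk : IsQM k b) {s : ℕ} (l : Dual (ZMod 2) Y)
    (hs : finrank (ZMod 2) (LinearMap.ker (bl b l)) + 2 * s ≤ finrank (ZMod 2) V)
    (a a' : V → ℝ) (ha : ∀ x, |a x| ≤ 1) (ha' : ∀ x, |a' x| ≤ 1) :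
    |𝔼 y, 𝔼 z, a y * a' z * sgn (l (b y z))| ≤ (1 / 2) ^ s := by
  have hn : (Finset.univ : Finset V).Nonempty := Finset.univ_nonempty
  have h0 : 𝔼 y, 𝔼 z, a y * a' z * sgn (l (b y z))
      = 𝔼 y, a y * (𝔼 z, a' z * sgn (l (b y z))) := by
    refine Finset.expect_congr rfl fun y _ => ?_
    rw [Finset.mul_expect]
    exact Finset.expect_congr rfl fun z _ => by ring
  have h1 : (𝔼 y, a y * (𝔼 z, a' z * sgn (l (b y z)))) ^ 2
      ≤ 𝔼 y, (𝔼 z, a' z * sgn (l (b y z))) ^ 2 := by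
    refine (expect_pow_even_le hn (fun y => a y * (𝔼 z, a' z * sgn (l (b y z))))
      (n := 2) even_two).trans ?_
    refine Finset.expect_le_expect fun y _ => ?_
    rw [mul_pow]
    have h2 : a y ^ 2 ≤ 1 := by
      rw [← sq_abs]
      nlinarith [abs_nonneg (a y), ha y]
    nlinarith [sq_nonneg (𝔼 z, a' z * sgn (l (b y z)))]
  have h2 : 𝔼 y, (𝔼 z, a' z * sgn (l (b y z))) ^ 2
      = 𝔼 z, 𝔼 z', a' z * a' z' * 𝔼 y, chi (bl b l (z + z')) y := by
    calc 𝔼 y, (𝔼 z, a' z * sgn (l (b y z))) ^ 2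
        = 𝔼 y, 𝔼 z, 𝔼 z', a' z * a' z' * chi (bl b l (z + z')) y := by
          refine Finset.expect_congr rfl fun y _ => ?_
          rw [pow_two, Finset.expect_mul_expect]
          refine Finset.expect_congr rfl fun z _ => Finset.expect_congr rfl fun z' _ => ?_
          rw [chi, bl_apply, map_add b, LinearMap.add_apply, map_add l, sgn_add,
            hk.symm z y, hk.symm z' y]
          ring
      _ = 𝔼 z, 𝔼 y, 𝔼 z', a' z * a' z' * chi (bl b l (z + z')) y := Finset.expect_comm _ _ _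
      _ = 𝔼 z, 𝔼 z', 𝔼 y, a' z * a' z' * chi (bl b l (z + z')) y :=
          Finset.expect_congr rfl fun z _ => Finset.expect_comm _ _ _
      _ = 𝔼 z, 𝔼 z', a' z * a' z' * 𝔼 y, chi (bl b l (z + z')) y :=
          Finset.expect_congr rfl fun z _ => Finset.expect_congr rfl fun z' _ =>
            (Finset.mul_expect _ _ _).symm
  have h3 : 𝔼 z, 𝔼 z', a' z * a' z' * 𝔼 y, chi (bl b l (z + z')) y
      ≤ 𝔼 z, 𝔼 z', iv (bl b l (z + z') = 0) := by
    refine Finset.expect_le_expect fun z _ => Finset.expect_le_expect fun z' _ => ?_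
    by_cases hz : bl b l (z + z') = 0
    · rw [iv_pos hz, hz]
      have h4 : 𝔼 y, chi (0 : Dual (ZMod 2) V) y = 1 := by
        simp only [chi_zero_left]
        exact Finset.expect_const Finset.univ_nonempty _
      rw [h4, mul_one]
      have h5 : |a' z * a' z'| ≤ 1 := by
        rw [abs_mul]
        exact mul_le_one₀ (ha' z) (abs_nonneg _) (ha' z')
      exact (le_abs_self _).trans h5
    · rw [iv_neg hz, expect_chi_eq_zero hz, mul_zero]
  have h4 : 𝔼 z, 𝔼 z', iv (bl b l (z + z') = 0) ≤ (1 / 2) ^ (2 * s) := by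
    have h5 : ∀ z : V, 𝔼 z', iv (bl b l (z + z') = 0) = 𝔼 w, iv (bl b l w = 0) := fun z =>
      expect_add_left (fun w => iv (bl b l w = 0)) z
    simp only [h5]
    rw [Finset.expect_const Finset.univ_nonempty]
    exact ker_count l 0 hs
  rw [h0]
  have h5 : (𝔼 y, a y * (𝔼 z, a' z * sgn (l (b y z)))) ^ 2 ≤ ((1 / 2 : ℝ) ^ s) ^ 2 := by
    rw [← pow_mul, mul_comm s 2]
    exact h1.trans (h2.le.trans (h3.trans h4))
  exact abs_le_of_sq_le_sq h5 (by positivity)

private theorem iv_eq_sum (y : Y) :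
    iv (y = 0) = 1 / (Fintype.card Y : ℝ) * ∑ l : Dual (ZMod 2) Y, sgn (l y) := by
  have hY : (0 : ℝ) < Fintype.card Y := by exact_mod_cast Fintype.card_pos
  by_cases hy : y = 0
  · rw [iv_pos hy, hy]
    have h1 := sum_chi_zero (V := Y)
    simp only [chi] at h1
    rw [h1]
    field_simp
  · rw [iv_neg hy]
    have h1 := sum_chi_eq_zero hy
    simp only [chi] at h1
    rw [h1, mul_zero]

theorem bil_indep (hk : IsQM k b) {s : ℕ} (hs : Reg b s) (f f' : V → ℝ)
    (hf : ∀ x, |f x| ≤ 1) (hf' : ∀ x, |f' x| ≤ 1) :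
    |𝔼 y, 𝔼 z, f y * f' (y + z) * iv (k z = 0)
      - 1 / (Fintype.card Y : ℝ) * ((𝔼 y, f y) * 𝔼 y, f' y)| ≤ (1 / 2) ^ s := by
  classical
  have hY : (0 : ℝ) < Fintype.card Y := by exact_mod_cast Fintype.card_pos
  have h1 : 𝔼 y, 𝔼 z, f y * f' (y + z) * iv (k z = 0)
      = 𝔼 y, 𝔼 z, f y * f' z * iv (k (y + z) = 0) := by
    refine Finset.expect_congr rfl fun y _ => ?_
    rw [← expect_add_left (fun z => f y * f' (y + z) * iv (k z = 0)) y]
    refine Finset.expect_congr rfl fun z _ => ?_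
    rw [← add_assoc, ZModModule.add_self, zero_add]
  have h2 : 𝔼 y, 𝔼 z, f y * f' z * iv (k (y + z) = 0)
      = 1 / (Fintype.card Y : ℝ) *
        ∑ l : Dual (ZMod 2) Y, 𝔼 y, 𝔼 z, f y * f' z * sgn (l (k (y + z))) := by
    rw [← Finset.expect_sum_comm, Finset.mul_expect]
    refine Finset.expect_congr rfl fun y _ => ?_
    rw [← Finset.expect_sum_comm, Finset.mul_expect]
    refine Finset.expect_congr rfl fun z _ => ?_
    rw [iv_eq_sum, ← Finset.mul_sum]
    ring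
  have h3 : 𝔼 y, 𝔼 z, f y * f' z * sgn ((0 : Dual (ZMod 2) Y) (k (y + z)))
      = (𝔼 y, f y) * 𝔼 y, f' y := by
    rw [Finset.expect_mul_expect]
    refine Finset.expect_congr rfl fun y _ => Finset.expect_congr rfl fun z _ => ?_
    rw [LinearMap.zero_apply, sgn_zero, mul_one]
  have h4 : ∀ l ∈ Finset.univ.erase (0 : Dual (ZMod 2) Y),
      |𝔼 y, 𝔼 z, f y * f' z * sgn (l (k (y + z)))| ≤ (1 / 2) ^ s := by
    intro l hl
    have hl0 : l ≠ 0 := (Finset.mem_erase.1 hl).1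
    have h5 := bil_bound hk l (hs l hl0) (fun y => f y * sgn (l (k y)))
      (fun z => f' z * sgn (l (k z)))
      (fun x => by rw [abs_mul, abs_sgn, mul_one]; exact hf x)
      (fun x => by rw [abs_mul, abs_sgn, mul_one]; exact hf' x)
    have h6 : 𝔼 y, 𝔼 z, f y * f' z * sgn (l (k (y + z)))
        = sgn (l (k 0)) * 𝔼 y, 𝔼 z, (f y * sgn (l (k y))) * (f' z * sgn (l (k z)))
          * sgn (l (b y z)) := by
      rw [Finset.mul_expect]
      refine Finset.expect_congr rfl fun y _ => ?_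
      rw [Finset.mul_expect]
      refine Finset.expect_congr rfl fun z _ => ?_
      rw [hk y z, map_add, map_add, map_add, sgn_add, sgn_add, sgn_add]
      ring
    rw [h6, abs_mul, abs_sgn, one_mul]
    exact h5
  have h5 : |∑ l ∈ Finset.univ.erase (0 : Dual (ZMod 2) Y),
      𝔼 y, 𝔼 z, f y * f' z * sgn (l (k (y + z)))| ≤ Fintype.card Y * (1 / 2) ^ s := by
    refine (Finset.abs_sum_le_sum_abs _ _).trans ?_
    refine (Finset.sum_le_card_nsmul _ _ _ h4).trans ?_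
    rw [nsmul_eq_mul]
    refine mul_le_mul_of_nonneg_right ?_ (by positivity)
    have h6 : (Finset.univ.erase (0 : Dual (ZMod 2) Y)).card ≤ Fintype.card Y := by
      refine (Finset.card_le_univ _).trans ?_
      rw [card_dual]
    exact_mod_cast h6
  rw [h1, h2, ← Finset.sum_erase_add _ _ (Finset.mem_univ (0 : Dual (ZMod 2) Y)), h3, mul_add,
    add_sub_cancel_right, abs_mul, abs_of_pos (by positivity : (0 : ℝ) < 1 / Fintype.card Y)]
  calc 1 / (Fintype.card Y : ℝ) * |∑ l ∈ Finset.univ.erase (0 : Dual (ZMod 2) Y),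
        𝔼 y, 𝔼 z, f y * f' z * sgn (l (k (y + z)))|
      ≤ 1 / (Fintype.card Y : ℝ) * (Fintype.card Y * (1 / 2) ^ s) :=
        mul_le_mul_of_nonneg_left h5 (by positivity)
    _ = (1 / 2) ^ s := by field_simp

theorem one_dir_prod (hk : IsQM k b) {s : ℕ} (hs : Reg b s) (f f' : V → ℝ)
    (hf : ∀ x, |f x| ≤ 1) (hf' : ∀ x, |f' x| ≤ 1) (hfg : ∀ x, f x ≠ 0 → g x = 0)
    (hfg' : ∀ x, f' x ≠ 0 → g x = 0) :
    |(Fintype.card Y : ℝ) ^ 3 * 𝔼 y, 𝔼 z, iv (g y = 0) * iv (g (y + z) = 0) * iv (k z = 0)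
        * (f y * f' (y + z)) - (Fintype.card Y : ℝ) ^ 2 * ((𝔼 y, f y) * 𝔼 y, f' y)|
      ≤ (Fintype.card Y : ℝ) ^ 3 * (1 / 2) ^ s := by
  have hY : (0 : ℝ) < Fintype.card Y := by exact_mod_cast Fintype.card_pos
  have h1 : 𝔼 y, 𝔼 z, iv (g y = 0) * iv (g (y + z) = 0) * iv (k z = 0) * (f y * f' (y + z))
      = 𝔼 y, 𝔼 z, f y * f' (y + z) * iv (k z = 0) := by
    refine Finset.expect_congr rfl fun y _ => Finset.expect_congr rfl fun z _ => ?_
    by_cases hy : f y = 0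
    · rw [hy]
      ring
    · by_cases hz : f' (y + z) = 0
      · rw [hz]
        ring
      · rw [iv_pos (hfg y hy), iv_pos (hfg' (y + z) hz)]
        ring
  have h2 := bil_indep hk hs f f' hf hf'
  rw [h1]
  have h3 : (Fintype.card Y : ℝ) ^ 3 * (𝔼 y, 𝔼 z, f y * f' (y + z) * iv (k z = 0))
        - (Fintype.card Y : ℝ) ^ 2 * ((𝔼 y, f y) * 𝔼 y, f' y)
      = (Fintype.card Y : ℝ) ^ 3 * (𝔼 y, 𝔼 z, f y * f' (y + z) * iv (k z = 0)
        - 1 / (Fintype.card Y : ℝ) * ((𝔼 y, f y) * 𝔼 y, f' y)) := by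
    field_simp
  rw [h3, abs_mul, abs_of_pos (by positivity : (0 : ℝ) < (Fintype.card Y : ℝ) ^ 3)]
  exact mul_le_mul_of_nonneg_left h2 (by positivity)

end

end Pool.Agent.H22.QF
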