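import Pool.Agent.H22.QF.FbVal
import Pool.Agent.H22.QF.Indep
import Pool.Agent.H22.QK.FrDist

/-!
# FbDist: distinct characters stay distinct on a random frame (about 100 lines)

Copy of `FR_distinct` in `QK/FrDist.lean`.
PROOF of `FB_distinct`. `iv (∀ u, θ (lc u x) = 0) = 𝔼_u chi θ (lc u x)` (`u ↦ θ (lc u x)` is
linear). The term `u = 0` gives `(1/2)^m FB 1 ≤ 2 (1/2)^m`; for `u ≠ 0`, `FB_one_dir` with
`F y z = chi θ z` and `chi θ z = chi θ y * chi θ (y + z)`, `one_dir_prod` with
`f = f' = iv (g · = 0) chi θ`: at most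
`τ + |Y|^2 (hat (iv (g · = 0)) θ)^2 + |Y|^3 (1/2)^s ≤ τ + |Y|^2 (1/2)^(2s) + |Y|^3 (1/2)^s ≤ 3 τ`
(`ind_bias` of `QK/FrDist.lean`; `|Y|^3 (1/2)^s ≤ τ` because `3 ≤ bexp m + m + 2`, `1 ≤ |Y|`).
-/

set_option autoImplicit false

open Finset Function Module
open scoped BigOperators
open Pool.Agent.H77.KM
open Pool.Agent.H22.QK

namespace Pool.Agent.H22.QF

section

variable {V : Type} [AddCommGroup V] [Module (ZMod 2) V] [Fintype V]
variable {Y : Type} [AddCommGroup Y] [Module (ZMod 2) Y] [Fintype Y]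
variable {g k : V → Y} {b : V →ₗ[ZMod 2] V →ₗ[ZMod 2] Y} {m : ℕ}

theorem FB_distinct (hg : IsQM g b) (hk : IsQM k b) (hk0 : k 0 = 0) {s : ℕ} (hs : Reg b s)
    (hτ : tauB Y m s ≤ 1) (θ : Dual (ZMod 2) V) (hθ : θ ≠ 0) :
    FB g k m (fun _ x => iv (∀ u : Fin m → ZMod 2, θ (lc u x) = 0))
      ≤ 2 * (1 / 2) ^ m + 4 * tauB Y m s := by
  classical
  have hN1 : (1 : ℝ) ≤ Fintype.card Y := by exact_mod_cast Fintype.card_pos
  have hN : (0 : ℝ) < Fintype.card Y := by linarith
  have hτ0 : 0 ≤ tauB Y m s := by unfold tauB; positivity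
  have h4 : (0 : ℝ) < (1 / 2) ^ s := by positivity
  -- `|Y|^3 (1/2)^s ≤ τ / 4`
  have hY3 : (Fintype.card Y : ℝ) ^ 3 * (1 / 2) ^ s ≤ tauB Y m s / 4 := by
    unfold tauB
    have h1 : (Fintype.card Y : ℝ) ^ 3 ≤ (Fintype.card Y : ℝ) ^ (bexp m + m + 2) := by
      have h2 := le_bexp m
      exact pow_le_pow_right₀ hN1 (by omega)
    have h3 : (1 : ℝ) ≤ (m : ℝ) + 1 := by
      have : (0 : ℝ) ≤ m := Nat.cast_nonneg m
      linarith
    calc (Fintype.card Y : ℝ) ^ 3 * (1 / 2) ^ s
        ≤ (Fintype.card Y : ℝ) ^ (bexp m + m + 2) * (1 / 2) ^ s :=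
          mul_le_mul_of_nonneg_right h1 h4.le
      _ ≤ (Fintype.card Y : ℝ) ^ (bexp m + m + 2) * (m + 1) * (1 / 2) ^ s := by
          refine mul_le_mul_of_nonneg_right ?_ h4.le
          exact le_mul_of_one_le_right (by positivity) h3
      _ = _ := by ring
  have hY : (Fintype.card Y : ℝ) * (1 / 2) ^ s ≤ tauB Y m s / 4 := by
    refine le_trans (mul_le_mul_of_nonneg_right ?_ h4.le) hY3
    calc (Fintype.card Y : ℝ) = (Fintype.card Y : ℝ) ^ 1 := (pow_one _).symm
      _ ≤ _ := pow_le_pow_right₀ hN1 (by norm_num)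
  -- the indicator is an average of characters
  have e1 : ∀ x : Fin m → V, iv (∀ u : Fin m → ZMod 2, θ (lc u x) = 0) =
      𝔼 u : Fin m → ZMod 2, chi θ (lc u x) := by
    intro x
    set ψ : Dual (ZMod 2) (Fin m → ZMod 2) :=
      { toFun := fun u => θ (lc u x)
        map_add' := fun u v => by rw [lc_add, map_add]
        map_smul' := fun c u => by
          have : lc (c • u) x = c • lc u x := by
            simp only [lc, Pi.smul_apply, smul_eq_mul, mul_smul, Finset.smul_sum]
          rw [this, map_smul]; rfl } with hψ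
    have h1 : 𝔼 u : Fin m → ZMod 2, chi θ (lc u x) = 𝔼 u, chi ψ u := rfl
    rw [h1]
    by_cases h : ∀ u : Fin m → ZMod 2, θ (lc u x) = 0
    · rw [iv_pos h]
      have h2 : ψ = 0 := LinearMap.ext h
      rw [h2]
      simp only [chi_zero_left]
      exact (Finset.expect_const Finset.univ_nonempty _).symm
    · rw [iv_neg h]
      have h2 : ψ ≠ 0 := by
        intro h3
        apply h
        intro u
        exact LinearMap.congr_fun h3 u
      exact (expect_chi_eq_zero h2).symm
  have e2 : FB g k m (fun _ x => iv (∀ u : Fin m → ZMod 2, θ (lc u x) = 0)) =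
      𝔼 u : Fin m → ZMod 2, FB g k m (fun _ x => chi θ (lc u x)) := by
    rw [← FB_expect]
    simp only [e1]
  -- the term `u = 0`
  have h0 : FB g k m (fun _ _ => (1 : ℝ)) ≤ 1 + 5 / 4 * tauB Y m s := by
    have a1 := FB_zero_dir (m := m) hg hk hk0 hs hτ (fun _ => (1 : ℝ)) (fun _ => by norm_num)
    have a2 := count_zero hg hs
    have a3 := (abs_le.mp a1).2
    have a4 := (abs_le.mp a2).2
    simp only [mul_one] at a3
    have a5 : (Fintype.card Y : ℝ) * 𝔼 x, iv (g x = 0) ≤ 1 + tauB Y m s / 4 := by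
      have a6 : (Fintype.card Y : ℝ) * 𝔼 x, iv (g x = 0) ≤
          Fintype.card Y * (1 / Fintype.card Y + (1 / 2) ^ s) :=
        mul_le_mul_of_nonneg_left (by linarith) hN.le
      have a7 : (Fintype.card Y : ℝ) * (1 / Fintype.card Y + (1 / 2) ^ s) =
          1 + Fintype.card Y * (1 / 2) ^ s := by
        field_simp
      linarith
    linarith
  -- the other terms
  have h1 : ∀ u : Fin m → ZMod 2, u ≠ 0 →
      FB g k m (fun _ x => chi θ (lc u x)) ≤ 2 * tauB Y m s := by
    intro u hu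
    have a1 := FB_one_dir hg hk hk0 hs hτ hu (fun _ z => chi θ z) (fun _ z => (abs_chi θ z).le)
    have b0 := one_dir_prod (g := g) hk hs (fun y => iv (g y = 0) * chi θ y)
      (fun y => iv (g y = 0) * chi θ y)
      (fun x => by
        rw [abs_mul]
        rcases iv_cases (g x = 0) with h | h
        · rw [h, abs_zero, zero_mul]; exact zero_le_one
        · rw [h, abs_one, one_mul]; exact (abs_chi θ x).le)
      (fun x => by
        rw [abs_mul]
        rcases iv_cases (g x = 0) with h | h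
        · rw [h, abs_zero, zero_mul]; exact zero_le_one
        · rw [h, abs_one, one_mul]; exact (abs_chi θ x).le)
      (fun x hx => by
        by_contra h
        apply hx
        simp only [iv_neg h, zero_mul])
      (fun x hx => by
        by_contra h
        apply hx
        simp only [iv_neg h, zero_mul])
    have hsq : ∀ p : Prop, iv p * iv p = iv p := fun p => by
      rcases iv_cases p with h | h <;> rw [h] <;> norm_num
    have a2 : 𝔼 y, 𝔼 z, iv (g y = 0) * iv (g (y + z) = 0) * iv (k z = 0)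
        * (iv (g y = 0) * chi θ y * (iv (g (y + z) = 0) * chi θ (y + z))) =
        𝔼 y, 𝔼 z, iv (g y = 0) * iv (g (y + z) = 0) * iv (k z = 0) * chi θ z := by
      refine Finset.expect_congr rfl fun y _ => Finset.expect_congr rfl fun z _ => ?_
      have c1 := hsq (g y = 0)
      have c2 := hsq (g (y + z) = 0)
      have c3 : chi θ y * chi θ (y + z) = chi θ z := by
        rw [chi_add]
        have := chi_sq θ y
        linear_combination (chi θ z) * this
      calc iv (g y = 0) * iv (g (y + z) = 0) * iv (k z = 0)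
          * (iv (g y = 0) * chi θ y * (iv (g (y + z) = 0) * chi θ (y + z)))
          = (iv (g y = 0) * iv (g y = 0)) * (iv (g (y + z) = 0) * iv (g (y + z) = 0))
            * iv (k z = 0) * (chi θ y * chi θ (y + z)) := by ring
        _ = _ := by rw [c1, c2, c3]
    rw [a2] at b0
    have a3 := (abs_le.mp a1).2
    have b1 := (abs_le.mp b0).2
    have a4 := ind_bias hg hs θ hθ
    have a5 : (Fintype.card Y : ℝ) ^ 2 * ((𝔼 y, iv (g y = 0) * chi θ y)
        * 𝔼 y, iv (g y = 0) * chi θ y) ≤ tauB Y m s / 4 := by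
      have c0 : (𝔼 y, iv (g y = 0) * chi θ y) = hat (fun y => iv (g y = 0)) θ := rfl
      rw [c0]
      have c1 : (Fintype.card Y : ℝ) * |hat (fun y => iv (g y = 0)) θ| ≤ tauB Y m s / 4 :=
        le_trans (mul_le_mul_of_nonneg_left a4 hN.le) hY
      have c2 : 0 ≤ (Fintype.card Y : ℝ) * |hat (fun y => iv (g y = 0)) θ| := by positivity
      have c3 : (Fintype.card Y : ℝ) ^ 2 * (hat (fun y => iv (g y = 0)) θ
          * hat (fun y => iv (g y = 0)) θ) =
          ((Fintype.card Y : ℝ) * |hat (fun y => iv (g y = 0)) θ|) ^ 2 := by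
        rw [mul_pow, sq_abs, sq (hat _ _)]
      rw [c3]
      nlinarith
    linarith
  rw [e2, Finset.expect_eq_sum_div_card, Finset.card_univ]
  have hcard : (Fintype.card (Fin m → ZMod 2) : ℝ) = 2 ^ m := by
    rw [Fintype.card_fun, ZMod.card, Fintype.card_fin]
    push_cast
    rfl
  rw [hcard, div_le_iff₀ (by positivity), ← Finset.add_sum_erase _ _ (Finset.mem_univ 0)]
  have h2 : FB g k m (fun _ x => chi θ (lc 0 x)) = FB g k m (fun _ _ => (1 : ℝ)) := by
    simp only [lc_zero, chi_zero]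
  rw [h2]
  have h3 : ∑ u ∈ (Finset.univ : Finset (Fin m → ZMod 2)).erase 0,
      FB g k m (fun _ x => chi θ (lc u x)) ≤ (2 ^ m - 1) * (2 * tauB Y m s) := by
    refine le_trans (Finset.sum_le_sum fun u hu => h1 u (Finset.ne_of_mem_erase hu)) ?_
    rw [Finset.sum_const, Finset.card_erase_of_mem (Finset.mem_univ _), Finset.card_univ,
      nsmul_eq_mul, Nat.cast_sub Fintype.card_pos, hcard]
    simp
  have h5' : (1 / 2 : ℝ) ^ m * 2 ^ m = 1 := by
    rw [← mul_pow]; norm_num
  have h5 : (1 : ℝ) ≤ 2 ^ m := one_le_pow₀ (by norm_num)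
  have h6 : (2 * (1 / 2 : ℝ) ^ m + 4 * tauB Y m s) * 2 ^ m = 2 + 4 * tauB Y m s * 2 ^ m := by
    rw [add_mul, mul_assoc, h5']; ring
  rw [h6]
  nlinarith

end

end Pool.Agent.H22.QF
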