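import Pool.Agent.H22.QF.FbVal
import Pool.Agent.H22.QF.Indep

/-!
# FbJen: lower bound for the fourth moment of a Fourier coefficient (about 190 lines)

Copy of `QK/FrJen.lean`.
PROOF of `FB_jensen`. `a = |Y| |hat E ξ| ≤ 2`, `δ = (1/2)^m`, `τ = tauB ≤ 1`,
`Ψ y x = 𝔼_u E (y + lc u x) chi ξ (lc u x)`.
`FB (Ψ^2) = 𝔼_u 𝔼_u' FB (E (y + lc u x) E (y + lc u' x) chi ξ (lc (u+u') x))`. For `u ≠ u'`
(`FB_shift`, `FB_one_dir` with `F y z = E y E (y+z) chi ξ z`, `chi ξ z = chi ξ y chi ξ (y+z)`,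
`one_dir_prod` with `f = f' = E chi ξ`) the term is at least
`|Y|^2 (hat E ξ)^2 - |Y|^3 (1/2)^s - τ ≥ a^2 - 2 τ`; for `u = u'` it is `≥ 0`. So
`FB (Ψ^2) ≥ (1 - δ)(a^2 - 2 τ)`, hence `≥ a^2 - 4 δ - 2 τ =: q`. `FB_cs` for `Ψ^2`:
`(FB (Ψ^2))^2 ≤ FB 1 * FB (Ψ^4) ≤ (1 + τ) FB (Ψ^4)`. If `q ≥ 0`:
`FB (Ψ^4) ≥ q^2 (1 - τ) ≥ q^2 - 16 τ` (`q ≤ 4`) and `q^2 ≥ a^4 - 2 a^2 (4 δ + 2 τ)
≥ a^4 - 32 δ - 16 τ`. If `q < 0`: `a^4 ≤ 4 (4 δ + 2 τ)` and `FB (Ψ^4) ≥ 0`.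
(`|hat E ξ| ≤ 𝔼 E` and `mean_le_two_b`-type bound `|Y| 𝔼 E ≤ 2`: prove it here from
`count_zero`, or import `FbVar`.)
-/

set_option autoImplicit false

open Finset Function Module
open scoped BigOperators
open Pool.Agent.H77.KM
open Pool.Agent.H22.QK

namespace Pool.Agent.H22.QF

section

variable {V : Type} [AddCommGroup V] [Module (ZMod 2) V] [Fintype V]
variable {Y : Type} [AddCommGroup Y] [Module (ZMod 2) Y] [Fintype Y]
variable {g k : V → Y} {b : V →ₗ[ZMod 2] V →ₗ[ZMod 2] Y} {m : ℕ}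


private theorem fbjen_pow_le {V : Type} [AddCommGroup V] [Module (ZMod 2) V] [Fintype V]
    {Y : Type} [AddCommGroup Y] [Module (ZMod 2) Y] [Fintype Y] (m s n : ℕ) (hn : n ≤ 3) :
    (Fintype.card Y : ℝ) ^ n * (1 / 2) ^ s ≤ tauB Y m s := by
  have hc1 : (1 : ℝ) ≤ (Fintype.card Y : ℝ) := by
    exact_mod_cast Fintype.card_pos
  have h3 : n ≤ bexp m + m + 2 := by
    have := le_bexp m
    omega
  have h1 : (Fintype.card Y : ℝ) ^ n ≤ (Fintype.card Y : ℝ) ^ (bexp m + m + 2) :=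
    pow_le_pow_right₀ hc1 h3
  have h4 : (1 : ℝ) ≤ 4 * ((m : ℝ) + 1) := by
    have : (0 : ℝ) ≤ (m : ℝ) := Nat.cast_nonneg m
    linarith
  unfold tauB
  refine mul_le_mul_of_nonneg_right ?_ (by positivity)
  calc (Fintype.card Y : ℝ) ^ n ≤ (Fintype.card Y : ℝ) ^ (bexp m + m + 2) := h1
    _ = (Fintype.card Y : ℝ) ^ (bexp m + m + 2) * 1 := (mul_one _).symm
    _ ≤ (Fintype.card Y : ℝ) ^ (bexp m + m + 2) * (4 * ((m : ℝ) + 1)) :=
        mul_le_mul_of_nonneg_left h4 (by positivity)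

private theorem fbjen_hat_abs (E : V → ℝ) (hE : ∀ x, E x = 0 ∨ E x = 1)
    (ξ : Dual (ZMod 2) V) : |hat E ξ| ≤ 𝔼 x, E x := by
  unfold hat
  refine (Finset.abs_expect_le _ _).trans (le_of_eq ?_)
  refine Finset.expect_congr rfl fun x _ => ?_
  rw [abs_mul, abs_chi, mul_one]
  rcases hE x with h | h <;> rw [h] <;> norm_num

private theorem fbjen_mean (hg : IsQM g b) {s : ℕ} (hs : Reg b s) (hτ : tauB Y m s ≤ 1)
    (f : V → ℝ) (hf : ∀ x, f x = 0 ∨ f x = 1) (hfg : ∀ x, f x ≠ 0 → g x = 0) :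
    Fintype.card Y * 𝔼 z, f z ≤ 2 := by
  have hc1 : (1 : ℝ) ≤ (Fintype.card Y : ℝ) := by
    exact_mod_cast Fintype.card_pos
  have hc0 : (0 : ℝ) < (Fintype.card Y : ℝ) := by linarith
  have h1 : 𝔼 z, f z ≤ 𝔼 z, iv (g z = 0) := by
    refine Finset.expect_le_expect (fun z _ => ?_)
    rcases hf z with h | h
    · rw [h]; exact iv_nonneg _
    · rw [h, iv_pos (hfg z (by rw [h]; norm_num))]
  have h2 := (abs_le.1 (count_zero hg hs)).2
  have h3 : 𝔼 z, f z ≤ 1 / Fintype.card Y + (1 / 2) ^ s := by linarith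
  have h4 := mul_le_mul_of_nonneg_left h3 hc0.le
  have h5 := fbjen_pow_le (V := V) (Y := Y) m s 1 (by norm_num)
  rw [pow_one] at h5
  have e : (Fintype.card Y : ℝ) * (1 / Fintype.card Y + (1 / 2) ^ s) =
      1 + (Fintype.card Y : ℝ) * (1 / 2) ^ s := by
    field_simp
  rw [e] at h4
  linarith

private theorem fbjen_diag : (𝔼 u : Fin m → ZMod 2, 𝔼 u' : Fin m → ZMod 2,
    (if u = u' then (4 : ℝ) else 0)) = 4 * (1 / 2) ^ m := by
  have h1 : ∀ u : Fin m → ZMod 2, 𝔼 u' : Fin m → ZMod 2, (if u = u' then (4 : ℝ) else 0)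
      = 4 * (1 / 2) ^ m := by
    intro u
    rw [Fintype.expect_eq_sum_div_card, Finset.sum_ite_eq, if_pos (Finset.mem_univ u)]
    have : Fintype.card (Fin m → ZMod 2) = 2 ^ m := by
      rw [Fintype.card_fun, ZMod.card, Fintype.card_fin]
    rw [this]
    push_cast
    rw [one_div, inv_pow, div_eq_mul_inv]
  rw [Finset.expect_congr rfl fun u _ => h1 u, Fintype.expect_const]

private theorem fbjen_term (hg : IsQM g b) (hk : IsQM k b) (hk0 : k 0 = 0) {s : ℕ}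
    (hs : Reg b s) (hτ : tauB Y m s ≤ 1)
    (E : V → ℝ) (hE : ∀ x, E x = 0 ∨ E x = 1) (hEg : ∀ x, E x ≠ 0 → g x = 0)
    (ξ : Dual (ZMod 2) V) {u u' : Fin m → ZMod 2} (huu : u ≠ u') :
    (Fintype.card Y : ℝ) ^ 2 * hat E ξ ^ 2 - 2 * tauB Y m s
      ≤ FB g k m (fun y x => E (y + lc u x) * chi ξ (lc u x)
        * (E (y + lc u' x) * chi ξ (lc u' x))) := by
  have hv : u + u' ≠ 0 := by
    intro h
    apply huu
    have : u' = -u := by
      rw [eq_neg_iff_add_eq_zero, add_comm]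
      exact h
    rw [this]
    funext i
    rw [Pi.neg_apply, ZMod.neg_eq_self_mod_two]
  have hf1 : ∀ x, |E x * chi ξ x| ≤ 1 := fun x => by
    rw [abs_mul, abs_chi, mul_one]
    rcases hE x with h | h <;> rw [h] <;> norm_num
  have hf2 : ∀ x, E x * chi ξ x ≠ 0 → g x = 0 := fun x hx => hEg x (left_ne_zero_of_mul hx)
  have hsh := FB_shift (g := g) (k := k)
    (fun y x => E y * chi ξ y * (E (y + lc (u + u') x) * chi ξ (y + lc (u + u') x))) u
  have hone := FB_one_dir hg hk hk0 hs hτ hv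
    (fun y z => E y * chi ξ y * (E (y + z) * chi ξ (y + z))) (fun y z => by
      rw [abs_mul]
      exact mul_le_one₀ (hf1 y) (abs_nonneg _) (hf1 (y + z)))
  have hprod := one_dir_prod (g := g) hk hs (fun y => E y * chi ξ y) (fun y => E y * chi ξ y)
    hf1 hf1 hf2 hf2
  have heq : (fun (y : V) (x : Fin m → V) => E (y + lc u x) * chi ξ (lc u x)
        * (E (y + lc u' x) * chi ξ (lc u' x)))
      = fun y x => E (y + lc u x) * chi ξ (y + lc u x) *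
        (E (y + lc u x + lc (u + u') x) * chi ξ (y + lc u x + lc (u + u') x)) := by
    funext y x
    have h1 : y + lc u x + lc (u + u') x = y + lc u' x := by
      rw [lc_add]
      have : lc u x + lc u x = 0 := ZModModule.add_self _
      calc y + lc u x + (lc u x + lc u' x) = y + (lc u x + lc u x) + lc u' x := by abel
        _ = y + lc u' x := by rw [this, add_zero]
    rw [h1, chi_add, chi_add]
    have := chi_sq ξ y
    linear_combination (-(E (y + lc u x) * chi ξ (lc u x) * E (y + lc u' x) *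
      chi ξ (lc u' x))) * this
  rw [heq, hsh]
  have h3 := fbjen_pow_le (V := V) (Y := Y) m s 3 le_rfl
  have hhat : (𝔼 y, E y * chi ξ y) = hat E ξ := rfl
  rw [hhat] at hprod
  have h4 := (abs_le.1 hone).1
  have h5 := (abs_le.1 hprod).1
  have h6 : hat E ξ * hat E ξ = hat E ξ ^ 2 := (sq _).symm
  rw [h6] at h5
  linarith

private theorem fbjen_num {a2 R S δ τ : ℝ} (ha0 : 0 ≤ a2) (ha : a2 ≤ 4) (hR : 0 ≤ R)
    (hδ : 0 ≤ δ) (hτ0 : 0 ≤ τ) (hτ1 : τ ≤ 1) (hS : a2 - 4 * δ - 2 * τ ≤ S)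
    (hcs : S ^ 2 ≤ (1 + τ) * R) : a2 ^ 2 - 32 * δ - 32 * τ ≤ R := by
  rcases le_or_gt 0 (a2 - 4 * δ - 2 * τ) with hq | hq
  · have hqS : (a2 - 4 * δ - 2 * τ) ^ 2 ≤ S ^ 2 := by
      apply pow_le_pow_left₀ hq hS
    have hq4 : a2 - 4 * δ - 2 * τ ≤ 4 := by linarith
    have hqq : (a2 - 4 * δ - 2 * τ) ^ 2 ≤ 16 := by nlinarith
    have h1 : (a2 - 4 * δ - 2 * τ) ^ 2 ≤ (1 + τ) * R := hqS.trans hcs
    have h2 : (1 - τ) * (a2 - 4 * δ - 2 * τ) ^ 2 ≤ R := by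
      have h3 : (1 - τ) * (a2 - 4 * δ - 2 * τ) ^ 2 ≤ (1 - τ) * ((1 + τ) * R) :=
        mul_le_mul_of_nonneg_left h1 (by linarith)
      have h4 : (1 - τ) * ((1 + τ) * R) ≤ R := by nlinarith [mul_nonneg (sq_nonneg τ) hR]
      linarith
    have h5 : a2 ^ 2 - 2 * a2 * (4 * δ + 2 * τ) ≤ (a2 - 4 * δ - 2 * τ) ^ 2 := by
      nlinarith [sq_nonneg (4 * δ + 2 * τ)]
    have h6 : 2 * a2 * (4 * δ + 2 * τ) ≤ 8 * (4 * δ + 2 * τ) := by nlinarith
    have h7 : τ * (a2 - 4 * δ - 2 * τ) ^ 2 ≤ τ * 16 := mul_le_mul_of_nonneg_left hqq hτ0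
    nlinarith
  · have h1 : a2 * a2 ≤ 4 * (4 * δ + 2 * τ) := by nlinarith
    nlinarith

theorem FB_jensen (hg : IsQM g b) (hk : IsQM k b) (hk0 : k 0 = 0) {s : ℕ} (hs : Reg b s)
    (hτ : tauB Y m s ≤ 1)
    (E : V → ℝ) (hE : ∀ x, E x = 0 ∨ E x = 1) (hEg : ∀ x, E x ≠ 0 → g x = 0)
    (ξ : Dual (ZMod 2) V) :
    (Fintype.card Y : ℝ) ^ 4 * hat E ξ ^ 4 - 32 * (1 / 2) ^ m - 32 * tauB Y m s
      ≤ FB g k m (fun y x => (𝔼 u : Fin m → ZMod 2, E (y + lc u x) * chi ξ (lc u x)) ^ 4) := by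
  have hτ0 : 0 ≤ tauB Y m s := by unfold tauB; positivity
  have hmean := fbjen_mean hg hs hτ E hE hEg
  have hN : (0 : ℝ) ≤ (Fintype.card Y : ℝ) := by positivity
  have hA : (Fintype.card Y : ℝ) * |hat E ξ| ≤ 2 :=
    (mul_le_mul_of_nonneg_left (fbjen_hat_abs E hE ξ) hN).trans hmean
  have ha4 : (Fintype.card Y : ℝ) ^ 2 * hat E ξ ^ 2 ≤ 4 := by
    have h0 : 0 ≤ (Fintype.card Y : ℝ) * |hat E ξ| := mul_nonneg hN (abs_nonneg _)
    have : ((Fintype.card Y : ℝ) * |hat E ξ|) ^ 2 ≤ 2 ^ 2 := pow_le_pow_left₀ h0 hA 2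
    rw [mul_pow, sq_abs] at this
    linarith
  have ha0 : 0 ≤ (Fintype.card Y : ℝ) ^ 2 * hat E ξ ^ 2 := by positivity
  have hδ : (0 : ℝ) ≤ (1 / 2) ^ m := by positivity
  have hR : 0 ≤ FB g k m (fun y x =>
      (𝔼 u : Fin m → ZMod 2, E (y + lc u x) * chi ξ (lc u x)) ^ 4) :=
    FB_nonneg fun y x _ => by positivity
  have hcs := FB_cs (g := g) (k := k) (m := m) (fun y x =>
    (𝔼 u : Fin m → ZMod 2, E (y + lc u x) * chi ξ (lc u x)) ^ 2)
  have hone := (abs_le.1 (FB_one hg hk hk0 hs hτ)).2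
  have hpow : (fun (y : V) (x : Fin m → V) =>
      ((𝔼 u : Fin m → ZMod 2, E (y + lc u x) * chi ξ (lc u x)) ^ 2) ^ 2)
      = fun y x => (𝔼 u : Fin m → ZMod 2, E (y + lc u x) * chi ξ (lc u x)) ^ 4 := by
    funext y x
    ring
  rw [hpow] at hcs
  have hcs' : FB g k m (fun y x =>
      (𝔼 u : Fin m → ZMod 2, E (y + lc u x) * chi ξ (lc u x)) ^ 2) ^ 2
      ≤ (1 + tauB Y m s) * FB g k m (fun y x =>
        (𝔼 u : Fin m → ZMod 2, E (y + lc u x) * chi ξ (lc u x)) ^ 4) :=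
    hcs.trans (mul_le_mul_of_nonneg_right (by linarith) hR)
  have hS : (Fintype.card Y : ℝ) ^ 2 * hat E ξ ^ 2 - 4 * (1 / 2) ^ m - 2 * tauB Y m s
      ≤ FB g k m (fun y x =>
        (𝔼 u : Fin m → ZMod 2, E (y + lc u x) * chi ξ (lc u x)) ^ 2) := by
    have hsq : (fun (y : V) (x : Fin m → V) =>
        (𝔼 u : Fin m → ZMod 2, E (y + lc u x) * chi ξ (lc u x)) ^ 2)
        = fun y x => 𝔼 u : Fin m → ZMod 2, 𝔼 u' : Fin m → ZMod 2,
          E (y + lc u x) * chi ξ (lc u x) * (E (y + lc u' x) * chi ξ (lc u' x)) := by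
      funext y x
      rw [sq, Finset.expect_mul]
      refine Finset.expect_congr rfl fun u _ => ?_
      rw [Finset.mul_expect]
    rw [hsq, FB_expect]
    have hin : ∀ u : Fin m → ZMod 2, FB g k m (fun y x => 𝔼 u' : Fin m → ZMod 2,
          E (y + lc u x) * chi ξ (lc u x) * (E (y + lc u' x) * chi ξ (lc u' x)))
        = 𝔼 u' : Fin m → ZMod 2, FB g k m (fun y x =>
          E (y + lc u x) * chi ξ (lc u x) * (E (y + lc u' x) * chi ξ (lc u' x))) := by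
      intro u
      rw [FB_expect]
    rw [Finset.expect_congr rfl fun u _ => hin u]
    have hlow : (𝔼 u : Fin m → ZMod 2, 𝔼 u' : Fin m → ZMod 2,
        ((Fintype.card Y : ℝ) ^ 2 * hat E ξ ^ 2 - 2 * tauB Y m s
          - (if u = u' then (4 : ℝ) else 0)))
        ≤ 𝔼 u : Fin m → ZMod 2, 𝔼 u' : Fin m → ZMod 2, FB g k m (fun y x =>
          E (y + lc u x) * chi ξ (lc u x) * (E (y + lc u' x) * chi ξ (lc u' x))) := by
      refine Finset.expect_le_expect fun u _ => Finset.expect_le_expect fun u' _ => ?_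
      by_cases h : u = u'
      · subst h
        rw [if_pos rfl]
        have h0 : 0 ≤ FB g k m (fun y x =>
            E (y + lc u x) * chi ξ (lc u x) * (E (y + lc u x) * chi ξ (lc u x))) :=
          FB_nonneg fun y x _ => mul_self_nonneg _
        linarith
      · rw [if_neg h, sub_zero]
        exact fbjen_term hg hk hk0 hs hτ E hE hEg ξ h
    refine le_trans (le_of_eq ?_) hlow
    simp only [Finset.expect_sub_distrib]
    rw [fbjen_diag]
    simp only [Fintype.expect_const]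
    ring
  have := fbjen_num ha0 ha4 hR hδ hτ0 hτ hS hcs'
  have he : ((Fintype.card Y : ℝ) ^ 2 * hat E ξ ^ 2) ^ 2
      = (Fintype.card Y : ℝ) ^ 4 * hat E ξ ^ 4 := by ring
  rw [he] at this
  exact this

end

end Pool.Agent.H22.QF
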