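import Pool.Agent.H22.QF.FbFour
import Pool.Agent.H22.QF.FbJen
import Pool.Agent.H22.QF.FbDist

/-!
# FbSpec: the large spectrum on a random frame comes from the large spectrum (about 210 lines)

Copy of `QK/FrSpec.lean`.
PROOF of `FB_spec`. `δ = (1/2)^m`, `τ = tauB`. For a frame write `F u = E (y + lc u x)` and
`φ_ξ u = ξ (lc u x)` (a linear form on `Fin m → ZMod 2`); `hat F φ_ξ = 𝔼_u E (y + lc u x)
chi ξ (lc u x)`. Pointwise
`iv (bad) η^4 ≤ ∑_{φ ∉ {φ_ξ : ξ ∈ S}} (hat F φ)^4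
 ≤ ∑_φ (hat F φ)^4 - ∑_{ξ ∈ S} (hat F φ_ξ)^4 + |S| ∑_{ξ ≠ ξ' ∈ S} iv (φ_ξ = φ_ξ')`
(all `|hat F φ| ≤ 1`; if all `φ_ξ` are distinct the last term is not needed). Take `FB`:
`FB_four`, `FB_jensen` for every `ξ ∈ S`, `FB_distinct` for `θ = ξ + ξ'` (at most `|S|^2` pairs):
the error is at most `6 δ + 3 τ + |S| (32 δ + 32 τ) + |S|^3 (2 δ + 4 τ) ≤ (|S|+1)^3 (40 δ + 40 τ)`.
-/

set_option autoImplicit false

open Finset Function Module
open scoped BigOperators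
open Pool.Agent.H77.KM
open Pool.Agent.H22.QK

namespace Pool.Agent.H22.QF

section

variable {V : Type} [AddCommGroup V] [Module (ZMod 2) V] [Fintype V]
variable {Y : Type} [AddCommGroup Y] [Module (ZMod 2) Y] [Fintype Y]
variable {g k : V → Y} {b : V →ₗ[ZMod 2] V →ₗ[ZMod 2] Y} {m : ℕ}

/-- The Fourier transform of `E` on the frame has a large coefficient that does not come from
`S`. -/
def SpecBad (E : V → ℝ) (S : Finset (Dual (ZMod 2) V)) (η : ℝ) (y : V) (x : Fin m → V) : Prop :=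
  ∃ φ : Dual (ZMod 2) (Fin m → ZMod 2),
    η ≤ |hat (fun u => E (y + lc u x)) φ| ∧ ∀ ξ ∈ S, ∃ u, φ u ≠ ξ (lc u x)

/-- The restriction of `ξ` to the frame, as a linear functional of the coordinates. -/
private noncomputable def fbsRst (ξ : Dual (ZMod 2) V) (x : Fin m → V) :
    Dual (ZMod 2) (Fin m → ZMod 2) :=
  ξ.comp (Fintype.linearCombination (ZMod 2) x)

omit [Fintype V] in
private lemma fbs_rst_apply (ξ : Dual (ZMod 2) V) (x : Fin m → V) (u : Fin m → ZMod 2) :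
    fbsRst ξ x u = ξ (lc u x) := by
  simp only [fbsRst, lc, LinearMap.comp_apply, Fintype.linearCombination_apply]

omit [Fintype V] in
private lemma fbs_rst_iff (ξ ξ' : Dual (ZMod 2) V) (x : Fin m → V) :
    fbsRst ξ x = fbsRst ξ' x ↔ ∀ u : Fin m → ZMod 2, (ξ + ξ') (lc u x) = 0 := by
  have key : ∀ a b : ZMod 2, a = b ↔ a + b = 0 := by decide
  constructor
  · intro h u
    rw [LinearMap.add_apply, ← fbs_rst_apply, ← fbs_rst_apply, h, ← key]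
  · intro h
    refine LinearMap.ext fun u => ?_
    rw [fbs_rst_apply, fbs_rst_apply, key, ← LinearMap.add_apply]
    exact h u

private lemma fbs_point (E : V → ℝ) (hE : ∀ x, E x = 0 ∨ E x = 1)
    (S : Finset (Dual (ZMod 2) V)) {η : ℝ} (hη : 0 ≤ η) (y : V) (x : Fin m → V) :
    η ^ 4 * iv (SpecBad E S η y x)
      ≤ (∑ φ : Dual (ZMod 2) (Fin m → ZMod 2), hat (fun u => E (y + lc u x)) φ ^ 4)
        - (∑ ξ ∈ S, hat (fun u => E (y + lc u x)) (fbsRst ξ x) ^ 4)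
        + (S.card : ℝ) * ∑ p ∈ S.offDiag,
            iv (∀ u : Fin m → ZMod 2, (p.1 + p.2) (lc u x) = 0) := by
  classical
  set F : (Fin m → ZMod 2) → ℝ := fun u => E (y + lc u x) with hFdef
  have hF0 : ∀ u, 0 ≤ F u := by
    intro u
    rcases hE (y + lc u x) with h | h <;> simp only [hFdef, h] <;> norm_num
  have hF1 : ∀ u, F u ≤ 1 := by
    intro u
    rcases hE (y + lc u x) with h | h <;> simp only [hFdef, h] <;> norm_num
  have hle1 : ∀ φ, hat F φ ^ 4 ≤ 1 := by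
    intro φ
    have h1 := abs_hat_le hF0 hF1 φ
    have h2 : |hat F φ| ^ 4 ≤ 1 := pow_le_one₀ (abs_nonneg _) h1
    have h3 : |hat F φ| ^ 4 = hat F φ ^ 4 := by
      rw [← abs_pow]
      exact abs_of_nonneg (by positivity)
    rwa [h3] at h2
  have hnn : ∀ φ, 0 ≤ hat F φ ^ 4 := fun φ => by positivity
  set T : Finset (Dual (ZMod 2) (Fin m → ZMod 2)) := S.image (fun ξ => fbsRst ξ x) with hT
  -- the sum over `T`
  have hA : η ^ 4 * iv (∃ φ : Dual (ZMod 2) (Fin m → ZMod 2),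
        η ≤ |hat F φ| ∧ ∀ ξ ∈ S, ∃ u, φ u ≠ ξ (lc u x)) + ∑ φ ∈ T, hat F φ ^ 4
      ≤ ∑ φ : Dual (ZMod 2) (Fin m → ZMod 2), hat F φ ^ 4 := by
    by_cases hb : ∃ φ : Dual (ZMod 2) (Fin m → ZMod 2),
        η ≤ |hat F φ| ∧ ∀ ξ ∈ S, ∃ u, φ u ≠ ξ (lc u x)
    · obtain ⟨φ, h1, h2⟩ := id hb
      have hφ : φ ∉ T := by
        rw [hT, Finset.mem_image]
        rintro ⟨ξ, hξ, rfl⟩
        obtain ⟨u, hu⟩ := h2 ξ hξ
        exact hu (fbs_rst_apply ξ x u)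
      have h3 : η ^ 4 ≤ hat F φ ^ 4 := by
        have h4 : η ^ 4 ≤ |hat F φ| ^ 4 := pow_le_pow_left₀ hη h1 4
        have h5 : |hat F φ| ^ 4 = hat F φ ^ 4 := by
          rw [← abs_pow]
          exact abs_of_nonneg (by positivity)
        rwa [h5] at h4
      rw [iv_pos hb, mul_one]
      calc η ^ 4 + ∑ φ ∈ T, hat F φ ^ 4 ≤ hat F φ ^ 4 + ∑ φ ∈ T, hat F φ ^ 4 := by linarith
        _ = ∑ ψ ∈ insert φ T, hat F ψ ^ 4 := by rw [Finset.sum_insert hφ]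
        _ ≤ _ := Finset.sum_le_sum_of_subset_of_nonneg (Finset.subset_univ _)
            (fun φ _ _ => hnn φ)
    · rw [iv_neg hb, mul_zero, zero_add]
      exact Finset.sum_le_sum_of_subset_of_nonneg (Finset.subset_univ _) (fun φ _ _ => hnn φ)
  have hB : ∑ ξ ∈ S, hat F (fbsRst ξ x) ^ 4 ≤ ∑ φ ∈ T, hat F φ ^ 4
      + (S.card : ℝ) * ∑ p ∈ S.offDiag,
            iv (∀ u : Fin m → ZMod 2, (p.1 + p.2) (lc u x) = 0) := by
    by_cases hinj : Set.InjOn (fun ξ => fbsRst ξ x) (S : Set (Dual (ZMod 2) V))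
    · have h1 : ∑ φ ∈ T, hat F φ ^ 4 = ∑ ξ ∈ S, hat F (fbsRst ξ x) ^ 4 := by
        rw [hT, Finset.sum_image (fun a ha b hb h => hinj ha hb h)]
      rw [h1]
      have h2 : 0 ≤ ∑ p ∈ S.offDiag,
            iv (∀ u : Fin m → ZMod 2, (p.1 + p.2) (lc u x) = 0) :=
        Finset.sum_nonneg fun p _ => iv_nonneg _
      have h3 : (0 : ℝ) ≤ S.card := Nat.cast_nonneg _
      nlinarith [mul_nonneg h3 h2]
    · have h0 : ∃ a ∈ S, ∃ b ∈ S, fbsRst a x = fbsRst b x ∧ a ≠ b := by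
        by_contra hcon
        push Not at hcon
        exact hinj fun a ha b hb h => hcon a ha b hb h
      obtain ⟨a, ha, b, hb, hab, hne⟩ := h0
      have h1 : ∑ ξ ∈ S, hat F (fbsRst ξ x) ^ 4 ≤ (S.card : ℝ) := by
        calc ∑ ξ ∈ S, hat F (fbsRst ξ x) ^ 4 ≤ ∑ ξ ∈ S, (1 : ℝ) :=
              Finset.sum_le_sum fun ξ _ => hle1 _
          _ = _ := by simp
      have h2 : (1 : ℝ) ≤ ∑ p ∈ S.offDiag,
            iv (∀ u : Fin m → ZMod 2, (p.1 + p.2) (lc u x) = 0) := by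
        have hmem : (a, b) ∈ S.offDiag := Finset.mem_offDiag.mpr ⟨ha, hb, hne⟩
        have h3 : iv (∀ u : Fin m → ZMod 2, ((a, b).1 + (a, b).2) (lc u x) = 0) = 1 :=
          iv_pos ((fbs_rst_iff a b x).mp hab)
        rw [← h3]
        exact Finset.single_le_sum
          (f := fun p : Dual (ZMod 2) V × Dual (ZMod 2) V =>
            iv (∀ u : Fin m → ZMod 2, (p.1 + p.2) (lc u x) = 0))
          (fun p _ => iv_nonneg _) hmem
      have h3 : (0 : ℝ) ≤ S.card := Nat.cast_nonneg _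
      have h4 : 0 ≤ ∑ φ ∈ T, hat F φ ^ 4 := Finset.sum_nonneg fun φ _ => hnn φ
      nlinarith [mul_le_mul_of_nonneg_left h2 h3]
  have hSB : iv (SpecBad E S η y x) = iv (∃ φ : Dual (ZMod 2) (Fin m → ZMod 2),
        η ≤ |hat F φ| ∧ ∀ ξ ∈ S, ∃ u, φ u ≠ ξ (lc u x)) := rfl
  rw [hSB]
  linarith

theorem FB_spec (hg : IsQM g b) (hk : IsQM k b) (hk0 : k 0 = 0) {s : ℕ} (hs : Reg b s)
    (hm : 2 ≤ m) (hτ : tauB Y m s ≤ 1)
    (E : V → ℝ) (hE : ∀ x, E x = 0 ∨ E x = 1) (hEg : ∀ x, E x ≠ 0 → g x = 0)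
    (S : Finset (Dual (ZMod 2) V)) {η : ℝ} (hη : 0 ≤ η) :
    FB g k m (fun y x => iv (SpecBad E S η y x)) * η ^ 4
      ≤ (Fintype.card Y : ℝ) ^ 4 *
          (∑ ξ : Dual (ZMod 2) V, hat E ξ ^ 4 - ∑ ξ ∈ S, hat E ξ ^ 4)
        + (S.card + 1) ^ 3 * (40 * (1 / 2) ^ m + 40 * tauB Y m s) := by
  classical
  have hδ : (0 : ℝ) ≤ (1 / 2) ^ m := by positivity
  have hτ0 : 0 ≤ tauB Y m s := by unfold tauB; positivity
  set δ : ℝ := (1 / 2) ^ m with hδdef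
  set τ : ℝ := tauB Y m s with hτdef
  have h1 : FB g k m (fun y x => iv (SpecBad E S η y x)) * η ^ 4
      ≤ FB g k m (fun y x => (∑ φ : Dual (ZMod 2) (Fin m → ZMod 2),
          hat (fun u => E (y + lc u x)) φ ^ 4))
        - (∑ ξ ∈ S, FB g k m (fun y x => hat (fun u => E (y + lc u x)) (fbsRst ξ x) ^ 4))
        + (S.card : ℝ) * ∑ p ∈ S.offDiag, FB g k m (fun _ x =>
            iv (∀ u : Fin m → ZMod 2, (p.1 + p.2) (lc u x) = 0)) := by
    rw [mul_comm, ← FB_mul]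
    refine le_trans (FB_mono (fun y x _ => fbs_point E hE S hη y x)) (le_of_eq ?_)
    rw [FB_add, FB_sub, FB_mul, FB_sum S, FB_sum S.offDiag]
  have h2 := FB_four hg hk hk0 hs hm hτ E hE hEg
  have h3 : ∀ ξ ∈ S, (Fintype.card Y : ℝ) ^ 4 * hat E ξ ^ 4 - 32 * δ - 32 * τ
      ≤ FB g k m (fun y x => hat (fun u => E (y + lc u x)) (fbsRst ξ x) ^ 4) := by
    intro ξ _
    refine le_trans (FB_jensen hg hk hk0 hs hτ E hE hEg ξ) (le_of_eq ?_)
    congr 1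
  have h4 : ∀ p ∈ S.offDiag, FB g k m (fun _ x =>
      iv (∀ u : Fin m → ZMod 2, (p.1 + p.2) (lc u x) = 0)) ≤ 2 * δ + 4 * τ := by
    intro p hp
    obtain ⟨-, -, hne⟩ := Finset.mem_offDiag.mp hp
    refine FB_distinct hg hk hk0 hs hτ (p.1 + p.2) ?_
    intro h0
    refine hne (LinearMap.ext fun v => ?_)
    have key : ∀ a b : ZMod 2, a + b = 0 → a = b := by decide
    refine key _ _ ?_
    rw [← LinearMap.add_apply, h0, LinearMap.zero_apply]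
  have h5 := Finset.sum_le_sum h3
  have h6 := Finset.sum_le_sum h4
  rw [Finset.sum_const, nsmul_eq_mul] at h6
  have h7 : ∑ ξ ∈ S, ((Fintype.card Y : ℝ) ^ 4 * hat E ξ ^ 4 - 32 * δ - 32 * τ)
      = (Fintype.card Y : ℝ) ^ 4 * (∑ ξ ∈ S, hat E ξ ^ 4) - (S.card : ℝ) * (32 * δ + 32 * τ) := by
    rw [Finset.sum_sub_distrib, Finset.sum_sub_distrib, Finset.sum_const, Finset.sum_const,
      nsmul_eq_mul, nsmul_eq_mul, ← Finset.mul_sum]
    ring
  rw [h7] at h5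
  have h8 : (S.offDiag.card : ℝ) ≤ (S.card : ℝ) ^ 2 := by
    have : S.offDiag.card ≤ S.card * S.card := by
      rw [Finset.offDiag_card]; exact Nat.sub_le _ _
    calc (S.offDiag.card : ℝ) ≤ ((S.card * S.card : ℕ) : ℝ) := by exact_mod_cast this
      _ = (S.card : ℝ) ^ 2 := by push_cast; ring
  have hn : (0 : ℝ) ≤ S.card := Nat.cast_nonneg _
  have h9 : (S.card : ℝ) * ∑ p ∈ S.offDiag, FB g k m (fun _ x =>
            iv (∀ u : Fin m → ZMod 2, (p.1 + p.2) (lc u x) = 0))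
      ≤ (S.card : ℝ) ^ 3 * (2 * δ + 4 * τ) := by
    have hc : 0 ≤ 2 * δ + 4 * τ := by linarith
    have : ∑ p ∈ S.offDiag, FB g k m (fun _ x =>
            iv (∀ u : Fin m → ZMod 2, (p.1 + p.2) (lc u x) = 0))
        ≤ (S.card : ℝ) ^ 2 * (2 * δ + 4 * τ) :=
      le_trans h6 (mul_le_mul_of_nonneg_right h8 hc)
    calc _ ≤ (S.card : ℝ) * ((S.card : ℝ) ^ 2 * (2 * δ + 4 * τ)) :=
          mul_le_mul_of_nonneg_left this hn
      _ = _ := by ring
  set n : ℝ := (S.card : ℝ) with hndef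
  have h10 : 6 * δ + 3 * τ + n * (32 * δ + 32 * τ) + n ^ 3 * (2 * δ + 4 * τ)
      ≤ (n + 1) ^ 3 * (40 * δ + 40 * τ) := by
    have a1 : 0 ≤ n * δ := mul_nonneg hn hδ
    have a2 : 0 ≤ n * τ := mul_nonneg hn hτ0
    have a3 : 0 ≤ n ^ 2 * δ := by positivity
    have a4 : 0 ≤ n ^ 2 * τ := by positivity
    have a5 : 0 ≤ n ^ 3 * δ := by positivity
    have a6 : 0 ≤ n ^ 3 * τ := by positivity
    nlinarith
  have h11 : (Fintype.card Y : ℝ) ^ 4 *
      (∑ ξ : Dual (ZMod 2) V, hat E ξ ^ 4 - ∑ ξ ∈ S, hat E ξ ^ 4)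
      = (Fintype.card Y : ℝ) ^ 4 * (∑ ξ : Dual (ZMod 2) V, hat E ξ ^ 4)
        - (Fintype.card Y : ℝ) ^ 4 * ∑ ξ ∈ S, hat E ξ ^ 4 := by ring
  rw [h11]
  linarith


end

end Pool.Agent.H22.QF
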