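import Pool.Agent.H22.QK.Nums

/-!
# FNums: the numerical functions of the project QF

All functions are polynomials.
-/

set_option autoImplicit false

open Pool.Agent.H77.KM
open Pool.Agent.H22.QK

namespace Pool.Agent.H22.QF

/-- The regularity needed for the local increment for three sets. -/
def iiReg3 (k R : ℕ) : ℕ := R * (iiM k R + 2) ^ 2 + 3 * iiM k R + 6

/-- Exponent of the probability of the exceptional sets of `x`. -/
def qcP (n R : ℕ) : ℕ := 2 * (n + R + 8)

/-- The codimension used for the correlation of two sets. -/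
def qcK (n R : ℕ) : ℕ := kmDim 800 (n + R) (24 * 200 * 203 * (qcP n R + 1))

/-- The number of characters of a local increment on a fibre. -/
def qR (n : ℕ) : ℕ := iiR (2 * n + 1)

/-- Exponent of the threshold for the Fourier coefficients of the fibres. -/
def qT (n R : ℕ) : ℕ := iiT (2 * n + 1) R + 2 * R

/-- Exponents and codimensions for `core2`. -/
def qK1 (n R : ℕ) : ℕ := qT n R + n + R + 4
def qM (n R : ℕ) : ℕ := qK1 n R + 2 + qR n * (covK (qK1 n R + 1) + 2)
def qC1 (n R : ℕ) : ℕ := qR n * (4 * (qM n R + 2 * qK1 n R) + 1)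
def qQ (n R : ℕ) : ℕ := R + qR n
def qP (n R : ℕ) : ℕ := qQ n R + qM n R + 2 * n + 2 * R + qR n + 10
def qMm (n R : ℕ) : ℕ := 2001 * 1007 + 1002 * qP n R
def qKm (n R : ℕ) : ℕ := kmDim 1000 (n + qQ n R) (qMm n R)
def qSi (n R : ℕ) : ℕ := qKm n R + 2 * qQ n R + 1000 + qP n R + 6

/-- The regularity and the codimension needed in `count7`. -/
def qK (n R : ℕ) : ℕ :=
  qC1 n R + (qQ n R * (2 * qSi n R + 1) + qKm n R)
    + qcK n R + iiReg3 (2 * n + 1) R + 2 * R + qR n + n + 40

end Pool.Agent.H22.QF
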