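import Pool.Agent.H22.QF.FbDefs
import Pool.Agent.H22.QF.FNums
import Pool.Agent.H22.QK.TauS

/-!
# TauB: the error term is small (about 70 lines)

Copy of `tau_small` in `QK/TauS.lean`.
PROOF. `R = finrank Y`, `m = iiM k R`, `|Y| = 2^R`, `bexp m + m + 2 ≤ (m+2)^2` (`bexp_le`),
`m + 1 ≤ 2^m`: `tauB ≤ 2^(R (m+2)^2) * 2^(m+2) * 2^-(R (m+2)^2 + 3 m + 6) = (1/2)^(2m+4)`.
`iiReg_le`: `R (m+1)^2 + 3 m + 2 ≤ R (m+2)^2 + 3 m + 6`.
-/

set_option autoImplicit false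

open Finset Function Module
open scoped BigOperators
open Pool.Agent.H77.KM
open Pool.Agent.H22.QK

namespace Pool.Agent.H22.QF

section

variable {Y : Type} [AddCommGroup Y] [Module (ZMod 2) Y] [Fintype Y]

private theorem tb_card (Y : Type) [AddCommGroup Y] [Module (ZMod 2) Y] [Fintype Y] :
    (Fintype.card Y : ℝ) = 2 ^ finrank (ZMod 2) Y := by
  rw [Module.card_eq_pow_finrank (K := ZMod 2) (V := Y), ZMod.card]
  push_cast
  rfl

theorem tauB_small {k s : ℕ} (hs : iiReg3 k (finrank (ZMod 2) Y) ≤ s) :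
    tauB Y (iiM k (finrank (ZMod 2) Y)) s
      ≤ (1 / 2) ^ (2 * iiM k (finrank (ZMod 2) Y) + 4) := by
  have hcard := tb_card Y
  set R := finrank (ZMod 2) Y with hR
  set m := iiM k R with hm
  unfold tauB
  rw [hcard, ← pow_mul]
  have h1 : R * (bexp m + m + 2) ≤ R * (m + 2) ^ 2 := Nat.mul_le_mul_left _ (bexp_le m)
  have h2 : ((4 : ℝ) * (m + 1)) ≤ 2 ^ (m + 2) := by
    have h3 : m + 1 ≤ 2 ^ m := Nat.lt_two_pow_self
    have h4 : ((m : ℝ) + 1) ≤ 2 ^ m := by exact_mod_cast h3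
    rw [pow_add]; linarith
  have h3 : (1 / 2 : ℝ) ^ s ≤ (1 / 2) ^ (R * (m + 2) ^ 2 + 3 * m + 6) :=
    pow_le_pow_of_le_one (by norm_num) (by norm_num) hs
  have h4 : (2 : ℝ) ^ (R * (bexp m + m + 2)) ≤ 2 ^ (R * (m + 2) ^ 2) :=
    pow_le_pow_right₀ (by norm_num) h1
  calc (2 : ℝ) ^ (R * (bexp m + m + 2)) * (4 * (m + 1)) * (1 / 2) ^ s
      ≤ 2 ^ (R * (m + 2) ^ 2) * 2 ^ (m + 2) * (1 / 2) ^ (R * (m + 2) ^ 2 + 3 * m + 6) := by
        gcongr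
    _ = (2 ^ (R * (m + 2) ^ 2) * (1 / 2) ^ (R * (m + 2) ^ 2)) *
        (2 ^ (m + 2) * (1 / 2) ^ (m + 2)) * (1 / 2) ^ (2 * m + 4) := by
        rw [show R * (m + 2) ^ 2 + 3 * m + 6 = R * (m + 2) ^ 2 + (m + 2) + (2 * m + 4) by ring,
          pow_add, pow_add]
        ring
    _ = (1 / 2) ^ (2 * m + 4) := by
        rw [← mul_pow, ← mul_pow]
        norm_num

theorem iiReg_le (k R : ℕ) : iiReg k R ≤ iiReg3 k R := by
  unfold iiReg iiReg3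
  have h : R * (iiM k R + 1) ^ 2 ≤ R * (iiM k R + 2) ^ 2 :=
    Nat.mul_le_mul_left _ (Nat.pow_le_pow_left (by omega) 2)
  omega

end

end Pool.Agent.H22.QF
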