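import Pool.Agent.H22.QF.FbVar
import Pool.Agent.H22.QF.FbSpec
import Pool.Agent.H22.QF.TauB

/-!
# BadB: the two kinds of bad frames are rare (about 150 lines)

Compare `QK/GoodM.lean`, events (b) and (c). Notation: `R = finrank Y`, `r = iiR q`,
`m = iiM q R`, `δ = (1/2)^m`, `τ = tauB Y m s ≤ (1/2)^(2m+4)` (`tauB_small`), so `40 τ ≤ δ`
(`m ≥ 60`); `ε = |Y| 𝔼 E ≥ (1/2)^q`.

PROOF of `bad_avg`. On the event `(Φ - ε)^2 ≥ (ε/1000)^2`; `FB_var`: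
`FB (iv ..) (ε/1000)^2 ≤ 2 δ + 14 τ ≤ 3 δ`, so `FB (iv ..) ≤ 3 δ 2^(20+2q) ≤ 1/64` since
`m ≥ 10 q + 60`.

PROOF of `bad_spec`. `S = bigS Y E (iiT q R)` (`|S| ≤ 2^(iiS q R)` by `bigS_card` of `QK/TauS`,
`iiReg_le`), `ηg = (1/2)^(iiT q R)`, `η = (1/2)^(r+q+8)`. As in `GoodM`,
`|Y|^4 (∑_all (hat E ξ)^4 - ∑_S) ≤ ηg^2 |Y|^2 𝔼 E ≤ 2 ηg^2 |Y|` (`mean_le_two_b`, Parseval).
`FB_spec`: `FB (iv ..) ≤ (2 ηg^2 |Y| + (|S|+1)^3 (40 δ + 40 τ)) / η^4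
≤ 2^(1+R - 2 iiT + 4(r+q+8)) + 2^(3 (iiS+1) + 6 + 4 (r+q+8) - m) ≤ 1/128 + 1/128`: the first exponent
is `-13 - 2q - R`; for the second `m = (iiS+4)(r+4) + 10 q + 60 ≥ 4 iiS + 4 r + 10 q + 76`.
-/

set_option autoImplicit false

open Finset Function Module
open scoped BigOperators
open Pool.Agent.H77.KM
open Pool.Agent.H22.QK

namespace Pool.Agent.H22.QF

section

variable {V : Type} [AddCommGroup V] [Module (ZMod 2) V] [Fintype V]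
variable {Y : Type} [AddCommGroup Y] [Module (ZMod 2) Y] [Fintype Y]
variable {g k : V → Y} {b : V →ₗ[ZMod 2] V →ₗ[ZMod 2] Y} {m : ℕ}

private theorem badb_parseval (E : V → ℝ) : ∑ ξ, hat E ξ ^ 2 = 𝔼 x, E x ^ 2 := by
  have h1 : ∀ x, E x ^ 2 = ∑ ξ, E x * (hat E ξ * chi ξ x) := by
    intro x
    rw [← Finset.mul_sum, inversion E x, sq]
  simp only [h1]
  rw [Finset.expect_sum_comm]
  refine Finset.sum_congr rfl fun ξ _ => ?_
  have h2 : ∀ x, E x * (hat E ξ * chi ξ x) = hat E ξ * (E x * chi ξ x) := fun x => by ring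
  simp only [h2]
  rw [← Finset.mul_expect, sq]
  rfl

omit [Module (ZMod 2) Y] in
/-- The fourth moment over the small characters. -/
private theorem badb_small (E : V → ℝ) (hE : ∀ x, E x = 0 ∨ E x = 1) (t : ℕ) :
    (Fintype.card Y : ℝ) ^ 4 *
        (∑ ξ : Dual (ZMod 2) V, hat E ξ ^ 4 - ∑ ξ ∈ bigS Y E t, hat E ξ ^ 4)
      ≤ ((1 / 2 : ℝ) ^ t) ^ 2 * Fintype.card Y * (Fintype.card Y * 𝔼 x, E x) := by
  classical
  have hc0 : (0 : ℝ) ≤ (Fintype.card Y : ℝ) := Nat.cast_nonneg _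
  have hE2 : 𝔼 x, E x ^ 2 = 𝔼 x, E x := by
    refine Finset.expect_congr rfl (fun x _ => ?_)
    rcases hE x with h | h <;> rw [h] <;> norm_num
  have hpar : ∑ ξ : Dual (ZMod 2) V, hat E ξ ^ 2 = 𝔼 x, E x := by
    rw [← hE2]; exact badb_parseval E
  have h1 : ∑ ξ : Dual (ZMod 2) V, hat E ξ ^ 4 - ∑ ξ ∈ bigS Y E t, hat E ξ ^ 4
      = ∑ ξ ∈ Finset.univ \ bigS Y E t, hat E ξ ^ 4 := by
    rw [← Finset.sum_sdiff (Finset.subset_univ (bigS Y E t))]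
    ring
  rw [h1, Finset.mul_sum]
  have h2 : ∀ ξ ∈ Finset.univ \ bigS Y E t, (Fintype.card Y : ℝ) ^ 4 * hat E ξ ^ 4
      ≤ ((1 / 2 : ℝ) ^ t) ^ 2 * (Fintype.card Y : ℝ) ^ 2 * hat E ξ ^ 2 := by
    intro ξ hξ
    have h3 : (Fintype.card Y : ℝ) * |hat E ξ| < (1 / 2 : ℝ) ^ t := by
      by_contra hcon
      rw [Finset.mem_sdiff] at hξ
      apply hξ.2
      unfold bigS
      rw [Finset.mem_filter]
      exact ⟨Finset.mem_univ _, not_lt.1 hcon⟩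
    have h4 : ((Fintype.card Y : ℝ) * |hat E ξ|) ^ 2 ≤ ((1 / 2 : ℝ) ^ t) ^ 2 :=
      pow_le_pow_left₀ (mul_nonneg hc0 (abs_nonneg _)) h3.le 2
    have e1 : (Fintype.card Y : ℝ) ^ 4 * hat E ξ ^ 4
        = ((Fintype.card Y : ℝ) * |hat E ξ|) ^ 2 * ((Fintype.card Y : ℝ) ^ 2 * hat E ξ ^ 2) := by
      rw [mul_pow, sq_abs]; ring
    rw [e1]
    calc ((Fintype.card Y : ℝ) * |hat E ξ|) ^ 2 * ((Fintype.card Y : ℝ) ^ 2 * hat E ξ ^ 2)
        ≤ ((1 / 2 : ℝ) ^ t) ^ 2 * ((Fintype.card Y : ℝ) ^ 2 * hat E ξ ^ 2) :=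
          mul_le_mul_of_nonneg_right h4 (by positivity)
      _ = ((1 / 2 : ℝ) ^ t) ^ 2 * (Fintype.card Y : ℝ) ^ 2 * hat E ξ ^ 2 := by ring
  refine (Finset.sum_le_sum h2).trans ?_
  rw [← Finset.mul_sum]
  have h5 : ∑ ξ ∈ Finset.univ \ bigS Y E t, hat E ξ ^ 2 ≤ 𝔼 x, E x := by
    rw [← hpar]
    exact Finset.sum_le_sum_of_subset_of_nonneg (Finset.subset_univ _)
      (fun _ _ _ => sq_nonneg _)
  calc ((1 / 2 : ℝ) ^ t) ^ 2 * (Fintype.card Y : ℝ) ^ 2 *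
        ∑ ξ ∈ Finset.univ \ bigS Y E t, hat E ξ ^ 2
      ≤ ((1 / 2 : ℝ) ^ t) ^ 2 * (Fintype.card Y : ℝ) ^ 2 * 𝔼 x, E x :=
        mul_le_mul_of_nonneg_left h5 (by positivity)
    _ = ((1 / 2 : ℝ) ^ t) ^ 2 * Fintype.card Y * (Fintype.card Y * 𝔼 x, E x) := by ring

private theorem badb_half_le {a b : ℕ} (h : a ≤ b) : (1 / 2 : ℝ) ^ b ≤ (1 / 2) ^ a :=
  pow_le_pow_of_le_one (by norm_num) (by norm_num) h

private theorem badb_half_mul (a : ℕ) : (1 / 2 : ℝ) ^ a * 2 ^ a = 1 := by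
  rw [← mul_pow]; norm_num

private theorem badb_ge (k R : ℕ) : 4 * iiS k R + 4 * iiR k + 10 * k + 76 ≤ iiM k R := by
  unfold iiM
  generalize iiS k R = a
  generalize iiR k = c
  have e : (a + 4) * (c + 4) = a * c + 4 * a + 4 * c + 16 := by ring
  rw [e]
  have h0 : 0 ≤ a * c := Nat.zero_le _
  generalize a * c = d at h0
  omega

private theorem badb_tau {m : ℕ} {t : ℝ} (hm60 : 60 ≤ m) (hτ1 : t ≤ (1 / 2 : ℝ) ^ (2 * m + 4)) :
    40 * t ≤ (1 / 2 : ℝ) ^ m := by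
  have e : (1 / 2 : ℝ) ^ (2 * m + 4) = (1 / 2) ^ m * (1 / 2) ^ (m + 4) := by
    rw [← pow_add]; congr 1; ring
  rw [e] at hτ1
  have h1 : (1 / 2 : ℝ) ^ (m + 4) ≤ (1 / 2) ^ 6 := badb_half_le (by omega)
  have h2 : (1 / 2 : ℝ) ^ m * (1 / 2) ^ (m + 4) ≤ (1 / 2 : ℝ) ^ m * (1 / 2) ^ 6 :=
    mul_le_mul_of_nonneg_left h1 (by positivity)
  have h3 : (0 : ℝ) < (1 / 2 : ℝ) ^ m := by positivity
  have e2 : (1 / 2 : ℝ) ^ 6 = 1 / 64 := by norm_num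
  rw [e2] at h2
  linarith

private theorem badb_part_b (hg : IsQM g b) (hk : IsQM k b) (hk0 : k 0 = 0) {q s m : ℕ}
    (hs : Reg b s)
    (hmk : 10 * q + 60 ≤ m) (hτ : tauB Y m s ≤ 1) (hτδ : 40 * tauB Y m s ≤ (1 / 2) ^ m)
    (E : V → ℝ) (hE : ∀ x, E x = 0 ∨ E x = 1) (hEg : ∀ x, E x ≠ 0 → g x = 0)
    (hEk : (1 / 2 : ℝ) ^ q ≤ Fintype.card Y * 𝔼 x, E x) :
    FB g k m (fun y x => iv (𝔼 u : Fin m → ZMod 2, E (y + lc u x)
      < 999 / 1000 * (Fintype.card Y * 𝔼 x, E x))) ≤ 1 / 64 := by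
  have h1 := FB_var hg hk hk0 hs hτ E hE hEg
  set ε : ℝ := Fintype.card Y * 𝔼 x, E x with hε
  have hq0 : (0 : ℝ) < (1 / 2) ^ q := by positivity
  have hε0 : 0 < ε := lt_of_lt_of_le hq0 hEk
  have h2 : FB g k m (fun y x => (1 / 2 : ℝ) ^ (2 * q + 20) *
      iv (𝔼 u : Fin m → ZMod 2, E (y + lc u x) < 999 / 1000 * ε)) ≤
      FB g k m (fun y x => (𝔼 u : Fin m → ZMod 2, E (y + lc u x) - ε) ^ 2) := by
    refine FB_mono (fun y x _ => ?_)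
    by_cases h : 𝔼 u : Fin m → ZMod 2, E (y + lc u x) < 999 / 1000 * ε
    · rw [iv_pos h, mul_one]
      have h3 : (1 / 2 : ℝ) ^ (q + 10) ≤ ε - 𝔼 u : Fin m → ZMod 2, E (y + lc u x) := by
        have e : (1 / 2 : ℝ) ^ (q + 10) = (1 / 2) ^ q * (1 / 1024) := by
          rw [pow_add]; norm_num
        rw [e]
        linarith
      have h4 := pow_le_pow_left₀ (by positivity) h3 2
      have e2 : ((1 / 2 : ℝ) ^ (q + 10)) ^ 2 = (1 / 2) ^ (2 * q + 20) := by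
        rw [← pow_mul]; congr 1; ring
      rw [e2] at h4
      linarith
    · rw [iv_neg h, mul_zero]
      exact sq_nonneg _
  rw [FB_mul] at h2
  have h3 : (1 / 2 : ℝ) ^ (2 * q + 20) *
      FB g k m (fun y x => iv (𝔼 u : Fin m → ZMod 2, E (y + lc u x) < 999 / 1000 * ε)) ≤
      4 * (1 / 2) ^ m := by
    have : (0 : ℝ) < (1 / 2) ^ m := by positivity
    linarith
  have h4 : (4 : ℝ) * (1 / 2) ^ m ≤ (1 / 2 : ℝ) ^ (2 * q + 20) * (1 / 64) := by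
    have e : (4 : ℝ) * (1 / 2) ^ (2 * q + 20 + 8) = (1 / 2) ^ (2 * q + 20) * (1 / 64) := by
      rw [pow_add (1 / 2 : ℝ) (2 * q + 20) 8]; ring
    rw [← e]
    exact mul_le_mul_of_nonneg_left (badb_half_le (by omega)) (by norm_num)
  exact le_of_mul_le_mul_left (h3.trans h4) (by positivity)

private theorem badb_part_c (hg : IsQM g b) (hk : IsQM k b) (hk0 : k 0 = 0) {q s r m S T R : ℕ}
    (hs : Reg b s) (hR : R = finrank (ZMod 2) Y)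
    (hT : T = 2 * (r + q + 8) + q + 7 + R) (hmm : 4 * S + 4 * r + 10 * q + 76 ≤ m)
    (hτ : tauB Y m s ≤ 1) (hτδ : 40 * tauB Y m s ≤ (1 / 2) ^ m)
    (E : V → ℝ) (hE : ∀ x, E x = 0 ∨ E x = 1) (hEg : ∀ x, E x ≠ 0 → g x = 0)
    (h4 : (bigS Y E T).card ≤ 2 ^ S) :
    FB g k m (fun y x => iv (SpecBad E (bigS Y E T) ((1 / 2) ^ (r + q + 8)) y x)) ≤ 1 / 64 := by
  have hcard : (Fintype.card Y : ℝ) = 2 ^ R := by
    have h := Module.card_eq_pow_finrank (K := ZMod 2) (V := Y)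
    rw [ZMod.card] at h
    rw [h, hR]; push_cast; rfl
  have h1 := FB_spec hg hk hk0 hs (by omega) hτ E hE hEg (bigS Y E T)
    (η := (1 / 2 : ℝ) ^ (r + q + 8)) (by positivity)
  have h2 := badb_small (Y := Y) E hE T
  have h3 := mean_le_two_b (m := m) hg hs hτ E hE hEg
  -- first term
  have h5 : (Fintype.card Y : ℝ) ^ 4 *
        (∑ ξ : Dual (ZMod 2) V, hat E ξ ^ 4 - ∑ ξ ∈ bigS Y E T, hat E ξ ^ 4)
      ≤ (1 / 2) ^ (4 * (r + q + 8) + 7) := by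
    refine h2.trans ?_
    have h6 : ((1 / 2 : ℝ) ^ T) ^ 2 * Fintype.card Y * (Fintype.card Y * 𝔼 x, E x)
        ≤ ((1 / 2 : ℝ) ^ T) ^ 2 * Fintype.card Y * 2 :=
      mul_le_mul_of_nonneg_left h3 (by positivity)
    refine h6.trans ?_
    rw [hcard, ← pow_mul, hT]
    have e : (1 / 2 : ℝ) ^ ((2 * (r + q + 8) + q + 7 + R) * 2) =
        (1 / 2) ^ (4 * (r + q + 8) + 2 * q + R + 13) * ((1 / 2) ^ R * (1 / 2)) := by
      rw [← pow_succ, ← pow_add]; congr 1; ring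
    rw [e]
    have e2 : (1 / 2 : ℝ) ^ (4 * (r + q + 8) + 2 * q + R + 13) * ((1 / 2) ^ R * (1 / 2)) *
        2 ^ R * 2 = (1 / 2) ^ (4 * (r + q + 8) + 2 * q + R + 13) * ((1 / 2) ^ R * 2 ^ R) := by
      ring
    rw [e2, badb_half_mul, mul_one]
    exact badb_half_le (by omega)
  -- second term
  have h7 : ((bigS Y E T).card + 1 : ℝ) ^ 3 * (40 * (1 / 2) ^ m + 40 * tauB Y m s)
      ≤ (1 / 2) ^ (4 * (r + q + 8) + 7) := by
    have h8 : ((bigS Y E T).card + 1 : ℝ) ≤ 2 ^ (S + 1) := by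
      have h9 : ((bigS Y E T).card : ℝ) ≤ 2 ^ S := by exact_mod_cast h4
      have h10 : (1 : ℝ) ≤ 2 ^ S := one_le_pow₀ (by norm_num)
      rw [pow_succ]; linarith
    have h9 : ((bigS Y E T).card + 1 : ℝ) ^ 3 ≤ (2 ^ (S + 1)) ^ 3 :=
      pow_le_pow_left₀ (by positivity) h8 3
    have hδ0 : (0 : ℝ) < (1 / 2) ^ m := by positivity
    have h10 : 40 * (1 / 2 : ℝ) ^ m + 40 * tauB Y m s ≤ 64 * (1 / 2) ^ m := by linarith
    have h11 : (0 : ℝ) ≤ 64 * (1 / 2) ^ m := by positivity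
    calc ((bigS Y E T).card + 1 : ℝ) ^ 3 * (40 * (1 / 2) ^ m + 40 * tauB Y m s)
        ≤ ((bigS Y E T).card + 1 : ℝ) ^ 3 * (64 * (1 / 2) ^ m) :=
          mul_le_mul_of_nonneg_left h10 (by positivity)
      _ ≤ (2 ^ (S + 1)) ^ 3 * (64 * (1 / 2) ^ m) := mul_le_mul_of_nonneg_right h9 h11
      _ = (2 : ℝ) ^ (3 * S + 9) * (1 / 2) ^ m := by
          rw [← pow_mul]
          have e : (2 : ℝ) ^ (3 * S + 9) = 2 ^ ((S + 1) * 3) * 64 := by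
            have : (64 : ℝ) = 2 ^ 6 := by norm_num
            rw [this, ← pow_add]; congr 1; ring
          rw [e]; ring
      _ ≤ (2 : ℝ) ^ (3 * S + 9) * (1 / 2) ^ ((3 * S + 9) + (4 * (r + q + 8) + 7)) :=
          mul_le_mul_of_nonneg_left (badb_half_le (by omega)) (by positivity)
      _ = ((1 / 2 : ℝ) ^ (3 * S + 9) * 2 ^ (3 * S + 9)) * (1 / 2) ^ (4 * (r + q + 8) + 7) := by
          rw [pow_add (1 / 2 : ℝ) (3 * S + 9)]; ring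
      _ = (1 / 2) ^ (4 * (r + q + 8) + 7) := by rw [badb_half_mul, one_mul]
  have h12 : (1 / 2 : ℝ) ^ (4 * (r + q + 8) + 7) + (1 / 2 : ℝ) ^ (4 * (r + q + 8) + 7)
      = 1 / 64 * ((1 / 2 : ℝ) ^ (r + q + 8)) ^ 4 := by
    rw [← pow_mul]
    have e : (r + q + 8) * 4 = 4 * (r + q + 8) := by ring
    rw [e, pow_add (1 / 2 : ℝ) (4 * (r + q + 8)) 7]; ring
  have h13 := (h1.trans (add_le_add h5 h7)).trans (le_of_eq h12)
  exact le_of_mul_le_mul_right h13 (by positivity)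

theorem bad_avg (hg : IsQM g b) (hk : IsQM k b) (hk0 : k 0 = 0) {q s : ℕ} (hs : Reg b s)
    (hq : iiReg3 q (finrank (ZMod 2) Y) ≤ s)
    (E : V → ℝ) (hE : ∀ x, E x = 0 ∨ E x = 1) (hEg : ∀ x, E x ≠ 0 → g x = 0)
    (hEq : (1 / 2 : ℝ) ^ q ≤ Fintype.card Y * 𝔼 x, E x) :
    FB g k (iiM q (finrank (ZMod 2) Y)) (fun y x =>
      iv (𝔼 u : Fin (iiM q (finrank (ZMod 2) Y)) → ZMod 2, E (y + lc u x)
        < 999 / 1000 * (Fintype.card Y * 𝔼 x, E x))) ≤ 1 / 64 := by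
  have hm := badb_ge q (finrank (ZMod 2) Y)
  have hτ1 := tauB_small hq
  have hτδ := badb_tau (by omega) hτ1
  have hτ : tauB Y (iiM q (finrank (ZMod 2) Y)) s ≤ 1 := by
    have h3 : (1 / 2 : ℝ) ^ (iiM q (finrank (ZMod 2) Y)) ≤ 1 :=
      pow_le_one₀ (by norm_num) (by norm_num)
    linarith
  exact badb_part_b hg hk hk0 hs (by omega) hτ hτδ E hE hEg hEq

theorem bad_spec (hg : IsQM g b) (hk : IsQM k b) (hk0 : k 0 = 0) {q s : ℕ} (hs : Reg b s)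
    (hq : iiReg3 q (finrank (ZMod 2) Y) ≤ s)
    (E : V → ℝ) (hE : ∀ x, E x = 0 ∨ E x = 1) (hEg : ∀ x, E x ≠ 0 → g x = 0) :
    FB g k (iiM q (finrank (ZMod 2) Y)) (fun y x =>
      iv (SpecBad E (bigS Y E (iiT q (finrank (ZMod 2) Y))) ((1 / 2) ^ (iiR q + q + 8)) y x))
        ≤ 1 / 64 := by
  have hm := badb_ge q (finrank (ZMod 2) Y)
  have hτ1 := tauB_small hq
  have hτδ := badb_tau (by omega) hτ1
  have hτ : tauB Y (iiM q (finrank (ZMod 2) Y)) s ≤ 1 := by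
    have h3 : (1 / 2 : ℝ) ^ (iiM q (finrank (ZMod 2) Y)) ≤ 1 :=
      pow_le_one₀ (by norm_num) (by norm_num)
    linarith
  exact badb_part_c hg hk hk0 hs rfl (T := iiT q (finrank (ZMod 2) Y)) (r := iiR q)
    (S := iiS q (finrank (ZMod 2) Y)) (by unfold iiT; rfl) hm hτ hτδ E hE hEg
    (bigS_card hg hs ((iiReg_le q _).trans hq) E hE hEg)

end

end Pool.Agent.H22.QF
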