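import Pool.Agent.H22.QK.Zcount

/-!
# Zcount2: counting on the fibres, two quadratic maps (about 110 lines)

Compare `QK/Zcount.lean`. `NonDeg2 b lam x ξ`: the linear forms `l ∘ (b x + lam)` and `ξ i` are
jointly independent.
PROOF of `zcount2`. `count_point` for `Θ y = (g1 y, g2 (y+x), fun i => ξ i y) ∈ Y × Y × (Fin r' → ZMod 2)`
and the point `(0, 0, e)`. A nonzero character `(l0, l1, u)` has phase
`(l0 + l1) (g1 y) + l1 (b x y + lam y) + ∑ u_i ξ_i y + const` (`g2 (y+x) = g1 y + b x y + lam y + cst x`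
by `hlam`, characteristic two). If `l0 + l1 ≠ 0`: `bias`, at most `(1/2)^s`. Otherwise `l1 = l0` and
the linear form `l1 ∘ (b x + lam) + ∑ u_i ξ_i` is nonzero by `NonDeg2` (`(l1, u) ≠ 0`), so the average
vanishes. The target has `|Y|^2 2^r'` elements.

PROOF of `nondeg2_count`: `nondeg_count` (`QK/QBias.lean`) with `h = lam`.
-/

set_option autoImplicit false

open Finset Function Module
open scoped BigOperators
open Pool.Agent.H77.KM
open Pool.Agent.H22.QK

namespace Pool.Agent.H22.QF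

section

variable {V : Type} [AddCommGroup V] [Module (ZMod 2) V] [Fintype V]
variable {Y : Type} [AddCommGroup Y] [Module (ZMod 2) Y] [Fintype Y]
variable {g1 g2 : V → Y} {b : V →ₗ[ZMod 2] V →ₗ[ZMod 2] Y}

/-- The linear forms `l ∘ (b x + lam)` and `ξ i` are jointly independent. -/
def NonDeg2 (b : V →ₗ[ZMod 2] V →ₗ[ZMod 2] Y) (lam : V →ₗ[ZMod 2] Y) (x : V) {r' : ℕ}
    (ξ : Fin r' → Dual (ZMod 2) V) : Prop :=
  ∀ (l : Dual (ZMod 2) Y) (u : Fin r' → ZMod 2),
    bl b l x + l.comp lam + ∑ i, u i • ξ i = 0 → l = 0 ∧ u = 0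

theorem zcount2 (h1 : IsQM g1 b) {lam : V →ₗ[ZMod 2] Y} {cst : V → Y}
    (hlam : ∀ v w, g1 v + g2 (v + w) = b w v + lam v + cst w) {s : ℕ} (hs : Reg b s)
    (x : V) {r' : ℕ} (ξ : Fin r' → Dual (ZMod 2) V) (hx : NonDeg2 b lam x ξ)
    (e : Fin r' → ZMod 2) :
    𝔼 y, iv (g1 y = 0) * iv (g2 (y + x) = 0) * iv (∀ i, ξ i y = e i)
      ≤ 1 / (Fintype.card Y : ℝ) ^ 2 * (1 / 2) ^ r' + (1 / 2) ^ s := by
  classical
  set Θ : V → Y × Y × (Fin r' → ZMod 2) := fun y => (g1 y, g2 (y + x), fun i => ξ i y) with hΘ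
  have key : ∀ l : Dual (ZMod 2) (Y × Y × (Fin r' → ZMod 2)), l ≠ 0 →
      |𝔼 y, sgn (l (Θ y))| ≤ (1 / 2) ^ s := by
    intro l hl
    obtain ⟨l0, hl0⟩ : ∃ l0 : Dual (ZMod 2) Y, ∀ a, l0 a = l (a, 0, 0) :=
      ⟨l.comp (LinearMap.inl (ZMod 2) Y (Y × (Fin r' → ZMod 2))), fun a => rfl⟩
    obtain ⟨l1, hl1⟩ : ∃ l1 : Dual (ZMod 2) Y, ∀ a, l1 a = l (0, a, 0) :=
      ⟨l.comp ((LinearMap.inr (ZMod 2) Y (Y × (Fin r' → ZMod 2))).comp
        (LinearMap.inl (ZMod 2) Y (Fin r' → ZMod 2))), fun a => rfl⟩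
    obtain ⟨l2, hl2⟩ : ∃ l2 : Dual (ZMod 2) (Fin r' → ZMod 2), ∀ a, l2 a = l (0, 0, a) :=
      ⟨l.comp ((LinearMap.inr (ZMod 2) Y (Y × (Fin r' → ZMod 2))).comp
        (LinearMap.inr (ZMod 2) Y (Fin r' → ZMod 2))), fun a => rfl⟩
    set u : Fin r' → ZMod 2 := fun i => l2 (Pi.single i 1) with hu
    have hl2' : ∀ v : Fin r' → ZMod 2, l2 v = ∑ i, u i * v i := by
      intro v
      have h1 : v = ∑ i, v i • (Pi.single i (1 : ZMod 2) : Fin r' → ZMod 2) := by
        funext j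
        rw [Finset.sum_apply]
        simp [Pi.single_apply]
      conv_lhs => rw [h1]
      rw [map_sum]
      refine Finset.sum_congr rfl (fun i _ => ?_)
      rw [map_smul, smul_eq_mul, mul_comm]
    have hsplit : ∀ a c v, l (a, c, v) = l0 a + l1 c + l2 v := by
      intro a c v
      rw [hl0, hl1, hl2, ← map_add, ← map_add]
      simp
    set z : Dual (ZMod 2) V := bl b l1 x + l1.comp lam + ∑ i, u i • ξ i with hz
    have hg2 : ∀ y, g2 (y + x) = g1 y + (b x y + lam y + cst x) := by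
      intro y
      rw [← hlam y x, ← add_assoc, ZModModule.add_self, zero_add]
    have hval : ∀ y, l (Θ y) = ((l0 + l1) (g1 y) + z y) + l1 (cst x) := by
      intro y
      show l (g1 y, g2 (y + x), fun i => ξ i y) = _
      rw [hsplit, hg2 y, hl2', hz]
      simp only [LinearMap.add_apply, LinearMap.sum_apply, LinearMap.smul_apply, smul_eq_mul,
        bl_apply, map_add, LinearMap.comp_apply]
      ring
    have habs : |𝔼 y, sgn (l (Θ y))| = |𝔼 y, sgn ((l0 + l1) (g1 y) + z y)| := by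
      have h3 : ∀ y, sgn (l (Θ y))
          = sgn ((l0 + l1) (g1 y) + z y) * sgn (l1 (cst x)) := by
        intro y
        rw [hval, sgn_add]
      simp only [h3]
      rw [← Finset.expect_mul, abs_mul, abs_sgn, mul_one]
    rw [habs]
    by_cases h01 : l0 + l1 = 0
    · have hz0 : z ≠ 0 := by
        intro h
        obtain ⟨h5, h2⟩ := hx l1 u h
        apply hl
        have h3 : l0 = 0 := by rw [h5, add_zero] at h01; exact h01
        refine LinearMap.ext (fun w => ?_)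
        obtain ⟨a, c, v⟩ := w
        rw [hsplit, hl2', h5, h2, h3]
        simp
      have h4 : 𝔼 y, sgn ((l0 + l1) (g1 y) + z y) = 𝔼 y, chi z y := by
        refine Finset.expect_congr rfl (fun y _ => ?_)
        rw [h01, LinearMap.zero_apply, zero_add]
        rfl
      rw [h4, expect_chi_eq_zero hz0, abs_zero]
      positivity
    · exact bias h1 (l0 + l1) z (hs (l0 + l1) h01)
  have h1 := count_point Θ (0, 0, e) (by positivity) key
  have h2 : ∀ y, iv (g1 y = 0) * iv (g2 (y + x) = 0) * iv (∀ i, ξ i y = e i)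
      = iv (Θ y = (0, 0, e)) := by
    intro y
    rw [← iv_and, ← iv_and]
    refine iv_congr ?_
    simp only [hΘ, Prod.mk.injEq, funext_iff]
    tauto
  simp only [h2]
  have h3 : (Fintype.card (Y × Y × (Fin r' → ZMod 2)) : ℝ)
      = (Fintype.card Y : ℝ) ^ 2 * 2 ^ r' := by
    rw [Fintype.card_prod, Fintype.card_prod, Fintype.card_fun, ZMod.card, Fintype.card_fin]
    push_cast
    ring
  rw [h3] at h1
  have h4 := (abs_le.mp h1).2
  have h5 : (1 : ℝ) / ((Fintype.card Y : ℝ) ^ 2 * 2 ^ r')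
      = 1 / (Fintype.card Y : ℝ) ^ 2 * (1 / 2) ^ r' := by
    rw [one_div_pow, one_div_mul_one_div]
  rw [h5] at h4
  linarith

theorem nondeg2_count {s : ℕ} (hs : Reg b s) (lam : V →ₗ[ZMod 2] Y) :
    𝔼 x, iv (∃ l : Dual (ZMod 2) Y, l ≠ 0 ∧ bl b l x + l.comp lam = 0)
      ≤ (Fintype.card Y : ℝ) * (1 / 2) ^ (2 * s) := by
  refine le_trans (le_of_eq (Finset.expect_congr rfl (fun x _ => iv_congr ?_)))
    (nondeg_count hs lam)
  refine exists_congr (fun l => and_congr_right (fun _ => ?_))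
  constructor
  · intro h y
    have h1 := LinearMap.congr_fun h y
    rw [map_add]
    exact h1
  · intro h
    refine LinearMap.ext (fun y => ?_)
    have h1 := h y
    rw [map_add] at h1
    exact h1

end

end Pool.Agent.H22.QF
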