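import Pool.Agent.H22.QF.PigeonS2
import Pool.Agent.H22.QF.AltOne2
import Pool.Agent.H22.QF.CosetA2
import Pool.Agent.H22.QF.Zcount2
import Pool.Agent.H22.QF.FNums
import Pool.Agent.H22.QK.AltSub

/-!
# Core2: increments on the fibres are impossible for two spread sets (about 220 lines)

Compare steps 2 to 5 of `stage_aux` in `QK/Stage.lean` (copy and adapt, including the private
lemmas `st_pt`, `st_end`). `R = finrank Y`, `β1 = 𝔼 B1`, `β2 = 𝔼 B2`, `k1 = qK1 n R`, `r = qR n`,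
`M = qM n R`, `c1 = qC1 n R`, `q = qQ n R`, `p = qP n R`, `m = qMm n R`, `σ = qSi n R`.
1. `pigeonS2` (`k = k1`, `P x r' ξ e := NonDeg2 .. ∧ 101/100 (β1 β2) (1/2)^r' ≤ 𝔼 ..`):
   `r' ≤ r`, `T, c, e` and the set `X'` of all `x` with the three properties has measure at least
   `(1/2)^M`, `M = k1 + 2 + r (covK (k1+1) + 2)`.
2. `alt_one2` for every `i` (codimension at most `4 (M + 2 k1)`) and `alt_sub`: `V1` of codimension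
   at most `r' (4 (M + 2 k1) + 1) ≤ c1`.
3. `coset_avg2` with `N = 1000`, `l = n`, `ti = (1 + 10^-6) |Y| βi ≥ (1/2)^n`:
   `𝔼_x iv (x ∈ X') (CB x - (1+3/1000) t1 t2 CZ x) ≤ 2 * 2^q (1/2)^p`.
4. For `x ∈ X'`: `CB x ≥ (101/100) β1 β2 (1/2)^r'` and (`zcount2`)
   `(1+3/1000) t1 t2 CZ x ≤ (1.003) (1+10^-6)^2 β1 β2 (1/2)^r' (1 + |Y|^2 2^r' (1/2)^s)
   ≤ (1.004) β1 β2 (1/2)^r'` since `s ≥ 2R + r + 14`. So the left side of 3 is at least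
   `(1/2)^M * 0.006 β1 β2 (1/2)^r' ≥ (1/2)^(M + 8 + 2n + 2R + r)` (`βi ≥ (1/2)^(n+R)`), while the
   right side is `(1/2)^(p - q - 1)`, smaller because `p = q + M + 2n + 2R + r + 10`.
All lower bounds needed for `s` and `κ` are contained in `qK n R ≤ s`, `qK n R ≤ κ`.
-/

set_option autoImplicit false

open Finset Function Module
open scoped BigOperators
open Pool.Agent.H77.KM
open Pool.Agent.H22.QK

namespace Pool.Agent.H22.QF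

section

variable {V : Type} [AddCommGroup V] [Module (ZMod 2) V] [Fintype V]
variable {Y : Type} [AddCommGroup Y] [Module (ZMod 2) Y] [Fintype Y]
variable {g1 g2 : V → Y} {b : V →ₗ[ZMod 2] V →ₗ[ZMod 2] Y}

private lemma co2_card (Y : Type) [AddCommGroup Y] [Module (ZMod 2) Y] [Fintype Y] :
    (Fintype.card Y : ℝ) = 2 ^ finrank (ZMod 2) Y := by
  rw [Module.card_eq_pow_finrank (K := ZMod 2) (V := Y), ZMod.card]
  push_cast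
  rfl

private lemma co2_low {β cY : ℝ} {R n : ℕ} (hY : cY = 2 ^ R)
    (hβ : (1 / 2 : ℝ) ^ n ≤ cY * β) : (1 / 2 : ℝ) ^ (n + R) ≤ β := by
  have e2 : (1 / 2 : ℝ) ^ R * cY = 1 := by
    rw [hY, ← mul_pow]; norm_num
  calc (1 / 2 : ℝ) ^ (n + R) = (1 / 2) ^ n * (1 / 2) ^ R := pow_add _ _ _
    _ ≤ cY * β * (1 / 2) ^ R := mul_le_mul_of_nonneg_right hβ (by positivity)
    _ = ((1 / 2) ^ R * cY) * β := by ring
    _ = β := by rw [e2, one_mul]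

private lemma co2_pt {β1 β2 cY t1 t2 CB CZ : ℝ} {s R r r' n : ℕ} (hr : r' ≤ r)
    (hY : cY = 2 ^ R)
    (hβ1 : (1 / 2 : ℝ) ^ n ≤ cY * β1) (hβ2 : (1 / 2 : ℝ) ^ n ≤ cY * β2)
    (hs : 2 * R + r + 14 ≤ s)
    (h1 : 101 / 100 * (β1 * β2) * (1 / 2) ^ r' ≤ CB)
    (h2 : CZ ≤ 1 / cY ^ 2 * (1 / 2) ^ r' + (1 / 2) ^ s)
    (ht1 : t1 = (1 + 1 / 1000000) * (cY * β1)) (ht2 : t2 = (1 + 1 / 1000000) * (cY * β2)) :
    (1 / 2 : ℝ) ^ (8 + 2 * n + 2 * R + r) ≤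
      CB - (1 + 3 / ((1000 : ℕ) : ℝ)) * (t1 * t2) * CZ := by
  have hY0 : 0 < cY := by rw [hY]; positivity
  have hl1 := co2_low hY hβ1
  have hl2 := co2_low hY hβ2
  have hp0 : (0 : ℝ) < (1 / 2) ^ (n + R) := by positivity
  have hβ10 : 0 < β1 := lt_of_lt_of_le hp0 hl1
  have hβ20 : 0 < β2 := lt_of_lt_of_le hp0 hl2
  have h3 : (1 / 2 : ℝ) ^ s ≤ 1 / cY ^ 2 * (1 / 2) ^ r' * (1 / 2) ^ 14 := by
    have e1 : 1 / cY ^ 2 = (1 / 2) ^ (2 * R) := by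
      rw [hY, ← pow_mul, mul_comm R 2, one_div, one_div, inv_pow]
    rw [e1, ← pow_add, ← pow_add]
    exact pow_le_pow_of_le_one (by norm_num) (by norm_num) (by omega)
  have h4 : CZ ≤ 1 / cY ^ 2 * (1 / 2) ^ r' * (1 + (1 / 2) ^ 14) := by
    calc CZ ≤ 1 / cY ^ 2 * (1 / 2) ^ r' + (1 / 2) ^ s := h2
      _ ≤ 1 / cY ^ 2 * (1 / 2) ^ r' + 1 / cY ^ 2 * (1 / 2) ^ r' * (1 / 2) ^ 14 := by linarith
      _ = _ := by ring
  have h5 : (1 + 3 / ((1000 : ℕ) : ℝ)) * (t1 * t2) * CZ ≤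
      1004 / 1000 * (β1 * β2 * (1 / 2) ^ r') := by
    calc (1 + 3 / ((1000 : ℕ) : ℝ)) * (t1 * t2) * CZ ≤
          (1 + 3 / ((1000 : ℕ) : ℝ)) * (t1 * t2) *
            (1 / cY ^ 2 * (1 / 2) ^ r' * (1 + (1 / 2) ^ 14)) :=
          mul_le_mul_of_nonneg_left h4 (by rw [ht1, ht2]; positivity)
      _ = ((1 + 3 / 1000) * (1 + 1 / 1000000) ^ 2 * (1 + (1 / 2) ^ 14)) *
            (β1 * β2 * (1 / 2) ^ r') := by
          rw [ht1, ht2]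
          field_simp
          norm_num
      _ ≤ 1004 / 1000 * (β1 * β2 * (1 / 2) ^ r') :=
          mul_le_mul_of_nonneg_right (by norm_num) (by positivity)
  have h7 : (1 / 2 : ℝ) ^ (2 * n + 2 * R) ≤ β1 * β2 := by
    calc (1 / 2 : ℝ) ^ (2 * n + 2 * R) = (1 / 2) ^ (n + R) * (1 / 2) ^ (n + R) := by
          rw [← pow_add]; congr 1; ring
      _ ≤ β1 * β2 := mul_le_mul hl1 hl2 (by positivity) hβ10.le
  have h8 : (1 / 2 : ℝ) ^ r ≤ (1 / 2) ^ r' :=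
    pow_le_pow_of_le_one (by norm_num) (by norm_num) hr
  have h9 : (1 / 2 : ℝ) ^ (2 * n + 2 * R) * (1 / 2) ^ r ≤ β1 * β2 * (1 / 2) ^ r' :=
    mul_le_mul h7 h8 (by positivity) (by positivity)
  have e3 : (1 / 2 : ℝ) ^ (8 + 2 * n + 2 * R + r) =
      (1 / 2) ^ 8 * ((1 / 2 : ℝ) ^ (2 * n + 2 * R) * (1 / 2) ^ r) := by
    rw [← pow_add, ← pow_add]; congr 1; ring
  rw [e3]
  have h10 : (0 : ℝ) < (1 / 2 : ℝ) ^ (2 * n + 2 * R) * (1 / 2) ^ r := by positivity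
  have h11 : 101 / 100 * (β1 * β2) * (1 / 2) ^ r' = 101 / 100 * (β1 * β2 * (1 / 2) ^ r') := by
    ring
  rw [h11] at h1
  nlinarith

private lemma co2_end {x : ℝ} {M q p n R r : ℕ} (hp : p = q + M + 2 * n + 2 * R + r + 10)
    (h1 : (1 / 2 : ℝ) ^ M * (1 / 2) ^ (8 + 2 * n + 2 * R + r) ≤ x)
    (h2 : x ≤ 2 * 2 ^ q * (1 / 2) ^ p) : False := by
  have e1 : (2 : ℝ) * 2 ^ q * (1 / 2) ^ p = (1 / 2) ^ (M + (8 + 2 * n + 2 * R + r)) * (1 / 2) := by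
    have e2 : p = q + 1 + (M + (8 + 2 * n + 2 * R + r) + 1) := by omega
    rw [e2, pow_add (1 / 2 : ℝ) (q + 1), pow_succ (1 / 2 : ℝ) (M + (8 + 2 * n + 2 * R + r))]
    have e3 : (2 : ℝ) ^ (q + 1) * (1 / 2) ^ (q + 1) = 1 := by rw [← mul_pow]; norm_num
    calc (2 : ℝ) * 2 ^ q * ((1 / 2) ^ (q + 1) * ((1 / 2) ^ (M + (8 + 2 * n + 2 * R + r)) * (1 / 2)))
        = ((2 : ℝ) ^ (q + 1) * (1 / 2) ^ (q + 1)) *
          ((1 / 2) ^ (M + (8 + 2 * n + 2 * R + r)) * (1 / 2)) := by rw [pow_succ (2 : ℝ) q]; ring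
      _ = _ := by rw [e3, one_mul]
  rw [e1] at h2
  rw [← pow_add] at h1
  have h3 : (0 : ℝ) < (1 / 2) ^ (M + (8 + 2 * n + 2 * R + r)) := by positivity
  linarith

private lemma core2_aux (h1 : IsQM g1 b) (h2 : IsQM g2 b) {lam : V →ₗ[ZMod 2] Y} {cst : V → Y}
    (hlam : ∀ v w, g1 v + g2 (v + w) = b w v + lam v + cst w) {s n κ : ℕ} (hs : Reg b s)
    (B1 B2 : V → ℝ) (hB1 : ∀ x, B1 x = 0 ∨ B1 x = 1) (hB2 : ∀ x, B2 x = 0 ∨ B2 x = 1)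
    (hB1g : ∀ x, B1 x ≠ 0 → g1 x = 0) (hB2g : ∀ x, B2 x ≠ 0 → g2 x = 0)
    (hβ1 : (1 / 2 : ℝ) ^ n ≤ Fintype.card Y * 𝔼 x, B1 x)
    (hβ2 : (1 / 2 : ℝ) ^ n ≤ Fintype.card Y * 𝔼 x, B2 x)
    {R r F k1 K M c1 q p Mm Km Si : ℕ} (hR : finrank (ZMod 2) Y = R)
    (hk1 : k1 = F + n + R + 4)
    (hK : covK (k1 + 1) = K) (hM : M = k1 + 2 + r * (K + 2))
    (hc1 : c1 = r * (4 * (M + 2 * k1) + 1)) (hq : q = R + r)
    (hp : p = q + M + 2 * n + 2 * R + r + 10) (hMm : Mm = 2001 * 1007 + 1002 * p)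
    (hKm : kmDim 1000 (n + q) Mm = Km) (hSi : Si = Km + 2 * q + 1000 + p + 6)
    (hκ : c1 + (q * (2 * Si + 1) + Km) ≤ κ) (hs2 : 2 * R + r + 14 ≤ s)
    (hspr1 : SprV B1 g1 κ r ((1 + 1 / 1000000) * (Fintype.card Y * 𝔼 x, B1 x)))
    (hspr2 : SprV B2 g2 κ r ((1 + 1 / 1000000) * (Fintype.card Y * 𝔼 x, B2 x)))
    (X : Set V) (hX : (1 / 2 : ℝ) ^ k1 ≤ 𝔼 x, iv (x ∈ X))
    (hfib : ∀ x ∈ X, ∃ r' ≤ r, ∃ ξ : Fin r' → Dual (ZMod 2) V, ∃ e : Fin r' → ZMod 2,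
      (∀ i, (1 / 2 : ℝ) ^ F ≤ |𝔼 y, B1 y * B2 (y + x) * chi (ξ i) y|) ∧
      (NonDeg2 b lam x ξ ∧ 101 / 100 * ((𝔼 x, B1 x) * 𝔼 x, B2 x) * (1 / 2) ^ r'
        ≤ 𝔼 y, B1 y * B2 (y + x) * iv (∀ i, ξ i y = e i))) : False := by
  classical
  have hB1abs : ∀ x, |B1 x| ≤ 1 := by
    intro x
    rcases hB1 x with h | h <;> rw [h] <;> norm_num
  have hB2abs : ∀ x, |B2 x| ≤ 1 := by
    intro x
    rcases hB2 x with h | h <;> rw [h] <;> norm_num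
  have hcY : (Fintype.card Y : ℝ) = 2 ^ R := by rw [co2_card Y, hR]
  set β1 := 𝔼 x, B1 x with hβ1def
  set β2 := 𝔼 x, B2 x with hβ2def
  -- step 1
  obtain ⟨r', hr', T, c, e, hTm⟩ := pigeonS2 B1 B2 hB1abs hB2abs X (k := k1) (r := r) hX
    (fun x r' ξ e => NonDeg2 b lam x ξ ∧ 101 / 100 * (β1 * β2) * (1 / 2) ^ r'
        ≤ 𝔼 y, B1 y * B2 (y + x) * iv (∀ i, ξ i y = e i)) (by
      intro x hx
      obtain ⟨r', hr', ξ, e, h4, h5⟩ := hfib x hx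
      refine ⟨r', hr', ξ, e, fun i => ?_, h5⟩
      exact (pow_le_pow_of_le_one (by norm_num) (by norm_num) (by omega)).trans (h4 i))
  rw [hK, ← hM] at hTm
  set X' : Set V := {x | x ∈ X ∧
        (∀ i, (1 / 2 : ℝ) ^ k1 ≤ |𝔼 y, B1 y * B2 (y + x) * chi (T i x + c i) y|) ∧
        (NonDeg2 b lam x (fun i => T i x + c i) ∧ 101 / 100 * (β1 * β2) * (1 / 2) ^ r'
        ≤ 𝔼 y, B1 y * B2 (y + x) * iv (∀ i, (T i x + c i) y = e i))} with hX'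
  have hXm : (1 / 2 : ℝ) ^ M ≤ 𝔼 x, iv (x ∈ X') := hTm
  -- step 2
  have halt : ∀ i, finrank (ZMod 2) V ≤ finrank (ZMod 2)
      (LinearMap.ker ((T i : V →ₗ[ZMod 2] V →ₗ[ZMod 2] ZMod 2) + LinearMap.flip (T i)))
        + 4 * (M + 2 * k1) := fun i =>
    alt_one2 B1 B2 hB1abs hB2abs X' hXm (T i) (c i) (fun x hx => hx.2.1 i)
  obtain ⟨V1, hV1c, hV1⟩ := alt_sub (n := 4 * (M + 2 * k1)) T halt
  have hV1c' : finrank (ZMod 2) V ≤ finrank (ZMod 2) V1 + c1 := by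
    have h1 : r' * (4 * (M + 2 * k1) + 1) ≤ r * (4 * (M + 2 * k1) + 1) :=
      Nat.mul_le_mul_right _ hr'
    omega
  -- step 3
  have hβ1pos : (0 : ℝ) < Fintype.card Y * β1 := lt_of_lt_of_le (by positivity) hβ1
  have hβ2pos : (0 : ℝ) < Fintype.card Y * β2 := lt_of_lt_of_le (by positivity) hβ2
  have hco := coset_avg2 h1 h2 B1 B2 hB1 hB2 hB1g hB2g hr' T c e V1 hV1c' hV1 (N := 1000)
    (l := n) (m := Mm)
    (p := p) (q := q) (σ := Si) (κ := κ) (by norm_num) (by rw [hMm]; omega) (by rw [hMm]; omega)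
    (t1 := (1 + 1 / 1000000) * (Fintype.card Y * β1))
    (t2 := (1 + 1 / 1000000) * (Fintype.card Y * β2)) (by
      refine hβ1.trans ?_
      linarith) (by
      refine hβ2.trans ?_
      linarith) (by rw [hR]; omega) (by rw [hKm]; omega) (by rw [hKm]; exact hκ) hspr1 hspr2 X'
  refine co2_end (x := (1 / 2 : ℝ) ^ M * (1 / 2) ^ (8 + 2 * n + 2 * R + r)) hp le_rfl
    (le_trans ?_ hco)
  calc (1 / 2 : ℝ) ^ M * (1 / 2) ^ (8 + 2 * n + 2 * R + r) ≤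
        (𝔼 x, iv (x ∈ X')) * (1 / 2) ^ (8 + 2 * n + 2 * R + r) :=
        mul_le_mul_of_nonneg_right hXm (by positivity)
    _ = 𝔼 x, iv (x ∈ X') * (1 / 2) ^ (8 + 2 * n + 2 * R + r) := by
        rw [Finset.expect_mul]
    _ ≤ _ := by
        refine Finset.expect_le_expect fun x _ => ?_
        by_cases hx : x ∈ X'
        · rw [iv_pos hx, one_mul, one_mul]
          have hz := zcount2 h1 hlam hs x (fun i => T i x + c i) hx.2.2.1 e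
          exact co2_pt hr' hcY hβ1 hβ2 hs2 hx.2.2.2 hz rfl rfl
        · rw [iv_neg hx, zero_mul, zero_mul]

private lemma qK_le2 (n R : ℕ) :
    qC1 n R + (qQ n R * (2 * qSi n R + 1) + qKm n R) ≤ qK n R ∧
    2 * R + qR n + 14 ≤ qK n R := by
  unfold qK
  generalize qC1 n R = a1
  generalize qQ n R * (2 * qSi n R + 1) + qKm n R = a2
  generalize qcK n R = a3
  generalize iiReg3 (2 * n + 1) R = a4
  generalize qR n = a5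
  refine ⟨?_, ?_⟩ <;> omega

theorem core2 (h1 : IsQM g1 b) (h2 : IsQM g2 b) {lam : V →ₗ[ZMod 2] Y} {cst : V → Y}
    (hlam : ∀ v w, g1 v + g2 (v + w) = b w v + lam v + cst w) {s n κ : ℕ} (hs : Reg b s)
    (hsn : qK n (finrank (ZMod 2) Y) ≤ s) (hκn : qK n (finrank (ZMod 2) Y) ≤ κ)
    (B1 B2 : V → ℝ) (hB1 : ∀ x, B1 x = 0 ∨ B1 x = 1) (hB2 : ∀ x, B2 x = 0 ∨ B2 x = 1)
    (hB1g : ∀ x, B1 x ≠ 0 → g1 x = 0) (hB2g : ∀ x, B2 x ≠ 0 → g2 x = 0)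
    (hβ1 : (1 / 2 : ℝ) ^ n ≤ Fintype.card Y * 𝔼 x, B1 x)
    (hβ2 : (1 / 2 : ℝ) ^ n ≤ Fintype.card Y * 𝔼 x, B2 x)
    (hspr1 : SprV B1 g1 κ (qR n) ((1 + 1 / 1000000) * (Fintype.card Y * 𝔼 x, B1 x)))
    (hspr2 : SprV B2 g2 κ (qR n) ((1 + 1 / 1000000) * (Fintype.card Y * 𝔼 x, B2 x)))
    (X : Set V) (hX : (1 / 2 : ℝ) ^ qK1 n (finrank (ZMod 2) Y) ≤ 𝔼 x, iv (x ∈ X))
    (hfib : ∀ x ∈ X, ∃ r' ≤ qR n, ∃ ξ : Fin r' → Dual (ZMod 2) V, ∃ e : Fin r' → ZMod 2,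
      (∀ i, (1 / 2 : ℝ) ^ qT n (finrank (ZMod 2) Y)
        ≤ |𝔼 y, B1 y * B2 (y + x) * chi (ξ i) y|) ∧
      (NonDeg2 b lam x ξ ∧ 101 / 100 * ((𝔼 x, B1 x) * 𝔼 x, B2 x) * (1 / 2) ^ r'
        ≤ 𝔼 y, B1 y * B2 (y + x) * iv (∀ i, ξ i y = e i))) : False := by
  classical
  obtain ⟨hk, hk'⟩ := qK_le2 n (finrank (ZMod 2) Y)
  exact core2_aux h1 h2 hlam hs B1 B2 hB1 hB2 hB1g hB2g hβ1 hβ2 (R := finrank (ZMod 2) Y)
    (r := qR n)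
    (F := qT n (finrank (ZMod 2) Y)) (k1 := qK1 n (finrank (ZMod 2) Y))
    (K := covK (qK1 n (finrank (ZMod 2) Y) + 1)) (M := qM n (finrank (ZMod 2) Y))
    (c1 := qC1 n (finrank (ZMod 2) Y)) (q := qQ n (finrank (ZMod 2) Y))
    (p := qP n (finrank (ZMod 2) Y)) (Mm := qMm n (finrank (ZMod 2) Y))
    (Km := qKm n (finrank (ZMod 2) Y)) (Si := qSi n (finrank (ZMod 2) Y)) rfl
    (by rw [qK1]) rfl (by rw [qM]) (by rw [qC1]) (by rw [qQ]) (by rw [qP])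
    (by rw [qMm]) (by rw [qKm]) (by rw [qSi]) (hk.trans hκn)
    (hk'.trans hsn) hspr1 hspr2 X hX hfib

end

end Pool.Agent.H22.QF
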