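import Pool.Agent.H22.QF.KLow2
import Pool.Agent.H22.QF.FNums
import Pool.Agent.H22.QK.StA2

/-!
# Corr2: correlations of two spread sets on quadrics (about 60 lines)

PROOF of `corr_large2`. `spr_of_sprV` (`QK/StA2.lean`) for `A`, `g1` and for `B`, `g2`
(`K = qcK n R`), then `km_lower2` with `N = 200`, `l = n + R`, `p = qcP n R`
(`(1/2)^(n+R) ≤ 𝔼 A` because `|Y| = 2^R`; `1/12800 = 1/(64*200)`; unfold `qcK`). Copy `corr_large`.
-/

set_option autoImplicit false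

open Finset Function Module
open scoped BigOperators
open Pool.Agent.H77.KM
open Pool.Agent.H22.QK

namespace Pool.Agent.H22.QF

section

variable {V : Type} [AddCommGroup V] [Module (ZMod 2) V] [Fintype V]
variable {Y : Type} [AddCommGroup Y] [Module (ZMod 2) Y] [Fintype Y]
variable {g1 g2 : V → Y} {b : V →ₗ[ZMod 2] V →ₗ[ZMod 2] Y}

theorem corr_large2 (h1 : IsQM g1 b) (h2 : IsQM g2 b) {s n κ r : ℕ} (hs : Reg b s)
    (hK : qcK n (finrank (ZMod 2) Y) ≤ κ)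
    (hKs : qcK n (finrank (ZMod 2) Y) + finrank (ZMod 2) Y + 20 ≤ s)
    (A B : V → ℝ) (hA : ∀ x, A x = 0 ∨ A x = 1) (hB : ∀ x, B x = 0 ∨ B x = 1)
    (hα : (1 / 2 : ℝ) ^ n ≤ Fintype.card Y * 𝔼 x, A x)
    (hβ : (1 / 2 : ℝ) ^ n ≤ Fintype.card Y * 𝔼 x, B x)
    (hsprA : SprV A g1 κ r ((1 + 1 / 1000000) * (Fintype.card Y * 𝔼 x, A x)))
    (hsprB : SprV B g2 κ r ((1 + 1 / 1000000) * (Fintype.card Y * 𝔼 x, B x))) :
    𝔼 x, iv (corr A B x < 199 / 200 * ((𝔼 x, A x) * 𝔼 x, B x))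
      ≤ (1 / 2) ^ qcP n (finrank (ZMod 2) Y) := by
  have h1 := spr_of_sprV h1 hs hK hKs A hA hsprA
  have h2 := spr_of_sprV h2 hs hK hKs B hB hsprB
  have hcard : (Fintype.card Y : ℝ) = 2 ^ finrank (ZMod 2) Y := by
    have h := Module.card_eq_pow_finrank (K := ZMod 2) (V := Y)
    rw [ZMod.card] at h
    exact_mod_cast h
  have key : ∀ C : V → ℝ, (1 / 2 : ℝ) ^ n ≤ Fintype.card Y * 𝔼 x, C x →
      (1 / 2 : ℝ) ^ (n + finrank (ZMod 2) Y) ≤ 𝔼 x, C x := by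
    intro C hC
    rw [pow_add]
    calc (1 / 2 : ℝ) ^ n * (1 / 2) ^ finrank (ZMod 2) Y
        ≤ (Fintype.card Y * 𝔼 x, C x) * (1 / 2) ^ finrank (ZMod 2) Y :=
          mul_le_mul_of_nonneg_right hC (by positivity)
      _ = (2 ^ finrank (ZMod 2) Y * (1 / 2) ^ finrank (ZMod 2) Y) * 𝔼 x, C x := by
          rw [hcard]; ring
      _ = 𝔼 x, C x := by
          rw [← mul_pow]
          norm_num
  have h3 : (1 + 1 / (64 * ((200 : ℕ) : ℝ))) = (1 + 1 / 12800 : ℝ) := by norm_num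
  have h4 : (1 - 1 / ((200 : ℕ) : ℝ)) = (199 / 200 : ℝ) := by norm_num
  have h5 := km_lower2 A B hA hB (N := 200) (l := n + finrank (ZMod 2) Y)
    (p := qcP n (finrank (ZMod 2) Y)) (by norm_num) (by unfold qcP; omega)
    (even_two_mul _) (key A hα) (key B hβ)
    (by rw [h3]; exact h1) (by rw [h3]; exact h2)
  rw [h4] at h5
  exact h5

end

end Pool.Agent.H22.QF
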