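import Pool.Agent.H22.QF.PropL2
import Pool.Agent.H22.QK.CosetB

/-!
# CosetB2: applying Proposition L on the cosets of `V1`, two sets (about 200 lines)

Copy `coset_bound` in `QK/CosetB.lean` (`cb_spr` can be used as it is, for `(B1, g1)` and for
`(B2, g2)`). Only change: `G1 w = (g1 (y1+w), q w + γ w)`, `G2 w = (g2 (y1+x0+w), q w)`,
`a1 w = B1 (y1+w)`, `a2 w = B2 (y1+x0+w)`, and `propL2` with `t1`, `t2`.
-/

set_option autoImplicit false

open Finset Function Module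
open scoped BigOperators
open Pool.Agent.H77.KM
open Pool.Agent.H22.QK

namespace Pool.Agent.H22.QF

section

variable {V : Type} [AddCommGroup V] [Module (ZMod 2) V] [Fintype V]
variable {Y : Type} [AddCommGroup Y] [Module (ZMod 2) Y] [Fintype Y]
variable {g1 g2 : V → Y} {b : V →ₗ[ZMod 2] V →ₗ[ZMod 2] Y}

theorem coset_bound2 (h1 : IsQM g1 b) (h2 : IsQM g2 b) (B1 B2 : V → ℝ)
    (hB1 : ∀ x, B1 x = 0 ∨ B1 x = 1) (hB2 : ∀ x, B2 x = 0 ∨ B2 x = 1)
    (hB1g : ∀ x, B1 x ≠ 0 → g1 x = 0) (hB2g : ∀ x, B2 x ≠ 0 → g2 x = 0)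
    {r r' : ℕ} (hr : r' ≤ r)
    (T : Fin r' → V →ₗ[ZMod 2] Dual (ZMod 2) V) (c : Fin r' → Dual (ZMod 2) V)
    (e : Fin r' → ZMod 2) (V1 : Submodule (ZMod 2) V) {k1 : ℕ}
    (hk1 : finrank (ZMod 2) V ≤ finrank (ZMod 2) V1 + k1)
    (hV1 : ∀ i, ∀ v ∈ V1, T i v v = 0)
    {N l m p q σ κ : ℕ} (hN : 1 ≤ N)
    (hm : (2 * N + 1) * (N + 7) ≤ m) (hmp : (N + 2) * p ≤ m) {t1 t2 : ℝ}
    (ht1 : (1 / 2 : ℝ) ^ l ≤ t1) (ht2 : (1 / 2 : ℝ) ^ l ≤ t2)
    (hq : finrank (ZMod 2) Y + r' ≤ q)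
    (hσ : kmDim N (l + q) m + 2 * q + N + p + 6 ≤ σ)
    (hκ : k1 + (q * (2 * σ + 1) + kmDim N (l + q) m) ≤ κ)
    (hspr1 : SprV B1 g1 κ r t1) (hspr2 : SprV B2 g2 κ r t2) (X : Set V) (x0 y1 : V) :
    𝔼 v : V1, iv (x0 + (v : V) ∈ X) *
      ((𝔼 w : V1, B1 (y1 + w) * B2 (y1 + w + (x0 + v))
          * iv (∀ i, (T i (x0 + v) + c i) (y1 + w) = e i))
        - (1 + 3 / (N : ℝ)) * (t1 * t2) * 𝔼 w : V1, iv (g1 (y1 + w) = 0)
          * iv (g2 (y1 + w + (x0 + v)) = 0) * iv (∀ i, (T i (x0 + v) + c i) (y1 + w) = e i))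
      ≤ 2 * 2 ^ q * (1 / 2) ^ p := by
  classical
  set κ' : ℕ := q * (2 * σ + 1) + kmDim N (l + q) m with hκ'
  -- the quadratic refinements
  have hex : ∀ i : Fin r', ∃ qq : V1 → ZMod 2,
      IsQM qq (pb (T i : V →ₗ[ZMod 2] V →ₗ[ZMod 2] ZMod 2) V1.subtype) ∧ qq 0 = 0 := by
    intro i
    refine exists_quad _ ?_
    intro w
    exact hV1 i w w.2
  choose qf hqf hqf0 using hex
  set Q : V1 → Fin r' → ZMod 2 := fun w i => qf i w with hQdef
  let TT : V1 →ₗ[ZMod 2] V1 →ₗ[ZMod 2] (Fin r' → ZMod 2) :=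
    LinearMap.mk₂ (ZMod 2) (fun v w i => T i (v : V) (w : V))
      (fun x y z => by
        funext i
        change T i ((x + y : V1) : V) (z : V) = T i (x : V) (z : V) + T i (y : V) (z : V)
        rw [Submodule.coe_add, map_add, LinearMap.add_apply])
      (fun a x y => by
        funext i
        change T i ((a • x : V1) : V) (y : V) = a • T i (x : V) (y : V)
        rw [Submodule.coe_smul, map_smul, LinearMap.smul_apply])
      (fun x y z => by
        funext i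
        change T i (x : V) ((y + z : V1) : V) = T i (x : V) (y : V) + T i (x : V) (z : V)
        rw [Submodule.coe_add, map_add])
      (fun a x y => by
        funext i
        change T i (x : V) ((a • y : V1) : V) = a • T i (x : V) (y : V)
        rw [Submodule.coe_smul, map_smul])
  have hTT : ∀ v w : V1, ∀ i, TT v w i = T i (v : V) (w : V) := fun v w i => rfl
  have hQ : IsQM Q TT := by
    intro x y
    funext i
    exact hqf i x y
  let L : V1 →ₗ[ZMod 2] (Fin r' → ZMod 2) :=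
    LinearMap.pi (fun i => (T i x0 + c i).comp V1.subtype)
  have hL : ∀ w : V1, ∀ i, L w i = T i x0 (w : V) + c i (w : V) := fun w i => rfl
  let Y0 : Submodule (ZMod 2) (Y × (Fin r' → ZMod 2)) := Submodule.prod ⊥ ⊤
  let GG1 : V1 → Y × (Fin r' → ZMod 2) := fun w => (g1 (y1 + w), Q w + L w)
  let GG2 : V1 → Y × (Fin r' → ZMod 2) :=
    fun w => (g2 (y1 + x0 + w), Q w + (0 : V1 →ₗ[ZMod 2] (Fin r' → ZMod 2)) w)
  have hGG1 : IsQM GG1 (bpair (pb b V1.subtype) TT) := by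
    have h3 := (h1.pull V1.subtype y1).pair (hQ.addAffine L 0)
    have e1 : GG1 = fun x : V1 => (g1 (y1 + V1.subtype x), Q x + L x + 0) := by
      funext w
      change (g1 (y1 + w), Q w + L w) = _
      rw [add_zero]
      rfl
    rw [e1]
    exact h3
  have hGG2 : IsQM GG2 (bpair (pb b V1.subtype) TT) := by
    have h3 := (h2.pull V1.subtype (y1 + x0)).pair
      (hQ.addAffine (0 : V1 →ₗ[ZMod 2] (Fin r' → ZMod 2)) 0)
    have e1 : GG2 = fun x : V1 => (g2 (y1 + x0 + V1.subtype x),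
        Q x + (0 : V1 →ₗ[ZMod 2] (Fin r' → ZMod 2)) x + 0) := by
      funext w
      change (g2 (y1 + x0 + w), Q w + (0 : V1 →ₗ[ZMod 2] (Fin r' → ZMod 2)) w) = _
      rw [add_zero]
      rfl
    rw [e1]
    exact h3
  have hS1 : SprQ (fun w : V1 => B1 (y1 + w)) GG1 Y0 κ' t1 :=
    cb_spr B1 hB1g hr V1 hk1 hκ hspr1 Q TT hQ L y1
  have hS2 : SprQ (fun w : V1 => B2 (y1 + x0 + w)) GG2 Y0 κ' t2 :=
    cb_spr B2 hB2g hr V1 hk1 hκ hspr2 Q TT hQ 0 (y1 + x0)
  have hfr : finrank (ZMod 2) (Y × (Fin r' → ZMod 2)) = finrank (ZMod 2) Y + r' := by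
    rw [Module.finrank_prod, Module.finrank_fin_fun]
  let ev : V1 → Y0 := fun v =>
    ⟨(0, fun i => e i + (T i (x0 + v) y1 + c i y1) + qf i v), by
      change _ ∈ Submodule.prod ⊥ ⊤
      rw [Submodule.mem_prod]
      exact ⟨Submodule.zero_mem _, Submodule.mem_top⟩⟩
  have key := propL2 (finrank (ZMod 2) Y + r') V1 (Y × (Fin r' → ZMod 2)) GG1 GG2
    (bpair (pb b V1.subtype) TT) hGG1 hGG2 (fun w : V1 => B1 (y1 + w))
    (fun w : V1 => B2 (y1 + x0 + w)) (fun w => hB1 _) (fun w => hB2 _) Y0 hN hm hmp ht1 ht2 hfr hq hσ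
    (by
      rw [hκ']
      exact Nat.add_le_add_right (Nat.mul_le_mul_right _ hq) _) hS1 hS2
    (fun v => iv (x0 + (v : V) ∈ X)) (fun v => ⟨iv_nonneg _, iv_le_one _⟩) ev
  refine le_trans (le_of_eq ?_) key
  have hcond : ∀ v w : V1, (GG1 w + GG2 (w + v) = ((ev v : Y0) : Y × (Fin r' → ZMod 2)) ↔
      (g1 (y1 + w) + g2 (y1 + w + (x0 + v)) = 0 ∧
        ∀ i, (T i (x0 + v) + c i) (y1 + w) = e i)) := by
    intro v w
    have e0 : y1 + x0 + ((w + v : V1) : V) = y1 + w + (x0 + v) := by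
      rw [Submodule.coe_add]
      abel
    have h2' : GG1 w + GG2 (w + v) = (g1 (y1 + w) + g2 (y1 + w + (x0 + v)),
        fun i => (qf i w + (T i x0 (w : V) + c i (w : V))) + (qf i (w + v) + 0)) := by
      refine Prod.ext ?_ ?_
      · change g1 (y1 + w) + g2 (y1 + x0 + ((w + v : V1) : V)) = _
        rw [e0]
      · funext i
        rfl
    have h3 : ((ev v : Y0) : Y × (Fin r' → ZMod 2)) =
      (0, fun i => e i + (T i (x0 + v) y1 + c i y1) + qf i v) := rfl
    rw [h2', h3, Prod.mk.injEq]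
    refine and_congr_right fun _ => ?_
    rw [funext_iff]
    refine forall_congr' fun i => ?_
    have h4 : qf i (w + v) = qf i w + qf i v + qf i 0 + T i (w : V) (v : V) := hqf i w v
    have h5 : T i (w : V) (v : V) = T i (v : V) (w : V) := (hqf i).symm w v
    rw [h4, hqf0 i, h5]
    rw [map_add (T i) x0 (v : V)]
    simp only [LinearMap.add_apply, map_add, add_zero]
    have hc : ∀ z : ZMod 2, z + z = 0 := fun z => CharTwo.add_self_eq_zero z
    generalize qf i w = A1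
    generalize qf i v = A2
    generalize T i x0 (w : V) = A3
    generalize T i x0 y1 = A4
    generalize T i (v : V) (w : V) = A5
    generalize T i (v : V) y1 = A6
    generalize c i (w : V) = A7
    generalize c i y1 = A8
    generalize e i = A9
    have e1 : A1 + (A3 + A7) + (A1 + A2 + A5) + (A9 + (A4 + A6 + A8) + A2) =
        A4 + A6 + A8 + (A3 + A5 + A7) + A9 := by
      linear_combination hc A1 + hc A2
    rw [← CharTwo.add_eq_zero (a := A1 + (A3 + A7) + (A1 + A2 + A5)), e1, CharTwo.add_eq_zero]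
  refine Finset.expect_congr rfl fun v _ => ?_
  have hA : (𝔼 w : V1, B1 (y1 + w) * B2 (y1 + w + (x0 + v))
          * iv (∀ i, (T i (x0 + v) + c i) (y1 + w) = e i)) =
      CBf (fun w : V1 => B1 (y1 + w)) (fun w : V1 => B2 (y1 + x0 + w)) GG1 GG2 Y0 v (ev v) := by
    unfold CBf
    refine Finset.expect_congr rfl fun w _ => ?_
    have e0 : y1 + x0 + ((w + v : V1) : V) = y1 + w + (x0 + v) := by
      rw [Submodule.coe_add]
      abel
    change _ = B1 (y1 + w) * B2 (y1 + x0 + ((w + v : V1) : V)) * iv (GG1 w ∈ Y0) *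
      iv (GG1 w + GG2 (w + v) = ((ev v : Y0) : Y × (Fin r' → ZMod 2)))
    rw [iv_congr (hcond v w), e0]
    by_cases hb1 : B1 (y1 + w) = 0
    · rw [hb1]
      simp only [zero_mul]
    by_cases hb2 : B2 (y1 + w + (x0 + v)) = 0
    · rw [hb2]
      simp only [zero_mul, mul_zero]
    have hz1 := hB1g _ hb1
    have hz2 := hB2g _ hb2
    have hm1 : GG1 w ∈ Y0 := by
      change (g1 (y1 + w), Q w + L w) ∈ Submodule.prod ⊥ ⊤
      rw [Submodule.mem_prod, hz1]
      exact ⟨Submodule.zero_mem _, Submodule.mem_top⟩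
    rw [iv_pos hm1, iv_and, hz1, hz2, iv_pos (add_zero (0 : Y)), one_mul, mul_one]
  have hBv : (𝔼 w : V1, iv (g1 (y1 + w) = 0)
          * iv (g2 (y1 + w + (x0 + v)) = 0) * iv (∀ i, (T i (x0 + v) + c i) (y1 + w) = e i)) =
      CBf (fun _ => 1) (fun _ => 1) GG1 GG2 Y0 v (ev v) := by
    unfold CBf
    refine Finset.expect_congr rfl fun w _ => ?_
    rw [iv_congr (hcond v w), one_mul, one_mul]
    have hm1 : GG1 w ∈ Y0 ↔ g1 (y1 + w) = 0 := by
      change (g1 (y1 + w), Q w + L w) ∈ Submodule.prod ⊥ ⊤ ↔ _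
      rw [Submodule.mem_prod]
      exact ⟨fun h => h.1, fun h => ⟨h, Submodule.mem_top⟩⟩
    rw [iv_congr hm1, iv_and, ← mul_assoc]
    by_cases hz : g1 (y1 + w) = 0
    · rw [hz, zero_add]
    · rw [iv_neg hz]
      simp only [zero_mul]
  rw [hA, hBv]

end

end Pool.Agent.H22.QF
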