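import Pool.Agent.H22.QK.QBase

/-!
# Rel7: consequences of the Fano relation (about 70 lines)

PROOF. For each `i`, `IsQM.two` gives `h i : V →ₗ Y` with
`f i P + f' i (P + x) = b x P + h i P + c i x`, `c i x = f' i x + f i 0`. Insert in `hF`:
`h 0 P + h 1 Q + h 2 (P+Q) + (c 0 x + c 1 x + c 2 x) + k x = 0` (the terms `b x P + b x Q +
b x (P+Q)` cancel). `P = Q = 0`: `c 0 x + c 1 x + c 2 x = k x`. Then `Q = 0`: `h 0 = h 2`; `P = 0`:
`h 1 = h 2`. Take `lam = h 2`.
-/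

set_option autoImplicit false

open Finset Function Module
open scoped BigOperators
open Pool.Agent.H77.KM
open Pool.Agent.H22.QK

namespace Pool.Agent.H22.QF

section

variable {V : Type} [AddCommGroup V] [Module (ZMod 2) V]
variable {Y : Type} [AddCommGroup Y] [Module (ZMod 2) Y]
variable {b : V →ₗ[ZMod 2] V →ₗ[ZMod 2] Y}

theorem rel7 {f f' : Fin 3 → V → Y} {k : V → Y} (hf : ∀ i, IsQM (f i) b)
    (hf' : ∀ i, IsQM (f' i) b)
    (hF : ∀ P Q x, f 0 P + f' 0 (P + x) + (f 1 Q + f' 1 (Q + x)) +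
      (f 2 (P + Q) + f' 2 (P + Q + x)) + k x = 0) :
    ∃ (lam : V →ₗ[ZMod 2] Y) (c : Fin 3 → V → Y),
      (∀ i P x, f i P + f' i (P + x) = b x P + lam P + c i x) ∧
      ∀ x, c 0 x + c 1 x + c 2 x = k x := by
  choose h hh using fun i => (hf i).two (hf' i)
  have hE : ∀ P Q x, b x P + h 0 P + (f' 0 x + f 0 0) + (b x Q + h 1 Q + (f' 1 x + f 1 0)) +
      (b x (P + Q) + h 2 (P + Q) + (f' 2 x + f 2 0)) + k x = 0 := by
    intro P Q x
    rw [← hh 0 P x, ← hh 1 Q x, ← hh 2 (P + Q) x]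
    exact hF P Q x
  have add_eq : ∀ u v : Y, u + v = 0 → u = v := by
    intro u v huv
    have e := ZModModule.add_self v
    calc u = u + (v + v) := by rw [e, add_zero]
      _ = (u + v) + v := by abel
      _ = v := by rw [huv, zero_add]
  have hk : ∀ x, (f' 0 x + f 0 0) + (f' 1 x + f 1 0) + (f' 2 x + f 2 0) = k x := by
    intro x
    apply add_eq
    have h0 := hE 0 0 x
    simp only [map_zero, add_zero, zero_add] at h0
    exact h0
  have h02 : ∀ P, h 0 P = h 2 P := by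
    intro P
    apply add_eq
    have h0 := hE P 0 0
    have h1 := hk 0
    simp only [map_zero, add_zero, zero_add, LinearMap.zero_apply] at h0
    rw [← h1] at h0
    have e := ZModModule.add_self ((f' 0 0 + f 0 0) + (f' 1 0 + f 1 0) + (f' 2 0 + f 2 0))
    calc h 0 P + h 2 P = h 0 P + h 2 P + (((f' 0 0 + f 0 0) + (f' 1 0 + f 1 0) +
          (f' 2 0 + f 2 0)) + ((f' 0 0 + f 0 0) + (f' 1 0 + f 1 0) + (f' 2 0 + f 2 0))) := by
          rw [e, add_zero]
      _ = h 0 P + (f' 0 0 + f 0 0) + (f' 1 0 + f 1 0) + (h 2 P + (f' 2 0 + f 2 0)) +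
          ((f' 0 0 + f 0 0) + (f' 1 0 + f 1 0) + (f' 2 0 + f 2 0)) := by abel
      _ = 0 := h0
  have h12 : ∀ P, h 1 P = h 2 P := by
    intro P
    apply add_eq
    have h0 := hE 0 P 0
    have h1 := hk 0
    simp only [map_zero, add_zero, zero_add, LinearMap.zero_apply] at h0
    rw [← h1] at h0
    have e := ZModModule.add_self ((f' 0 0 + f 0 0) + (f' 1 0 + f 1 0) + (f' 2 0 + f 2 0))
    calc h 1 P + h 2 P = h 1 P + h 2 P + (((f' 0 0 + f 0 0) + (f' 1 0 + f 1 0) +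
          (f' 2 0 + f 2 0)) + ((f' 0 0 + f 0 0) + (f' 1 0 + f 1 0) + (f' 2 0 + f 2 0))) := by
          rw [e, add_zero]
      _ = f' 0 0 + f 0 0 + (h 1 P + (f' 1 0 + f 1 0)) + (h 2 P + (f' 2 0 + f 2 0)) +
          ((f' 0 0 + f 0 0) + (f' 1 0 + f 1 0) + (f' 2 0 + f 2 0)) := by abel
      _ = 0 := h0
  refine ⟨h 2, fun i x => f' i x + f i 0, ?_, hk⟩
  intro i P x
  rw [hh i P x]
  have hi : h i P = h 2 P := by
    fin_cases i
    · exact h02 P
    · exact h12 P
    · rfl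
  rw [hi]

end

end Pool.Agent.H22.QF
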