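import Pool.Agent.H22.QF.Fibre3
import Pool.Agent.H22.QF.Core2
import Pool.Agent.H22.QF.Corr2
import Pool.Agent.H22.QF.Rel7

/-!
# Count7: the counting lemma for seven sets (about 180 lines)

PROOF of `count7`. Suppose there is no configuration. `R = finrank Y`. `rel7` gives `lam, c`. Let
`X1` be the set of the `x` with `X x = 1`, nondegenerate (`∀ l ≠ 0, bl b l x + l.comp lam ≠ 0`) and
`corr (A i) (A' i) x ≥ (199/200) (𝔼 A i) (𝔼 A' i)` for `i = 0, 1, 2`. Its measure is at least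
`𝔼 X - |Y| (1/2)^(2s) - 3 (1/2)^(qcP n R) ≥ (1/2)^(n+R) - (1/2)^(n+R+3) - 3 (1/2)^(2(n+R+8))
≥ (1/2)^(n+R+1)` (`nondeg2_count`, `corr_large2`; `|Y| = 2^R`, `2 s ≥ n + 2R + 3`). For `x ∈ X1`,
`k x = 0` (support of `X`) and `hno` holds (all functions have values `0, 1`), so `fibre3` gives
`FibInc` for `(A 0, A' 0)` or for `(A 1, A' 1)`. One of the two sets
`{x ∈ X1 : FibInc b lam (A i) (A' i) n x}` has measure at least
`(1/2)^(n+R+2) ≥ (1/2)^(qK1 n R)` and `core2` with `g1 = f i`, `g2 = f' i`,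
`hlam v w = hlam i v w`, `cst = c i` gives a contradiction. All numerical conditions follow from
`qK n R ≤ s`, `qK n R ≤ κ` (unfold `qK`; generalize the summands, `omega`).
-/

set_option autoImplicit false

open Finset Function Module
open scoped BigOperators
open Pool.Agent.H77.KM
open Pool.Agent.H22.QK

namespace Pool.Agent.H22.QF

section

variable {V : Type} [AddCommGroup V] [Module (ZMod 2) V] [Fintype V]
variable {Y : Type} [AddCommGroup Y] [Module (ZMod 2) Y] [Fintype Y]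
variable {b : V →ₗ[ZMod 2] V →ₗ[ZMod 2] Y}

theorem count7 {f f' : Fin 3 → V → Y} {k : V → Y} (hf : ∀ i, IsQM (f i) b)
    (hf' : ∀ i, IsQM (f' i) b)
    (hF : ∀ P Q x, f 0 P + f' 0 (P + x) + (f 1 Q + f' 1 (Q + x)) +
      (f 2 (P + Q) + f' 2 (P + Q + x)) + k x = 0)
    {s n κ : ℕ} (hs : Reg b s)
    (hsn : qK n (finrank (ZMod 2) Y) ≤ s) (hκn : qK n (finrank (ZMod 2) Y) ≤ κ)
    (A A' : Fin 3 → V → ℝ) (X : V → ℝ) (hA : ∀ i x, A i x = 0 ∨ A i x = 1)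
    (hA' : ∀ i x, A' i x = 0 ∨ A' i x = 1) (hX : ∀ x, X x = 0 ∨ X x = 1)
    (hAf : ∀ i x, A i x ≠ 0 → f i x = 0) (hAf' : ∀ i x, A' i x ≠ 0 → f' i x = 0)
    (hXk : ∀ x, X x ≠ 0 → k x = 0)
    (hα : ∀ i, (1 / 2 : ℝ) ^ n ≤ Fintype.card Y * 𝔼 x, A i x)
    (hα' : ∀ i, (1 / 2 : ℝ) ^ n ≤ Fintype.card Y * 𝔼 x, A' i x)
    (hχ : (1 / 2 : ℝ) ^ n ≤ Fintype.card Y * 𝔼 x, X x)
    (hspr : ∀ i, SprV (A i) (f i) κ (qR n) ((1 + 1 / 1000000) * (Fintype.card Y * 𝔼 x, A i x)))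
    (hspr' : ∀ i, SprV (A' i) (f' i) κ (qR n)
      ((1 + 1 / 1000000) * (Fintype.card Y * 𝔼 x, A' i x))) :
    ∃ P Q x, A 0 P = 1 ∧ A' 0 (P + x) = 1 ∧ A 1 Q = 1 ∧ A' 1 (Q + x) = 1 ∧
      A 2 (P + Q) = 1 ∧ A' 2 (P + Q + x) = 1 ∧ X x = 1 := by
  classical
  by_contra hcon
  obtain ⟨lam, c, hlam, hc⟩ := rel7 hf hf' hF
  set R := finrank (ZMod 2) Y with hR
  have hcard : (Fintype.card Y : ℝ) = 2 ^ R := by
    have h := Module.card_eq_pow_finrank (K := ZMod 2) (V := Y)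
    rw [h, ZMod.card]; push_cast; rfl
  have hY : (0 : ℝ) < Fintype.card Y := by rw [hcard]; positivity
  -- numerical conditions
  have hn1 : iiReg3 (2 * n + 1) R + R ≤ s := by
    unfold qK at hsn; omega
  have hn2 : qcK n R ≤ κ := by
    unfold qK at hκn; omega
  have hn3 : qcK n R + R + 20 ≤ s := by
    unfold qK at hsn; omega
  have hn4 : n + 2 * R + 3 ≤ 2 * s := by
    unfold qK at hsn; omega
  -- no configuration
  have hno : ∀ x, X x ≠ 0 → ∀ P Q, A 0 P * A' 0 (P + x) * (A 1 Q * A' 1 (Q + x)) *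
      (A 2 (P + Q) * A' 2 (P + Q + x)) = 0 := by
    intro x hx P Q
    by_contra h
    have h1 : A 0 P ≠ 0 := fun h0 => h (by rw [h0]; ring)
    have h2 : A' 0 (P + x) ≠ 0 := fun h0 => h (by rw [h0]; ring)
    have h3 : A 1 Q ≠ 0 := fun h0 => h (by rw [h0]; ring)
    have h4 : A' 1 (Q + x) ≠ 0 := fun h0 => h (by rw [h0]; ring)
    have h5 : A 2 (P + Q) ≠ 0 := fun h0 => h (by rw [h0]; ring)
    have h6 : A' 2 (P + Q + x) ≠ 0 := fun h0 => h (by rw [h0]; ring)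
    exact hcon ⟨P, Q, x, (hA 0 P).resolve_left h1, (hA' 0 (P + x)).resolve_left h2,
      (hA 1 Q).resolve_left h3, (hA' 1 (Q + x)).resolve_left h4,
      (hA 2 (P + Q)).resolve_left h5, (hA' 2 (P + Q + x)).resolve_left h6,
      (hX x).resolve_left hx⟩
  -- the increments are rare
  have hcore : ∀ i, 𝔼 x, iv (x ∈ {x | FibInc b lam (A i) (A' i) n x}) < (1 / 2 : ℝ) ^ qK1 n R := by
    intro i
    by_contra h
    exact core2 (hf i) (hf' i) (hlam i) hs hsn hκn (A i) (A' i) (hA i) (hA' i) (hAf i) (hAf' i)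
      (hα i) (hα' i) (hspr i) (hspr' i) {x | FibInc b lam (A i) (A' i) n x} (not_lt.mp h)
      (fun x hx => hx)
  have hcorr : ∀ i, 𝔼 x, iv (corr (A i) (A' i) x < 199 / 200 * ((𝔼 x, A i x) * 𝔼 x, A' i x))
      ≤ (1 / 2) ^ qcP n R := fun i =>
    corr_large2 (hf i) (hf' i) hs hn2 hn3 (A i) (A' i) (hA i) (hA' i) (hα i) (hα' i)
      (hspr i) (hspr' i)
  have hnd := nondeg2_count hs lam
  -- the pointwise inequality
  have hpt : ∀ x, X x ≤ iv (∃ l : Dual (ZMod 2) Y, l ≠ 0 ∧ bl b l x + l.comp lam = 0) +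
      (iv (corr (A 0) (A' 0) x < 199 / 200 * ((𝔼 x, A 0 x) * 𝔼 x, A' 0 x)) +
      (iv (corr (A 1) (A' 1) x < 199 / 200 * ((𝔼 x, A 1 x) * 𝔼 x, A' 1 x)) +
      (iv (corr (A 2) (A' 2) x < 199 / 200 * ((𝔼 x, A 2 x) * 𝔼 x, A' 2 x)) +
      (iv (x ∈ {x | FibInc b lam (A 0) (A' 0) n x}) +
        iv (x ∈ {x | FibInc b lam (A 1) (A' 1) n x}))))) := by
    intro x
    have p1 := iv_nonneg (∃ l : Dual (ZMod 2) Y, l ≠ 0 ∧ bl b l x + l.comp lam = 0)
    have p2 := iv_nonneg (corr (A 0) (A' 0) x < 199 / 200 * ((𝔼 x, A 0 x) * 𝔼 x, A' 0 x))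
    have p3 := iv_nonneg (corr (A 1) (A' 1) x < 199 / 200 * ((𝔼 x, A 1 x) * 𝔼 x, A' 1 x))
    have p4 := iv_nonneg (corr (A 2) (A' 2) x < 199 / 200 * ((𝔼 x, A 2 x) * 𝔼 x, A' 2 x))
    have p5 := iv_nonneg (x ∈ {x | FibInc b lam (A 0) (A' 0) n x})
    have p6 := iv_nonneg (x ∈ {x | FibInc b lam (A 1) (A' 1) n x})
    rcases hX x with h0 | h1
    · rw [h0]; positivity
    · rw [h1]
      by_cases q1 : ∃ l : Dual (ZMod 2) Y, l ≠ 0 ∧ bl b l x + l.comp lam = 0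
      · rw [iv_pos q1]; linarith
      by_cases q2 : corr (A 0) (A' 0) x < 199 / 200 * ((𝔼 x, A 0 x) * 𝔼 x, A' 0 x)
      · rw [iv_pos q2]; linarith
      by_cases q3 : corr (A 1) (A' 1) x < 199 / 200 * ((𝔼 x, A 1 x) * 𝔼 x, A' 1 x)
      · rw [iv_pos q3]; linarith
      by_cases q4 : corr (A 2) (A' 2) x < 199 / 200 * ((𝔼 x, A 2 x) * 𝔼 x, A' 2 x)
      · rw [iv_pos q4]; linarith
      have hx0 : X x ≠ 0 := by rw [h1]; norm_num
      have hfib := fibre3 hf hlam hc hs hn1 A A' hA hA' hAf hAf' hα hα' x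
        (fun l hl h => q1 ⟨l, hl, h⟩) (hXk x hx0)
        (fun i => by
          fin_cases i
          · exact not_lt.mp q2
          · exact not_lt.mp q3
          · exact not_lt.mp q4) (hno x hx0)
      rcases hfib with h | h
      · have h' : x ∈ {x | FibInc b lam (A 0) (A' 0) n x} := h
        rw [iv_pos h']; linarith
      · have h' : x ∈ {x | FibInc b lam (A 1) (A' 1) n x} := h
        rw [iv_pos h']; linarith
  have hsum : 𝔼 x, X x ≤
      𝔼 x, iv (∃ l : Dual (ZMod 2) Y, l ≠ 0 ∧ bl b l x + l.comp lam = 0) +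
      (𝔼 x, iv (corr (A 0) (A' 0) x < 199 / 200 * ((𝔼 x, A 0 x) * 𝔼 x, A' 0 x)) +
      (𝔼 x, iv (corr (A 1) (A' 1) x < 199 / 200 * ((𝔼 x, A 1 x) * 𝔼 x, A' 1 x)) +
      (𝔼 x, iv (corr (A 2) (A' 2) x < 199 / 200 * ((𝔼 x, A 2 x) * 𝔼 x, A' 2 x)) +
      (𝔼 x, iv (x ∈ {x | FibInc b lam (A 0) (A' 0) n x}) +
        𝔼 x, iv (x ∈ {x | FibInc b lam (A 1) (A' 1) n x}))))) := by
    refine (Finset.expect_le_expect fun x _ => hpt x).trans (le_of_eq ?_)
    rw [Finset.expect_add_distrib, Finset.expect_add_distrib, Finset.expect_add_distrib,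
      Finset.expect_add_distrib, Finset.expect_add_distrib]
  -- the numbers
  set t : ℝ := (1 / 2 : ℝ) ^ (n + R) with ht
  have htpos : 0 < t := by positivity
  have e1 : t ≤ 𝔼 x, X x := by
    have h1 : t * 2 ^ R = (1 / 2 : ℝ) ^ n := by
      rw [ht, pow_add, mul_assoc, ← mul_pow]; norm_num
    rw [hcard] at hχ
    rw [← h1] at hχ
    have h2 : (0 : ℝ) < 2 ^ R := by positivity
    nlinarith [hχ, h2]
  have e2 : (Fintype.card Y : ℝ) * (1 / 2) ^ (2 * s) ≤ t * (1 / 8) := by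
    rw [hcard]
    have h4 : (1 / 2 : ℝ) ^ (2 * s) ≤ (1 / 2) ^ (n + 2 * R + 3) :=
      pow_le_pow_of_le_one (by norm_num) (by norm_num) hn4
    have h5 : (2 : ℝ) ^ R * (1 / 2) ^ (n + 2 * R + 3) = t * (1 / 8) := by
      have h6 : (2 : ℝ) ^ R * (1 / 2) ^ R = 1 := by rw [← mul_pow]; norm_num
      have h7 : (1 / 2 : ℝ) ^ (n + 2 * R + 3) = (1 / 2) ^ R * ((1 / 2) ^ (n + R) * (1 / 8)) := by
        rw [show n + 2 * R + 3 = R + ((n + R) + 3) by ring, pow_add, pow_add _ (n + R) 3]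
        norm_num
      rw [h7, ← mul_assoc, h6, one_mul]
    calc (2 : ℝ) ^ R * (1 / 2) ^ (2 * s) ≤ (2 : ℝ) ^ R * (1 / 2) ^ (n + 2 * R + 3) := by gcongr
      _ = t * (1 / 8) := h5
  have e3 : (1 / 2 : ℝ) ^ qcP n R ≤ t * (1 / 16) := by
    have h1 : n + R + 4 ≤ qcP n R := by unfold qcP; omega
    calc (1 / 2 : ℝ) ^ qcP n R ≤ (1 / 2) ^ (n + R + 4) :=
          pow_le_pow_of_le_one (by norm_num) (by norm_num) h1
      _ = t * (1 / 16) := by rw [ht, pow_add _ (n + R) 4]; norm_num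
  have e4 : (1 / 2 : ℝ) ^ qK1 n R ≤ t * (1 / 16) := by
    have h1 : n + R + 4 ≤ qK1 n R := by unfold qK1; omega
    calc (1 / 2 : ℝ) ^ qK1 n R ≤ (1 / 2) ^ (n + R + 4) :=
          pow_le_pow_of_le_one (by norm_num) (by norm_num) h1
      _ = t * (1 / 16) := by rw [ht, pow_add _ (n + R) 4]; norm_num
  have c0 := hcorr 0
  have c1 := hcorr 1
  have c2 := hcorr 2
  have d0 := hcore 0
  have d1 := hcore 1
  linarith

end

end Pool.Agent.H22.QF
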