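import Pool.Agent.H22.QF.FbDeg
import Pool.Agent.H22.QK.QBias
import Pool.Agent.H22.QK.QCount

/-!
# FbCount: counting the extensions of a frame (about 110 lines)

Compare `ext_count` in `QK/FrExt.lean`.
PROOF of `ext_count_b`. `count_point` for `Θ : V → Y × Y × (Fin m → Y)`,
`Θ z = (g z + g 0 + b y z, k z, fun i => b (x i) z)` and the point `0`, `δ = (1/2)^s`. A nonzero
character is `(y0, y1, w) ↦ l0 y0 + l1 y1 + ∑ ls_i (w i)`. Its phase is, up to a constant (which only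
changes the sign), `(l0 + l1) (k z) + [l0 (μ z + b y z) + ∑ ls_i (b (x i) z)]`. If `l0 + l1 ≠ 0`:
`bias` for the quadratic map `k`, the form `l0 + l1` and the linear form in brackets. If
`l1 = l0` (characteristic two) then `(l0, ls) ≠ 0` and the linear form in brackets is nonzero by
hypothesis, so its character has average zero (`expect_chi_eq_zero`).

PROOF of `ext_count_t`. The same with `Θ z = (g2 z, g3 (y1 + z), fun i => b (x i) z)` and the point
`(0, 0, fun i => c i)`: the phase is `(l0 + l1) (g2 z) + [l1 (ν z + b y1 z) + ∑ ls_i (b (x i) z)]` up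
to a constant, because `g3 (y1 + z) = g3 y1 + g3 z + g3 0 + b y1 z` and
`g3 z = g2 z + ν z + const`.
-/

set_option autoImplicit false

open Finset Function Module
open scoped BigOperators
open Pool.Agent.H77.KM
open Pool.Agent.H22.QK

namespace Pool.Agent.H22.QF

section

variable {V : Type} [AddCommGroup V] [Module (ZMod 2) V] [Fintype V]
variable {Y : Type} [AddCommGroup Y] [Module (ZMod 2) Y] [Fintype Y]
variable {g k : V → Y} {b : V →ₗ[ZMod 2] V →ₗ[ZMod 2] Y} {m : ℕ}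

/-- Counting the zeros of `(g1 z + .., g2 z + .., b (x i) z + c i)`: the general statement. -/
private theorem ext_core {s : ℕ} (y : V) (x : Fin m → V) (Θ1 Θ2 : V → Y) (c : Fin m → Y)
    (μ : V →ₗ[ZMod 2] Y) (hx : ¬ DegB b μ y x)
    (h1 : ∀ l0 l1 : Dual (ZMod 2) Y, l0 + l1 ≠ 0 → ∀ ζ : Dual (ZMod 2) V,
      |𝔼 z, sgn (l0 (Θ1 z) + l1 (Θ2 z) + ζ z)| ≤ (1 / 2) ^ s)
    (h2 : ∀ l : Dual (ZMod 2) Y, ∃ c0 : ZMod 2, ∀ z, l (Θ1 z) + l (Θ2 z) =
      l (μ z + b y z) + c0) :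
    |𝔼 z, iv (Θ1 z = 0 ∧ Θ2 z = 0 ∧ ∀ i, b (x i) z = c i)
      - 1 / (Fintype.card Y : ℝ) ^ (m + 2)| ≤ (1 / 2) ^ s := by
  classical
  set Θ : V → Y × Y × (Fin m → Y) := fun z => (Θ1 z, Θ2 z, fun i => b (x i) z) with hΘ
  have hcard : (Fintype.card (Y × Y × (Fin m → Y)) : ℝ) = (Fintype.card Y : ℝ) ^ (m + 2) := by
    rw [Fintype.card_prod, Fintype.card_prod, Fintype.card_fun, Fintype.card_fin]
    push_cast
    ring
  have hiv : ∀ z, iv (Θ1 z = 0 ∧ Θ2 z = 0 ∧ ∀ i, b (x i) z = c i) = iv (Θ z = (0, 0, c)) := by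
    intro z
    refine iv_congr ?_
    rw [hΘ, Prod.mk.injEq, Prod.mk.injEq, funext_iff]
  simp only [hiv]
  rw [← hcard]
  refine count_point Θ (0, 0, c) (by positivity) ?_
  intro l hl
  -- the components of the character
  set l0 : Dual (ZMod 2) Y := l.comp (LinearMap.inl (ZMod 2) Y (Y × (Fin m → Y))) with hl0
  set l1 : Dual (ZMod 2) Y := l.comp ((LinearMap.inr (ZMod 2) Y (Y × (Fin m → Y))).comp
    (LinearMap.inl (ZMod 2) Y (Fin m → Y))) with hl1
  set li : Fin m → Dual (ZMod 2) Y := fun i =>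
    l.comp ((LinearMap.inr (ZMod 2) Y (Y × (Fin m → Y))).comp
      ((LinearMap.inr (ZMod 2) Y (Fin m → Y)).comp (LinearMap.single (ZMod 2) (fun _ => Y) i)))
    with hli
  have hdec : ∀ (a a' : Y) (w : Fin m → Y), l (a, a', w) = l0 a + l1 a' + ∑ i, li i (w i) := by
    intro a a' w
    have e1 : ((a, a', w) : Y × Y × (Fin m → Y)) =
        LinearMap.inl (ZMod 2) Y (Y × (Fin m → Y)) a +
        LinearMap.inr (ZMod 2) Y (Y × (Fin m → Y)) (LinearMap.inl (ZMod 2) Y (Fin m → Y) a') +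
        LinearMap.inr (ZMod 2) Y (Y × (Fin m → Y)) (LinearMap.inr (ZMod 2) Y (Fin m → Y) w) := by
      simp
    have e2 : l (LinearMap.inr (ZMod 2) Y (Y × (Fin m → Y))
        (LinearMap.inr (ZMod 2) Y (Fin m → Y) w)) = ∑ i, li i (w i) := by
      have e3 : w = ∑ i, LinearMap.single (ZMod 2) (fun _ : Fin m => Y) i (w i) := by
        simp only [LinearMap.coe_single]
        exact (Finset.univ_sum_single w).symm
      conv_lhs => rw [e3]
      rw [map_sum, map_sum, map_sum]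
      rfl
    rw [e1, map_add, map_add, e2]
    rfl
  set ζ : Dual (ZMod 2) V := ∑ i, bl b (li i) (x i) with hζ
  have hζz : ∀ z, ∑ i, li i (b (x i) z) = ζ z := by
    intro z
    rw [hζ, LinearMap.sum_apply]
    rfl
  have hval : ∀ z, l (Θ z) = l0 (Θ1 z) + l1 (Θ2 z) + ζ z := by
    intro z
    rw [hΘ]
    simp only []
    rw [hdec, hζz]
  by_cases h0 : l0 + l1 = 0
  · have hl01 : l1 = l0 := by
      have e := ZModModule.add_self l0
      calc l1 = (l0 + l0) + l1 := by rw [e, zero_add]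
        _ = l0 + (l0 + l1) := by abel
        _ = l0 := by rw [h0, add_zero]
    have hne : l0 ≠ 0 ∨ li ≠ 0 := by
      by_contra hcon
      push Not at hcon
      apply hl
      refine LinearMap.ext fun p => ?_
      obtain ⟨a, a', w⟩ := p
      rw [hdec, hl01, hcon.1, hcon.2]
      simp
    obtain ⟨c0, hc0⟩ := h2 l0
    set ξ : Dual (ZMod 2) V := l0.comp μ + bl b l0 y + ζ with hξ
    have hξ0 : ξ ≠ 0 := by
      intro h
      apply hx
      refine ⟨l0, li, hne, fun z => ?_⟩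
      have h3 := LinearMap.congr_fun h z
      rw [hξ, LinearMap.add_apply, LinearMap.add_apply, LinearMap.comp_apply, bl_apply,
        LinearMap.zero_apply, ← hζz] at h3
      rw [map_add]
      exact h3
    have : 𝔼 z, sgn (l (Θ z)) = (𝔼 z, chi ξ z) * sgn c0 := by
      rw [Finset.expect_mul]
      refine Finset.expect_congr rfl fun z _ => ?_
      unfold chi
      have e5 : ξ z = l0 (μ z + b y z) + ζ z := by
        rw [(l0.map_add (μ z) (b y z) : l0 (μ z + b y z) = l0 (μ z) + l0 (b y z))]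
        rfl
      rw [← sgn_add, hval z, hl01, hc0 z, e5]
      congr 1
      ring
    rw [this, expect_chi_eq_zero hξ0, zero_mul, abs_zero]
    positivity
  · simp only [hval]
    exact h1 l0 l1 h0 ζ

theorem ext_count_b (hg : IsQM g b) (hk : IsQM k b) {μ : V →ₗ[ZMod 2] Y} {c0 : Y}
    (hμ : ∀ z, g z = k z + μ z + c0) {s : ℕ} (hs : Reg b s) (y : V) (x : Fin m → V)
    (hx : ¬ DegB b μ y x) :
    |𝔼 z, iv (g z + g 0 + b y z = 0 ∧ k z = 0 ∧ ∀ i, b (x i) z = 0)
      - 1 / (Fintype.card Y : ℝ) ^ (m + 2)| ≤ (1 / 2) ^ s := by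
  refine ext_core y x (fun z => g z + g 0 + b y z) (fun z => k z) (fun _ => 0) μ hx ?_ ?_
  · intro l0 l1 h0 ζ
    have e1 : ∀ z, l0 (g z + g 0 + b y z) + l1 (k z) + ζ z =
        ((l0 + l1) (k z) + (l0.comp μ + bl b l0 y + ζ) z) + l0 (c0 + g 0) := by
      intro z
      rw [hμ z]
      simp only [map_add, LinearMap.add_apply, LinearMap.comp_apply, bl_apply]
      ring
    have e2 : 𝔼 z, sgn (l0 (g z + g 0 + b y z) + l1 (k z) + ζ z) =
        (𝔼 z, sgn ((l0 + l1) (k z) + (l0.comp μ + bl b l0 y + ζ) z)) * sgn (l0 (c0 + g 0)) := by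
      rw [Finset.expect_mul]
      refine Finset.expect_congr rfl fun z _ => ?_
      rw [e1 z, sgn_add]
    rw [e2, abs_mul, abs_sgn, mul_one]
    exact bias hk (l0 + l1) _ (hs (l0 + l1) h0)
  · intro l
    refine ⟨l (c0 + g 0), fun z => ?_⟩
    show l (g z + g 0 + b y z) + l (k z) = _
    rw [hμ z]
    simp only [map_add]
    have e := ZModModule.add_self (l (k z))
    linear_combination e

theorem ext_count_t {g2 g3 : V → Y} (h2 : IsQM g2 b) (h3 : IsQM g3 b) {ν : V →ₗ[ZMod 2] Y} {c0 : Y}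
    (hν : ∀ z, g3 z = g2 z + ν z + c0) {s : ℕ} (hs : Reg b s) (y1 : V) (x : Fin m → V)
    (hx : ¬ DegB b ν y1 x) (c : Fin m → Y) :
    |𝔼 z, iv (g2 z = 0 ∧ g3 (y1 + z) = 0 ∧ ∀ i, b (x i) z = c i)
      - 1 / (Fintype.card Y : ℝ) ^ (m + 2)| ≤ (1 / 2) ^ s := by
  have e3 : ∀ z, g3 (y1 + z) = g2 z + ν z + b y1 z + (g3 y1 + c0 + g3 0) := by
    intro z
    rw [h3 y1 z, hν z]
    abel
  refine ext_core y1 x (fun z => g2 z) (fun z => g3 (y1 + z)) c ν hx ?_ ?_
  · intro l0 l1 h0 ζ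
    have e1 : ∀ z, l0 (g2 z) + l1 (g3 (y1 + z)) + ζ z =
        ((l0 + l1) (g2 z) + (l1.comp ν + bl b l1 y1 + ζ) z) + l1 (g3 y1 + c0 + g3 0) := by
      intro z
      rw [e3 z]
      simp only [map_add, LinearMap.add_apply, LinearMap.comp_apply, bl_apply]
      ring
    have e2 : 𝔼 z, sgn (l0 (g2 z) + l1 (g3 (y1 + z)) + ζ z) =
        (𝔼 z, sgn ((l0 + l1) (g2 z) + (l1.comp ν + bl b l1 y1 + ζ) z)) *
          sgn (l1 (g3 y1 + c0 + g3 0)) := by
      rw [Finset.expect_mul]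
      refine Finset.expect_congr rfl fun z _ => ?_
      rw [e1 z, sgn_add]
    rw [e2, abs_mul, abs_sgn, mul_one]
    exact bias h2 (l0 + l1) _ (hs (l0 + l1) h0)
  · intro l
    refine ⟨l (g3 y1 + c0 + g3 0), fun z => ?_⟩
    show l (g2 z) + l (g3 (y1 + z)) = _
    rw [e3 z]
    simp only [map_add]
    have e := ZModModule.add_self (l (g2 z))
    linear_combination e

end

end Pool.Agent.H22.QF
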