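import Pool.Agent.H22.QK.FrDefs

/-!
# FbDefs: frames in a quadric with directions in a second quadric

`g, k : V → Y` are quadratic maps with the same polarisation `b`, `k 0 = 0`.
* `IsFb g k y x`: the affine subspace `{y + lc u x}` lies in `{g = 0}` and the subspace
  `{lc u x}` lies in `{k = 0}`.
* `bexp m = 1 + 2 + ... + (m+1)`: the number of equations.
* `FB g k m F`: normalised average over these frames; `tauB Y m s`: the error term.

The proofs are copies of `QK/FrDefs.lean`.
-/

set_option autoImplicit false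

open Finset Function Module
open scoped BigOperators
open Pool.Agent.H77.KM
open Pool.Agent.H22.QK

namespace Pool.Agent.H22.QF

section

variable {V : Type} [AddCommGroup V] [Module (ZMod 2) V]
variable {Y : Type} [AddCommGroup Y] [Module (ZMod 2) Y]

/-- `(y, x)` is a frame: the affine subspace `y + span x` lies in `{g = 0}` and the subspace
`span x` lies in `{k = 0}`. -/
def IsFb (g k : V → Y) {m : ℕ} (y : V) (x : Fin m → V) : Prop :=
  (∀ u : Fin m → ZMod 2, g (y + lc u x) = 0) ∧ ∀ u : Fin m → ZMod 2, k (lc u x) = 0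

/-- The number of equations satisfied by a frame. -/
def bexp : ℕ → ℕ
  | 0 => 1
  | m + 1 => bexp m + (m + 2)

variable [Fintype V] [Fintype Y]

/-- Normalised average over the frames. -/
noncomputable def FB (g k : V → Y) (m : ℕ) (F : V → (Fin m → V) → ℝ) : ℝ :=
  (Fintype.card Y : ℝ) ^ bexp m * 𝔼 y, 𝔼 x : Fin m → V, iv (IsFb g k y x) * F y x

/-- The error term. -/
noncomputable def tauB (Y : Type) [Fintype Y] (m s : ℕ) : ℝ :=
  (Fintype.card Y : ℝ) ^ (bexp m + m + 2) * (4 * (m + 1)) * (1 / 2) ^ s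

end

section

variable {V : Type} [AddCommGroup V] [Module (ZMod 2) V]
variable {Y : Type} [AddCommGroup Y] [Module (ZMod 2) Y]
variable {g k : V → Y} {m : ℕ}

theorem bexp_le (m : ℕ) : bexp m + m + 2 ≤ (m + 2) ^ 2 := by
  induction m with
  | zero => simp [bexp]
  | succ m ih =>
    rw [bexp]
    nlinarith [ih]

theorem bexp_mono {m n : ℕ} (h : m ≤ n) : bexp m ≤ bexp n := by
  induction h with
  | refl => exact le_rfl
  | step _ ih =>
    rw [bexp]
    omega

theorem le_bexp (m : ℕ) : m + 1 ≤ bexp m := by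
  induction m with
  | zero => simp [bexp]
  | succ m ih =>
    rw [bexp]
    omega

variable [Fintype V] [Fintype Y]

theorem FB_mono {F F' : V → (Fin m → V) → ℝ} (h : ∀ y x, IsFb g k y x → F y x ≤ F' y x) :
    FB g k m F ≤ FB g k m F' := by
  rw [FB, FB]
  refine mul_le_mul_of_nonneg_left ?_ (by positivity)
  refine Finset.expect_le_expect fun y _ => ?_
  refine Finset.expect_le_expect fun x _ => ?_
  by_cases hx : IsFb g k y x
  · exact mul_le_mul_of_nonneg_left (h y x hx) (iv_nonneg _)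
  · rw [iv_neg hx, zero_mul, zero_mul]

theorem FB_nonneg {F : V → (Fin m → V) → ℝ} (h : ∀ y x, IsFb g k y x → 0 ≤ F y x) :
    0 ≤ FB g k m F := by
  have h1 : FB g k m (fun _ _ => 0) ≤ FB g k m F := FB_mono h
  have h2 : FB g k m (fun _ _ => 0) = 0 := by
    rw [FB]
    simp only [mul_zero, Finset.expect_const_zero]
  rw [h2] at h1
  exact h1

theorem FB_add (F F' : V → (Fin m → V) → ℝ) :
    FB g k m (fun y x => F y x + F' y x) = FB g k m F + FB g k m F' := by
  simp only [FB, mul_add, Finset.expect_add_distrib]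

theorem FB_sub (F F' : V → (Fin m → V) → ℝ) :
    FB g k m (fun y x => F y x - F' y x) = FB g k m F - FB g k m F' := by
  simp only [FB, mul_sub, Finset.expect_sub_distrib]

theorem FB_mul (c : ℝ) (F : V → (Fin m → V) → ℝ) :
    FB g k m (fun y x => c * F y x) = c * FB g k m F := by
  simp only [FB]
  have h : ∀ y : V, ∀ x : Fin m → V,
      iv (IsFb g k y x) * (c * F y x) = c * (iv (IsFb g k y x) * F y x) := fun y x => by ring
  simp only [h, ← Finset.mul_expect]
  ring

theorem FB_sum {ι : Type} (S : Finset ι) (F : ι → V → (Fin m → V) → ℝ) :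
    FB g k m (fun y x => ∑ i ∈ S, F i y x) = ∑ i ∈ S, FB g k m (F i) := by
  simp only [FB, Finset.mul_sum, Finset.expect_sum_comm]

theorem FB_expect {ι : Type} [Fintype ι] (F : ι → V → (Fin m → V) → ℝ) :
    FB g k m (fun y x => 𝔼 i, F i y x) = 𝔼 i, FB g k m (F i) := by
  have h : ∀ C : ℝ, ∀ G : ι → V → (Fin m → V) → ℝ,
      C * 𝔼 y, 𝔼 x : Fin m → V, 𝔼 i, G i y x = 𝔼 i, C * 𝔼 y, 𝔼 x : Fin m → V, G i y x := by
    intro C G
    rw [← Finset.mul_expect]
    congr 1
    rw [Finset.expect_comm Finset.univ Finset.univ (fun i y => 𝔼 x : Fin m → V, G i y x)]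
    refine Finset.expect_congr rfl fun y _ => ?_
    exact Finset.expect_comm Finset.univ Finset.univ (fun x i => G i y x)
  simp only [FB]
  rw [← h]
  simp only [Finset.mul_expect]

theorem FB_prod (F : V → (Fin m → V) → ℝ) :
    FB g k m F = (Fintype.card Y : ℝ) ^ bexp m *
      𝔼 p : V × (Fin m → V), iv (IsFb g k p.1 p.2) * F p.1 p.2 := by
  rw [FB, ← Finset.univ_product_univ, Finset.expect_product]

theorem FB_cs (F : V → (Fin m → V) → ℝ) :
    FB g k m F ^ 2 ≤ FB g k m (fun _ _ => 1) * FB g k m (fun y x => F y x ^ 2) := by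
  rw [FB_prod, FB_prod, FB_prod, mul_pow]
  have h := Finset.expect_mul_sq_le_sq_mul_sq (Finset.univ : Finset (V × (Fin m → V)))
    (fun p => iv (IsFb g k p.1 p.2)) (fun p => iv (IsFb g k p.1 p.2) * F p.1 p.2)
  have hsq : ∀ p : Prop, iv p * iv p = iv p := fun p => by
    rcases iv_cases p with h | h <;> rw [h] <;> norm_num
  have e1 : ∀ p : V × (Fin m → V), iv (IsFb g k p.1 p.2) * (iv (IsFb g k p.1 p.2) * F p.1 p.2)
      = iv (IsFb g k p.1 p.2) * F p.1 p.2 := fun p => by rw [← mul_assoc, hsq]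
  have e2 : ∀ p : V × (Fin m → V), iv (IsFb g k p.1 p.2) ^ 2 = iv (IsFb g k p.1 p.2) * 1 :=
    fun p => by rw [sq, hsq, mul_one]
  have e3 : ∀ p : V × (Fin m → V), (iv (IsFb g k p.1 p.2) * F p.1 p.2) ^ 2
      = iv (IsFb g k p.1 p.2) * F p.1 p.2 ^ 2 := fun p => by rw [mul_pow, sq (iv _), hsq]
  simp only [e1, e2, e3] at h
  have hC : (0 : ℝ) ≤ ((Fintype.card Y : ℝ) ^ bexp m) ^ 2 := by positivity
  have := mul_le_mul_of_nonneg_left h hC
  calc _ ≤ _ := this
    _ = _ := by ring

theorem FB_exists {F : V → (Fin m → V) → ℝ} (h : 0 < FB g k m F) :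
    ∃ y x, IsFb g k y x ∧ 0 < F y x := by
  by_contra hcon
  have h1 : FB g k m F ≤ FB g k m (fun _ _ => 0) := by
    refine FB_mono fun y x hx => ?_
    by_contra hlt
    exact hcon ⟨y, x, hx, not_le.mp hlt⟩
  have h2 : FB g k m (fun _ _ => 0) = 0 := by
    rw [FB]
    simp only [mul_zero, Finset.expect_const_zero]
  rw [h2] at h1
  exact absurd h (not_lt.mpr h1)

end

end Pool.Agent.H22.QF
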