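import Pool.Agent.H22.QF.FbDefs
import Pool.Agent.H22.QK.QBias

/-!
# FbDeg: degenerate frames are rare (about 100 lines)

Compare `deg_count` in `QK/FrExt.lean`.
PROOF of `degB_count`. Union bound over the fewer than `|Y|^(m+1)` pairs `(l, ls) ≠ 0`. If
`ls i ≠ 0` for some `i`, fix `y` and the `x j`, `j ≠ i`: then `bl b (ls i) (x i)` is prescribed and
`ker_count` gives at most `(1/2)^(2s)` (average over the `i`-th coordinate first). If `ls = 0` then
`l ≠ 0` and `bl b l y` is prescribed (`ker_count`).
-/

set_option autoImplicit false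

open Finset Function Module
open scoped BigOperators
open Pool.Agent.H77.KM
open Pool.Agent.H22.QK

namespace Pool.Agent.H22.QF

section

variable {V : Type} [AddCommGroup V] [Module (ZMod 2) V] [Fintype V]
variable {Y : Type} [AddCommGroup Y] [Module (ZMod 2) Y] [Fintype Y]
variable {g k : V → Y} {b : V →ₗ[ZMod 2] V →ₗ[ZMod 2] Y} {m : ℕ}

/-- Degenerate `(y, x)`: some nontrivial combination of the linear equations
`μ z + b y z` and `b (x i) z` vanishes identically. -/
def DegB (b : V →ₗ[ZMod 2] V →ₗ[ZMod 2] Y) (μ : V →ₗ[ZMod 2] Y) (y : V) (x : Fin m → V) : Prop :=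
  ∃ (l : Dual (ZMod 2) Y) (ls : Fin m → Dual (ZMod 2) Y), (l ≠ 0 ∨ ls ≠ 0) ∧
    ∀ z, l (μ z + b y z) + ∑ i, ls i (b (x i) z) = 0

theorem degB_count {s : ℕ} (hs : Reg b s) (μ : V →ₗ[ZMod 2] Y) (m : ℕ) :
    𝔼 y, 𝔼 x : Fin m → V, iv (DegB b μ y x)
      ≤ (Fintype.card Y : ℝ) ^ (m + 1) * (1 / 2) ^ (2 * s) := by
  classical
  -- the condition for one pair of functionals
  set Cd : Dual (ZMod 2) Y × (Fin m → Dual (ZMod 2) Y) → V → (Fin m → V) → Prop :=
    fun p y x => (p.1.comp μ + bl b p.1 y) + ∑ i, bl b (p.2 i) (x i) = 0 with hCd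
  have hcond : ∀ (l : Dual (ZMod 2) Y) (ls : Fin m → Dual (ZMod 2) Y) (y : V) (x : Fin m → V),
      (∀ z, l (μ z + b y z) + ∑ i, ls i (b (x i) z) = 0) ↔ Cd (l, ls) y x := by
    intro l ls y x
    rw [hCd]
    simp only
    rw [LinearMap.ext_iff]
    refine forall_congr' fun z => ?_
    rw [LinearMap.add_apply, LinearMap.add_apply, LinearMap.sum_apply, LinearMap.comp_apply,
      bl_apply, LinearMap.zero_apply, map_add]
    rfl
  have h1 : ∀ p : Dual (ZMod 2) Y × (Fin m → Dual (ZMod 2) Y), p ≠ 0 →
      𝔼 y, 𝔼 x : Fin m → V, iv (Cd p y x) ≤ (1 / 2) ^ (2 * s) := by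
    rintro ⟨l, ls⟩ hp
    by_cases hls : ls = 0
    · have hl : l ≠ 0 := by
        rintro rfl
        exact hp (by rw [hls]; rfl)
      have e1 : ∀ y : V, 𝔼 x : Fin m → V, iv (Cd (l, ls) y x) =
          iv (bl b l y = - l.comp μ) := by
        intro y
        have e2 : ∀ x : Fin m → V, iv (Cd (l, ls) y x) = iv (bl b l y = - l.comp μ) := by
          intro x
          refine iv_congr ?_
          rw [hCd]
          simp only [hls, Pi.zero_apply]
          have e3 : ∀ v : V, bl b (0 : Dual (ZMod 2) Y) v = 0 := by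
            intro v
            refine LinearMap.ext fun z => ?_
            rw [bl_apply]
            rfl
          simp only [e3, Finset.sum_const_zero, add_zero]
          constructor
          · intro h
            exact eq_neg_of_add_eq_zero_right h
          · intro h
            rw [h, add_neg_cancel]
        simp only [e2]
        exact Finset.expect_const Finset.univ_nonempty _
      simp only [e1]
      exact ker_count l _ (hs l hl)
    · obtain ⟨i, hi⟩ := Function.ne_iff.mp hls
      refine Finset.expect_le Finset.univ_nonempty fun y _ => ?_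
      set ρ : Dual (ZMod 2) V := l.comp μ + bl b l y with hρ
      have e1 : 𝔼 x : Fin m → V, iv (ρ + ∑ j, bl b (ls j) (x j) = 0) =
          𝔼 x : Fin m → V, 𝔼 t : V,
            iv (ρ + ∑ j, bl b (ls j) ((x + (Pi.single i t : Fin m → V)) j) = 0) := by
        rw [Finset.expect_comm]
        have : ∀ t : V, 𝔼 x : Fin m → V,
            iv (ρ + ∑ j, bl b (ls j) ((x + (Pi.single i t : Fin m → V)) j) = 0) =
            𝔼 x : Fin m → V, iv (ρ + ∑ j, bl b (ls j) (x j) = 0) := fun t =>
          expect_add_right (fun x : Fin m → V => iv (ρ + ∑ j, bl b (ls j) (x j) = 0))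
            (Pi.single i t : Fin m → V)
        simp only [this]
        exact (Finset.expect_const Finset.univ_nonempty _).symm
      have e0 : 𝔼 x : Fin m → V, iv (Cd (l, ls) y x) =
          𝔼 x : Fin m → V, iv (ρ + ∑ j, bl b (ls j) (x j) = 0) := rfl
      rw [e0, e1]
      refine Finset.expect_le Finset.univ_nonempty fun x _ => ?_
      have e2 : ∀ t : V,
          iv (ρ + ∑ j, bl b (ls j) ((x + (Pi.single i t : Fin m → V)) j) = 0) =
          iv (bl b (ls i) t = - (ρ + ∑ j, bl b (ls j) (x j))) := by
        intro t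
        have e3 : ∑ j, bl b (ls j) ((x + (Pi.single i t : Fin m → V)) j) =
            ∑ j, bl b (ls j) (x j) + bl b (ls i) t := by
          simp only [Pi.add_apply, map_add]
          rw [Finset.sum_add_distrib]
          congr 1
          rw [Finset.sum_eq_single i]
          · rw [Pi.single_eq_same]
          · intro j _ hj
            rw [Pi.single_eq_of_ne hj, map_zero]
          · intro h
            exact absurd (Finset.mem_univ i) h
        rw [e3, ← add_assoc]
        refine iv_congr ?_
        constructor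
        · intro h
          exact eq_neg_of_add_eq_zero_right h
        · intro h
          rw [h, add_neg_cancel]
      simp only [e2]
      exact ker_count (ls i) _ (hs (ls i) hi)
  -- union bound
  have h2 : ∀ (y : V) (x : Fin m → V), iv (DegB b μ y x) ≤
      ∑ p ∈ (Finset.univ : Finset (Dual (ZMod 2) Y × (Fin m → Dual (ZMod 2) Y))).erase 0,
        iv (Cd p y x) := by
    intro y x
    by_cases h : DegB b μ y x
    · rw [iv_pos h]
      obtain ⟨l, ls, hl, hl2⟩ := h
      have hl3 := (hcond l ls y x).1 hl2
      have hne : (l, ls) ≠ (0 : Dual (ZMod 2) Y × (Fin m → Dual (ZMod 2) Y)) := by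
        intro h
        rw [Prod.mk_eq_zero] at h
        rcases hl with hl | hl
        · exact hl h.1
        · exact hl h.2
      rw [← iv_pos hl3]
      exact Finset.single_le_sum
        (f := fun p : Dual (ZMod 2) Y × (Fin m → Dual (ZMod 2) Y) => iv (Cd p y x))
        (fun p _ => iv_nonneg _) (Finset.mem_erase.mpr ⟨hne, Finset.mem_univ _⟩)
    · rw [iv_neg h]
      exact Finset.sum_nonneg fun l _ => iv_nonneg _
  have h3 : 𝔼 y, 𝔼 x : Fin m → V, iv (DegB b μ y x) ≤
      𝔼 y, 𝔼 x : Fin m → V,
        ∑ p ∈ (Finset.univ : Finset (Dual (ZMod 2) Y × (Fin m → Dual (ZMod 2) Y))).erase 0,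
          iv (Cd p y x) :=
    Finset.expect_le_expect fun y _ => Finset.expect_le_expect fun x _ => h2 y x
  refine le_trans h3 ?_
  simp only [Finset.expect_sum_comm]
  refine le_trans (Finset.sum_le_sum fun p hp => h1 p (Finset.ne_of_mem_erase hp)) ?_
  rw [Finset.sum_const, nsmul_eq_mul]
  refine mul_le_mul_of_nonneg_right ?_ (by positivity)
  have h4 : ((Finset.univ : Finset (Dual (ZMod 2) Y × (Fin m → Dual (ZMod 2) Y))).erase 0).card ≤
      Fintype.card Y ^ (m + 1) := by
    refine le_trans (Finset.card_erase_le) ?_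
    rw [Finset.card_univ, Fintype.card_prod, Fintype.card_fun, Fintype.card_fin, card_dual,
      pow_succ, mul_comm]
  exact_mod_cast h4

end

end Pool.Agent.H22.QF
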