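import Pool.Agent.H22.QF.FbSnoc
import Pool.Agent.H22.QF.FbCount

/-!
# FbExt1: adding a direction to a random frame (about 120 lines)

Copy of `ext_one` in `QK/FrExt1.lean`.
PROOF of `ext_one_b`. `Fin (m+1) → V ≃ (Fin m → V) × V` (`Fin.snocEquiv`), `isFb_snoc`: with
`P y x = 𝔼_z iv (...)`, `FB (m+1) F' = |Y|^bexp(m+1) 𝔼 𝔼 iv (IsFb) F P` and
`FB m F = |Y|^bexp(m+1) 𝔼 𝔼 iv (IsFb) F |Y|^-(m+2)`. By `ext_count_b` (with `exists_mu`) and
`degB_count` the difference is at most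
`|Y|^bexp(m+1) ((1/2)^s + |Y|^(m+1) (1/2)^(2s)) ≤ |Y|^bexp(m+1) (2 (1/2)^s)`.
-/

set_option autoImplicit false

open Finset Function Module
open scoped BigOperators
open Pool.Agent.H77.KM
open Pool.Agent.H22.QK

namespace Pool.Agent.H22.QF

section

variable {V : Type} [AddCommGroup V] [Module (ZMod 2) V] [Fintype V]
variable {Y : Type} [AddCommGroup Y] [Module (ZMod 2) Y] [Fintype Y]
variable {g k : V → Y} {b : V →ₗ[ZMod 2] V →ₗ[ZMod 2] Y} {m : ℕ}

theorem ext_one_b (hg : IsQM g b) (hk : IsQM k b) (hk0 : k 0 = 0) {s : ℕ} (hs : Reg b s)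
    (hm : (Fintype.card Y : ℝ) ^ (m + 1) ≤ 2 ^ s)
    (F : V → (Fin m → V) → ℝ) (hF : ∀ y x, |F y x| ≤ 1) :
    |FB g k (m + 1) (fun y x => F y (fun i => x i.castSucc)) - FB g k m F|
      ≤ (Fintype.card Y : ℝ) ^ bexp (m + 1) * (2 * (1 / 2) ^ s) := by
  classical
  obtain ⟨μ, hμ⟩ := exists_mu hg hk
  set c : ℝ := (Fintype.card Y : ℝ) with hc
  have hc0 : 0 < c := by rw [hc]; exact_mod_cast Fintype.card_pos
  set Q : V → (Fin m → V) → ℝ := fun y x =>
    𝔼 z, iv (g z + g 0 + b y z = 0 ∧ k z = 0 ∧ ∀ i, b (x i) z = 0) with hQ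
  have hQ0 : ∀ y x, 0 ≤ Q y x := fun y x => Finset.expect_nonneg fun z _ => iv_nonneg _
  have hQ1 : ∀ y x, Q y x ≤ 1 := fun y x =>
    (Finset.expect_le_expect fun z _ => iv_le_one _).trans (Fintype.expect_const (1 : ℝ)).le
  -- the extended average
  have key : ∀ y, 𝔼 x' : Fin (m + 1) → V, iv (IsFb g k y x') * F y (fun i => x' i.castSucc) =
      𝔼 x : Fin m → V, iv (IsFb g k y x) * F y x * Q y x := by
    intro y
    have e1 : 𝔼 x' : Fin (m + 1) → V, iv (IsFb g k y x') * F y (fun i => x' i.castSucc) =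
        𝔼 p : V × (Fin m → V),
          iv (IsFb g k y (Fin.snoc p.2 p.1 : Fin (m + 1) → V)) * F y p.2 := by
      symm
      refine Fintype.expect_equiv (Fin.snocEquiv (fun _ => V)) _ _ (fun p => ?_)
      have h1 : (Fin.snocEquiv (fun _ : Fin (m + 1) => V)) p =
          (Fin.snoc p.2 p.1 : Fin (m + 1) → V) := rfl
      rw [h1]
      congr 1
      simp
    rw [e1, ← Finset.univ_product_univ, Finset.expect_product, Finset.expect_comm]
    refine Finset.expect_congr rfl fun x _ => ?_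
    rw [hQ]
    simp only
    rw [Finset.mul_expect]
    refine Finset.expect_congr rfl fun z _ => ?_
    rw [iv_congr (isFb_snoc hg hk hk0 y x z), iv_and]
    ring
  have e1 : FB g k (m + 1) (fun y x => F y (fun i => x i.castSucc)) =
      c ^ bexp (m + 1) * 𝔼 y, 𝔼 x : Fin m → V, iv (IsFb g k y x) * F y x * Q y x := by
    unfold FB
    rw [← hc]
    congr 1
    exact Finset.expect_congr rfl fun y _ => key y
  have e2 : FB g k m F = c ^ bexp (m + 1) *
      𝔼 y, 𝔼 x : Fin m → V, iv (IsFb g k y x) * F y x * (1 / c ^ (m + 2)) := by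
    unfold FB
    rw [← hc]
    have h1 : ∀ y, 𝔼 x : Fin m → V, iv (IsFb g k y x) * F y x * (1 / c ^ (m + 2)) =
        (𝔼 x : Fin m → V, iv (IsFb g k y x) * F y x) * (1 / c ^ (m + 2)) := fun y => by
      rw [Finset.expect_mul]
    simp_rw [h1]
    rw [← Finset.expect_mul]
    have h2 : c ^ bexp (m + 1) = c ^ bexp m * c ^ (m + 2) := by
      rw [← pow_add]; rfl
    rw [h2]
    field_simp
  rw [e1, e2, ← mul_sub, abs_mul, abs_of_nonneg (pow_nonneg hc0.le _)]
  refine mul_le_mul_of_nonneg_left ?_ (pow_nonneg hc0.le _)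
  have h3 : (𝔼 y, 𝔼 x : Fin m → V, iv (IsFb g k y x) * F y x * Q y x) -
      𝔼 y, 𝔼 x : Fin m → V, iv (IsFb g k y x) * F y x * (1 / c ^ (m + 2)) =
      𝔼 y, 𝔼 x : Fin m → V, iv (IsFb g k y x) * F y x * (Q y x - 1 / c ^ (m + 2)) := by
    rw [← Finset.expect_sub_distrib]
    refine Finset.expect_congr rfl fun y _ => ?_
    rw [← Finset.expect_sub_distrib]
    refine Finset.expect_congr rfl fun x _ => ?_
    ring
  rw [h3]
  have hm1 : (1 : ℝ) ≤ c ^ (m + 2) := by
    have : (1 : ℝ) ≤ c := by rw [hc]; exact_mod_cast Fintype.card_pos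
    exact one_le_pow₀ this
  have hbd : ∀ (y : V) (x : Fin m → V),
      |iv (IsFb g k y x) * F y x * (Q y x - 1 / c ^ (m + 2))| ≤
        (1 / 2) ^ s + iv (DegB b μ y x) := by
    intro y x
    have h4 : |iv (IsFb g k y x) * F y x| ≤ 1 := by
      rw [abs_mul, abs_of_nonneg (iv_nonneg _)]
      exact mul_le_one₀ (iv_le_one _) (abs_nonneg _) (hF y x)
    have h5 : |Q y x - 1 / c ^ (m + 2)| ≤
        (1 / 2) ^ s + iv (DegB b μ y x) := by
      by_cases hx : DegB b μ y x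
      · rw [iv_pos hx]
        have h6 : |Q y x - 1 / c ^ (m + 2)| ≤ 1 := by
          have h7 : 0 ≤ 1 / c ^ (m + 2) := by positivity
          have h8 : 1 / c ^ (m + 2) ≤ 1 := by
            rw [div_le_one (by positivity)]
            exact hm1
          rw [abs_le]
          constructor
          · have := hQ0 y x
            linarith
          · have := hQ1 y x
            linarith
        have : (0 : ℝ) ≤ (1 / 2) ^ s := by positivity
        linarith
      · rw [iv_neg hx, add_zero]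
        exact ext_count_b hg hk hμ hs y x hx
    rw [abs_mul]
    calc |iv (IsFb g k y x) * F y x| * |Q y x - 1 / c ^ (m + 2)|
        ≤ 1 * |Q y x - 1 / c ^ (m + 2)| := by gcongr
      _ ≤ _ := by rw [one_mul]; exact h5
  have h9 : |𝔼 y, 𝔼 x : Fin m → V, iv (IsFb g k y x) * F y x * (Q y x - 1 / c ^ (m + 2))| ≤
      𝔼 y : V, 𝔼 x : Fin m → V, ((1 / 2) ^ s +
        iv (DegB b μ y x)) := by
    refine (Finset.abs_expect_le _ _).trans (Finset.expect_le_expect fun y _ => ?_)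
    exact (Finset.abs_expect_le _ _).trans (Finset.expect_le_expect fun x _ => hbd y x)
  refine h9.trans ?_
  have hsum : 𝔼 y : V, 𝔼 x : Fin m → V, ((1 / 2) ^ s + iv (DegB b μ y x)) =
      (1 / 2 : ℝ) ^ s + 𝔼 y : V, 𝔼 x : Fin m → V, iv (DegB b μ y x) := by
    simp only [Finset.expect_add_distrib, Fintype.expect_const]
  rw [hsum]
  have h10 := degB_count (Y := Y) hs μ m
  have h11 : c ^ (m + 1) * (1 / 2) ^ (2 * s) ≤ (1 / 2) ^ s := by
    have h12 : (1 / 2 : ℝ) ^ (2 * s) = (1 / 2) ^ s * (1 / 2) ^ s := by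
      rw [two_mul, pow_add]
    have h13 : (2 : ℝ) ^ s * (1 / 2) ^ s = 1 := by
      rw [← mul_pow]; norm_num
    rw [h12, ← mul_assoc]
    calc c ^ (m + 1) * (1 / 2) ^ s * (1 / 2) ^ s ≤ 2 ^ s * (1 / 2) ^ s * (1 / 2) ^ s := by gcongr
      _ = (1 / 2) ^ s := by rw [h13, one_mul]
  linarith

end

end Pool.Agent.H22.QF
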