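import Pool.Agent.H22.QF.FbVal
import Pool.Agent.H22.QF.Indep
import Pool.Agent.H22.QK.FrFour

/-!
# FbFour: upper bound for the sum of fourth moments (about 190 lines)

Compare `FR_four` in `QK/FrFour.lean` (`four_fourier` is there).
PROOF of `four_indep`. Bound `iv (k (z+z') = 0) ≤ 1` and drop the conditions on `g` (they hold on the
support). For fixed `z'` put `f y = E y * E (y + z')`; `bil_indep` gives
`𝔼_y 𝔼_z f y f (y+z) iv (k z = 0) ≤ |Y|^-1 (𝔼_y E y E (y+z'))^2 + (1/2)^s`. Multiply by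
`iv (k z' = 0)` and average over `z'`:
`(𝔼_y E y E (y+z'))^2 = 𝔼_w 𝔼_y E y E (y+w) E (y+z') E (y+w+z')` (the second variable is `y + w`), and
for fixed `w`, `f_w y = E y E (y+w)`: `bil_indep` gives
`𝔼_y 𝔼_z' f_w y f_w (y+z') iv (k z' = 0) ≤ |Y|^-1 (𝔼 f_w)^2 + (1/2)^s`. So the left side is at most
`|Y|^6 (|Y|^-2 𝔼_w (𝔼_y E y E (y+w))^2 + 2 (1/2)^s)` and
`𝔼_w (𝔼_y E y E (y+w))^2 = ∑ (hat E ξ)^4` (`four_fourier`).

PROOF of `FB_four`. `F_{y,x} u = E (y + lc u x)`. By `four_fourier` (on `Fin m → ZMod 2`),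
`FB_expect`, `FB_shift`:
`FB (∑ hat^4) = 𝔼_u 𝔼_v 𝔼_w FB (E y * E (y + lc v x) * E (y + lc w x) * E (y + lc (v+w) x))`.
If `v ≠ 0`, `w ≠ 0`, `v ≠ w`: `FB_two_dir` and `four_indep`: at most
`|Y|^4 ∑ (hat E ξ)^4 + 2 |Y|^6 (1/2)^s + τ ≤ |Y|^4 ∑ (hat E ξ)^4 + 3 τ` (`2 ≤ m`, `bexp 2 = 6`). The
other pairs `(v,w)` have proportion at most `3 (1/2)^m` and give at most `FB 1 ≤ 1 + τ ≤ 2`.
-/

set_option autoImplicit false

open Finset Function Module
open scoped BigOperators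
open Pool.Agent.H77.KM
open Pool.Agent.H22.QK

namespace Pool.Agent.H22.QF

section

variable {V : Type} [AddCommGroup V] [Module (ZMod 2) V] [Fintype V]
variable {Y : Type} [AddCommGroup Y] [Module (ZMod 2) Y] [Fintype Y]
variable {g k : V → Y} {b : V →ₗ[ZMod 2] V →ₗ[ZMod 2] Y} {m : ℕ}

omit [AddCommGroup Y] [Module (ZMod 2) Y] [Fintype Y] [Module (ZMod 2) V] in
private lemma ff_sqexp (F : V → ℝ) : (𝔼 y, F y) ^ 2 = 𝔼 y, 𝔼 w, F y * F (y + w) := by
  rw [sq, Finset.expect_mul_expect]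
  refine Finset.expect_congr rfl (fun y _ => ?_)
  rw [← expect_add_left (fun z => F y * F z) y]

private lemma ff_key (hk : IsQM k b) {s : ℕ} (hs : Reg b s) (f : V → ℝ)
    (hf : ∀ x, |f x| ≤ 1) :
    𝔼 y, 𝔼 z, f y * f (y + z) * iv (k z = 0)
      ≤ 1 / (Fintype.card Y : ℝ) * (𝔼 y, f y) ^ 2 + (1 / 2) ^ s := by
  have h := (abs_le.mp (bil_indep hk hs f f hf hf)).2
  rw [sq]
  linarith

private lemma ff_iv (m : ℕ) (a : Fin m → ZMod 2) :
    𝔼 v : Fin m → ZMod 2, iv (v = a) = (1 / 2) ^ m := by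
  rw [Finset.expect_eq_sum_div_card, Finset.sum_eq_single a]
  · rw [iv_pos rfl]
    simp
  · intro b _ hb
    exact iv_neg hb
  · intro h
    exact absurd (Finset.mem_univ a) h

theorem four_indep (hk : IsQM k b) {s : ℕ} (hs : Reg b s) (E : V → ℝ)
    (hE : ∀ x, E x = 0 ∨ E x = 1) (hEg : ∀ x, E x ≠ 0 → g x = 0) :
    (Fintype.card Y : ℝ) ^ 6 * 𝔼 y, 𝔼 z, 𝔼 z', iv (g y = 0) * iv (g (y + z) = 0)
        * iv (g (y + z') = 0) * iv (g (y + z + z') = 0) * iv (k z = 0) * iv (k z' = 0)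
        * iv (k (z + z') = 0) * (E y * E (y + z) * E (y + z') * E (y + z + z'))
      ≤ (Fintype.card Y : ℝ) ^ 4 * ∑ ξ : Dual (ZMod 2) V, hat E ξ ^ 4
        + 2 * (Fintype.card Y : ℝ) ^ 6 * (1 / 2) ^ s := by
  have hE0 : ∀ x, 0 ≤ E x := fun x => by rcases hE x with h | h <;> rw [h] <;> norm_num
  have hE1 : ∀ x, E x ≤ 1 := fun x => by rcases hE x with h | h <;> rw [h] <;> norm_num
  have hc1 : (1 : ℝ) ≤ Fintype.card Y := by
    exact_mod_cast Fintype.card_pos (α := Y)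
  have hc0 : (0 : ℝ) < Fintype.card Y := by linarith
  obtain ⟨c, hc⟩ : ∃ c : ℝ, c = Fintype.card Y := ⟨_, rfl⟩
  have hδ : (0 : ℝ) ≤ (1 / 2) ^ s := by positivity
  obtain ⟨h, hh⟩ : ∃ h : V → V → ℝ, ∀ w y, h w y = E y * E (y + w) := ⟨_, fun _ _ => rfl⟩
  have hh1 : ∀ w y, |h w y| ≤ 1 := by
    intro w y
    rw [hh, abs_of_nonneg (mul_nonneg (hE0 _) (hE0 _))]
    exact mul_le_one₀ (hE1 _) (hE0 _) (hE1 _)
  obtain ⟨S, hS⟩ : ∃ S : ℝ, S = ∑ ξ : Dual (ZMod 2) V, hat E ξ ^ 4 := ⟨_, rfl⟩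
  -- the sum of the squares
  have hF : 𝔼 w, (𝔼 y, h w y) ^ 2 = S := by
    rw [hS, four_fourier, Finset.expect_comm (s := (Finset.univ : Finset V))
      (t := (Finset.univ : Finset V))
      (f := fun y h => 𝔼 k, E y * E (y + h) * E (y + k) * E (y + h + k))]
    refine Finset.expect_congr rfl (fun w _ => ?_)
    rw [ff_sqexp]
    refine Finset.expect_congr rfl (fun y _ => ?_)
    refine Finset.expect_congr rfl (fun z _ => ?_)
    rw [hh, hh, show y + z + w = y + w + z by abel]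
    ring
  -- second step
  have hD : 𝔼 z', iv (k z' = 0) * (𝔼 y, h z' y) ^ 2
      = 𝔼 w, 𝔼 y, 𝔼 z', h w y * h w (y + z') * iv (k z' = 0) := by
    have h1 : ∀ z', iv (k z' = 0) * (𝔼 y, h z' y) ^ 2
        = 𝔼 w, 𝔼 y, h w y * h w (y + z') * iv (k z' = 0) := by
      intro z'
      rw [ff_sqexp, Finset.expect_comm (s := (Finset.univ : Finset V))
        (t := (Finset.univ : Finset V)) (f := fun y w => h z' y * h z' (y + w)),
        Finset.mul_expect]
      refine Finset.expect_congr rfl (fun w _ => ?_)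
      rw [Finset.mul_expect]
      refine Finset.expect_congr rfl (fun y _ => ?_)
      rw [hh, hh, hh, hh, show y + z' + w = y + w + z' by abel]
      ring
    simp only [h1]
    rw [Finset.expect_comm (s := (Finset.univ : Finset V)) (t := (Finset.univ : Finset V))
      (f := fun z' w => 𝔼 y, h w y * h w (y + z') * iv (k z' = 0))]
    refine Finset.expect_congr rfl (fun w _ => ?_)
    exact Finset.expect_comm _ _ _
  have hE2 : 𝔼 z', iv (k z' = 0) * (𝔼 y, h z' y) ^ 2 ≤ 1 / c * S + (1 / 2) ^ s := by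
    rw [hD]
    calc 𝔼 w, 𝔼 y, 𝔼 z', h w y * h w (y + z') * iv (k z' = 0)
        ≤ 𝔼 w, (1 / c * (𝔼 y, h w y) ^ 2 + (1 / 2) ^ s) := by
          refine Finset.expect_le_expect fun w _ => ?_
          rw [hc]
          exact ff_key hk hs (h w) (hh1 w)
      _ = 1 / c * S + (1 / 2) ^ s := by
          rw [Finset.expect_add_distrib, ← Finset.mul_expect, hF,
            Finset.expect_const Finset.univ_nonempty]
  -- first step
  have hB : 𝔼 y, 𝔼 z, 𝔼 z', h z' y * h z' (y + z) * iv (k z = 0) * iv (k z' = 0)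
      ≤ 1 / c * (𝔼 z', iv (k z' = 0) * (𝔼 y, h z' y) ^ 2) + (1 / 2) ^ s := by
    have h1 : 𝔼 y, 𝔼 z, 𝔼 z', h z' y * h z' (y + z) * iv (k z = 0) * iv (k z' = 0)
        = 𝔼 z', iv (k z' = 0) * 𝔼 y, 𝔼 z, h z' y * h z' (y + z) * iv (k z = 0) := by
      have h2 : ∀ y, 𝔼 z, 𝔼 z', h z' y * h z' (y + z) * iv (k z = 0) * iv (k z' = 0)
          = 𝔼 z', 𝔼 z, h z' y * h z' (y + z) * iv (k z = 0) * iv (k z' = 0) :=
        fun y => Finset.expect_comm _ _ _
      simp only [h2]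
      rw [Finset.expect_comm (s := (Finset.univ : Finset V)) (t := (Finset.univ : Finset V))
        (f := fun y z' => 𝔼 z, h z' y * h z' (y + z) * iv (k z = 0) * iv (k z' = 0))]
      refine Finset.expect_congr rfl (fun z' _ => ?_)
      rw [Finset.mul_expect]
      refine Finset.expect_congr rfl (fun y _ => ?_)
      rw [Finset.mul_expect]
      refine Finset.expect_congr rfl (fun z _ => ?_)
      ring
    rw [h1]
    calc 𝔼 z', iv (k z' = 0) * 𝔼 y, 𝔼 z, h z' y * h z' (y + z) * iv (k z = 0)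
        ≤ 𝔼 z', (1 / c * (iv (k z' = 0) * (𝔼 y, h z' y) ^ 2) + (1 / 2) ^ s) := by
          refine Finset.expect_le_expect fun z' _ => ?_
          have h3 := ff_key hk hs (h z') (hh1 z')
          rw [← hc] at h3
          rcases iv_cases (k z' = 0) with h4 | h4
          · rw [h4, zero_mul, zero_mul, mul_zero, zero_add]
            exact hδ
          · rw [h4, one_mul, one_mul]
            exact h3
      _ = _ := by
          rw [Finset.expect_add_distrib, ← Finset.mul_expect,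
            Finset.expect_const Finset.univ_nonempty]
  -- drop the conditions on `g`
  have hA : 𝔼 y, 𝔼 z, 𝔼 z', iv (g y = 0) * iv (g (y + z) = 0)
        * iv (g (y + z') = 0) * iv (g (y + z + z') = 0) * iv (k z = 0) * iv (k z' = 0)
        * iv (k (z + z') = 0) * (E y * E (y + z) * E (y + z') * E (y + z + z'))
      ≤ 𝔼 y, 𝔼 z, 𝔼 z', h z' y * h z' (y + z) * iv (k z = 0) * iv (k z' = 0) := by
    refine Finset.expect_le_expect fun y _ => ?_
    refine Finset.expect_le_expect fun z _ => ?_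
    refine Finset.expect_le_expect fun z' _ => ?_
    have h0 : ∀ p : Prop, 0 ≤ iv p := fun p => iv_nonneg p
    have h1 : ∀ p : Prop, iv p ≤ 1 := fun p => by
      rcases iv_cases p with h | h <;> rw [h] <;> norm_num
    rw [hh, hh]
    have h5 : iv (g y = 0) * iv (g (y + z) = 0) * iv (g (y + z') = 0) * iv (g (y + z + z') = 0)
        * iv (k (z + z') = 0) ≤ 1 :=
      mul_le_one₀ (mul_le_one₀ (mul_le_one₀ (mul_le_one₀ (h1 _) (h0 _) (h1 _)) (h0 _) (h1 _))
        (h0 _) (h1 _)) (h0 _) (h1 _)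
    have h6 : 0 ≤ E y * E (y + z) * E (y + z') * E (y + z + z') * iv (k z = 0)
        * iv (k z' = 0) :=
      mul_nonneg (mul_nonneg (mul_nonneg (mul_nonneg (mul_nonneg (hE0 _) (hE0 _)) (hE0 _))
        (hE0 _)) (h0 _)) (h0 _)
    have h7 := mul_le_mul_of_nonneg_right h5 h6
    linarith
  have hfin : 𝔼 y, 𝔼 z, 𝔼 z', iv (g y = 0) * iv (g (y + z) = 0)
        * iv (g (y + z') = 0) * iv (g (y + z + z') = 0) * iv (k z = 0) * iv (k z' = 0)
        * iv (k (z + z') = 0) * (E y * E (y + z) * E (y + z') * E (y + z + z'))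
      ≤ 1 / c * (1 / c * S + (1 / 2) ^ s) + (1 / 2) ^ s := by
    refine hA.trans (hB.trans ?_)
    have : 0 ≤ 1 / c := by rw [hc]; positivity
    have := mul_le_mul_of_nonneg_left hE2 this
    linarith
  rw [← hc] at hc1 hc0 ⊢
  rw [← hS]
  have hc6 : (0 : ℝ) ≤ c ^ 6 := by positivity
  refine (mul_le_mul_of_nonneg_left hfin hc6).trans ?_
  have e1 : c ^ 6 * (1 / c * (1 / c * S + (1 / 2) ^ s) + (1 / 2) ^ s)
      = c ^ 4 * S + c ^ 5 * (1 / 2) ^ s + c ^ 6 * (1 / 2) ^ s := by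
    field_simp
  rw [e1]
  have e2 : c ^ 5 ≤ c ^ 6 := pow_le_pow_right₀ hc1 (by norm_num)
  have e3 := mul_le_mul_of_nonneg_right e2 hδ
  linarith

theorem FB_four (hg : IsQM g b) (hk : IsQM k b) (hk0 : k 0 = 0) {s : ℕ} (hs : Reg b s)
    (hm : 2 ≤ m) (hτ : tauB Y m s ≤ 1)
    (E : V → ℝ) (hE : ∀ x, E x = 0 ∨ E x = 1) (hEg : ∀ x, E x ≠ 0 → g x = 0) :
    FB g k m (fun y x => ∑ φ : Dual (ZMod 2) (Fin m → ZMod 2),
        hat (fun u => E (y + lc u x)) φ ^ 4)
      ≤ (Fintype.card Y : ℝ) ^ 4 * ∑ ξ : Dual (ZMod 2) V, hat E ξ ^ 4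
        + 6 * (1 / 2) ^ m + 3 * tauB Y m s := by
  have hE0 : ∀ x, 0 ≤ E x := fun x => by rcases hE x with h | h <;> rw [h] <;> norm_num
  have hE1 : ∀ x, E x ≤ 1 := fun x => by rcases hE x with h | h <;> rw [h] <;> norm_num
  have hp0 : ∀ x1 x2 x3 x4, 0 ≤ E x1 * E x2 * E x3 * E x4 := fun x1 x2 x3 x4 =>
    mul_nonneg (mul_nonneg (mul_nonneg (hE0 _) (hE0 _)) (hE0 _)) (hE0 _)
  have hp1 : ∀ x1 x2 x3 x4, E x1 * E x2 * E x3 * E x4 ≤ 1 := fun x1 x2 x3 x4 =>
    mul_le_one₀ (mul_le_one₀ (mul_le_one₀ (hE1 _) (hE0 _) (hE1 _)) (hE0 _) (hE1 _)) (hE0 _) (hE1 _)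
  have hτ0 : 0 ≤ tauB Y m s := by
    unfold tauB
    positivity
  have hc1 : (1 : ℝ) ≤ Fintype.card Y := by
    exact_mod_cast Fintype.card_pos (α := Y)
  have hcτ : (Fintype.card Y : ℝ) ^ 6 * (1 / 2) ^ s ≤ tauB Y m s := by
    unfold tauB
    refine mul_le_mul_of_nonneg_right ?_ (by positivity)
    have h1 : (Fintype.card Y : ℝ) ^ 6 ≤ (Fintype.card Y : ℝ) ^ (bexp m + m + 2) := by
      refine pow_le_pow_right₀ hc1 ?_
      have h2 : bexp 2 ≤ bexp m := bexp_mono hm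
      have h3 : bexp 2 = 6 := rfl
      omega
    have h4 : (1 : ℝ) ≤ 4 * (m + 1) := by
      have : (0 : ℝ) ≤ m := Nat.cast_nonneg m
      linarith
    have h5 : (0 : ℝ) ≤ (Fintype.card Y : ℝ) ^ (bexp m + m + 2) := by positivity
    calc (Fintype.card Y : ℝ) ^ 6 ≤ (Fintype.card Y : ℝ) ^ (bexp m + m + 2) * 1 := by
          rw [mul_one]; exact h1
      _ ≤ _ := mul_le_mul_of_nonneg_left h4 h5
  -- the value for a pair of directions
  obtain ⟨R, hR⟩ : ∃ R : (Fin m → ZMod 2) → (Fin m → ZMod 2) → ℝ, ∀ v w, R v w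
      = FB g k m (fun y x => E y * E (y + lc v x) * E (y + lc w x) * E (y + lc (v + w) x)) :=
    ⟨_, fun _ _ => rfl⟩
  have e1 : FB g k m (fun y x => ∑ φ : Dual (ZMod 2) (Fin m → ZMod 2),
        hat (fun u => E (y + lc u x)) φ ^ 4)
      = 𝔼 u : Fin m → ZMod 2, 𝔼 v : Fin m → ZMod 2, 𝔼 w : Fin m → ZMod 2,
        FB g k m (fun y x => E (y + lc u x) * E (y + lc (u + v) x) * E (y + lc (u + w) x)
          * E (y + lc (u + v + w) x)) := by
    have e2 : (fun (y : V) (x : Fin m → V) => ∑ φ : Dual (ZMod 2) (Fin m → ZMod 2),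
        hat (fun u => E (y + lc u x)) φ ^ 4)
        = fun y x => 𝔼 u : Fin m → ZMod 2, 𝔼 v : Fin m → ZMod 2, 𝔼 w : Fin m → ZMod 2,
          E (y + lc u x) * E (y + lc (u + v) x) * E (y + lc (u + w) x)
          * E (y + lc (u + v + w) x) := by
      funext y x
      exact four_fourier (fun u => E (y + lc u x))
    rw [e2, FB_expect (fun (u : Fin m → ZMod 2) y x => 𝔼 v : Fin m → ZMod 2,
      𝔼 w : Fin m → ZMod 2, E (y + lc u x) * E (y + lc (u + v) x) * E (y + lc (u + w) x)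
          * E (y + lc (u + v + w) x))]
    refine Finset.expect_congr rfl (fun u _ => ?_)
    rw [FB_expect (fun (v : Fin m → ZMod 2) y x =>
      𝔼 w : Fin m → ZMod 2, E (y + lc u x) * E (y + lc (u + v) x) * E (y + lc (u + w) x)
          * E (y + lc (u + v + w) x))]
    refine Finset.expect_congr rfl (fun v _ => ?_)
    exact FB_expect (fun (w : Fin m → ZMod 2) y x =>
      E (y + lc u x) * E (y + lc (u + v) x) * E (y + lc (u + w) x)
          * E (y + lc (u + v + w) x))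
  have e3 : ∀ u v w : Fin m → ZMod 2,
      FB g k m (fun y x => E (y + lc u x) * E (y + lc (u + v) x) * E (y + lc (u + w) x)
          * E (y + lc (u + v + w) x)) = R v w := by
    intro u v w
    rw [hR, ← FB_shift (g := g) (k := k) (fun y x => E y * E (y + lc v x) * E (y + lc w x)
      * E (y + lc (v + w) x)) u]
    congr 1
    funext y x
    rw [lc_add u v, lc_add u w, lc_add (u + v) w, lc_add u v, lc_add v w]
    simp only [add_assoc]
  rw [e1]
  simp only [e3]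
  rw [Finset.expect_const Finset.univ_nonempty]
  have hR2 : ∀ v w, R v w ≤ 2 := by
    intro v w
    have h1 : R v w ≤ FB g k m (fun _ _ => 1) := by
      rw [hR]
      exact FB_mono (fun y x _ => hp1 _ _ _ _)
    have h2 := (abs_le.mp (FB_one (m := m) hg hk hk0 hs hτ)).2
    linarith
  have hRg : ∀ v w, v ≠ 0 → w ≠ 0 → v ≠ w → R v w
      ≤ (Fintype.card Y : ℝ) ^ 4 * ∑ ξ : Dual (ZMod 2) V, hat E ξ ^ 4 + 3 * tauB Y m s := by
    intro v w hv hw hvw
    have h1 := (abs_le.mp (FB_two_dir (m := m) hg hk hk0 hs hτ hv hw hvw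
      (fun y z z' => E y * E (y + z) * E (y + z') * E (y + z + z'))
      (fun y z z' => by rw [abs_of_nonneg (hp0 _ _ _ _)]; exact hp1 _ _ _ _))).2
    have h2 : FB g k m (fun y x => E y * E (y + lc v x) * E (y + lc w x)
        * E (y + lc v x + lc w x)) = R v w := by
      rw [hR]
      congr 1
      funext y x
      rw [lc_add, add_assoc]
    have h3 := four_indep hk hs E hE hEg
    rw [h2] at h1
    linarith
  have hB0 : 0 ≤ (Fintype.card Y : ℝ) ^ 4 * ∑ ξ : Dual (ZMod 2) V, hat E ξ ^ 4 := by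
    refine mul_nonneg (by positivity) (Finset.sum_nonneg (fun ξ _ => ?_))
    have : hat E ξ ^ 4 = (hat E ξ ^ 2) ^ 2 := by ring
    rw [this]
    exact sq_nonneg _
  have hall : ∀ v w, R v w
      ≤ (Fintype.card Y : ℝ) ^ 4 * ∑ ξ : Dual (ZMod 2) V, hat E ξ ^ 4 + 3 * tauB Y m s
        + 2 * (iv (v = 0) + iv (w = 0) + iv (w = v)) := by
    intro v w
    have i1 := iv_nonneg (v = 0)
    have i2 := iv_nonneg (w = 0)
    have i3 := iv_nonneg (w = v)
    by_cases hv : v = 0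
    · rw [iv_pos hv]
      have := hR2 v w
      linarith
    · by_cases hw : w = 0
      · rw [iv_pos hw]
        have := hR2 v w
        linarith
      · by_cases hvw : w = v
        · rw [iv_pos hvw]
          have := hR2 v w
          linarith
        · have := hRg v w hv hw (fun h => hvw h.symm)
          linarith
  calc 𝔼 v, 𝔼 w, R v w ≤ 𝔼 v : Fin m → ZMod 2, 𝔼 w : Fin m → ZMod 2,
        ((Fintype.card Y : ℝ) ^ 4 * ∑ ξ : Dual (ZMod 2) V, hat E ξ ^ 4 + 3 * tauB Y m s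
        + 2 * (iv (v = 0) + iv (w = 0) + iv (w = v))) :=
        Finset.expect_le_expect (fun v _ => Finset.expect_le_expect (fun w _ => hall v w))
    _ = _ := by
        simp only [Finset.expect_add_distrib, ← Finset.mul_expect, ff_iv,
          Finset.expect_const Finset.univ_nonempty]
        ring


end

end Pool.Agent.H22.QF
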