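import Pool.Agent.H22.QF.FbExt1
import Pool.Agent.H22.QK.QCount

/-!
# FbMany: adding many directions (about 90 lines)

Copy of `QK/FrMany.lean`.
PROOF of `ext_many_b`: induction on `n` from `ext_one_b` (applied with `j + n`,
`|Y|^(j+n+1) ≤ 2^s`); the errors add up to at most `n |Y|^bexp(j+n) (2 (1/2)^s)` (`bexp_mono`). Note
`(Fin.castAdd n i).castSucc = Fin.castAdd (n+1) i`.
`pow_le_of_tauB`: `|Y|^(m+1) ≤ |Y|^bexp m ≤ |Y|^(bexp m + m + 2) ≤ 2^s` (`le_bexp`).
PROOF of `FB_one`: `ext_many_b` with `j = 0` and `count_zero` (`FB g k 0 1 = |Y| 𝔼 iv (g y = 0)`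
because `k 0 = 0`, error `|Y| (1/2)^s`).
-/

set_option autoImplicit false

open Finset Function Module
open scoped BigOperators
open Pool.Agent.H77.KM
open Pool.Agent.H22.QK

namespace Pool.Agent.H22.QF

section

variable {V : Type} [AddCommGroup V] [Module (ZMod 2) V] [Fintype V]
variable {Y : Type} [AddCommGroup Y] [Module (ZMod 2) Y] [Fintype Y]
variable {g k : V → Y} {b : V →ₗ[ZMod 2] V →ₗ[ZMod 2] Y} {m : ℕ}

theorem ext_many_b (hg : IsQM g b) (hk : IsQM k b) (hk0 : k 0 = 0) {s : ℕ} (hs : Reg b s)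
    (j n : ℕ) (hm : (Fintype.card Y : ℝ) ^ (j + n) ≤ 2 ^ s)
    (F : V → (Fin j → V) → ℝ) (hF : ∀ y x, |F y x| ≤ 1) :
    |FB g k (j + n) (fun y x => F y (fun i => x (Fin.castAdd n i))) - FB g k j F|
      ≤ n * ((Fintype.card Y : ℝ) ^ bexp (j + n) * (2 * (1 / 2) ^ s)) := by
  have hc1 : (1 : ℝ) ≤ Fintype.card Y := by exact_mod_cast Fintype.card_pos
  induction n with
  | zero =>
    have h0 : FB g k (j + 0) (fun y x => F y (fun i => x (Fin.castAdd 0 i))) = FB g k j F := rfl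
    rw [h0, sub_self, abs_zero]
    positivity
  | succ n ih =>
    have hm' : (Fintype.card Y : ℝ) ^ (j + n) ≤ 2 ^ s :=
      (pow_le_pow_right₀ hc1 (by omega)).trans hm
    have hm'' : (Fintype.card Y : ℝ) ^ (j + n + 1) ≤ 2 ^ s := hm
    have h1 := ih hm'
    have h2 := ext_one_b hg hk hk0 hs (m := j + n) hm'' (fun y x => F y (fun i => x (Fin.castAdd n i)))
      (fun y x => hF y _)
    have h3 : FB g k (j + n + 1)
        (fun y x => (fun y (x : Fin (j + n) → V) => F y (fun i => x (Fin.castAdd n i))) y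
          (fun i => x i.castSucc)) =
        FB g k (j + (n + 1)) (fun y x => F y (fun i => x (Fin.castAdd (n + 1) i))) := rfl
    rw [h3] at h2
    have h4 : (Fintype.card Y : ℝ) ^ bexp (j + n) ≤ (Fintype.card Y : ℝ) ^ bexp (j + (n + 1)) :=
      pow_le_pow_right₀ hc1 (bexp_mono (by omega))
    have h5 : (n : ℝ) * ((Fintype.card Y : ℝ) ^ bexp (j + n) * (2 * (1 / 2) ^ s)) ≤
        n * ((Fintype.card Y : ℝ) ^ bexp (j + (n + 1)) * (2 * (1 / 2) ^ s)) := by
      gcongr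
    have h6 := abs_sub_le (FB g k (j + (n + 1)) (fun y x => F y (fun i => x (Fin.castAdd (n + 1) i))))
      (FB g k (j + n) (fun y x => F y (fun i => x (Fin.castAdd n i)))) (FB g k j F)
    have h7 : j + n + 1 = j + (n + 1) := rfl
    rw [h7] at h2
    push_cast
    linarith

theorem pow_le_of_tauB {s : ℕ} (hτ : tauB Y m s ≤ 1) :
    (Fintype.card Y : ℝ) ^ (m + 1) ≤ 2 ^ s := by
  have hc1 : (1 : ℝ) ≤ Fintype.card Y := by exact_mod_cast Fintype.card_pos
  have h1 : (Fintype.card Y : ℝ) ^ (m + 1) ≤ (Fintype.card Y : ℝ) ^ (bexp m + m + 2) :=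
    pow_le_pow_right₀ hc1 (by omega)
  have h2 : (0 : ℝ) < 2 ^ s := by positivity
  have h3 : ((1 : ℝ) / 2) ^ s * 2 ^ s = 1 := by
    rw [← mul_pow]; norm_num
  have h4 : (0 : ℝ) ≤ (Fintype.card Y : ℝ) ^ (bexp m + m + 2) := by positivity
  unfold tauB at hτ
  have h5 : (Fintype.card Y : ℝ) ^ (bexp m + m + 2) * (4 * (m + 1)) ≤ 2 ^ s := by
    calc (Fintype.card Y : ℝ) ^ (bexp m + m + 2) * (4 * (m + 1))
        = ((Fintype.card Y : ℝ) ^ (bexp m + m + 2) * (4 * (m + 1)) * (1 / 2) ^ s) * 2 ^ s := by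
          rw [mul_assoc _ _ ((2 : ℝ) ^ s), h3, mul_one]
      _ ≤ 1 * 2 ^ s := by gcongr
      _ = 2 ^ s := one_mul _
  have h6 : (0 : ℝ) ≤ m := Nat.cast_nonneg m
  nlinarith [mul_nonneg h4 h6]

theorem FB_one (hg : IsQM g b) (hk : IsQM k b) (hk0 : k 0 = 0) {s : ℕ} (hs : Reg b s)
    (hτ : tauB Y m s ≤ 1) :
    |FB g k m (fun _ _ => 1) - 1| ≤ tauB Y m s := by
  have hc1 : (1 : ℝ) ≤ Fintype.card Y := by exact_mod_cast Fintype.card_pos
  have hc0 : (0 : ℝ) < Fintype.card Y := by linarith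
  have hpow := pow_le_of_tauB hτ
  have h1 := ext_many_b hg hk hk0 hs 0 m (by rw [Nat.zero_add]; exact (pow_le_pow_right₀ hc1 (by omega)).trans hpow) (fun _ _ => 1)
    (fun _ _ => by rw [abs_one])
  have h2 : FB g k (0 + m) (fun _ _ => 1) = FB g k m (fun _ _ => 1) := by rw [Nat.zero_add]
  rw [h2, Nat.zero_add] at h1
  have h3 : FB g k 0 (fun _ _ => (1 : ℝ)) = (Fintype.card Y : ℝ) * 𝔼 y, iv (g y = 0) := by
    unfold FB
    have hm0 : bexp 0 = 1 := rfl
    rw [hm0, pow_one]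
    congr 1
    refine Finset.expect_congr rfl fun y _ => ?_
    have h4 : ∀ x : Fin 0 → V, iv (IsFb g k y x) * 1 = iv (g y = 0) := by
      intro x
      rw [mul_one]
      refine iv_congr ?_
      have h5 : ∀ u : Fin 0 → ZMod 2, lc u x = 0 := fun u => by
        simp [lc]
      constructor
      · intro h
        have := h.1 0
        rwa [h5, add_zero] at this
      · intro h
        refine ⟨fun u => ?_, fun u => ?_⟩
        · rw [h5, add_zero]
          exact h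
        · rw [h5]
          exact hk0
    simp only [h4]
    exact Fintype.expect_const _
  have h5 := count_zero hg hs
  have h6 : |FB g k 0 (fun _ _ => (1 : ℝ)) - 1| ≤ (Fintype.card Y : ℝ) * (1 / 2) ^ s := by
    rw [h3]
    have h7 : (Fintype.card Y : ℝ) * (𝔼 y, iv (g y = 0)) - 1 =
        (Fintype.card Y : ℝ) * ((𝔼 y, iv (g y = 0)) - 1 / Fintype.card Y) := by
      field_simp
    rw [h7, abs_mul, abs_of_pos hc0]
    gcongr
  have h7 := abs_sub_le (FB g k m (fun _ _ => (1 : ℝ))) (FB g k 0 (fun _ _ => 1)) 1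
  have h8 : (Fintype.card Y : ℝ) ≤ (Fintype.card Y : ℝ) ^ bexp m := by
    have h9 : 1 ≤ bexp m := by
      cases m with
      | zero => exact le_rfl
      | succ m => rw [bexp]; omega
    calc (Fintype.card Y : ℝ) = (Fintype.card Y : ℝ) ^ 1 := (pow_one _).symm
      _ ≤ _ := pow_le_pow_right₀ hc1 h9
  have h9 : (Fintype.card Y : ℝ) * (1 / 2) ^ s ≤ (Fintype.card Y : ℝ) ^ bexp m * (1 / 2) ^ s := by
    gcongr
  have h10 : (0 : ℝ) ≤ (Fintype.card Y : ℝ) ^ bexp m * (1 / 2) ^ s := by positivity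
  unfold tauB
  calc |FB g k m (fun _ _ => (1 : ℝ)) - 1|
      ≤ m * ((Fintype.card Y : ℝ) ^ bexp m * (2 * (1 / 2) ^ s)) +
        (Fintype.card Y : ℝ) * (1 / 2) ^ s := h7.trans (add_le_add h1 h6)
    _ ≤ m * ((Fintype.card Y : ℝ) ^ bexp m * (2 * (1 / 2) ^ s)) +
        (Fintype.card Y : ℝ) ^ bexp m * (1 / 2) ^ s := by linarith
    _ ≤ (Fintype.card Y : ℝ) ^ bexp m * (4 * (m + 1)) * (1 / 2) ^ s := by
        have hm0 : (0 : ℝ) ≤ m := Nat.cast_nonneg m
        nlinarith [h10, mul_nonneg hm0 h10]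
    _ ≤ _ := by
        have h11 : (Fintype.card Y : ℝ) ^ bexp m ≤ (Fintype.card Y : ℝ) ^ (bexp m + m + 2) :=
          pow_le_pow_right₀ hc1 (by omega)
        gcongr

end

end Pool.Agent.H22.QF
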