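import Pool.Agent.H22.QF.FbDefs
import Pool.Agent.H22.QK.QBase

/-!
# FbSnoc: adding a direction to a frame, the algebra (about 80 lines)

Copy of `isFr_snoc` in `QK/FrExt.lean`.
PROOF of `isFb_snoc`. A vector of `Fin (m+1) → ZMod 2` is `(u, 0)` or `(u, 1)`;
`g (y + lc u x + z) = g (y + lc u x) + g z + g 0 + b (y + lc u x) z`,
`k (lc u x + z) = k (lc u x) + k z + k 0 + b (lc u x) z`, `b (lc u x) z = ∑ u_i b (x_i) z`. If the
right side holds all values vanish; conversely take `u = 0`, then `u = Pi.single i 1`.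

PROOF of `exists_mu`: `z ↦ g z + k z + g 0 + k 0` is additive (characteristic two).
-/

set_option autoImplicit false

open Finset Function Module
open scoped BigOperators
open Pool.Agent.H77.KM
open Pool.Agent.H22.QK

namespace Pool.Agent.H22.QF

section

variable {V : Type} [AddCommGroup V] [Module (ZMod 2) V] [Fintype V]
variable {Y : Type} [AddCommGroup Y] [Module (ZMod 2) Y] [Fintype Y]
variable {g k : V → Y} {b : V →ₗ[ZMod 2] V →ₗ[ZMod 2] Y} {m : ℕ}

omit [Fintype V] [Fintype Y] in
private lemma lc_snocB (u : Fin (m + 1) → ZMod 2) (x : Fin m → V) (z : V) :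
    lc u (Fin.snoc x z : Fin (m + 1) → V) =
      lc (fun i => u i.castSucc) x + u (Fin.last m) • z := by
  unfold lc
  rw [Fin.sum_univ_castSucc]
  simp

omit [Fintype V] [Fintype Y] in
private lemma lc_snocB' (u : Fin m → ZMod 2) (c : ZMod 2) (x : Fin m → V) (z : V) :
    lc (Fin.snoc u c : Fin (m + 1) → ZMod 2) (Fin.snoc x z : Fin (m + 1) → V) =
      lc u x + c • z := by
  rw [lc_snocB]
  simp

theorem isFb_snoc (hg : IsQM g b) (hk : IsQM k b) (hk0 : k 0 = 0) (y : V) (x : Fin m → V)
    (z : V) :
    IsFb g k y (Fin.snoc x z : Fin (m + 1) → V) ↔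
      IsFb g k y x ∧ (g z + g 0 + b y z = 0 ∧ k z = 0 ∧ ∀ i, b (x i) z = 0) := by
  have key : ∀ u : Fin m → ZMod 2, g (y + lc u x) = 0 →
      g (y + (lc u x + z)) = (g z + g 0 + b y z) + b (lc u x) z := by
    intro u hu
    rw [← add_assoc, hg (y + lc u x) z, hu, map_add, LinearMap.add_apply]
    abel
  have key' : ∀ u : Fin m → ZMod 2, k (lc u x) = 0 →
      k (lc u x + z) = k z + b (lc u x) z := by
    intro u hu
    rw [hk (lc u x) z, hu, hk0]
    abel
  constructor
  · intro h
    have h1 : IsFb g k y x := by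
      refine ⟨fun u => ?_, fun u => ?_⟩
      · have := h.1 (Fin.snoc u 0)
        rwa [lc_snocB', zero_smul, add_zero] at this
      · have := h.2 (Fin.snoc u 0)
        rwa [lc_snocB', zero_smul, add_zero] at this
    have h2 : ∀ u : Fin m → ZMod 2, (g z + g 0 + b y z) + b (lc u x) z = 0 := by
      intro u
      have := h.1 (Fin.snoc u 1)
      rw [lc_snocB', one_smul] at this
      rw [← key u (h1.1 u), this]
    have h3 : g z + g 0 + b y z = 0 := by
      have := h2 0
      rwa [lc_zero, map_zero, LinearMap.zero_apply, add_zero] at this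
    have h4 : k z = 0 := by
      have := h.2 (Fin.snoc 0 1)
      rw [lc_snocB', one_smul, key' 0 (h1.2 0), lc_zero, map_zero, LinearMap.zero_apply,
        add_zero] at this
      exact this
    refine ⟨h1, h3, h4, fun i => ?_⟩
    have := h2 (Pi.single i 1)
    rwa [lc_single, h3, zero_add] at this
  · rintro ⟨h1, h2, h4, h3⟩
    have hb : ∀ u : Fin m → ZMod 2, b (lc u x) z = 0 := by
      intro u
      unfold lc
      rw [map_sum, LinearMap.sum_apply]
      refine Finset.sum_eq_zero fun i _ => ?_
      rw [map_smul, LinearMap.smul_apply, h3 i, smul_zero]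
    have hc : ∀ c : ZMod 2, c = 0 ∨ c = 1 := by decide
    refine ⟨fun u => ?_, fun u => ?_⟩
    · rw [lc_snocB]
      rcases hc (u (Fin.last m)) with h | h
      · rw [h, zero_smul, add_zero]
        exact h1.1 _
      · rw [h, one_smul, key _ (h1.1 _), h2, zero_add, hb]
    · rw [lc_snocB]
      rcases hc (u (Fin.last m)) with h | h
      · rw [h, zero_smul, add_zero]
        exact h1.2 _
      · rw [h, one_smul, key' _ (h1.2 _), h4, zero_add, hb]

/-- Two quadratic maps with the same polarisation differ by an affine map. -/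
theorem exists_mu (hg : IsQM g b) (hk : IsQM k b) :
    ∃ μ : V →ₗ[ZMod 2] Y, ∀ z, g z = k z + μ z + (g 0 + k 0) := by
  obtain ⟨h, hh⟩ := IsQM.two hk hg
  refine ⟨h, fun z => ?_⟩
  have h1 := hh z 0
  rw [add_zero, map_zero, LinearMap.zero_apply, zero_add] at h1
  have e := ZModModule.add_self (k z)
  calc g z = (k z + k z) + g z := by rw [e, zero_add]
    _ = k z + (k z + g z) := by abel
    _ = k z + (h z + (g 0 + k 0)) := by rw [h1]
    _ = k z + h z + (g 0 + k 0) := by abel

end

end Pool.Agent.H22.QF
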