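import Pool.Agent.H22.QF.FbMany
import Pool.Agent.H22.QF.FbAct

/-!
# FbVal: the joint distribution of a few points of a random frame (about 240 lines)

Copy of `QK/FrVal.lean` (`ext_many_b` with `j = 0, 1, 2`, the invariance `FB_act` and the linear
automorphism of `Fin m → ZMod 2` that moves given independent vectors to the first coordinate
vectors). For `j = 0`: `IsFb g k y x ↔ g y = 0` (`k 0 = 0`); for `j = 1`:
`g y = 0 ∧ g (y + x 0) = 0 ∧ k (x 0) = 0`; for `j = 2`: `g` vanishes at `y, y + x 0, y + x 1,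
y + x 0 + x 1` and `k` at `x 0, x 1, x 0 + x 1`. `bexp 0 = 1`, `bexp 1 = 3`, `bexp 2 = 6`. The
errors are at most `m |Y|^bexp m (2 (1/2)^s) ≤ tauB Y m s`.
-/

set_option autoImplicit false

open Finset Function Module
open scoped BigOperators
open Pool.Agent.H77.KM
open Pool.Agent.H22.QK

namespace Pool.Agent.H22.QF

section

variable {V : Type} [AddCommGroup V] [Module (ZMod 2) V] [Fintype V]
variable {Y : Type} [AddCommGroup Y] [Module (ZMod 2) Y] [Fintype Y]
variable {g k : V → Y} {b : V →ₗ[ZMod 2] V →ₗ[ZMod 2] Y} {m : ℕ}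

private theorem exists_auto {j n : ℕ} {f : Fin j → (Fin (j + n) → ZMod 2)}
    (hf : LinearIndependent (ZMod 2) f) :
    ∃ M : (Fin (j + n) → ZMod 2) ≃ₗ[ZMod 2] (Fin (j + n) → ZMod 2),
      ∀ i, M (Pi.single (Fin.castAdd n i) 1) = f i := by
  classical
  have he : LinearIndependent (ZMod 2)
      (fun i : Fin j => (Pi.single (Fin.castAdd n i) 1 : Fin (j + n) → ZMod 2)) := by
    have h := (Pi.basisFun (ZMod 2) (Fin (j + n))).linearIndependent
    have h2 := h.comp (Fin.castAdd n : Fin j → Fin (j + n)) (Fin.castAdd_injective j n)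
    convert h2 using 1
    funext i
    simp
  obtain ⟨M, hM⟩ := Submodule.exists_linearEquiv_restrict_eq
    (he.linearCombinationEquiv.symm ≪≫ₗ hf.linearCombinationEquiv)
  refine ⟨M, fun i => ?_⟩
  have h1 := hM (he.linearCombinationEquiv (Finsupp.single i 1))
  simp only [LinearEquiv.trans_apply, LinearEquiv.symm_apply_apply] at h1
  simpa [LinearIndependent.linearCombinationEquiv_apply_coe] using h1.symm

private theorem err_le (n : ℕ) (hn : n ≤ m) (s : ℕ) :
    (n : ℝ) * ((Fintype.card Y : ℝ) ^ bexp m * (2 * (1 / 2) ^ s)) ≤ tauB Y m s := by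
  unfold tauB
  have hY : (1 : ℝ) ≤ (Fintype.card Y : ℝ) := by exact_mod_cast Fintype.card_pos
  have h0 : (0 : ℝ) ≤ (Fintype.card Y : ℝ) ^ bexp m := by positivity
  have h1 : (Fintype.card Y : ℝ) ^ bexp m ≤ (Fintype.card Y : ℝ) ^ (bexp m + m + 2) :=
    pow_le_pow_right₀ hY (by omega)
  have h2 : (0 : ℝ) ≤ (1 / 2 : ℝ) ^ s := by positivity
  have h3 : (n : ℝ) ≤ m + 1 := by
    have : (n : ℝ) ≤ m := by exact_mod_cast hn
    linarith
  calc (n : ℝ) * ((Fintype.card Y : ℝ) ^ bexp m * (2 * (1 / 2) ^ s))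
      = (n : ℝ) * (2 * ((Fintype.card Y : ℝ) ^ bexp m * (1 / 2) ^ s)) := by ring
    _ ≤ (m + 1 : ℝ) * (2 * ((Fintype.card Y : ℝ) ^ bexp m * (1 / 2) ^ s)) := by
        apply mul_le_mul_of_nonneg_right h3
        positivity
    _ ≤ (m + 1 : ℝ) * (2 * ((Fintype.card Y : ℝ) ^ (bexp m + m + 2) * (1 / 2) ^ s)) := by
        apply mul_le_mul_of_nonneg_left _ (by positivity)
        apply mul_le_mul_of_nonneg_left _ (by norm_num)
        exact mul_le_mul_of_nonneg_right h1 h2
    _ ≤ (m + 1 : ℝ) * (4 * ((Fintype.card Y : ℝ) ^ (bexp m + m + 2) * (1 / 2) ^ s)) := by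
        apply mul_le_mul_of_nonneg_left _ (by positivity)
        apply mul_le_mul_of_nonneg_right (by norm_num)
        positivity
    _ = _ := by ring

private theorem pow_le_of {j n s : ℕ} (hτ : tauB Y (j + n) s ≤ 1) :
    (Fintype.card Y : ℝ) ^ (j + n) ≤ 2 ^ s := by
  have hY : (1 : ℝ) ≤ (Fintype.card Y : ℝ) := by exact_mod_cast Fintype.card_pos
  exact (pow_le_pow_right₀ hY (by omega)).trans (pow_le_of_tauB hτ)

private theorem lc_fin0 (u : Fin 0 → ZMod 2) (x : Fin 0 → V) : lc u x = 0 := by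
  simp [lc]

private theorem lc_fin1 (u : Fin 1 → ZMod 2) (x : Fin 1 → V) : lc u x = u 0 • x 0 := by
  simp [lc]

private theorem lc_fin2 (u : Fin 2 → ZMod 2) (x : Fin 2 → V) :
    lc u x = u 0 • x 0 + u 1 • x 1 := by
  simp [lc, Fin.sum_univ_two]

private theorem isFb0 (hk0 : k 0 = 0) (y : V) (x : Fin 0 → V) : IsFb g k y x ↔ g y = 0 := by
  constructor
  · intro h
    have := h.1 0
    simpa [lc_fin0] using this
  · intro h
    exact ⟨fun u => by simpa [lc_fin0] using h, fun u => by simpa [lc_fin0] using hk0⟩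

private theorem isFb1 (hk0 : k 0 = 0) (y : V) (x : Fin 1 → V) :
    IsFb g k y x ↔ ((g y = 0 ∧ g (y + x 0) = 0) ∧ k (x 0) = 0) := by
  constructor
  · intro h
    refine ⟨⟨?_, ?_⟩, ?_⟩
    · have := h.1 (fun _ => 0)
      simpa [lc_fin1] using this
    · have := h.1 (fun _ => 1)
      simpa [lc_fin1] using this
    · have := h.2 (fun _ => 1)
      simpa [lc_fin1] using this
  · rintro ⟨⟨h1, h2⟩, h4⟩
    have h3 : ∀ a : ZMod 2, a = 0 ∨ a = 1 := by decide
    refine ⟨fun u => ?_, fun u => ?_⟩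
    · rcases h3 (u 0) with h | h
      · simpa [lc_fin1, h] using h1
      · simpa [lc_fin1, h] using h2
    · rcases h3 (u 0) with h | h
      · simpa [lc_fin1, h] using hk0
      · simpa [lc_fin1, h] using h4

private theorem isFb2 (hk0 : k 0 = 0) (y : V) (x : Fin 2 → V) :
    IsFb g k y x ↔ ((g y = 0 ∧ g (y + x 0) = 0) ∧ g (y + x 1) = 0 ∧ g (y + x 0 + x 1) = 0) ∧
      k (x 0) = 0 ∧ k (x 1) = 0 ∧ k (x 0 + x 1) = 0 := by
  constructor
  · intro h
    refine ⟨⟨⟨?_, ?_⟩, ?_, ?_⟩, ?_, ?_, ?_⟩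
    · have := h.1 ![0, 0]
      simpa [lc_fin2] using this
    · have := h.1 ![1, 0]
      simpa [lc_fin2] using this
    · have := h.1 ![0, 1]
      simpa [lc_fin2] using this
    · have := h.1 ![1, 1]
      simpa [lc_fin2, add_assoc] using this
    · have := h.2 ![1, 0]
      simpa [lc_fin2] using this
    · have := h.2 ![0, 1]
      simpa [lc_fin2] using this
    · have := h.2 ![1, 1]
      simpa [lc_fin2] using this
  · rintro ⟨⟨⟨h1, h2⟩, h4, h5⟩, h6, h7, h8⟩
    have h3 : ∀ a : ZMod 2, a = 0 ∨ a = 1 := by decide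
    refine ⟨fun u => ?_, fun u => ?_⟩
    · rcases h3 (u 0) with h | h <;> rcases h3 (u 1) with h' | h'
      · simpa [lc_fin2, h, h'] using h1
      · simpa [lc_fin2, h, h'] using h4
      · simpa [lc_fin2, h, h'] using h2
      · simpa [lc_fin2, h, h', add_assoc] using h5
    · rcases h3 (u 0) with h | h <;> rcases h3 (u 1) with h' | h'
      · simpa [lc_fin2, h, h'] using hk0
      · simpa [lc_fin2, h, h'] using h7
      · simpa [lc_fin2, h, h'] using h6
      · simpa [lc_fin2, h, h'] using h8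

private theorem FB0_eq (hk0 : k 0 = 0) (f : V → ℝ) :
    FB g k 0 (fun y _ => f y) = Fintype.card Y * 𝔼 y, iv (g y = 0) * f y := by
  unfold FB
  simp only [bexp, pow_one]
  congr 1
  apply Finset.expect_congr rfl
  intro y _
  simp only [isFb0 hk0]
  exact Finset.expect_const Finset.univ_nonempty _

private theorem FB1_eq (hk0 : k 0 = 0) (F : V → V → ℝ) :
    FB g k 1 (fun y x => F y (x 0)) =
      (Fintype.card Y : ℝ) ^ 3 * 𝔼 y, 𝔼 z, iv (g y = 0) * iv (g (y + z) = 0) * iv (k z = 0)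
        * F y z := by
  unfold FB
  have hm : bexp 1 = 3 := rfl
  rw [hm]
  congr 1
  apply Finset.expect_congr rfl
  intro y _
  apply Fintype.expect_equiv (Equiv.funUnique (Fin 1) V)
  intro x
  rw [iv_congr (isFb1 hk0 y x), iv_and, iv_and]
  rfl

private theorem FB2_eq (hk0 : k 0 = 0) (F : V → V → V → ℝ) :
    FB g k 2 (fun y x => F y (x 0) (x 1)) =
      (Fintype.card Y : ℝ) ^ 6 * 𝔼 y, 𝔼 z, 𝔼 z', iv (g y = 0) * iv (g (y + z) = 0)
        * iv (g (y + z') = 0) * iv (g (y + z + z') = 0) * iv (k z = 0) * iv (k z' = 0)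
        * iv (k (z + z') = 0) * F y z z' := by
  unfold FB
  have hm : bexp 2 = 6 := rfl
  rw [hm]
  congr 1
  apply Finset.expect_congr rfl
  intro y _
  have h1 : (𝔼 z, 𝔼 z', iv (g y = 0) * iv (g (y + z) = 0)
        * iv (g (y + z') = 0) * iv (g (y + z + z') = 0) * iv (k z = 0) * iv (k z' = 0)
        * iv (k (z + z') = 0) * F y z z')
      = 𝔼 p : V × V, iv (g y = 0) * iv (g (y + p.1) = 0)
        * iv (g (y + p.2) = 0) * iv (g (y + p.1 + p.2) = 0) * iv (k p.1 = 0) * iv (k p.2 = 0)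
        * iv (k (p.1 + p.2) = 0) * F y p.1 p.2 := by
    rw [← Finset.univ_product_univ, Finset.expect_product]
  rw [h1]
  apply Fintype.expect_equiv (piFinTwoEquiv (fun _ => V))
  intro x
  rw [iv_congr (isFb2 hk0 y x)]
  simp only [iv_and]
  simp only [piFinTwoEquiv_apply]
  ring

theorem FB_zero_dir (hg : IsQM g b) (hk : IsQM k b) (hk0 : k 0 = 0) {s : ℕ} (hs : Reg b s)
    (hτ : tauB Y m s ≤ 1) (f : V → ℝ) (hf : ∀ y, |f y| ≤ 1) :
    |FB g k m (fun y _ => f y) - Fintype.card Y * 𝔼 y, iv (g y = 0) * f y| ≤ tauB Y m s := by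
  have h := ext_many_b hg hk hk0 hs 0 m (pow_le_of (by rw [Nat.zero_add]; exact hτ))
    (fun y _ => f y) (fun y _ => hf y)
  rw [FB0_eq hk0] at h
  rw [Nat.zero_add] at h
  exact h.trans (err_le m le_rfl s)

theorem FB_one_dir (hg : IsQM g b) (hk : IsQM k b) (hk0 : k 0 = 0) {s : ℕ} (hs : Reg b s)
    (hτ : tauB Y m s ≤ 1) {v : Fin m → ZMod 2} (hv : v ≠ 0)
    (F : V → V → ℝ) (hF : ∀ y z, |F y z| ≤ 1) :
    |FB g k m (fun y x => F y (lc v x))
      - (Fintype.card Y : ℝ) ^ 3 * 𝔼 y, 𝔼 z, iv (g y = 0) * iv (g (y + z) = 0) * iv (k z = 0)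
        * F y z| ≤ tauB Y m s := by
  obtain ⟨n, rfl⟩ : ∃ n, m = 1 + n := by
    rcases Nat.eq_zero_or_pos m with h | h
    · subst h
      exact absurd (Subsingleton.elim v 0) hv
    · exact ⟨m - 1, by omega⟩
  have hli : LinearIndependent (ZMod 2) (fun _ : Fin 1 => v) := by
    rw [linearIndependent_unique_iff]
    exact hv
  obtain ⟨M, hM⟩ := exists_auto hli
  have h1 := FB_act (g := g) (k := k) M (fun y x => F y (x (Fin.castAdd n 0)))
  simp only [hM] at h1
  rw [h1]
  have h := ext_many_b hg hk hk0 hs 1 n (pow_le_of hτ)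
    (fun y x => F y (x 0)) (fun y x => hF y (x 0))
  rw [FB1_eq hk0] at h
  exact h.trans (err_le n (by omega) s)

theorem FB_two_dir (hg : IsQM g b) (hk : IsQM k b) (hk0 : k 0 = 0) {s : ℕ} (hs : Reg b s)
    (hτ : tauB Y m s ≤ 1) {v w : Fin m → ZMod 2} (hv : v ≠ 0) (hw : w ≠ 0) (hvw : v ≠ w)
    (F : V → V → V → ℝ) (hF : ∀ y z z', |F y z z'| ≤ 1) :
    |FB g k m (fun y x => F y (lc v x) (lc w x))
      - (Fintype.card Y : ℝ) ^ 6 * 𝔼 y, 𝔼 z, 𝔼 z', iv (g y = 0) * iv (g (y + z) = 0)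
        * iv (g (y + z') = 0) * iv (g (y + z + z') = 0) * iv (k z = 0) * iv (k z' = 0)
        * iv (k (z + z') = 0) * F y z z'| ≤ tauB Y m s := by
  have h2 : ∀ a : ZMod 2, a = 0 ∨ a = 1 := by decide
  obtain ⟨n, rfl⟩ : ∃ n, m = 2 + n := by
    rcases Nat.lt_or_ge m 2 with h | h
    · exfalso
      interval_cases m
      · exact hv (Subsingleton.elim v 0)
      · have hv0 : v 0 ≠ 0 := by
          intro h0; apply hv; funext i; rw [Subsingleton.elim i 0, h0]; rfl
        have hw0 : w 0 ≠ 0 := by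
          intro h0; apply hw; funext i; rw [Subsingleton.elim i 0, h0]; rfl
        apply hvw
        funext i
        rw [Subsingleton.elim i 0]
        rcases h2 (v 0) with h | h
        · exact absurd h hv0
        · rcases h2 (w 0) with h' | h'
          · exact absurd h' hw0
          · rw [h, h']
    · exact ⟨m - 2, by omega⟩
  have hli : LinearIndependent (ZMod 2) ![v, w] := by
    rw [LinearIndependent.pair_iff]
    intro a c hac
    rcases h2 a with ha | ha <;> rcases h2 c with hc | hc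
    · exact ⟨ha, hc⟩
    · exfalso; rw [ha, hc] at hac; apply hw; simpa using hac
    · exfalso; rw [ha, hc] at hac; apply hv; simpa using hac
    · exfalso
      rw [ha, hc, one_smul, one_smul] at hac
      apply hvw
      funext i
      have h3 := congrFun hac i
      simp only [Pi.add_apply, Pi.zero_apply] at h3
      rcases h2 (v i) with h | h <;> rcases h2 (w i) with h' | h' <;>
        rw [h, h'] at h3 ⊢ <;> first | rfl | (exfalso; simp at h3)
  obtain ⟨M, hM⟩ := exists_auto hli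
  have h1 := FB_act (g := g) (k := k) M
    (fun y x => F y (x (Fin.castAdd n 0)) (x (Fin.castAdd n 1)))
  simp only [hM] at h1
  simp only [Matrix.cons_val_zero, Matrix.cons_val_one] at h1
  rw [h1]
  have h := ext_many_b hg hk hk0 hs 2 n (pow_le_of hτ)
    (fun y x => F y (x 0) (x 1)) (fun y x => hF y (x 0) (x 1))
  rw [FB2_eq hk0] at h
  exact h.trans (err_le n (by omega) s)

end

end Pool.Agent.H22.QF
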