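import Pool.Agent.H22.QF.FbVal
import Pool.Agent.H22.QF.Indep

/-!
# FbVar: second moment of the average over a random frame (about 180 lines)

Copy of `QK/FrVar.lean`.
PROOF of `mean_le_two_b`: `f ≤ iv (g · = 0)`, `count_zero`, `|Y| (1/2)^s ≤ tauB Y m s ≤ 1`.

PROOF of `FB_var`. Put `a = |Y| 𝔼 f ∈ [0,2]`, `Φ y x = 𝔼_u f (y + lc u x)`, `τ = tauB Y m s ≤ 1`,
`δ = (1/2)^m`.
* `FB (Φ^2) = 𝔼_u 𝔼_u' FB (f (y + lc u x) f (y + lc u' x))` and `FB_shift` by `u` turns the
  term into `FB (f y * f (y + lc (u + u') x))`. If `u ≠ u'`: `FB_one_dir` with `v = u + u'`,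
  `F y z = f y * f (y+z)` and `one_dir_prod`: at most `a^2 + |Y|^3 (1/2)^s + τ ≤ a^2 + 2 τ`. If
  `u = u'`: `f y * f y = f y`, `FB_zero_dir` gives at most `a + τ`. Since the proportion of pairs
  with `u = u'` is `δ`: `FB (Φ^2) ≤ a^2 + δ a + 2 τ ≤ a^2 + 2 δ + 2 τ`.
* `FB Φ ≥ a - τ` (`FB_shift`, `FB_zero_dir`), `FB 1 ≤ 1 + τ`.
* `FB ((Φ - a)^2) = FB (Φ^2) - 2 a FB Φ + a^2 FB 1 ≤ 2 δ + 2 τ + 2 a τ + a^2 τ ≤ 2 δ + 10 τ`.
-/

set_option autoImplicit false

open Finset Function Module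
open scoped BigOperators
open Pool.Agent.H77.KM
open Pool.Agent.H22.QK

namespace Pool.Agent.H22.QF

section

variable {V : Type} [AddCommGroup V] [Module (ZMod 2) V] [Fintype V]
variable {Y : Type} [AddCommGroup Y] [Module (ZMod 2) Y] [Fintype Y]
variable {g k : V → Y} {b : V →ₗ[ZMod 2] V →ₗ[ZMod 2] Y} {m : ℕ}

omit [Module (ZMod 2) Y] in
private theorem cube_half_le {s : ℕ} :
    (Fintype.card Y : ℝ) ^ 3 * (1 / 2) ^ s ≤ tauB Y m s := by
  have hc1 : (1 : ℝ) ≤ (Fintype.card Y : ℝ) := by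
    exact_mod_cast Fintype.card_pos
  have h1 : (Fintype.card Y : ℝ) ^ 3 ≤ (Fintype.card Y : ℝ) ^ (bexp m + m + 2) := by
    have h2 := le_bexp m
    exact pow_le_pow_right₀ hc1 (by omega)
  have h4 : (1 : ℝ) ≤ 4 * ((m : ℝ) + 1) := by
    have : (0 : ℝ) ≤ (m : ℝ) := Nat.cast_nonneg m
    linarith
  unfold tauB
  refine mul_le_mul_of_nonneg_right ?_ (by positivity)
  calc (Fintype.card Y : ℝ) ^ 3 ≤ (Fintype.card Y : ℝ) ^ (bexp m + m + 2) := h1
    _ = (Fintype.card Y : ℝ) ^ (bexp m + m + 2) * 1 := (mul_one _).symm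
    _ ≤ (Fintype.card Y : ℝ) ^ (bexp m + m + 2) * (4 * ((m : ℝ) + 1)) :=
        mul_le_mul_of_nonneg_left h4 (by positivity)

private theorem card_mul_half_le {s : ℕ} (hτ : tauB Y m s ≤ 1) :
    (Fintype.card Y : ℝ) * (1 / 2) ^ s ≤ 1 := by
  have hc1 : (1 : ℝ) ≤ (Fintype.card Y : ℝ) := by
    exact_mod_cast Fintype.card_pos
  refine le_trans ?_ ((cube_half_le (m := m)).trans hτ)
  refine mul_le_mul_of_nonneg_right ?_ (by positivity)
  calc (Fintype.card Y : ℝ) = (Fintype.card Y : ℝ) ^ 1 := (pow_one _).symm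
    _ ≤ (Fintype.card Y : ℝ) ^ 3 := pow_le_pow_right₀ hc1 (by norm_num)

theorem mean_le_two_b (hg : IsQM g b) {s : ℕ} (hs : Reg b s) (hτ : tauB Y m s ≤ 1)
    (f : V → ℝ) (hf : ∀ x, f x = 0 ∨ f x = 1) (hfg : ∀ x, f x ≠ 0 → g x = 0) :
    Fintype.card Y * 𝔼 z, f z ≤ 2 := by
  have hc1 : (1 : ℝ) ≤ (Fintype.card Y : ℝ) := by
    exact_mod_cast Fintype.card_pos
  have hc0 : (0 : ℝ) < (Fintype.card Y : ℝ) := by linarith
  have h1 : 𝔼 z, f z ≤ 𝔼 z, iv (g z = 0) := by
    refine Finset.expect_le_expect (fun z _ => ?_)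
    rcases hf z with h | h
    · rw [h]; exact iv_nonneg _
    · rw [h, iv_pos (hfg z (by rw [h]; norm_num))]
  have h2 := (abs_le.1 (count_zero hg hs)).2
  have h3 : 𝔼 z, f z ≤ 1 / Fintype.card Y + (1 / 2) ^ s := by linarith
  have h4 := mul_le_mul_of_nonneg_left h3 hc0.le
  have h5 := card_mul_half_le (m := m) hτ
  have e : (Fintype.card Y : ℝ) * (1 / Fintype.card Y + (1 / 2) ^ s) =
      1 + (Fintype.card Y : ℝ) * (1 / 2) ^ s := by
    field_simp
  rw [e] at h4
  linarith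

private theorem expect_iv_eq (u : Fin m → ZMod 2) :
    𝔼 u' : Fin m → ZMod 2, iv (u = u') = (1 / 2) ^ m := by
  classical
  have h1 : ∀ u' : Fin m → ZMod 2, iv (u = u') = if u = u' then (1 : ℝ) else 0 := by
    intro u'
    by_cases h : u = u'
    · rw [iv_pos h, if_pos h]
    · rw [iv_neg h, if_neg h]
  rw [Finset.expect_congr rfl (fun u' _ => h1 u'), Fintype.expect_eq_sum_div_card]
  rw [Finset.sum_ite_eq, if_pos (Finset.mem_univ _), Fintype.card_fun, ZMod.card,
    Fintype.card_fin]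
  push_cast
  rw [one_div, one_div, inv_pow]

theorem FB_var (hg : IsQM g b) (hk : IsQM k b) (hk0 : k 0 = 0) {s : ℕ} (hs : Reg b s)
    (hτ : tauB Y m s ≤ 1)
    (f : V → ℝ) (hf : ∀ x, f x = 0 ∨ f x = 1) (hfg : ∀ x, f x ≠ 0 → g x = 0) :
    FB g k m (fun y x => (𝔼 u : Fin m → ZMod 2, f (y + lc u x) - Fintype.card Y * 𝔼 z, f z) ^ 2)
      ≤ 2 * (1 / 2) ^ m + 14 * tauB Y m s := by
  have ha2 := mean_le_two_b hg hs hτ f hf hfg
  have hf0 : ∀ x, 0 ≤ f x := fun x => by rcases hf x with h | h <;> rw [h]; norm_num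
  have hf1 : ∀ x, |f x| ≤ 1 := fun x => by rcases hf x with h | h <;> rw [h] <;> norm_num
  have ha0 : 0 ≤ (Fintype.card Y : ℝ) * 𝔼 z, f z :=
    mul_nonneg (Nat.cast_nonneg _) (Finset.expect_nonneg (fun z _ => hf0 z))
  have hτ0 : 0 ≤ tauB Y m s := by unfold tauB; positivity
  have hsupp : ∀ z, iv (g z = 0) * f z = f z := by
    intro z
    rcases hf z with h | h
    · rw [h, mul_zero]
    · rw [iv_pos (hfg z (by rw [h]; norm_num)), one_mul]
  -- zero direction
  have h0 := abs_le.1 (FB_zero_dir hg hk hk0 hs hτ f hf1)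
  rw [Finset.expect_congr rfl (fun z _ => hsupp z)] at h0
  -- one direction
  have hd : ∀ v : Fin m → ZMod 2, v ≠ 0 → FB g k m (fun y x => f y * f (y + lc v x)) ≤
      ((Fintype.card Y : ℝ) * 𝔼 z, f z) ^ 2 + 2 * tauB Y m s := by
    intro v hv
    have h1 := (abs_le.1 (FB_one_dir hg hk hk0 hs hτ hv (fun y z => f y * f (y + z)) (fun y z => by
      rw [abs_mul]
      exact mul_le_one₀ (hf1 _) (abs_nonneg _) (hf1 _)))).2
    have h2 := (abs_le.1 (one_dir_prod (g := g) hk hs f f hf1 hf1 hfg hfg)).2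
    have h3 := cube_half_le (Y := Y) (m := m) (s := s)
    have e : (Fintype.card Y : ℝ) ^ 2 * ((𝔼 z, f z) * 𝔼 z, f z) =
        ((Fintype.card Y : ℝ) * 𝔼 z, f z) ^ 2 := by ring
    rw [e] at h2
    linarith
  set a : ℝ := (Fintype.card Y : ℝ) * 𝔼 z, f z with ha
  -- the mean
  have hmean : FB g k m (fun y x => 𝔼 u : Fin m → ZMod 2, f (y + lc u x)) =
      FB g k m (fun y _ => f y) := by
    rw [FB_expect]
    have h1 : ∀ u : Fin m → ZMod 2, FB g k m (fun y x => f (y + lc u x)) =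
        FB g k m (fun y _ => f y) := fun u => FB_shift (fun y _ => f y) u
    rw [Finset.expect_congr rfl (fun u _ => h1 u), Finset.expect_const Finset.univ_nonempty]
  -- the second moment
  have hsq : FB g k m (fun y x => (𝔼 u : Fin m → ZMod 2, f (y + lc u x)) ^ 2) ≤
      a ^ 2 + 2 * tauB Y m s + 2 * (1 / 2) ^ m := by
    have e1 : FB g k m (fun y x => (𝔼 u : Fin m → ZMod 2, f (y + lc u x)) ^ 2) =
        𝔼 u : Fin m → ZMod 2, 𝔼 u' : Fin m → ZMod 2,
          FB g k m (fun y x => f (y + lc u x) * f (y + lc u' x)) := by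
      have e2 : (fun (y : V) (x : Fin m → V) => (𝔼 u : Fin m → ZMod 2, f (y + lc u x)) ^ 2) =
          fun (y : V) (x : Fin m → V) => 𝔼 u : Fin m → ZMod 2, 𝔼 u' : Fin m → ZMod 2,
            f (y + lc u x) * f (y + lc u' x) := by
        funext y x
        rw [sq, Finset.expect_mul_expect]
      rw [e2, FB_expect]
      refine Finset.expect_congr rfl (fun u _ => ?_)
      rw [FB_expect]
    rw [e1]
    have h1 : ∀ u u' : Fin m → ZMod 2,
        FB g k m (fun y x => f (y + lc u x) * f (y + lc u' x)) ≤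
          a ^ 2 + 2 * tauB Y m s + iv (u = u') * 2 := by
      intro u u'
      by_cases huu : u = u'
      · subst huu
        rw [iv_pos rfl, one_mul]
        have e3 : (fun (y : V) (x : Fin m → V) => f (y + lc u x) * f (y + lc u x)) =
            fun (y : V) (x : Fin m → V) => f (y + lc u x) := by
          funext y x
          rcases hf (y + lc u x) with h | h <;> rw [h] <;> norm_num
        rw [e3, FB_shift (fun y _ => f y) u]
        nlinarith [sq_nonneg a]
      · rw [iv_neg huu, zero_mul, add_zero]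
        have hne : u + u' ≠ 0 := by
          intro h
          apply huu
          have h2 : u + u' + u' = u' := by rw [h, zero_add]
          rw [add_assoc, ZModModule.add_self u', add_zero] at h2
          exact h2
        have e3 : (fun (y : V) (x : Fin m → V) => f (y + lc u x) * f (y + lc u' x)) =
            fun (y : V) (x : Fin m → V) =>
              (fun (y : V) (x : Fin m → V) => f y * f (y + lc (u + u') x)) (y + lc u x) x := by
          funext y x
          show f (y + lc u x) * f (y + lc u' x) =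
            f (y + lc u x) * f (y + lc u x + lc (u + u') x)
          have e4 : y + lc u x + lc (u + u') x = y + lc u' x := by
            rw [lc_add, add_assoc, ← add_assoc (lc u x), ZModModule.add_self (lc u x), zero_add]
          rw [e4]
        rw [e3, FB_shift (fun (y : V) (x : Fin m → V) => f y * f (y + lc (u + u') x)) u]
        exact hd _ hne
    calc 𝔼 u : Fin m → ZMod 2, 𝔼 u' : Fin m → ZMod 2,
          FB g k m (fun y x => f (y + lc u x) * f (y + lc u' x))
        ≤ 𝔼 u : Fin m → ZMod 2, 𝔼 u' : Fin m → ZMod 2,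
          (a ^ 2 + 2 * tauB Y m s + iv (u = u') * 2) :=
          Finset.expect_le_expect (fun u _ => Finset.expect_le_expect (fun u' _ => h1 u u'))
      _ = 𝔼 _u : Fin m → ZMod 2, (a ^ 2 + 2 * tauB Y m s + (1 / 2) ^ m * 2) := by
          refine Finset.expect_congr rfl (fun u _ => ?_)
          rw [Finset.expect_add_distrib, Finset.expect_const Finset.univ_nonempty,
            ← Finset.expect_mul, expect_iv_eq]
      _ = a ^ 2 + 2 * tauB Y m s + 2 * (1 / 2) ^ m := by
          rw [Finset.expect_const Finset.univ_nonempty]; ring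
  have hone := (abs_le.1 (FB_one (m := m) hg hk hk0 hs hτ)).2
  have eexp : (fun (y : V) (x : Fin m → V) =>
      (𝔼 u : Fin m → ZMod 2, f (y + lc u x) - a) ^ 2) =
      fun (y : V) (x : Fin m → V) => (𝔼 u : Fin m → ZMod 2, f (y + lc u x)) ^ 2 -
        (2 * a) * (𝔼 u : Fin m → ZMod 2, f (y + lc u x)) + a ^ 2 * 1 := by
    funext y x
    ring
  rw [eexp]
  rw [FB_add, FB_sub, FB_mul, FB_mul, hmean]
  have h5 : 2 * a * FB g k m (fun y _ => f y) ≥ 2 * a * (a - tauB Y m s) :=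
    mul_le_mul_of_nonneg_left (by linarith) (by linarith)
  have h6 : a ^ 2 * FB g k m (fun _ _ => 1) ≤ a ^ 2 * (1 + tauB Y m s) :=
    mul_le_mul_of_nonneg_left (by linarith) (sq_nonneg a)
  have h7 : a * tauB Y m s ≤ 2 * tauB Y m s := mul_le_mul_of_nonneg_right ha2 hτ0
  have h8 : a ^ 2 * tauB Y m s ≤ 4 * tauB Y m s := by
    refine mul_le_mul_of_nonneg_right ?_ hτ0
    nlinarith
  nlinarith

end

end Pool.Agent.H22.QF
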