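import Pool.Agent.H22.QF.Two3
import Pool.Agent.H22.QF.Zcount2
import Pool.Agent.H22.QF.FNums
import Pool.Agent.H22.QK.StB

/-!
# Fibre3: the local increment on the fibres (about 250 lines)

Compare `fibre_two` in `QK/StB.lean`.
PROOF of `fibre3`. Let `q = 2n+1`, `R = finrank Y`, `L = b x + lam : V → Y` (surjective by
nondegeneracy: a proper image would be annihilated by some `l ≠ 0`), `K = ker L`, of codimension
`R`. Choose `y 0`, `y 1` with `L (y i) = c i x` and put `y 2 = y 0 + y 1`; then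
`L (y 2) = c 0 x + c 1 x = c 2 x` because `c 0 x + c 1 x + c 2 x = k x = 0`. If `A i P * A' i (P+x) ≠ 0`
then `f i P = f' i (P+x) = 0`, so `L P = c i x` and `P ∈ y i + K`.
Put `E i z = A i (y i + z) * A' i (y i + z + x)` for `z ∈ K`, `g i z = f i (y i + z)`;
`IsQM (g i) b'`, `b'` the restriction of `b` to `K`, `Reg b' (s - R)` (`Reg.restrict`),
`iiReg3 q R ≤ s - R`; `E i` is supported in `{g i = 0}`.
* `𝔼_K (E i) = |Y| corr (A i) (A' i) x` (`expect_ker_coset`) `≥ |Y| (199/200) (𝔼 A i) (𝔼 A' i)`, so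
  `|Y| 𝔼_K (E i) ≥ (199/200) (1/2)^(2n) ≥ (1/2)^q`;
* `E 0 z * E 1 z' * E 2 (z + z') = 0`: `y 2 + (z+z') = (y 0 + z) + (y 1 + z')` and `hno`.
`two3` gives for `i = 0` or `i = 1`: `r' ≤ iiR q = qR n`, independent `ξ j ∈ Dual K`, `e`. Extend
`ξ j` to `V` (`LinearMap.exists_extend`). `NonDeg2`: if
`bl b l x + l.comp lam + ∑ u_j ξ_j = 0` on `V` then on `K` `∑ u_j ξ_j = 0` (there `l ∘ L = 0`), so
`u = 0`, and then `l ∘ L = 0`, so `l = 0`.
`𝔼_y A y A' (y+x) chi ξ_j y = ± |Y|^-1 hat E ξ_j`, of absolute value at least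
`|Y|^-2 (1/2)^(iiT q R) = (1/2)^(qT n R)`. And with `e' j = e j + ξ_j (y i)`:
`𝔼_y A y A' (y+x) iv (∀ j, ξ_j y = e' j) = |Y|^-1 𝔼_K E iv (ξ = e) ≥ (51/50) |Y|^-1 𝔼_K E (1/2)^r'
≥ (51/50) (199/200) (𝔼 A) (𝔼 A') (1/2)^r' ≥ (101/100) (𝔼 A) (𝔼 A') (1/2)^r'`.
-/

set_option autoImplicit false

open Finset Function Module
open scoped BigOperators
open Pool.Agent.H77.KM
open Pool.Agent.H22.QK

namespace Pool.Agent.H22.QF

section

variable {V : Type} [AddCommGroup V] [Module (ZMod 2) V] [Fintype V]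
variable {Y : Type} [AddCommGroup Y] [Module (ZMod 2) Y] [Fintype Y]
variable {b : V →ₗ[ZMod 2] V →ₗ[ZMod 2] Y}

/-- The data of an increment of `B1 y * B2 (y + x)` for a fixed `x`. -/
def FibInc (b : V →ₗ[ZMod 2] V →ₗ[ZMod 2] Y) (lam : V →ₗ[ZMod 2] Y) (B1 B2 : V → ℝ) (n : ℕ)
    (x : V) : Prop :=
  ∃ r' ≤ qR n, ∃ ξ : Fin r' → Dual (ZMod 2) V, ∃ e : Fin r' → ZMod 2,
    (∀ i, (1 / 2 : ℝ) ^ qT n (finrank (ZMod 2) Y)
      ≤ |𝔼 y, B1 y * B2 (y + x) * chi (ξ i) y|) ∧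
    (NonDeg2 b lam x ξ ∧ 101 / 100 * ((𝔼 x, B1 x) * 𝔼 x, B2 x) * (1 / 2) ^ r'
      ≤ 𝔼 y, B1 y * B2 (y + x) * iv (∀ i, ξ i y = e i))

/-- The increment on a coset of `ker L` gives an increment on `V`. -/
private theorem fibInc_of_locInc {lam : V →ₗ[ZMod 2] Y} {x : V} {n : ℕ} (L : V →ₗ[ZMod 2] Y)
    (hLdef : ∀ y, L y = b x y + lam y) (B1 B2 : V → ℝ) (y0 : V)
    (hB1 : ∀ y, B1 y = 0 ∨ B1 y = 1) (hB2 : ∀ y, B2 y = 0 ∨ B2 y = 1)
    (havg : ∀ F : V → ℝ, 𝔼 z : LinearMap.ker L,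
      B1 (y0 + (z : V)) * B2 (y0 + (z : V) + x) * F (y0 + (z : V))
        = (Fintype.card Y : ℝ) * 𝔼 y, B1 y * B2 (y + x) * F y)
    (hx : ∀ l : Dual (ZMod 2) Y, l ≠ 0 → bl b l x + l.comp lam ≠ 0)
    (hcor : 199 / 200 * ((𝔼 x, B1 x) * 𝔼 x, B2 x) ≤ corr B1 B2 x)
    (h : LocInc Y (fun z : LinearMap.ker L => B1 (y0 + (z : V)) * B2 (y0 + (z : V) + x))
      (2 * n + 1)) :
    FibInc b lam B1 B2 n x := by
  set R : ℕ := finrank (ZMod 2) Y with hR
  have hcardY : (Fintype.card Y : ℝ) = 2 ^ R := by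
    rw [Module.card_eq_pow_finrank (K := ZMod 2) (V := Y), ZMod.card]
    push_cast
    rfl
  have hcY0 : (0 : ℝ) < Fintype.card Y := by rw [hcardY]; positivity
  set E : LinearMap.ker L → ℝ := fun z => B1 (y0 + (z : V)) * B2 (y0 + (z : V) + x) with hEdef
  have havg' : ∀ F : V → ℝ, 𝔼 z : LinearMap.ker L, E z * F (y0 + (z : V))
      = (Fintype.card Y : ℝ) * 𝔼 y, B1 y * B2 (y + x) * F y := havg
  have havgE : 𝔼 z : LinearMap.ker L, E z = (Fintype.card Y : ℝ) * corr B1 B2 x := by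
    have h1 := havg' (fun _ => 1)
    simp only [mul_one] at h1
    exact h1
  obtain ⟨r', hr', ξ', hind, hhat, e', hmain⟩ := h
  choose ξ hξ using fun i => LinearMap.exists_extend (ξ' i)
  have hξ' : ∀ i (z : LinearMap.ker L), ξ i (z : V) = ξ' i z := by
    intro i z
    rw [← hξ i]; rfl
  refine ⟨r', hr', ξ, fun i => e' i + ξ i y0, ?_, ?_, ?_⟩
  · intro i
    have h1 := havg' (chi (ξ i))
    have h2 : 𝔼 z : LinearMap.ker L, E z * chi (ξ i) (y0 + (z : V))
        = chi (ξ i) y0 * hat E (ξ' i) := by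
      unfold hat
      rw [Finset.mul_expect]
      refine Finset.expect_congr rfl (fun z _ => ?_)
      rw [chi_add]
      have h3 : chi (ξ i) (z : V) = chi (ξ' i) z := by
        unfold chi; rw [hξ']
      rw [h3]; ring
    rw [h2] at h1
    have h4 : |hat E (ξ' i)|
        = Fintype.card Y * |𝔼 y, B1 y * B2 (y + x) * chi (ξ i) y| := by
      have h5 := congrArg abs h1
      rw [abs_mul, abs_mul, abs_chi, one_mul, abs_of_pos hcY0] at h5
      exact h5
    have h6 := hhat i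
    rw [h4, hcardY] at h6
    have h7 : (1 / 2 : ℝ) ^ qT n R
        = (1 / 2) ^ iiT (2 * n + 1) R * ((1 / 2) ^ R * (1 / 2) ^ R) := by
      rw [← pow_add, ← pow_add]
      congr 1
      unfold qT
      ring
    rw [h7]
    have h8 : (1 / 2 : ℝ) ^ R * 2 ^ R = 1 := by rw [← mul_pow]; norm_num
    calc (1 / 2 : ℝ) ^ iiT (2 * n + 1) R * ((1 / 2) ^ R * (1 / 2) ^ R)
        ≤ (2 ^ R * (2 ^ R * |𝔼 y, B1 y * B2 (y + x) * chi (ξ i) y|))
            * ((1 / 2) ^ R * (1 / 2) ^ R) := by gcongr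
      _ = ((1 / 2 : ℝ) ^ R * 2 ^ R) * ((1 / 2 : ℝ) ^ R * 2 ^ R)
            * |𝔼 y, B1 y * B2 (y + x) * chi (ξ i) y| := by ring
      _ = _ := by rw [h8]; ring
  · intro l u h
    have hu : u = 0 := by
      have h1 : ∑ i, u i • ξ' i = 0 := by
        refine LinearMap.ext (fun z => ?_)
        have h2 := LinearMap.congr_fun h (z : V)
        have h3 : b x (z : V) + lam (z : V) = 0 := by
          rw [← hLdef]; exact LinearMap.mem_ker.mp z.2
        have h4 : l (b x (z : V)) + l (lam (z : V)) = 0 := by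
          rw [← map_add, h3, map_zero]
        simp only [LinearMap.add_apply, LinearMap.sum_apply, LinearMap.smul_apply, bl_apply,
          LinearMap.comp_apply, LinearMap.zero_apply, hξ', h4, zero_add] at h2
        simp only [LinearMap.sum_apply, LinearMap.smul_apply, LinearMap.zero_apply]
        exact h2
      funext i
      exact Fintype.linearIndependent_iff.mp hind u h1 i
    refine ⟨?_, hu⟩
    by_contra hl
    apply hx l hl
    rw [hu] at h
    simpa using h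
  · have h1 := havg' (fun y => iv (∀ i, ξ i y = e' i + ξ i y0))
    have h2 : 𝔼 z : LinearMap.ker L, E z * iv (∀ i, ξ i (y0 + (z : V)) = e' i + ξ i y0)
        = 𝔼 z : LinearMap.ker L, E z * iv (∀ i, ξ' i z = e' i) := by
      refine Finset.expect_congr rfl (fun z _ => ?_)
      congr 1
      refine iv_congr (forall_congr' (fun i => ?_))
      rw [map_add, hξ', add_comm (ξ i y0)]
      exact add_left_inj _
    rw [h2] at h1
    rw [h1, havgE] at hmain
    have h3 : 51 / 50 * corr B1 B2 x * (1 / 2) ^ r'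
        ≤ 𝔼 y, B1 y * B2 (y + x) * iv (∀ i, ξ i y = e' i + ξ i y0) := by
      have h4 : (Fintype.card Y : ℝ) * (51 / 50 * corr B1 B2 x * (1 / 2) ^ r')
          ≤ Fintype.card Y * 𝔼 y, B1 y * B2 (y + x) * iv (∀ i, ξ i y = e' i + ξ i y0) := by
        refine le_trans (le_of_eq ?_) hmain
        ring
      exact le_of_mul_le_mul_left h4 hcY0
    refine le_trans ?_ h3
    have hB10 : 0 ≤ 𝔼 x, B1 x :=
      Finset.expect_nonneg (fun y _ => by rcases hB1 y with h | h <;> rw [h] <;> norm_num)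
    have hB20 : 0 ≤ 𝔼 x, B2 x :=
      Finset.expect_nonneg (fun y _ => by rcases hB2 y with h | h <;> rw [h] <;> norm_num)
    have h5 : 101 / 100 * ((𝔼 x, B1 x) * 𝔼 x, B2 x) ≤ 51 / 50 * corr B1 B2 x := by
      have h6 := mul_nonneg hB10 hB20
      nlinarith
    exact mul_le_mul_of_nonneg_right h5 (by positivity)

theorem fibre3 {f f' : Fin 3 → V → Y} {k : V → Y} (hf : ∀ i, IsQM (f i) b)
    {lam : V →ₗ[ZMod 2] Y} {c : Fin 3 → V → Y}
    (hlam : ∀ i P x, f i P + f' i (P + x) = b x P + lam P + c i x)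
    (hc : ∀ x, c 0 x + c 1 x + c 2 x = k x) {s n : ℕ} (hs : Reg b s)
    (hsn : iiReg3 (2 * n + 1) (finrank (ZMod 2) Y) + finrank (ZMod 2) Y ≤ s)
    (A A' : Fin 3 → V → ℝ) (hA : ∀ i x, A i x = 0 ∨ A i x = 1)
    (hA' : ∀ i x, A' i x = 0 ∨ A' i x = 1) (hAf : ∀ i x, A i x ≠ 0 → f i x = 0)
    (hAf' : ∀ i x, A' i x ≠ 0 → f' i x = 0)
    (hα : ∀ i, (1 / 2 : ℝ) ^ n ≤ Fintype.card Y * 𝔼 x, A i x)
    (hα' : ∀ i, (1 / 2 : ℝ) ^ n ≤ Fintype.card Y * 𝔼 x, A' i x) (x : V)
    (hx : ∀ l : Dual (ZMod 2) Y, l ≠ 0 → bl b l x + l.comp lam ≠ 0) (hkx : k x = 0)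
    (hcor : ∀ i, 199 / 200 * ((𝔼 x, A i x) * 𝔼 x, A' i x) ≤ corr (A i) (A' i) x)
    (hno : ∀ P Q, A 0 P * A' 0 (P + x) * (A 1 Q * A' 1 (Q + x)) *
      (A 2 (P + Q) * A' 2 (P + Q + x)) = 0) :
    FibInc b lam (A 0) (A' 0) n x ∨ FibInc b lam (A 1) (A' 1) n x := by
  have hcharY : ∀ a : Y, a + a = 0 := fun a => ZModModule.add_self a
  set R : ℕ := finrank (ZMod 2) Y with hR
  have hcardY : (Fintype.card Y : ℝ) = 2 ^ R := by
    rw [Module.card_eq_pow_finrank (K := ZMod 2) (V := Y), ZMod.card]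
    push_cast
    rfl
  have hcY0 : (0 : ℝ) < Fintype.card Y := by rw [hcardY]; positivity
  set L : V →ₗ[ZMod 2] Y := b x + lam with hLd
  have hLdef : ∀ y, L y = b x y + lam y := fun y => by rw [hLd, LinearMap.add_apply]
  have hsurj : Surjective L := by
    rw [← LinearMap.range_eq_top]
    by_contra hne
    obtain ⟨l, hl0, hl⟩ :=
      Submodule.exists_le_ker_of_lt_top (LinearMap.range L) (lt_top_iff_ne_top.mpr hne)
    apply hx l hl0
    ext y
    have h1 : L y ∈ LinearMap.ker l := hl (LinearMap.mem_range_self L y)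
    rw [LinearMap.mem_ker, hLdef, map_add] at h1
    simpa using h1
  obtain ⟨y0, hy0⟩ := hsurj (c 0 x)
  obtain ⟨y1, hy1⟩ := hsurj (c 1 x)
  have hy2 : L (y0 + y1) = c 2 x := by
    have h1 := hc x
    rw [hkx] at h1
    rw [map_add, hy0, hy1]
    calc c 0 x + c 1 x = c 0 x + c 1 x + (c 2 x + c 2 x) := by rw [hcharY, add_zero]
      _ = (c 0 x + c 1 x + c 2 x) + c 2 x := by abel
      _ = _ := by rw [h1, zero_add]
  -- the support of the correlations
  have hsupp : ∀ i y, A i y * A' i (y + x) ≠ 0 → L y = c i x := by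
    intro i y hy
    have h1 : f i y = 0 := hAf i y (left_ne_zero_of_mul hy)
    have h2 : f' i (y + x) = 0 := hAf' i _ (right_ne_zero_of_mul hy)
    have h3 := hlam i y x
    rw [h1, h2, add_zero] at h3
    rw [hLdef]
    calc b x y + lam y = b x y + lam y + (c i x + c i x) := by rw [hcharY, add_zero]
      _ = (b x y + lam y + c i x) + c i x := by abel
      _ = _ := by rw [← h3, zero_add]
  have havg : ∀ i (yy : V), L yy = c i x → ∀ F : V → ℝ, 𝔼 z : LinearMap.ker L,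
      A i (yy + (z : V)) * A' i (yy + (z : V) + x) * F (yy + (z : V))
        = (Fintype.card Y : ℝ) * 𝔼 y, A i y * A' i (y + x) * F y := by
    intro i yy hyy F
    have h1 := expect_ker_coset L hsurj yy (fun y => A i y * A' i (y + x) * F y)
    have h2 : ∀ y, iv (L y = L yy) * (A i y * A' i (y + x) * F y)
        = A i y * A' i (y + x) * F y := by
      intro y
      by_cases h : A i y * A' i (y + x) = 0
      · rw [h]; ring
      · rw [iv_pos (by rw [hyy]; exact hsupp i y h), one_mul]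
    rw [Finset.expect_congr rfl (fun y _ => h2 y)] at h1
    exact h1
  have havgE : ∀ i (yy : V), L yy = c i x → 𝔼 z : LinearMap.ker L,
      A i (yy + (z : V)) * A' i (yy + (z : V) + x)
        = (Fintype.card Y : ℝ) * corr (A i) (A' i) x := by
    intro i yy hyy
    have h1 := havg i yy hyy (fun _ => 1)
    simp only [mul_one] at h1
    exact h1
  have hlow : ∀ i (yy : V), L yy = c i x → (1 / 2 : ℝ) ^ (2 * n + 1)
      ≤ Fintype.card Y * 𝔼 z : LinearMap.ker L, A i (yy + (z : V)) * A' i (yy + (z : V) + x) := by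
    intro i yy hyy
    rw [havgE i yy hyy]
    have h1 : (1 / 2 : ℝ) ^ n * (1 / 2) ^ n
        ≤ (Fintype.card Y * 𝔼 x, A i x) * (Fintype.card Y * 𝔼 x, A' i x) :=
      mul_le_mul (hα i) (hα' i) (by positivity) (le_trans (by positivity) (hα i))
    have h2 : (Fintype.card Y * 𝔼 x, A i x) * (Fintype.card Y * 𝔼 x, A' i x) * (199 / 200)
        ≤ Fintype.card Y * (Fintype.card Y * corr (A i) (A' i) x) := by
      calc (Fintype.card Y * 𝔼 x, A i x) * (Fintype.card Y * 𝔼 x, A' i x) * (199 / 200)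
          = Fintype.card Y * (Fintype.card Y *
            (199 / 200 * ((𝔼 x, A i x) * 𝔼 x, A' i x))) := by ring
        _ ≤ _ := by
          have := hcor i
          gcongr
    have h3 : (1 / 2 : ℝ) ^ (2 * n + 1) = (1 / 2 : ℝ) ^ n * (1 / 2) ^ n * (1 / 2) := by
      rw [pow_succ, two_mul, pow_add]
    rw [h3]
    have h6 : (0 : ℝ) ≤ (1 / 2 : ℝ) ^ n * (1 / 2) ^ n := by positivity
    nlinarith
  have hE01 : ∀ i (yy : V) (z : LinearMap.ker L), A i (yy + (z : V)) * A' i (yy + (z : V) + x) = 0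
      ∨ A i (yy + (z : V)) * A' i (yy + (z : V) + x) = 1 := by
    intro i yy z
    rcases hA i (yy + (z : V)) with h | h <;> rcases hA' i (yy + (z : V) + x) with h' | h' <;>
      rw [h, h'] <;> norm_num
  have hdim : R + finrank (ZMod 2) (LinearMap.ker L) = finrank (ZMod 2) V := by
    have h1 := LinearMap.finrank_range_add_finrank_ker L
    rw [LinearMap.range_eq_top.mpr hsurj, finrank_top] at h1
    exact h1
  set K : Submodule (ZMod 2) V := LinearMap.ker L with hK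
  have hsub : iiReg3 (2 * n + 1) R ≤ s - R := by omega
  have hs' : Reg (pb b K.subtype) (s - R) :=
    hs.restrict K.subtype K.injective_subtype (by omega) (by omega)
  have hg : ∀ i (yy : V), IsQM (fun z : K => f i (yy + K.subtype z)) (pb b K.subtype) :=
    fun i yy => (hf i).pull K.subtype yy
  have hprod : ∀ z z' : K,
      (A 0 (y0 + (z : V)) * A' 0 (y0 + (z : V) + x)) *
      (A 1 (y1 + (z' : V)) * A' 1 (y1 + (z' : V) + x)) *
      (A 2 (y0 + y1 + ((z + z' : K) : V)) * A' 2 (y0 + y1 + ((z + z' : K) : V) + x)) = 0 := by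
    intro z z'
    have h1 := hno (y0 + (z : V)) (y1 + (z' : V))
    have h2 : y0 + y1 + ((z + z' : K) : V) = y0 + (z : V) + (y1 + (z' : V)) := by
      rw [Submodule.coe_add]; abel
    rw [h2]
    exact h1
  have key := two3 (hg 0 y0) (hg 1 y1) (hg 2 (y0 + y1)) hs' hsub
    (fun z : K => A 0 (y0 + (z : V)) * A' 0 (y0 + (z : V) + x))
    (fun z : K => A 1 (y1 + (z : V)) * A' 1 (y1 + (z : V) + x))
    (fun z : K => A 2 (y0 + y1 + (z : V)) * A' 2 (y0 + y1 + (z : V) + x))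
    (hE01 0 y0) (hE01 1 y1) (hE01 2 (y0 + y1))
    (fun z hz => hAf 0 _ (left_ne_zero_of_mul hz))
    (fun z hz => hAf 1 _ (left_ne_zero_of_mul hz))
    (fun z hz => hAf 2 _ (left_ne_zero_of_mul hz))
    hprod (hlow 0 y0 hy0) (hlow 1 y1 hy1) (hlow 2 (y0 + y1) hy2)
  rcases key with h | h
  · exact Or.inl (fibInc_of_locInc L hLdef (A 0) (A' 0) y0 (hA 0) (hA' 0) (havg 0 y0 hy0) hx
      (hcor 0) h)
  · exact Or.inr (fibInc_of_locInc L hLdef (A 1) (A' 1) y1 (hA 1) (hA' 1) (havg 1 y1 hy1) hx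
      (hcor 1) h)

end

end Pool.Agent.H22.QF
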