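import Pool.Agent.H22.QF.FNums
import Pool.Agent.H22.QK.StkMono

/-!
# QkMono: `qK` is monotone

As in `QK/StkMono`: all the functions are monotone in `R`.
-/

set_option autoImplicit false

open Finset Function Module
open scoped BigOperators
open Pool.Agent.H77.KM
open Pool.Agent.H22.QK

namespace Pool.Agent.H22.QF

private theorem qkmDim_mono {N l l' m m' : ℕ} (hl : l ≤ l') (hm : m ≤ m') :
    kmDim N l m ≤ kmDim N l' m' := by
  unfold kmDim; gcongr

private theorem qiiS_mono {k R R' : ℕ} (hR : R ≤ R') : iiS k R ≤ iiS k R' := by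
  unfold iiS; omega

private theorem qiiM_mono {k R R' : ℕ} (hR : R ≤ R') : iiM k R ≤ iiM k R' := by
  have h2 := qiiS_mono (k := k) hR
  unfold iiM; gcongr

private theorem qiiReg3_mono {k R R' : ℕ} (hR : R ≤ R') : iiReg3 k R ≤ iiReg3 k R' := by
  have h2 := qiiM_mono (k := k) hR
  unfold iiReg3; gcongr

private theorem qiiT_mono {k R R' : ℕ} (hR : R ≤ R') : iiT k R ≤ iiT k R' := by
  unfold iiT; omega

private theorem qselK_mono {k k' : ℕ} (h : k ≤ k') : selK k ≤ selK k' := by
  unfold selK; gcongr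

private theorem qcovK_mono {k k' : ℕ} (h : k ≤ k') : covK k ≤ covK k' := by
  have h1 : selK (3 * k + 1) ≤ selK (3 * k' + 1) := qselK_mono (by omega)
  unfold covK; omega

section

variable {n R R' : ℕ}

private theorem qcP_mono (hR : R ≤ R') : qcP n R ≤ qcP n R' := by
  unfold qcP; omega

private theorem qcK_mono (hR : R ≤ R') : qcK n R ≤ qcK n R' := by
  have h1 := qcP_mono (n := n) hR
  unfold qcK
  refine qkmDim_mono (by omega) ?_
  gcongr

private theorem qT_mono (hR : R ≤ R') : qT n R ≤ qT n R' := by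
  have h1 := qiiT_mono (k := 2 * n + 1) hR
  unfold qT; omega

private theorem qK1_mono (hR : R ≤ R') : qK1 n R ≤ qK1 n R' := by
  have h1 := qT_mono (n := n) hR
  unfold qK1; omega

private theorem qM_mono (hR : R ≤ R') : qM n R ≤ qM n R' := by
  have h1 := qK1_mono (n := n) hR
  have h3 := qcovK_mono (show qK1 n R + 1 ≤ qK1 n R' + 1 by omega)
  unfold qM; gcongr

private theorem qC1_mono (hR : R ≤ R') : qC1 n R ≤ qC1 n R' := by
  have h1 := qK1_mono (n := n) hR
  have h3 := qM_mono (n := n) hR
  unfold qC1; gcongr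

private theorem qQ_mono (hR : R ≤ R') : qQ n R ≤ qQ n R' := by
  unfold qQ; omega

private theorem qP_mono (hR : R ≤ R') : qP n R ≤ qP n R' := by
  have h1 := qQ_mono (n := n) hR
  have h3 := qM_mono (n := n) hR
  unfold qP; omega

private theorem qMm_mono (hR : R ≤ R') : qMm n R ≤ qMm n R' := by
  have h1 := qP_mono (n := n) hR
  unfold qMm; omega

private theorem qKm_mono (hR : R ≤ R') : qKm n R ≤ qKm n R' := by
  have h1 := qQ_mono (n := n) hR
  have h2 := qMm_mono (n := n) hR
  unfold qKm
  exact qkmDim_mono (by omega) h2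

private theorem qSi_mono (hR : R ≤ R') : qSi n R ≤ qSi n R' := by
  have h1 := qKm_mono (n := n) hR
  have h2 := qQ_mono (n := n) hR
  have h3 := qP_mono (n := n) hR
  unfold qSi; omega

end

theorem qK_mono {n R R' : ℕ} (hR : R ≤ R') : qK n R ≤ qK n R' := by
  have h1 := qC1_mono (n := n) hR
  have h2 := qQ_mono (n := n) hR
  have h3 := qSi_mono (n := n) hR
  have h4 := qKm_mono (n := n) hR
  have h5 := qcK_mono (n := n) hR
  have h6 := qiiReg3_mono (k := 2 * n + 1) hR
  unfold qK; gcongr

end Pool.Agent.H22.QF
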