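import Pool.Agent.H22.QF.Phase
import Pool.Agent.H22.QF.Count7
import Pool.Agent.H22.QF.QkMono

/-!
# Fin7: from the final system to a copy of the Fano plane (about 170 lines)

PROOF of `fin7`. Let `(W, Z, f, t, h, c)` be the system, `a0 = (1,0,0)`, `a1 = (0,1,0)`,
`a2 = a0 + a1`, `e = (0,0,1)` in `F3`. Apply `count7` in `W` with the target `Y × Z` (`finrank (Y×Z) =
finrank Y + finrank Z ≤ R`, `qK_mono`), the polarisation `bpair (pb b f) c`, `n = s + 2`,
`f i = gS G f t h (a i)`, `f' i = gS G f t h (a i + e)`, `k = gS G f t h e` (`gS_qm`),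
`A i = BS A G f t h (a i)`, `A' i = BS .. (a i + e)`, `X = BS .. e` (`BS_val`).
* `hF`: for `P Q x` let `φ : F3 → W` be the linear map with `a0 ↦ P`, `a1 ↦ Q`, `e ↦ x`
  (`φ v = v 0 • P + v 1 • Q + v 2 • x`, see `phi3`); then `a2 ↦ P + Q` and so on. First component:
  `fano_quad` for `G` and `Φ = t + f ∘ φ`; second component: `FanoRel h` for `φ`. (The sum over
  `univ.erase 0` has the seven terms `a0, a0 + e, a1, a1 + e, a2, a2 + e, e`: prove once
  `∑ v ∈ univ.erase 0, F v = F a0 + F (a0+e) + (F a1 + F (a1+e)) + (F a2 + F (a2+e)) + F e`, see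
  `sum7`.)
* Densities: `(1-δ) T ≤ |Y×Z| 𝔼 B`, `T ≥ (1/2)^(s+1)`, `1-δ ≥ 1/2`.
* `SprV` with `T ≤ (1 + 10^-6) |Y × Z| 𝔼 B` (`(1-δ) T ≤ density`, `δ ≤ 1/2000000`): `SprV` is
  monotone in the bound and antitone in `κ` (`qK (s+2) R ≤ κ`; or apply `count7` with `κ := κ`).
`count7` gives `P Q x`; `ψ = t + f ∘ φ`; by `BS_val` `A v (t v + f (φ v)) = 1` for the seven `v ≠ 0`
(every `v ≠ 0` is one of the seven vectors: `decide`).
-/

set_option autoImplicit false

open Finset Function Module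
open scoped BigOperators
open Pool.Agent.H77.KM
open Pool.Agent.H22.QK

namespace Pool.Agent.H22.QF

/-- The vectors `a0, a1, a2`. -/
def va : Fin 3 → F3 := ![![1, 0, 0], ![0, 1, 0], ![1, 1, 0]]

/-- The vector `e`. -/
def ve : F3 := ![0, 0, 1]

theorem sum7 {M : Type} [AddCommGroup M] (F : F3 → M) :
    ∑ v ∈ univ.erase (0 : F3), F v = F (va 0) + F (va 0 + ve) + (F (va 1) + F (va 1 + ve)) +
      (F (va 2) + F (va 2 + ve)) + F ve := by
  have hS : (univ.erase (0 : F3)) = {va 0, va 0 + ve, va 1, va 1 + ve, va 2, va 2 + ve, ve} := by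
    decide
  rw [hS]
  rw [Finset.sum_insert (by decide), Finset.sum_insert (by decide), Finset.sum_insert (by decide),
    Finset.sum_insert (by decide), Finset.sum_insert (by decide), Finset.sum_insert (by decide),
    Finset.sum_singleton]
  abel

theorem all7 {p : F3 → Prop} (h : ∀ i, p (va i)) (h' : ∀ i, p (va i + ve)) (he : p ve) :
    ∀ v, v ≠ 0 → p v := by
  have hdec : ∀ v : F3, v ≠ 0 → v = va 0 ∨ v = va 1 ∨ v = va 2 ∨ v = va 0 + ve ∨ v = va 1 + ve ∨
      v = va 2 + ve ∨ v = ve := by decide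
  intro v hv
  rcases hdec v hv with h1 | h1 | h1 | h1 | h1 | h1 | h1
  · rw [h1]; exact h 0
  · rw [h1]; exact h 1
  · rw [h1]; exact h 2
  · rw [h1]; exact h' 0
  · rw [h1]; exact h' 1
  · rw [h1]; exact h' 2
  · rw [h1]; exact he

theorem phi3 {W : Type} [AddCommGroup W] [Module (ZMod 2) W] (P Q x : W) :
    ∃ φ : F3 →ₗ[ZMod 2] W, φ (va 0) = P ∧ φ (va 0 + ve) = P + x ∧ φ (va 1) = Q ∧
      φ (va 1 + ve) = Q + x ∧ φ (va 2) = P + Q ∧ φ (va 2 + ve) = P + Q + x ∧ φ ve = x := by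
  let φ : F3 →ₗ[ZMod 2] W := (LinearMap.proj 0).smulRight P + (LinearMap.proj 1).smulRight Q +
    (LinearMap.proj 2).smulRight x
  have h0 : φ (va 0) = P := by simp [φ, va]
  have h1 : φ (va 1) = Q := by simp [φ, va]
  have h2 : φ (va 2) = P + Q := by simp [φ, va]
  have he : φ ve = x := by simp [φ, ve]
  refine ⟨φ, h0, ?_, h1, ?_, h2, ?_, he⟩
  · rw [map_add, h0, he]
  · rw [map_add, h1, he]
  · rw [map_add, h2, he]

section

variable {V : Type} [AddCommGroup V] [Module (ZMod 2) V] [Fintype V]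
variable {Y : Type} [AddCommGroup Y] [Module (ZMod 2) Y] [Fintype Y]

private theorem sprV_mono {B : V → ℝ} {g : V → Y} {κ r : ℕ} {t t' : ℝ} (h : SprV B g κ r t)
    (htt : t ≤ t') : SprV B g κ r t' := by
  intro W Y' _ _ _ _ _ _ f hf hk hr w0 h1 c hh
  refine (h W Y' f hf hk hr w0 h1 c hh).trans ?_
  refine mul_le_mul_of_nonneg_right htt ?_
  exact Finset.expect_nonneg fun w _ => mul_nonneg (iv_nonneg _) (iv_nonneg _)

theorem fin7 (A : F3 → V → ℝ) (hA : ∀ v x, A v x = 0 ∨ A v x = 1) {G : V → Y}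
    {b : V →ₗ[ZMod 2] V →ₗ[ZMod 2] Y} (hG : IsQM G b) (hG0 : G 0 = 0)
    {κ0 ρ σ κ s R : ℕ} {δ : ℝ} (hδ0 : 0 ≤ δ) (hδ : δ ≤ 1 / 2000000)
    (hR : finrank (ZMod 2) Y + ρ ≤ R) (hσ : qK (s + 2) R ≤ σ) (hκ : qK (s + 2) R ≤ κ)
    (hst : State A G b (univ.erase 0) κ0 ρ σ κ (qR (s + 2)) s δ) :
    ∃ ψ : F3 →ₗ[ZMod 2] V, ∀ v, v ≠ 0 → A v (ψ v) = 1 := by
  obtain ⟨W, Z, _, _, _, _, _, _, f, t, h, c, hf, hcod, hρ, hqm, hrel, hreg, hD⟩ := hst
  have hfin : finrank (ZMod 2) (Y × Z) ≤ R := by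
    rw [Module.finrank_prod]
    omega
  have hqK : qK (s + 2) (finrank (ZMod 2) (Y × Z)) ≤ qK (s + 2) R := qK_mono hfin
  have hcardYZ : ((Fintype.card (Y × Z) : ℕ) : ℝ) = (Fintype.card Y : ℝ) * Fintype.card Z := by
    rw [Fintype.card_prod]
    push_cast
    rfl
  -- densities
  have hdens : ∀ v : F3, v ≠ 0 →
      (1 / 2 : ℝ) ^ (s + 2) ≤ (Fintype.card (Y × Z) : ℝ) * 𝔼 w, BS A G f t h v w ∧
      SprV (BS A G f t h v) (gS G f t h v) κ (qR (s + 2))
        ((1 + 1 / 1000000) * ((Fintype.card (Y × Z) : ℝ) * 𝔼 w, BS A G f t h v w)) := by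
    intro v hv
    obtain ⟨T, hT1, hT2, hT3⟩ := hD v (Finset.mem_erase.2 ⟨hv, Finset.mem_univ v⟩)
    rw [hcardYZ]
    have hTpos : 0 < T := lt_of_lt_of_le (by positivity) hT1
    constructor
    · have h1 : (1 / 2 : ℝ) ^ (s + 2) = (1 / 2) * (1 / 2) ^ (s + 1) := by ring
      have h2 : 1 / 2 * T ≤ (1 - δ) * T := by
        apply mul_le_mul_of_nonneg_right _ hTpos.le
        linarith
      rw [h1]
      linarith
    · refine sprV_mono hT3 ?_
      have h1 : (1 : ℝ) ≤ (1 + 1 / 1000000) * (1 - δ) := by nlinarith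
      calc T = 1 * T := (one_mul T).symm
        _ ≤ ((1 + 1 / 1000000) * (1 - δ)) * T := mul_le_mul_of_nonneg_right h1 hTpos.le
        _ = (1 + 1 / 1000000) * ((1 - δ) * T) := by ring
        _ ≤ _ := mul_le_mul_of_nonneg_left hT2 (by norm_num)
  have hne : (∀ i, va i ≠ 0) ∧ (∀ i, va i + ve ≠ 0) ∧ ve ≠ 0 := by decide
  obtain ⟨hne1, hne2, hne3⟩ := hne
  obtain ⟨P, Q, x, e0, e0', e1, e1', e2, e2', ex⟩ := count7 (b := bpair (pb b f) c)
    (f := fun i => gS G f t h (va i)) (f' := fun i => gS G f t h (va i + ve)) (k := gS G f t h ve)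
    (fun i => gS_qm hG f t h hqm (va i)) (fun i => gS_qm hG f t h hqm (va i + ve))
    (by
      intro P Q x
      obtain ⟨φ, p0, p0', p1, p1', p2, p2', pe⟩ := phi3 P Q x
      have s1 := fano_quad hG hG0 (t + f ∘ₗ φ)
      have s2 := hrel φ
      rw [sum7] at s1 s2
      rw [p0, p0', p1, p1', p2, p2', pe] at s2
      simp only [LinearMap.add_apply, LinearMap.comp_apply] at s1
      rw [p0, p0', p1, p1', p2, p2', pe] at s1
      exact Prod.ext s1 s2)
    hreg (hqK.trans hσ) (hqK.trans hκ)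
    (fun i => BS A G f t h (va i)) (fun i => BS A G f t h (va i + ve)) (BS A G f t h ve)
    (fun i w => (BS_val A hA G f t h (va i) w).1)
    (fun i w => (BS_val A hA G f t h (va i + ve) w).1)
    (fun w => (BS_val A hA G f t h ve w).1)
    (fun i w hw => ((BS_val A hA G f t h (va i) w).2 hw).1)
    (fun i w hw => ((BS_val A hA G f t h (va i + ve) w).2 hw).1)
    (fun w hw => ((BS_val A hA G f t h ve w).2 hw).1)
    (fun i => (hdens (va i) (hne1 i)).1) (fun i => (hdens (va i + ve) (hne2 i)).1)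
    (hdens ve hne3).1
    (fun i => (hdens (va i) (hne1 i)).2) (fun i => (hdens (va i + ve) (hne2 i)).2)
  obtain ⟨φ, p0, p0', p1, p1', p2, p2', pe⟩ := phi3 P Q x
  refine ⟨t + f ∘ₗ φ, ?_⟩
  have key : ∀ (v : F3) (w : W), BS A G f t h v w = 1 → φ v = w → A v ((t + f ∘ₗ φ) v) = 1 := by
    intro v w hb hφ
    have h1 := ((BS_val A hA G f t h v w).2 (by rw [hb]; norm_num)).2
    rw [LinearMap.add_apply, LinearMap.comp_apply, hφ]
    exact h1
  refine all7 ?_ ?_ (key ve x ex pe)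
  · intro i
    fin_cases i
    · exact key (va 0) P e0 p0
    · exact key (va 1) Q e1 p1
    · exact key (va 2) (P + Q) e2 p2
  · intro i
    fin_cases i
    · exact key (va 0 + ve) (P + x) e0' p0'
    · exact key (va 1 + ve) (Q + x) e1' p1'
    · exact key (va 2 + ve) (P + Q + x) e2' p2'

end

end Pool.Agent.H22.QF
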