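import Pool.Agent.H22.QF.FbSnoc
import Pool.Agent.H22.QK.QBase

/-!
# FtDefs: joint frames for three quadrics (about 140 lines)

`IsFt g1 g2 g3 y1 y2 x`: the three affine subspaces `y1 + span x`, `y2 + span x`,
`y1 + y2 + span x` lie in `{g1 = 0}`, `{g2 = 0}`, `{g3 = 0}`.
`kk g1 g2 g3 v = g1 v + g1 0 + (g2 v + g2 0) + (g3 v + g3 0)`: a quadratic map with the same
polarisation (three times `b`) that vanishes at `0`.

PROOFS. `FT` is `|Y|^(bexp m + m + 2)` times an average of nonnegative weights times `F`: linearity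
and monotonicity are immediate (copy `FB_mono`, ... of `FbDefs`).
`isFt_iff`. Write `g^0 v = g v + g 0`. If `IsFt`, then for `w = lc u x`:
`0 = g1 (y1+w) + g2 (y2+w) + g3 (y1+y2+w) = [g1 y1 + g2 y2 + g3 (y1+y2)] + kk w
+ b y1 w + b y2 w + b (y1+y2) w = kk w`; `g2 (y2 + x_i) = 0` gives `b (x_i) y2 = g2 (x_i) + g2 0`.
Conversely: `IsFb g1 kk y1 x` implies `b (x_i) (x_j) = 0` (`i ≠ j`: the values of `g1` at
`y1, y1 + x_i, y1 + x_j, y1 + x_i + x_j`; `i = j`: `self_zero`), so `g2^0` and `g3^0` are additive on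
the span, `g2 (y2 + w) = g2 y2 + g2^0 w + b y2 w = 0`; `g1 (y1+w) = 0` gives `b y1 w = g1^0 w`, and
`g3 (y1+y2+w) = g3 (y1+y2) + g3^0 w + b y1 w + b y2 w = g3^0 w + g1^0 w + g2^0 w = kk w = 0`.
(Or directly: `g1 (y1+w) + g2 (y2+w) + g3 (y1+y2+w) = kk w` when the three vanish at `w = 0`.)
-/

set_option autoImplicit false

open Finset Function Module
open scoped BigOperators
open Pool.Agent.H77.KM
open Pool.Agent.H22.QK

namespace Pool.Agent.H22.QF

section

variable {V : Type} [AddCommGroup V] [Module (ZMod 2) V]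
variable {Y : Type} [AddCommGroup Y] [Module (ZMod 2) Y]

/-- Joint frames. -/
def IsFt (g1 g2 g3 : V → Y) {m : ℕ} (y1 y2 : V) (x : Fin m → V) : Prop :=
  (∀ u : Fin m → ZMod 2, g1 (y1 + lc u x) = 0) ∧ (∀ u : Fin m → ZMod 2, g2 (y2 + lc u x) = 0) ∧
    ∀ u : Fin m → ZMod 2, g3 (y1 + y2 + lc u x) = 0

/-- The quadratic map that vanishes on the directions of the joint frames. -/
def kk (g1 g2 g3 : V → Y) (v : V) : Y := g1 v + g1 0 + (g2 v + g2 0) + (g3 v + g3 0)

variable {g1 g2 g3 : V → Y} {b : V →ₗ[ZMod 2] V →ₗ[ZMod 2] Y} {m : ℕ}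

private theorem ft_ss (a : Y) : a + a = 0 := ZModModule.add_self a

theorem kk_qm (h1 : IsQM g1 b) (h2 : IsQM g2 b) (h3 : IsQM g3 b) : IsQM (kk g1 g2 g3) b := by
  intro x y
  unfold kk
  rw [h1 x y, h2 x y, h3 x y]
  have e1 := ft_ss (b x y)
  have e2 := ft_ss (g1 0)
  have e3 := ft_ss (g2 0)
  have e4 := ft_ss (g3 0)
  linear_combination (norm := module) e1 - e2 - e3 - e4

theorem kk_zero : kk g1 g2 g3 0 = 0 := by
  unfold kk
  rw [ft_ss (g1 0), ft_ss (g2 0), ft_ss (g3 0), add_zero, add_zero]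

/-- the sum of the three values on an affine subspace -/
private theorem ft_sum (h1 : IsQM g1 b) (h2 : IsQM g2 b) (h3 : IsQM g3 b) (y1 y2 w : V) :
    g1 (y1 + w) + g2 (y2 + w) + g3 (y1 + y2 + w)
      = kk g1 g2 g3 w + (g1 y1 + g2 y2 + g3 (y1 + y2)) := by
  unfold kk
  rw [h1 y1 w, h2 y2 w, h3 (y1 + y2) w, map_add, LinearMap.add_apply]
  have e1 := ft_ss (b y1 w)
  have e2 := ft_ss (b y2 w)
  linear_combination (norm := module) e1 + e2

private theorem ft_bxx (h1 : IsQM g1 b) {y1 : V} {x : Fin m → V}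
    (h : ∀ u : Fin m → ZMod 2, g1 (y1 + lc u x) = 0) (i j : Fin m) : b (x i) (x j) = 0 := by
  have e0 := h 0
  have e1 := h (Pi.single i 1)
  have e2 := h (Pi.single j 1)
  have e3 := h (Pi.single i 1 + Pi.single j 1)
  rw [lc_zero] at e0
  rw [lc_single] at e1 e2
  rw [lc_add, lc_single, lc_single] at e3
  have e4 := h1.shift y1 (x i) (x j)
  simp only at e4
  rw [e3, e1, e2, e0] at e4
  rw [e4]
  abel

private theorem ft_span (h1 : IsQM g1 b) (h2 : IsQM g2 b) {y1 y2 : V} {x : Fin m → V}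
    (h : ∀ u : Fin m → ZMod 2, g1 (y1 + lc u x) = 0)
    (hy : ∀ i, b (x i) y2 = g2 (x i) + g2 0) (u : Fin m → ZMod 2) :
    g2 (lc u x) + g2 0 = b (lc u x) y2 := by
  have key : ∀ S : Finset (Fin m),
      g2 (∑ i ∈ S, u i • x i) + g2 0 = b (∑ i ∈ S, u i • x i) y2 := by
    classical
    intro S
    induction S using Finset.induction_on with
    | empty =>
      rw [Finset.sum_empty, map_zero, LinearMap.zero_apply]
      exact ft_ss _
    | insert i S hi ih =>
      rw [Finset.sum_insert hi, h2, map_add, LinearMap.add_apply, ← ih]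
      have e1 : b (u i • x i) (∑ j ∈ S, u j • x j) = 0 := by
        rw [map_smul, LinearMap.smul_apply, map_sum]
        have e2 : ∑ j ∈ S, b (x i) (u j • x j) = 0 := by
          refine Finset.sum_eq_zero fun j _ => ?_
          rw [map_smul, ft_bxx h1 h, smul_zero]
        rw [e2, smul_zero]
      have e3 : g2 (u i • x i) + g2 0 = b (u i • x i) y2 := by
        have h01 : ∀ z : ZMod 2, z = 0 ∨ z = 1 := by decide
        rcases h01 (u i) with hu | hu
        · rw [hu, zero_smul, map_zero, LinearMap.zero_apply]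
          exact ft_ss _
        · rw [hu, one_smul]
          exact (hy i).symm
      rw [e1, ← e3]
      abel
  exact key Finset.univ

theorem isFt_iff (h1 : IsQM g1 b) (h2 : IsQM g2 b) (h3 : IsQM g3 b) (y1 y2 : V)
    (x : Fin m → V) :
    IsFt g1 g2 g3 y1 y2 x ↔ IsFb g1 (kk g1 g2 g3) y1 x ∧
      (g2 y2 = 0 ∧ g3 (y1 + y2) = 0 ∧ ∀ i, b (x i) y2 = g2 (x i) + g2 0) := by
  constructor
  · rintro ⟨k1, k2, k3⟩
    have z1 := k1 0
    have z2 := k2 0
    have z3 := k3 0
    rw [lc_zero, add_zero] at z1 z2 z3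
    refine ⟨⟨k1, fun u => ?_⟩, z2, z3, fun i => ?_⟩
    · have e := ft_sum h1 h2 h3 y1 y2 (lc u x)
      rw [k1 u, k2 u, k3 u, z1, z2, z3, add_zero, add_zero, add_zero] at e
      exact e.symm
    · have e := k2 (Pi.single i 1)
      rw [lc_single, h2, z2, zero_add, h2.symm y2 (x i)] at e
      have e1 := ft_ss (b (x i) y2)
      linear_combination (norm := module) e1 - e
  · rintro ⟨⟨k1, kk0⟩, z2, z3, hy⟩
    have z1 := k1 0
    rw [lc_zero, add_zero] at z1
    have k2 : ∀ u : Fin m → ZMod 2, g2 (y2 + lc u x) = 0 := by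
      intro u
      have e := ft_span h1 h2 k1 hy u
      rw [h2, z2, zero_add, h2.symm y2 (lc u x), ← e]
      exact ft_ss _
    refine ⟨k1, k2, fun u => ?_⟩
    have e := ft_sum h1 h2 h3 y1 y2 (lc u x)
    rw [k1 u, k2 u, kk0 u, z1, z2, z3, add_zero, add_zero, add_zero, zero_add] at e
    exact e

variable [Fintype V] [Fintype Y]

/-- Normalised average over the joint frames. -/
noncomputable def FT (g1 g2 g3 : V → Y) (m : ℕ) (F : V → V → (Fin m → V) → ℝ) : ℝ :=
  (Fintype.card Y : ℝ) ^ (bexp m + m + 2) *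
    𝔼 y1, 𝔼 y2, 𝔼 x : Fin m → V, iv (IsFt g1 g2 g3 y1 y2 x) * F y1 y2 x

theorem FT_mono {F F' : V → V → (Fin m → V) → ℝ}
    (h : ∀ y1 y2 x, IsFt g1 g2 g3 y1 y2 x → F y1 y2 x ≤ F' y1 y2 x) :
    FT g1 g2 g3 m F ≤ FT g1 g2 g3 m F' := by
  rw [FT, FT]
  refine mul_le_mul_of_nonneg_left ?_ (by positivity)
  refine Finset.expect_le_expect fun y1 _ => ?_
  refine Finset.expect_le_expect fun y2 _ => ?_
  refine Finset.expect_le_expect fun x _ => ?_
  by_cases hx : IsFt g1 g2 g3 y1 y2 x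
  · exact mul_le_mul_of_nonneg_left (h y1 y2 x hx) (iv_nonneg _)
  · rw [iv_neg hx, zero_mul, zero_mul]

theorem FT_add (F F' : V → V → (Fin m → V) → ℝ) :
    FT g1 g2 g3 m (fun y1 y2 x => F y1 y2 x + F' y1 y2 x)
      = FT g1 g2 g3 m F + FT g1 g2 g3 m F' := by
  simp only [FT, mul_add, Finset.expect_add_distrib]

theorem FT_sub (F F' : V → V → (Fin m → V) → ℝ) :
    FT g1 g2 g3 m (fun y1 y2 x => F y1 y2 x - F' y1 y2 x)
      = FT g1 g2 g3 m F - FT g1 g2 g3 m F' := by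
  simp only [FT, mul_sub, Finset.expect_sub_distrib]

end

end Pool.Agent.H22.QF
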