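import Pool.Agent.H22.QF.FtDefs
import Pool.Agent.H22.QF.FbCount
import Pool.Agent.H22.QF.FbMany

/-!
# FtMarg: the marginals of the joint frames (about 180 lines)

PROOF of `FT_marg1`. Write `kk = kk g1 g2 g3`. By `isFt_iff`,
`FT F = |Y|^(bexp m + m + 2) 𝔼_{y1,x} iv (IsFb g1 kk y1 x) F y1 x P y1 x` with
`P y1 x = 𝔼_z iv (g2 z = 0 ∧ g3 (y1 + z) = 0 ∧ ∀ i, b (x i) z = g2 (x i) + g2 0)` and
`FB F = |Y|^(bexp m + m + 2) 𝔼 𝔼 iv (IsFb ..) F |Y|^-(m+2)`. If `¬ DegB b ν y1 x` (`ν` from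
`exists_mu` for `g3`, `g2`) the difference of `P` and `|Y|^-(m+2)` is at most `(1/2)^s`
(`ext_count_t`); otherwise it is at most `1`, and this happens with probability at most
`|Y|^(m+1) (1/2)^(2s) ≤ (1/2)^s` (`degB_count`, `pow_le_of_tauB`). So the total error is at most
`|Y|^(bexp m + m + 2) 2 (1/2)^s ≤ tauB Y m s`.

PROOF of `FT_marg2`: interchange `y1` and `y2`: `IsFt g1 g2 g3 y1 y2 x ↔ IsFt g2 g1 g3 y2 y1 x`
(`y1 + y2 = y2 + y1`) and `kk g1 g2 g3 = kk g2 g1 g3` (commutativity).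

PROOF of `FT_marg3`: substitute `y3 = y1 + y2` for `y1` (translation by `y2`):
`IsFt g1 g2 g3 (y3 + y2) y2 x ↔ IsFt g3 g2 g1 y3 y2 x` and `kk g3 g2 g1 = kk g1 g2 g3`.
-/

set_option autoImplicit false

open Finset Function Module
open scoped BigOperators
open Pool.Agent.H77.KM
open Pool.Agent.H22.QK

namespace Pool.Agent.H22.QF

section

variable {V : Type} [AddCommGroup V] [Module (ZMod 2) V] [Fintype V]
variable {Y : Type} [AddCommGroup Y] [Module (ZMod 2) Y] [Fintype Y]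
variable {g1 g2 g3 : V → Y} {b : V →ₗ[ZMod 2] V →ₗ[ZMod 2] Y} {m : ℕ}

theorem FT_marg1 (h1 : IsQM g1 b) (h2 : IsQM g2 b) (h3 : IsQM g3 b) {s : ℕ} (hs : Reg b s)
    (hτ : tauB Y m s ≤ 1) (F : V → (Fin m → V) → ℝ) (hF : ∀ y x, |F y x| ≤ 1) :
    |FT g1 g2 g3 m (fun y1 _ x => F y1 x) - FB g1 (kk g1 g2 g3) m F| ≤ tauB Y m s := by
  classical
  obtain ⟨ν, hν⟩ := exists_mu h3 h2
  set c : ℝ := (Fintype.card Y : ℝ) with hc
  have hc0 : 0 < c := by rw [hc]; exact_mod_cast Fintype.card_pos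
  set K : V → Y := kk g1 g2 g3 with hK
  set Q : V → (Fin m → V) → ℝ := fun y x =>
    𝔼 z, iv (g2 z = 0 ∧ g3 (y + z) = 0 ∧ ∀ i, b (x i) z = g2 (x i) + g2 0) with hQ
  have hQ0 : ∀ y x, 0 ≤ Q y x := fun y x => Finset.expect_nonneg fun z _ => iv_nonneg _
  have hQ1 : ∀ y x, Q y x ≤ 1 := fun y x =>
    (Finset.expect_le_expect fun z _ => iv_le_one _).trans (Fintype.expect_const (1 : ℝ)).le
  -- the joint average
  have key : ∀ y1, 𝔼 y2, 𝔼 x : Fin m → V, iv (IsFt g1 g2 g3 y1 y2 x) * F y1 x =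
      𝔼 x : Fin m → V, iv (IsFb g1 K y1 x) * F y1 x * Q y1 x := by
    intro y1
    rw [Finset.expect_comm]
    refine Finset.expect_congr rfl fun x _ => ?_
    rw [hQ]
    simp only
    rw [Finset.mul_expect]
    refine Finset.expect_congr rfl fun z _ => ?_
    rw [iv_congr (isFt_iff h1 h2 h3 y1 z x), iv_and]
    ring
  have e1 : FT g1 g2 g3 m (fun y1 _ x => F y1 x) =
      c ^ (bexp m + m + 2) * 𝔼 y, 𝔼 x : Fin m → V, iv (IsFb g1 K y x) * F y x * Q y x := by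
    unfold FT
    rw [← hc]
    congr 1
    exact Finset.expect_congr rfl fun y _ => key y
  have e2 : FB g1 K m F = c ^ (bexp m + m + 2) *
      𝔼 y, 𝔼 x : Fin m → V, iv (IsFb g1 K y x) * F y x * (1 / c ^ (m + 2)) := by
    unfold FB
    rw [← hc]
    have h1 : ∀ y, 𝔼 x : Fin m → V, iv (IsFb g1 K y x) * F y x * (1 / c ^ (m + 2)) =
        (𝔼 x : Fin m → V, iv (IsFb g1 K y x) * F y x) * (1 / c ^ (m + 2)) := fun y => by
      rw [Finset.expect_mul]
    simp_rw [h1]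
    rw [← Finset.expect_mul]
    have h2 : c ^ (bexp m + m + 2) = c ^ bexp m * c ^ (m + 2) := by
      rw [← pow_add]; rfl
    rw [h2]
    field_simp
  have hbig : c ^ (bexp m + m + 2) * (2 * (1 / 2) ^ s) ≤ tauB Y m s := by
    rw [tauB, ← hc, mul_assoc]
    refine mul_le_mul_of_nonneg_left ?_ (pow_nonneg hc0.le _)
    refine mul_le_mul_of_nonneg_right ?_ (by positivity)
    have : (0 : ℝ) ≤ m := Nat.cast_nonneg m
    linarith
  refine le_trans ?_ hbig
  rw [e1, e2, ← mul_sub, abs_mul, abs_of_nonneg (pow_nonneg hc0.le _)]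
  refine mul_le_mul_of_nonneg_left ?_ (pow_nonneg hc0.le _)
  have h4 : (𝔼 y, 𝔼 x : Fin m → V, iv (IsFb g1 K y x) * F y x * Q y x) -
      𝔼 y, 𝔼 x : Fin m → V, iv (IsFb g1 K y x) * F y x * (1 / c ^ (m + 2)) =
      𝔼 y, 𝔼 x : Fin m → V, iv (IsFb g1 K y x) * F y x * (Q y x - 1 / c ^ (m + 2)) := by
    rw [← Finset.expect_sub_distrib]
    refine Finset.expect_congr rfl fun y _ => ?_
    rw [← Finset.expect_sub_distrib]
    refine Finset.expect_congr rfl fun x _ => ?_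
    ring
  rw [h4]
  have hm1 : (1 : ℝ) ≤ c ^ (m + 2) := by
    have : (1 : ℝ) ≤ c := by rw [hc]; exact_mod_cast Fintype.card_pos
    exact one_le_pow₀ this
  have hbd : ∀ (y : V) (x : Fin m → V),
      |iv (IsFb g1 K y x) * F y x * (Q y x - 1 / c ^ (m + 2))| ≤
        (1 / 2) ^ s + iv (DegB b ν y x) := by
    intro y x
    have h5 : |iv (IsFb g1 K y x) * F y x| ≤ 1 := by
      rw [abs_mul, abs_of_nonneg (iv_nonneg _)]
      exact mul_le_one₀ (iv_le_one _) (abs_nonneg _) (hF y x)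
    have h6 : |Q y x - 1 / c ^ (m + 2)| ≤ (1 / 2) ^ s + iv (DegB b ν y x) := by
      by_cases hx : DegB b ν y x
      · rw [iv_pos hx]
        have h7 : |Q y x - 1 / c ^ (m + 2)| ≤ 1 := by
          have h8 : 0 ≤ 1 / c ^ (m + 2) := by positivity
          have h9 : 1 / c ^ (m + 2) ≤ 1 := by
            rw [div_le_one (by positivity)]
            exact hm1
          rw [abs_le]
          constructor
          · have := hQ0 y x
            linarith
          · have := hQ1 y x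
            linarith
        have : (0 : ℝ) ≤ (1 / 2) ^ s := by positivity
        linarith
      · rw [iv_neg hx, add_zero]
        exact ext_count_t h2 h3 hν hs y x hx (fun i => g2 (x i) + g2 0)
    rw [abs_mul]
    calc |iv (IsFb g1 K y x) * F y x| * |Q y x - 1 / c ^ (m + 2)|
        ≤ 1 * |Q y x - 1 / c ^ (m + 2)| := by gcongr
      _ ≤ _ := by rw [one_mul]; exact h6
  have h9 : |𝔼 y, 𝔼 x : Fin m → V, iv (IsFb g1 K y x) * F y x * (Q y x - 1 / c ^ (m + 2))| ≤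
      𝔼 y : V, 𝔼 x : Fin m → V, ((1 / 2) ^ s + iv (DegB b ν y x)) := by
    refine (Finset.abs_expect_le _ _).trans (Finset.expect_le_expect fun y _ => ?_)
    exact (Finset.abs_expect_le _ _).trans (Finset.expect_le_expect fun x _ => hbd y x)
  refine h9.trans ?_
  have e3 : 𝔼 y : V, 𝔼 x : Fin m → V, ((1 / 2 : ℝ) ^ s + iv (DegB b ν y x)) =
      (1 / 2) ^ s + 𝔼 y : V, 𝔼 x : Fin m → V, iv (DegB b ν y x) := by
    simp only [Finset.expect_add_distrib, Fintype.expect_const]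
  rw [e3]
  have h10 := degB_count hs ν m
  have hm : c ^ (m + 1) ≤ 2 ^ s := pow_le_of_tauB hτ
  have h11 : c ^ (m + 1) * (1 / 2) ^ (2 * s) ≤ (1 / 2) ^ s := by
    have h12 : (1 / 2 : ℝ) ^ (2 * s) = (1 / 2) ^ s * (1 / 2) ^ s := by
      rw [two_mul, pow_add]
    have h13 : (2 : ℝ) ^ s * (1 / 2) ^ s = 1 := by
      rw [← mul_pow]; norm_num
    rw [h12, ← mul_assoc]
    calc c ^ (m + 1) * (1 / 2) ^ s * (1 / 2) ^ s ≤ 2 ^ s * (1 / 2) ^ s * (1 / 2) ^ s := by gcongr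
      _ = (1 / 2) ^ s := by rw [h13, one_mul]
  linarith

theorem FT_marg2 (h1 : IsQM g1 b) (h2 : IsQM g2 b) (h3 : IsQM g3 b) {s : ℕ} (hs : Reg b s)
    (hτ : tauB Y m s ≤ 1) (F : V → (Fin m → V) → ℝ) (hF : ∀ y x, |F y x| ≤ 1) :
    |FT g1 g2 g3 m (fun _ y2 x => F y2 x) - FB g2 (kk g1 g2 g3) m F| ≤ tauB Y m s := by
  have e1 : kk g1 g2 g3 = kk g2 g1 g3 := by
    funext v
    simp only [kk]
    abel
  have e2 : FT g1 g2 g3 m (fun _ y2 x => F y2 x) = FT g2 g1 g3 m (fun y1 _ x => F y1 x) := by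
    unfold FT
    rw [Finset.expect_comm]
    congr 1
    refine Finset.expect_congr rfl fun y2 _ => ?_
    refine Finset.expect_congr rfl fun y1 _ => ?_
    refine Finset.expect_congr rfl fun x _ => ?_
    congr 1
    refine iv_congr ?_
    simp only [IsFt, add_comm y1 y2]
    tauto
  rw [e1, e2]
  exact FT_marg1 h2 h1 h3 hs hτ F hF

theorem FT_marg3 (h1 : IsQM g1 b) (h2 : IsQM g2 b) (h3 : IsQM g3 b) {s : ℕ} (hs : Reg b s)
    (hτ : tauB Y m s ≤ 1) (F : V → (Fin m → V) → ℝ) (hF : ∀ y x, |F y x| ≤ 1) :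
    |FT g1 g2 g3 m (fun y1 y2 x => F (y1 + y2) x) - FB g3 (kk g1 g2 g3) m F| ≤ tauB Y m s := by
  have e1 : kk g1 g2 g3 = kk g3 g2 g1 := by
    funext v
    simp only [kk]
    abel
  have e2 : FT g1 g2 g3 m (fun y1 y2 x => F (y1 + y2) x) =
      FT g3 g2 g1 m (fun y1 _ x => F y1 x) := by
    unfold FT
    congr 1
    rw [Finset.expect_comm]
    conv_rhs => rw [Finset.expect_comm]
    refine Finset.expect_congr rfl fun y2 _ => ?_
    have h := expect_add_right (fun y1 : V => 𝔼 x : Fin m → V,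
      iv (IsFt g3 g2 g1 y1 y2 x) * F y1 x) y2
    rw [← h]
    refine Finset.expect_congr rfl fun y1 _ => ?_
    refine Finset.expect_congr rfl fun x _ => ?_
    congr 1
    refine iv_congr ?_
    have h5 : y1 + y2 + y2 = y1 := by
      rw [add_assoc, ZModModule.add_self, add_zero]
    simp only [IsFt, h5]
    tauto
  rw [e1, e2]
  exact FT_marg1 h3 h2 h1 hs hτ F hF

end

end Pool.Agent.H22.QF
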