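import Pool.Agent.H22.QK.KLow

/-!
# KLow2: two spread sets have large correlation almost everywhere (about 110 lines)

PROOF of `km_even` (this is the proof of `km_lower` in `QK/KLow.lean`). Let `α = 𝔼 a > 0`,
`f = a/α - 1`, `F = corr f f = corr a a/α^2 - 1` (`corr_normalised`), so `1 + F ≥ 0`. Suppose
`𝔼 F^p > (1/(2N))^p`. Odd moments of `corr f f` are `≥ 0` (`expect_corr_self_pow_nonneg`).
`unbalance_gen` gives `𝔼 (1+F)^m ≥ (1+1/(4N))^m`, `m = 24 N (N+3) (p+1)`, that is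
`𝔼 (corr a a)^m ≥ ((1+1/(4N)) α^2)^m`, which contradicts `km_core` with `4 N` in the place of `N` and
`t = α` (`1/(16 (4N)) = 1/(64 N)`).

PROOF of `km_lower2`. `f = a/α - 1`, `g = b/β - 1`; `corr f g x = corr a b x/(α β) - 1`
(`corr_normalised`). By `expect_corr_pow_sq_le` and `km_even` twice
`(𝔼 (corr f g)^p)^2 ≤ (1/(2N))^(2p)`, so `𝔼 (corr f g)^p ≤ (1/(2N))^p` (`p` even, the moment is
`≥ 0`). On the event `corr f g < -1/N`, hence `(corr f g)^p ≥ (1/N)^p`: Markov gives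
`(1/2)^p`.
-/

set_option autoImplicit false

open Finset Function Module
open scoped BigOperators
open Pool.Agent.H77.KM
open Pool.Agent.H22.QK

namespace Pool.Agent.H22.QF

section

variable {V : Type} [AddCommGroup V] [Module (ZMod 2) V] [Fintype V]

theorem km_even (a : V → ℝ) (ha : ∀ x, a x = 0 ∨ a x = 1) {N l p : ℕ} (hN : 1 ≤ N)
    (hp10 : 10 ≤ p) (hp : Even p) (hl : (1 / 2 : ℝ) ^ l ≤ 𝔼 x, a x)
    (hs : Spr a (kmDim (4 * N) l (24 * N * (N + 3) * (p + 1)))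
      ((1 + 1 / (64 * N : ℝ)) * 𝔼 x, a x)) :
    𝔼 x, corr (fun y => a y / (𝔼 x, a x) - 1) (fun y => a y / (𝔼 x, a x) - 1) x ^ p
      ≤ (1 / (2 * N : ℝ)) ^ p := by
  classical
  by_contra hcon
  push Not at hcon
  have hNpos : (0 : ℝ) < (N : ℝ) := by exact_mod_cast hN
  have hαpos : 0 < 𝔼 x, a x := lt_of_lt_of_le (by positivity) hl
  have ha0 : ∀ x, 0 ≤ a x := fun x => by rcases ha x with h | h <;> rw [h] <;> norm_num
  have hc0 : ∀ x, 0 ≤ corr a a x := fun x =>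
    Finset.expect_nonneg (fun y _ => mul_nonneg (ha0 _) (ha0 _))
  set α : ℝ := 𝔼 x, a x with hαd
  set f : V → ℝ := fun y => a y / α - 1 with hf
  set m : ℕ := 24 * N * (N + 3) * (p + 1) with hm
  have hFm : ∀ x, corr f f x = corr a a x / (α * α) - 1 := by
    intro x
    rw [hf, corr_normalised a a hαpos.ne' hαpos.ne']
  have hF : ∀ x, 1 + corr f f x = corr a a x / (α * α) := by
    intro x
    rw [hFm]
    ring
  have h := unbalance_gen (corr f f)
    (fun x => by rw [hF]; exact div_nonneg (hc0 x) (by positivity)) hN hp hp10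
    (expect_corr_self_pow_nonneg f _) hcon.le
  simp only [hF] at h
  rw [← hm] at h
  have h2 : 𝔼 x, (corr a a x / (α * α)) ^ m = (𝔼 x, corr a a x ^ m) / (α ^ 2) ^ m := by
    rw [Finset.expect_div]
    refine Finset.expect_congr rfl (fun x _ => ?_)
    rw [div_pow, ← sq]
  rw [h2, le_div_iff₀ (by positivity), ← mul_pow] at h
  have hcast : ((4 * N : ℕ) : ℝ) = 4 * (N : ℝ) := by push_cast; ring
  have hmm : (2 * (4 * N) + 1) * (4 * N + 7) ≤ m := by
    rw [hm]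
    have h3 : (2 * (4 * N) + 1) * (4 * N + 7) ≤ (9 * N) * (11 * (N + 3)) := by
      refine Nat.mul_le_mul ?_ ?_ <;> omega
    calc (2 * (4 * N) + 1) * (4 * N + 7) ≤ (9 * N) * (11 * (N + 3)) := h3
      _ = 24 * N * (N + 3) * 4 + 3 * N * (N + 3) := by ring
      _ ≤ 24 * N * (N + 3) * 4 + 24 * N * (N + 3) * 7 := by nlinarith
      _ = 24 * N * (N + 3) * 11 := by ring
      _ ≤ 24 * N * (N + 3) * (p + 1) := Nat.mul_le_mul_left _ (by omega)
  have hk := km_core a ha (N := 4 * N) (l := l) (m := m) (by omega) hmm hl (by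
    rw [hcast]
    have e : (16 : ℝ) * (4 * (N : ℝ)) = 64 * N := by ring
    rw [e]
    exact hs)
  rw [hcast] at hk
  exact absurd h (not_le.2 hk)

theorem km_lower2 (a b : V → ℝ) (ha : ∀ x, a x = 0 ∨ a x = 1) (hb : ∀ x, b x = 0 ∨ b x = 1)
    {N l p : ℕ} (hN : 1 ≤ N) (hp10 : 10 ≤ p) (hp : Even p)
    (hla : (1 / 2 : ℝ) ^ l ≤ 𝔼 x, a x) (hlb : (1 / 2 : ℝ) ^ l ≤ 𝔼 x, b x)
    (hsa : Spr a (kmDim (4 * N) l (24 * N * (N + 3) * (p + 1)))
      ((1 + 1 / (64 * N : ℝ)) * 𝔼 x, a x))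
    (hsb : Spr b (kmDim (4 * N) l (24 * N * (N + 3) * (p + 1)))
      ((1 + 1 / (64 * N : ℝ)) * 𝔼 x, b x)) :
    𝔼 x, iv (corr a b x < (1 - 1 / (N : ℝ)) * ((𝔼 x, a x) * 𝔼 x, b x)) ≤ (1 / 2) ^ p := by
  classical
  have hNpos : (0 : ℝ) < (N : ℝ) := by exact_mod_cast hN
  have hαpos : 0 < 𝔼 x, a x := lt_of_lt_of_le (by positivity) hla
  have hβpos : 0 < 𝔼 x, b x := lt_of_lt_of_le (by positivity) hlb
  have hea := km_even a ha hN hp10 hp hla hsa
  have heb := km_even b hb hN hp10 hp hlb hsb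
  set α : ℝ := 𝔼 x, a x with hαd
  set β : ℝ := 𝔼 x, b x with hβd
  set f : V → ℝ := fun y => a y / α - 1 with hf
  set g : V → ℝ := fun y => b y / β - 1 with hg
  have hFm : ∀ x, corr f g x = corr a b x / (α * β) - 1 := by
    intro x
    rw [hf, hg, corr_normalised a b hαpos.ne' hβpos.ne']
  have hc0 : 0 ≤ (1 / (2 * N : ℝ)) ^ p := by positivity
  have hfg0 : 0 ≤ 𝔼 x, corr f g x ^ p :=
    Finset.expect_nonneg (fun x _ => hp.pow_nonneg _)
  have hff0 : 0 ≤ 𝔼 x, corr f f x ^ p :=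
    Finset.expect_nonneg (fun x _ => hp.pow_nonneg _)
  have hgg0 : 0 ≤ 𝔼 x, corr g g x ^ p :=
    Finset.expect_nonneg (fun x _ => hp.pow_nonneg _)
  have hcs := expect_corr_pow_sq_le f g p
  have hle : 𝔼 x, corr f g x ^ p ≤ (1 / (2 * N : ℝ)) ^ p := by
    have h1 : (𝔼 x, corr f g x ^ p) ^ 2 ≤ ((1 / (2 * N : ℝ)) ^ p) ^ 2 := by
      refine hcs.trans ?_
      rw [sq]
      exact mul_le_mul hea heb hgg0 hc0
    exact le_of_sq_le_sq h1 hc0
  have hpt : ∀ x, (1 / (N : ℝ)) ^ p * iv (corr a b x < (1 - 1 / (N : ℝ)) * (α * β))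
      ≤ corr f g x ^ p := by
    intro x
    by_cases hx : corr a b x < (1 - 1 / (N : ℝ)) * (α * β)
    · rw [iv_pos hx, mul_one]
      have h1 : corr f g x ≤ -(1 / (N : ℝ)) := by
        rw [hFm]
        have h2 : corr a b x / (α * β) ≤ 1 - 1 / (N : ℝ) := by
          rw [div_le_iff₀ (by positivity)]
          exact hx.le
        linarith
      rw [← hp.neg_pow (corr f g x)]
      exact pow_le_pow_left₀ (by positivity) (by linarith) p
    · rw [iv_neg hx, mul_zero]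
      exact hp.pow_nonneg _
  have h1 : (1 / (N : ℝ)) ^ p * 𝔼 x, iv (corr a b x < (1 - 1 / (N : ℝ)) * (α * β))
      ≤ 𝔼 x, corr f g x ^ p := by
    rw [Finset.mul_expect]
    exact Finset.expect_le_expect (fun x _ => hpt x)
  have h2 : (1 / (2 * N : ℝ)) ^ p = (1 / (N : ℝ)) ^ p * (1 / 2) ^ p := by
    rw [← mul_pow]
    congr 1
    field_simp
  rw [h2] at hle
  exact le_of_mul_le_mul_left (h1.trans hle) (by positivity)

end

end Pool.Agent.H22.QF
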