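import Pool.Agent.H22.QK.KCore

/-!
# KmTwo2: the Kelley-Meka upper bound with two thresholds (about 80 lines)

Copy `km_two`, `km_upper` of `QK/KCore.lean`.
PROOF of `km_two2`: `expect_corr_pow_sq_le` and `km_core` twice:
`(𝔼 (corr a b)^m)^2 ≤ ((1+1/N) t1^2)^m ((1+1/N) t2^2)^m = (((1+1/N) (t1 t2))^m)^2`.
PROOF of `km_upper2`: pointwise `iv(..) * ((1+2/N) (t1 t2))^m ≤ corr a b x ^ m`; so
`𝔼 iv ≤ ((1+1/N)/(1+2/N))^m = ((N+1)/(N+2))^m ≤ (1/2)^p` as in `km_upper`.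
-/

set_option autoImplicit false

open Finset Function Module
open scoped BigOperators
open Pool.Agent.H77.KM
open Pool.Agent.H22.QK

namespace Pool.Agent.H22.QF

section

variable {V : Type} [AddCommGroup V] [Module (ZMod 2) V] [Fintype V]

theorem km_two2 (a b : V → ℝ) (ha : ∀ x, a x = 0 ∨ a x = 1) (hb : ∀ x, b x = 0 ∨ b x = 1)
    {N l m : ℕ} (hN : 1 ≤ N) (hm : (2 * N + 1) * (N + 7) ≤ m) {t1 t2 : ℝ}
    (ht1 : (1 / 2 : ℝ) ^ l ≤ t1) (ht2 : (1 / 2 : ℝ) ^ l ≤ t2)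
    (hsa : Spr a (kmDim N l m) ((1 + 1 / (16 * N : ℝ)) * t1))
    (hsb : Spr b (kmDim N l m) ((1 + 1 / (16 * N : ℝ)) * t2)) :
    𝔼 x, corr a b x ^ m ≤ ((1 + 1 / (N : ℝ)) * (t1 * t2)) ^ m := by
  have hNr : (1 : ℝ) ≤ N := by exact_mod_cast hN
  have hN0 : (0 : ℝ) < N := by linarith
  have ht1p : 0 < t1 := lt_of_lt_of_le (by positivity) ht1
  have ht2p : 0 < t2 := lt_of_lt_of_le (by positivity) ht2
  have hX := expect_corr_pow_sq_le a b m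
  have hP := (km_core a ha hN hm ht1 hsa).le
  have hQ := (km_core b hb hN hm ht2 hsb).le
  have hP0 := expect_corr_self_pow_nonneg a m
  have hQ0 := expect_corr_self_pow_nonneg b m
  have hM : 0 ≤ ((1 + 1 / (N : ℝ)) * (t1 * t2)) ^ m := by positivity
  have h1 : (𝔼 x, corr a b x ^ m) ^ 2 ≤ (((1 + 1 / (N : ℝ)) * (t1 * t2)) ^ m) ^ 2 := by
    refine hX.trans ?_
    have h2 : (((1 + 1 / (N : ℝ)) * (t1 * t2)) ^ m) ^ 2 =
        ((1 + 1 / (N : ℝ)) * t1 ^ 2) ^ m * ((1 + 1 / (N : ℝ)) * t2 ^ 2) ^ m := by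
      rw [← mul_pow, ← pow_mul, mul_comm m 2, pow_mul]
      congr 1
      ring
    rw [h2]
    exact mul_le_mul hP hQ hQ0 (hP0.trans hP)
  exact le_of_not_gt (fun hlt => absurd (pow_lt_pow_left₀ hlt hM (by norm_num : (2 : ℕ) ≠ 0))
    (not_lt.mpr h1))

theorem km_upper2 (a b : V → ℝ) (ha : ∀ x, a x = 0 ∨ a x = 1) (hb : ∀ x, b x = 0 ∨ b x = 1)
    {N l m p : ℕ} (hN : 1 ≤ N) (hm : (2 * N + 1) * (N + 7) ≤ m) (hmp : (N + 2) * p ≤ m)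
    {t1 t2 : ℝ} (ht1 : (1 / 2 : ℝ) ^ l ≤ t1) (ht2 : (1 / 2 : ℝ) ^ l ≤ t2)
    (hsa : Spr a (kmDim N l m) ((1 + 1 / (16 * N : ℝ)) * t1))
    (hsb : Spr b (kmDim N l m) ((1 + 1 / (16 * N : ℝ)) * t2)) :
    𝔼 x, iv ((1 + 2 / (N : ℝ)) * (t1 * t2) < corr a b x) ≤ (1 / 2) ^ p := by
  have hNr : (1 : ℝ) ≤ N := by exact_mod_cast hN
  have hN0 : (0 : ℝ) < N := by linarith
  have ht1p : 0 < t1 := lt_of_lt_of_le (by positivity) ht1
  have ht2p : 0 < t2 := lt_of_lt_of_le (by positivity) ht2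
  have htwo := km_two2 a b ha hb hN hm ht1 ht2 hsa hsb
  have hM0 : 0 < ((1 + 2 / (N : ℝ)) * (t1 * t2)) ^ m := by positivity
  have h1 : ∀ x, iv ((1 + 2 / (N : ℝ)) * (t1 * t2) < corr a b x) *
      ((1 + 2 / (N : ℝ)) * (t1 * t2)) ^ m ≤ corr a b x ^ m := by
    intro x
    by_cases h : (1 + 2 / (N : ℝ)) * (t1 * t2) < corr a b x
    · rw [iv_pos h, one_mul]
      exact pow_le_pow_left₀ (by positivity) h.le m
    · rw [iv_neg h, zero_mul]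
      exact pow_nonneg (km_corr_nonneg ha hb x) m
  have h2 : (𝔼 x, iv ((1 + 2 / (N : ℝ)) * (t1 * t2) < corr a b x))
      * ((1 + 2 / (N : ℝ)) * (t1 * t2)) ^ m ≤ ((1 + 1 / (N : ℝ)) * (t1 * t2)) ^ m := by
    rw [Finset.expect_mul]
    exact (Finset.expect_le_expect (fun x _ => h1 x)).trans htwo
  have hr : (1 + 1 / (N : ℝ)) * (t1 * t2)
      = ((N + 1 : ℝ) / (N + 2)) * ((1 + 2 / (N : ℝ)) * (t1 * t2)) := by
    field_simp
  rw [hr, mul_pow ((N + 1 : ℝ) / (N + 2))] at h2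
  have h3 := le_of_mul_le_mul_right h2 hM0
  refine h3.trans ?_
  have hr0 : (0 : ℝ) < (N + 1 : ℝ) / (N + 2) := by positivity
  have hr1 : ((N + 1 : ℝ) / (N + 2)) ≤ 1 := by
    rw [div_le_one (by positivity)]; linarith
  have h4 : ((N + 1 : ℝ) / (N + 2)) ^ m ≤ ((N + 1 : ℝ) / (N + 2)) ^ ((N + 2) * p) :=
    pow_le_pow_of_le_one hr0.le hr1 hmp
  refine h4.trans ?_
  rw [pow_mul]
  refine pow_le_pow_left₀ (by positivity) ?_ p
  have h5 : (2 : ℝ) ≤ ((N + 2 : ℝ) / (N + 1)) ^ (N + 2) := by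
    have h6 := one_add_mul_le_pow (a := (1 / (N + 1 : ℝ))) (by
      have : (0 : ℝ) ≤ 1 / (N + 1 : ℝ) := by positivity
      linarith) (N + 2)
    have h7 : (1 : ℝ) + 1 / (N + 1 : ℝ) = (N + 2 : ℝ) / (N + 1) := by
      field_simp; ring
    rw [h7] at h6
    refine le_trans ?_ h6
    have h8 : (1 : ℝ) ≤ ((N + 2 : ℕ) : ℝ) * (1 / (N + 1 : ℝ)) := by
      push_cast
      rw [mul_one_div, le_div_iff₀ (by positivity)]
      linarith
    linarith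
  have h6 : ((N + 1 : ℝ) / (N + 2)) ^ (N + 2) * ((N + 2 : ℝ) / (N + 1)) ^ (N + 2) = 1 := by
    rw [← mul_pow]
    have : (N + 1 : ℝ) / (N + 2) * ((N + 2 : ℝ) / (N + 1)) = 1 := by field_simp
    rw [this, one_pow]
  have h7 : 0 < ((N + 1 : ℝ) / (N + 2)) ^ (N + 2) := by positivity
  nlinarith

end

end Pool.Agent.H22.QF
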