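import Pool.Agent.H22.QK.LemR
import Pool.Agent.H22.QK.QLow
import Pool.Agent.H22.QK.QCount
import Pool.Agent.H22.QK.QRes

/-!
# LemRR: from regular pieces to all pieces, relative to a regular quadric (about 190 lines)

Relative version of `QK/LemR.lean`: `A` is supported in the quadric `{g = 0}`, `g` very regular.

PROOF of `lemRR` by induction on `n = finrank Y'`. Put `G w = (g (w0 + f w), h w) ∈ Y × Y'`,
quadratic with polarisation `cc = bpair (pb b f) c'`.
* If `Reg cc σ`: `LevBdR` gives `|Y| |Y'| 𝔼_w A iv (h w = 0) ≤ t`, and `count_zero` for `G` gives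
  `|Y| |Y'| 𝔼_w iv (g .. = 0) iv (h w = 0) ≥ 1 - |Y| |Y'| (1/2)^σ ≥ 1 - 1/(2N)`; conclude with
  `num_aux` (`QK/LemR`) as in `reg_case`.
* If not: `lowrank` for `G` gives `l ≠ 0` in `Dual (Y × Y')`, `l (y, y') = lg y + lh y'`, and
  `W1 ≤ W` of codimension at most `2σ` with `l (G (v+k)) = l (G v)` for `k ∈ W1`. Here `lh ≠ 0`: the
  proof of `lowrank` starts from `l ≠ 0` with `rank < 2σ` (do the case distinction before:
  `¬ Reg cc σ` gives `l ≠ 0` with `finrank V < finrank (ker (bl cc l)) + 2σ`; if `lh = 0` then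
  `bl cc l = bl (pb b f) lg` and `Reg (pb b f) (σ0 - k)` (`Reg.restrict`), `σ ≤ σ0 - k`, contradicts
  it. You may use `lowrank_at` below.) So `n ≥ 1`; choose `y* ∈ Y'` with `lh y* = 1`.
  By `expect_coset` both sides are averages over `v : W` of averages over `k ∈ W1` at `v + k`. If
  `l (G v) ≠ 0` then at no point `v + k` both `g = 0` and `h = 0`, both inner averages vanish (`A` is
  supported in `{g = 0}`). If `l (G v) = 0`: put `h' k = h (v+k) + lh (h (v+k)) • y*`, a quadratic map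
  `W1 → ker lh` (dimension `n - 1`); where `g = 0` one has `lh (h (v+k)) = l (G (v+k)) = 0`, so
  `h' k = h (v+k)` there, and both inner averages are unchanged when `h (v+k) = 0` is replaced by
  `h' k = 0` (if `h' k = 0` and `g = 0` then `h (v+k) = 0`). The induction hypothesis applies to
  `f ∘ W1.subtype`, the base point `w0 + f v`, `h'`, codimension `k + 2σ`.

PROOF of `lowrank_at`: this is the second half of the proof of `lowrank` in `QK/QLow.lean`.
-/

set_option autoImplicit false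

open Finset Function Module
open scoped BigOperators
open Pool.Agent.H77.KM
open Pool.Agent.H22.QK

namespace Pool.Agent.H22.QF

section

variable {V : Type} [AddCommGroup V] [Module (ZMod 2) V] [Fintype V]
variable {Y : Type} [AddCommGroup Y] [Module (ZMod 2) Y] [Fintype Y]
variable {g : V → Y} {b : V →ₗ[ZMod 2] V →ₗ[ZMod 2] Y}

/-- All regular pieces of `{g = 0}` of codimension at most `K` with at most `R` further equations
have normalised density at most `t`. -/
def LevBdR (A : V → ℝ) (g : V → Y) (K R s : ℕ) (t : ℝ) : Prop :=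
  ∀ (W Y' : Type) [AddCommGroup W] [Module (ZMod 2) W] [Fintype W]
    [AddCommGroup Y'] [Module (ZMod 2) Y'] [Fintype Y'] (f : W →ₗ[ZMod 2] V),
    Injective f → finrank (ZMod 2) V ≤ finrank (ZMod 2) W + K → finrank (ZMod 2) Y' ≤ R →
    ∀ (w0 : V) (h : W → Y') (c : W →ₗ[ZMod 2] W →ₗ[ZMod 2] (Y × Y')),
      IsQM (fun w => ((g (w0 + f w), h w) : Y × Y')) c → Reg c s →
      (Fintype.card Y : ℝ) * Fintype.card Y' * 𝔼 w, A (w0 + f w) * iv (h w = 0) ≤ t

private theorem lemRR_finrank_map (K : Submodule (ZMod 2) V) (W : Submodule (ZMod 2) K) :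
    finrank (ZMod 2) (W.map K.subtype) = finrank (ZMod 2) W :=
  (LinearEquiv.finrank_eq (Submodule.equivMapOfInjective K.subtype K.injective_subtype W)).symm

private theorem lemRR_ker_lin {g : V → Y} (hg : IsQM g b) (l : Dual (ZMod 2) Y) :
    ∃ L : LinearMap.ker (bl b l) →ₗ[ZMod 2] ZMod 2,
      ∀ x : LinearMap.ker (bl b l), l (g (x : V)) = L x + l (g 0) := by
  have h1 : IsQM (fun x : LinearMap.ker (bl b l) => l (g (0 + (LinearMap.ker (bl b l)).subtype x)))
      ((pb b (LinearMap.ker (bl b l)).subtype).compr₂ l) :=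
    (hg.pull (LinearMap.ker (bl b l)).subtype 0).map l
  obtain ⟨L, hL⟩ := h1.lin_on (fun x y => by
    have hx : bl b l (x : V) = 0 := LinearMap.mem_ker.1 x.2
    have h2 : bl b l (x : V) (y : V) = 0 := by rw [hx]; rfl
    exact h2)
  refine ⟨L, fun x => ?_⟩
  have := hL x
  simpa using this

private theorem lemRR_inv_of_ker {g : V → Y} (hg : IsQM g b) (l : Dual (ZMod 2) Y)
    {L : LinearMap.ker (bl b l) →ₗ[ZMod 2] ZMod 2}
    (hL : ∀ x : LinearMap.ker (bl b l), l (g (x : V)) = L x + l (g 0))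
    (v : V) (k : LinearMap.ker (bl b l)) (hk : L k = 0) :
    l (g (v + (k : V))) = l (g v) := by
  have h1 := hg v (k : V)
  have h2 : l (b v (k : V)) = 0 := by
    rw [hg.symm v (k : V)]
    have hx : bl b l (k : V) = 0 := LinearMap.mem_ker.1 k.2
    have h3 : bl b l (k : V) v = 0 := by rw [hx]; rfl
    exact h3
  have h4 := hL k
  rw [hk, zero_add] at h4
  rw [h1, map_add, map_add, map_add, h2, h4, add_zero, add_assoc,
    ZModModule.add_self (l (g 0)), add_zero]

theorem lowrank_at (hg : IsQM g b) {s : ℕ} (l : Dual (ZMod 2) Y)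
    (hl : finrank (ZMod 2) V < finrank (ZMod 2) (LinearMap.ker (bl b l)) + 2 * s) :
    ∃ W : Submodule (ZMod 2) V, finrank (ZMod 2) V ≤ finrank (ZMod 2) W + 2 * s ∧
      ∀ v, ∀ k ∈ W, l (g (v + k)) = l (g v) := by
  obtain ⟨L, hL⟩ := lemRR_ker_lin hg l
  refine ⟨(LinearMap.ker L).map (LinearMap.ker (bl b l)).subtype, ?_, ?_⟩
  · have h1 : finrank (ZMod 2) ((LinearMap.ker L).map (LinearMap.ker (bl b l)).subtype)
        = finrank (ZMod 2) (LinearMap.ker L) :=
      lemRR_finrank_map _ _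
    have h2 := LinearMap.finrank_range_add_finrank_ker L
    have h3 : finrank (ZMod 2) (LinearMap.range L) ≤ 1 := by
      have := Submodule.finrank_le (LinearMap.range L)
      rwa [finrank_self] at this
    omega
  · intro v k hk
    obtain ⟨k', hk', rfl⟩ := Submodule.mem_map.1 hk
    exact lemRR_inv_of_ker hg l hL v k' (LinearMap.mem_ker.1 hk')

private theorem lemRR_low {σ0 σ K k : ℕ} (hreg : Reg b σ0) (hσ0 : σ + K ≤ σ0) (hkK : k ≤ K)
    {W Y' : Type} [AddCommGroup W] [Module (ZMod 2) W] [Fintype W]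
    [AddCommGroup Y'] [Module (ZMod 2) Y'] [Fintype Y'] (f : W →ₗ[ZMod 2] V)
    (hf : Injective f) (hk : finrank (ZMod 2) V ≤ finrank (ZMod 2) W + k)
    (c : W →ₗ[ZMod 2] W →ₗ[ZMod 2] Y') (hn : ¬ Reg (bpair (pb b f) c) σ) :
    ∃ l : Dual (ZMod 2) (Y × Y'), l ∘ₗ LinearMap.inr (ZMod 2) Y Y' ≠ 0 ∧
      finrank (ZMod 2) W < finrank (ZMod 2) (LinearMap.ker (bl (bpair (pb b f) c) l)) + 2 * σ := by
  unfold Reg at hn
  push Not at hn
  obtain ⟨l, hl, hlt⟩ := hn
  refine ⟨l, ?_, hlt⟩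
  intro hh
  have hval : ∀ (y : Y) (y' : Y'), l (y, y') = l (y, 0) := by
    intro y y'
    have h1 : ((y, y') : Y × Y') = (y, 0) + LinearMap.inr (ZMod 2) Y Y' y' := by simp
    rw [h1, map_add]
    have h2 : l (LinearMap.inr (ZMod 2) Y Y' y') = 0 := LinearMap.congr_fun hh y'
    rw [h2, add_zero]
  have hlg : l ∘ₗ LinearMap.inl (ZMod 2) Y Y' ≠ 0 := by
    intro h0
    apply hl
    apply LinearMap.ext
    rintro ⟨y, y'⟩
    rw [hval]
    exact LinearMap.congr_fun h0 y
  have hbl : bl (bpair (pb b f) c) l = bl (pb b f) (l ∘ₗ LinearMap.inl (ZMod 2) Y Y') := by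
    apply LinearMap.ext
    intro x
    apply LinearMap.ext
    intro y
    rw [bl_apply, bl_apply, bpair_apply, hval]
    rfl
  have hr := (hreg.restrict f hf hk (by omega)) _ hlg
  rw [hbl] at hlt
  omega

private theorem lemRR_reg {g : V → Y} (hg : IsQM g b)
    (A : V → ℝ) {K R σ N : ℕ} (hN : 1 ≤ N) {t : ℝ} (ht : 0 ≤ t)
    (hL : LevBdR A g K R σ t)
    (hσ : (2 : ℝ) ^ (finrank (ZMod 2) Y + R) * (1 / 2) ^ σ ≤ 1 / (2 * N))
    {k n : ℕ} {W Y' : Type} [AddCommGroup W] [Module (ZMod 2) W] [Fintype W]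
    [AddCommGroup Y'] [Module (ZMod 2) Y'] [Fintype Y'] (f : W →ₗ[ZMod 2] V)
    (hf : Injective f) (hk : finrank (ZMod 2) V ≤ finrank (ZMod 2) W + k)
    (hY : finrank (ZMod 2) Y' = n) (hn : n ≤ R) (hkK : k ≤ K)
    (w0 : V) (h : W → Y') (c : W →ₗ[ZMod 2] W →ₗ[ZMod 2] Y') (hc : IsQM h c)
    (hr : Reg (bpair (pb b f) c) σ) :
    𝔼 w, A (w0 + f w) * iv (h w = 0)
      ≤ (1 + 1 / (N : ℝ)) * t * 𝔼 w, iv (g (w0 + f w) = 0) * iv (h w = 0) := by
  have hcc : IsQM (fun w => ((g (w0 + f w), h w) : Y × Y')) (bpair (pb b f) c) :=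
    (hg.pull f w0).pair hc
  have h1 := hL W Y' f hf (by omega) (by omega) w0 h _ hcc hr
  have h2 := count_zero hcc hr
  have hcard : Fintype.card (Y × Y') = 2 ^ (finrank (ZMod 2) Y + n) := by
    have := card_eq_pow_finrank (K := ZMod 2) (V := Y × Y')
    rw [ZMod.card, Module.finrank_prod, hY] at this
    exact this
  have hcard2 : ((Fintype.card (Y × Y') : ℕ) : ℝ) = (Fintype.card Y : ℝ) * Fintype.card Y' := by
    rw [Fintype.card_prod]
    push_cast
    ring
  have h3 : 𝔼 w, iv (((g (w0 + f w), h w) : Y × Y') = 0) =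
      𝔼 w, iv (g (w0 + f w) = 0) * iv (h w = 0) := by
    refine expect_congr rfl fun w _ => ?_
    rw [← iv_and]
    exact iv_congr Prod.mk_eq_zero
  rw [h3] at h2
  refine LemRAux.reg_case hN ht hcard (by omega) hσ ?_ h2
  rw [hcard2]
  exact h1

private theorem lemRR_step {g : V → Y} (hg : IsQM g b)
    (A : V → ℝ) (hAg : ∀ x, A x ≠ 0 → g x = 0) {σ n k : ℕ} {C : ℝ}
    {W Y' : Type} [AddCommGroup W] [Module (ZMod 2) W] [Fintype W]
    [AddCommGroup Y'] [Module (ZMod 2) Y'] [Fintype Y'] (f : W →ₗ[ZMod 2] V)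
    (hf : Injective f) (hk : finrank (ZMod 2) V ≤ finrank (ZMod 2) W + k)
    (hY : finrank (ZMod 2) Y' = n + 1)
    (w0 : V) (h : W → Y') (c : W →ₗ[ZMod 2] W →ₗ[ZMod 2] Y') (hc : IsQM h c)
    (l : Dual (ZMod 2) (Y × Y')) (hlh : l ∘ₗ LinearMap.inr (ZMod 2) Y Y' ≠ 0)
    (hlt : finrank (ZMod 2) W <
      finrank (ZMod 2) (LinearMap.ker (bl (bpair (pb b f) c) l)) + 2 * σ)
    (ih : ∀ (W1 Y1 : Type) [AddCommGroup W1] [Module (ZMod 2) W1] [Fintype W1]
      [AddCommGroup Y1] [Module (ZMod 2) Y1] [Fintype Y1] (f1 : W1 →ₗ[ZMod 2] V),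
      Injective f1 → finrank (ZMod 2) V ≤ finrank (ZMod 2) W1 + (k + 2 * σ) →
      finrank (ZMod 2) Y1 = n →
      ∀ (w1 : V) (h1 : W1 → Y1) (c1 : W1 →ₗ[ZMod 2] W1 →ₗ[ZMod 2] Y1), IsQM h1 c1 →
        𝔼 w, A (w1 + f1 w) * iv (h1 w = 0)
          ≤ C * 𝔼 w, iv (g (w1 + f1 w) = 0) * iv (h1 w = 0)) :
    𝔼 w, A (w0 + f w) * iv (h w = 0)
      ≤ C * 𝔼 w, iv (g (w0 + f w) = 0) * iv (h w = 0) := by
  have hcc : IsQM (fun w => ((g (w0 + f w), h w) : Y × Y')) (bpair (pb b f) c) :=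
    (hg.pull f w0).pair hc
  obtain ⟨W1, hW1, hlW⟩ := lowrank_at hcc l hlt
  set lh : Y' →ₗ[ZMod 2] ZMod 2 := l ∘ₗ LinearMap.inr (ZMod 2) Y Y' with hlhdef
  have hl0 : ∀ y' : Y', l ((0 : Y), y') = lh y' := fun y' => rfl
  obtain ⟨ys, hys⟩ : ∃ y, lh y = 1 := by
    by_contra hcon
    push Not at hcon
    apply hlh
    apply LinearMap.ext
    intro y
    have h1 := hcon y
    have h2 : ∀ a : ZMod 2, a ≠ 1 → a = 0 := by decide
    exact h2 _ h1
  have hker : finrank (ZMod 2) (LinearMap.ker lh) = n := by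
    have := Module.Dual.finrank_ker_add_one_of_ne_zero (f := lh) hlh
    omega
  let P0 : Y' →ₗ[ZMod 2] Y' := LinearMap.id + lh.smulRight ys
  have hP0 : ∀ y, P0 y = y + lh y • ys := fun y => rfl
  have hPmem : ∀ y, P0 y ∈ LinearMap.ker lh := by
    intro y
    rw [LinearMap.mem_ker, hP0, map_add, map_smul, hys, smul_eq_mul, mul_one]
    exact CharTwo.add_self_eq_zero _
  let P : Y' →ₗ[ZMod 2] LinearMap.ker lh := LinearMap.codRestrict _ P0 hPmem
  have hPz : ∀ y, lh y = 0 → (P y = 0 ↔ y = 0) := by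
    intro y hy
    rw [Subtype.ext_iff]
    change P0 y = 0 ↔ y = 0
    rw [hP0, hy, zero_smul, add_zero]
  rw [expect_coset (fun x : W1 => (x : W)) (fun w => A (w0 + f w) * iv (h w = 0)),
    expect_coset (fun x : W1 => (x : W)) (fun w => iv (g (w0 + f w) = 0) * iv (h w = 0)),
    mul_expect]
  apply expect_le_expect
  intro v _
  by_cases hv : l (g (w0 + f v), h v) = 0
  · -- where g = 0, the functional vanishes on h
    have hz : ∀ x : W1, g (w0 + f (v + x)) = 0 → lh (h (v + x)) = 0 := by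
      intro x hx
      have h1 : l (g (w0 + f (v + x)), h (v + x)) = l (g (w0 + f v), h v) := hlW v x x.2
      rw [hv, hx, hl0] at h1
      exact h1
    have key := ih W1 (LinearMap.ker lh) (f ∘ₗ W1.subtype)
      (hf.comp Subtype.val_injective) (by omega) hker (w0 + f v)
      (fun x => P (h (v + W1.subtype x))) ((pb c W1.subtype).compr₂ P)
      ((hc.pull W1.subtype v).map P)
    have e0 : ∀ x : W1, w0 + f v + (f ∘ₗ W1.subtype) x = w0 + f (v + x) := by
      intro x
      rw [map_add, ← add_assoc]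
      rfl
    simp only [e0] at key
    have e1 : ∀ x : W1, A (w0 + f (v + x)) * iv (h (v + x) = 0) =
        A (w0 + f (v + x)) * iv (P (h (v + W1.subtype x)) = 0) := by
      intro x
      by_cases hA0 : A (w0 + f (v + x)) = 0
      · rw [hA0, zero_mul, zero_mul]
      · exact congrArg (fun r => A (w0 + f (v + x)) * r) (iv_congr (hPz _ (hz x (hAg _ hA0)))).symm
    have e2 : ∀ x : W1, iv (g (w0 + f (v + x)) = 0) * iv (h (v + x) = 0) =
        iv (g (w0 + f (v + x)) = 0) * iv (P (h (v + W1.subtype x)) = 0) := by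
      intro x
      by_cases hg0 : g (w0 + f (v + x)) = 0
      · exact congrArg (fun r => iv (g (w0 + f (v + x)) = 0) * r) (iv_congr (hPz _ (hz x hg0))).symm
      · rw [iv_neg hg0, zero_mul, zero_mul]
    calc 𝔼 x : W1, A (w0 + f (v + x)) * iv (h (v + x) = 0)
        = 𝔼 x : W1, A (w0 + f (v + x)) * iv (P (h (v + W1.subtype x)) = 0) :=
          expect_congr rfl fun x _ => e1 x
      _ ≤ _ := key
      _ = C * 𝔼 x : W1, iv (g (w0 + f (v + x)) = 0) * iv (h (v + x) = 0) := by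
          congr 1
          exact expect_congr rfl fun x _ => (e2 x).symm
  · have hz : ∀ x : W1, g (w0 + f (v + x)) = 0 → iv (h (v + x) = 0) = 0 := by
      intro x hx
      apply iv_neg
      intro h0
      apply hv
      have h1 : l (g (w0 + f (v + x)), h (v + x)) = l (g (w0 + f v), h v) := hlW v x x.2
      rw [hx, h0] at h1
      rw [← h1]
      exact map_zero l
    have e1 : ∀ x : W1, A (w0 + f (v + x)) * iv (h (v + x) = 0) = 0 := by
      intro x
      by_cases hA0 : A (w0 + f (v + x)) = 0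
      · rw [hA0, zero_mul]
      · rw [hz x (hAg _ hA0), mul_zero]
    have e2 : ∀ x : W1, iv (g (w0 + f (v + x)) = 0) * iv (h (v + x) = 0) = 0 := by
      intro x
      by_cases hg0 : g (w0 + f (v + x)) = 0
      · rw [hz x hg0, mul_zero]
      · rw [iv_neg hg0, zero_mul]
    simp only [e1, e2, expect_const_zero, mul_zero, le_refl]

theorem lemRR (hg : IsQM g b) {σ0 : ℕ} (hreg : Reg b σ0)
    (A : V → ℝ) (hA : ∀ x, A x = 0 ∨ A x = 1) (hAg : ∀ x, A x ≠ 0 → g x = 0)
    {K R σ N : ℕ} (hN : 1 ≤ N) {t : ℝ} (ht : 0 ≤ t)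
    (hL : LevBdR A g K R σ t)
    (hσ : (2 : ℝ) ^ (finrank (ZMod 2) Y + R) * (1 / 2) ^ σ ≤ 1 / (2 * N))
    (hσ0 : σ + K ≤ σ0) (n : ℕ) :
    ∀ (k : ℕ) (W Y' : Type) [AddCommGroup W] [Module (ZMod 2) W] [Fintype W]
      [AddCommGroup Y'] [Module (ZMod 2) Y'] [Fintype Y'] (f : W →ₗ[ZMod 2] V),
      Injective f → finrank (ZMod 2) V ≤ finrank (ZMod 2) W + k → finrank (ZMod 2) Y' = n →
      n ≤ R → k + n * (2 * σ) ≤ K →
      ∀ (w0 : V) (h : W → Y') (c : W →ₗ[ZMod 2] W →ₗ[ZMod 2] Y'), IsQM h c →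
        𝔼 w, A (w0 + f w) * iv (h w = 0)
          ≤ (1 + 1 / (N : ℝ)) * t * 𝔼 w, iv (g (w0 + f w) = 0) * iv (h w = 0) := by
  induction n with
  | zero =>
    intro k W Y' _ _ _ _ _ _ f hf hk hY hn hK w0 h c hc
    have hkK : k ≤ K := le_trans (Nat.le_add_right _ _) hK
    by_cases hr : Reg (bpair (pb b f) c) σ
    · exact lemRR_reg hg A hN ht hL hσ f hf hk hY hn hkK w0 h c hc hr
    · exfalso
      obtain ⟨l, hlh, -⟩ := lemRR_low hreg hσ0 hkK f hf hk c hr
      apply hlh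
      have hs : Subsingleton Y' := finrank_zero_iff.mp hY
      apply LinearMap.ext
      intro y
      rw [Subsingleton.elim y 0, map_zero, map_zero]
  | succ n ih =>
    intro k W Y' _ _ _ _ _ _ f hf hk hY hn hK w0 h c hc
    have hkK : k ≤ K := le_trans (Nat.le_add_right _ _) hK
    by_cases hr : Reg (bpair (pb b f) c) σ
    · exact lemRR_reg hg A hN ht hL hσ f hf hk hY hn hkK w0 h c hc hr
    · obtain ⟨l, hlh, hlt⟩ := lemRR_low hreg hσ0 hkK f hf hk c hr
      have hK' : (k + 2 * σ) + n * (2 * σ) ≤ K := by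
        calc (k + 2 * σ) + n * (2 * σ) = k + (n + 1) * (2 * σ) := by ring
          _ ≤ K := hK
      refine lemRR_step hg A hAg f hf hk hY w0 h c hc l hlh hlt ?_
      intro W1 Y1 _ _ _ _ _ _ f1 hf1 hk1 hY1 w1 h1 c1 hc1
      exact ih (k + 2 * σ) W1 Y1 f1 hf1 hk1 hY1 (by omega) hK' w1 h1 c1 hc1

end

end Pool.Agent.H22.QF
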