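import Pool.Agent.H22.QF.LemRR
import Pool.Agent.H22.QK.Levels

/-!
# LevelsR: a level where the density almost stops growing, relative version (about 150 lines)

Relative version of `QK/Levels.lean`.
PROOF of `levelsR`. Start piece: `W = V`, `f = id`, `w0 = 0`, `Y' = Fin 0 → ZMod 2`, `h = 0`; its
polarisation `bpair b 0` is `Reg σ` because `Reg b σ0`, `σ ≤ σ0` and every functional of
`Y × (Fin 0 → ZMod 2)` is `lg ∘ fst`; `t0 = |Y| 𝔼 A ≥ (1/2)^d`. Suppose that for every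
`j < J = 2N(d+2)` and every piece of level `j` (`K_j = j κ`, `R_j = j r`), with density
`t ≥ (1/2)^d`, `LevBdR A g K_(j+1) R_(j+1) σ ((1+1/(2N)) t)` fails. Then we get pieces of level `j`
with density `t_j ≥ (1+1/(2N))^j (1/2)^d` for all `j ≤ J`. But
`(1+1/(2N))^(2N(d+2)) ≥ 2^(d+2)` and all densities are at most
`|Y| |Y'| 𝔼 iv (g = 0) iv (h = 0) ≤ 1 + 2^(finrank Y + R_J) (1/2)^σ ≤ 2` (`count_zero`),
a contradiction.
-/

set_option autoImplicit false

open Finset Function Module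
open scoped BigOperators
open Pool.Agent.H77.KM
open Pool.Agent.H22.QK

namespace Pool.Agent.H22.QF

section

variable {V : Type} [AddCommGroup V] [Module (ZMod 2) V] [Fintype V]
variable {Y : Type} [AddCommGroup Y] [Module (ZMod 2) Y] [Fintype Y]
variable {g : V → Y} {b : V →ₗ[ZMod 2] V →ₗ[ZMod 2] Y}

/-- There is a regular piece with normalised density `t`. -/
def HasPieceR (A : V → ℝ) (g : V → Y) (K R s : ℕ) (t : ℝ) : Prop :=
  ∃ (W Y' : Type) (_ : AddCommGroup W) (_ : Module (ZMod 2) W) (_ : Fintype W)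
    (_ : AddCommGroup Y') (_ : Module (ZMod 2) Y') (_ : Fintype Y') (f : W →ₗ[ZMod 2] V),
    Injective f ∧ finrank (ZMod 2) V ≤ finrank (ZMod 2) W + K ∧ finrank (ZMod 2) Y' ≤ R ∧
    ∃ (w0 : V) (h : W → Y') (c : W →ₗ[ZMod 2] W →ₗ[ZMod 2] (Y × Y')),
      IsQM (fun w => ((g (w0 + f w), h w) : Y × Y')) c ∧ Reg c s ∧
      (Fintype.card Y : ℝ) * Fintype.card Y' * 𝔼 w, A (w0 + f w) * iv (h w = 0) = t

/-- The whole space is a piece. -/
private theorem lr_start {g : V → Y} {b : V →ₗ[ZMod 2] V →ₗ[ZMod 2] Y} (hg : IsQM g b)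
    {σ0 σ : ℕ} (hreg : Reg b σ0) (hσ0 : σ ≤ σ0) (A : V → ℝ) (K R : ℕ) :
    HasPieceR A g K R σ (Fintype.card Y * 𝔼 x, A x) := by
  refine ⟨V, PUnit, inferInstance, inferInstance, inferInstance, inferInstance, inferInstance,
    inferInstance, LinearMap.id, fun _ _ h => h, Nat.le_add_right _ _, ?_, 0, fun _ => 0,
    bpair b 0, ?_, ?_, ?_⟩
  · rw [Module.finrank_zero_of_subsingleton]
    exact Nat.zero_le _
  · have h1 : IsQM (fun w : V => g (0 + (LinearMap.id : V →ₗ[ZMod 2] V) w)) b := by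
      have := hg.shift 0
      exact this
    have h2 : IsQM (fun _ : V => (0 : PUnit)) (0 : V →ₗ[ZMod 2] V →ₗ[ZMod 2] PUnit) := by
      intro x y
      rfl
    exact h1.pair h2
  · intro l hl
    have hlg : l ∘ₗ LinearMap.inl (ZMod 2) Y PUnit ≠ 0 := by
      intro h0
      apply hl
      apply LinearMap.ext
      rintro ⟨y, u⟩
      have hy : l (y, 0) = 0 := by
        have := LinearMap.congr_fun h0 y
        simpa using this
      have hu : ((y, u) : Y × PUnit) = (y, 0) := rfl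
      rw [hu, hy]
      rfl
    have h3 := hreg _ hlg
    have h4 : bl (bpair b (0 : V →ₗ[ZMod 2] V →ₗ[ZMod 2] PUnit)) l =
        bl b (l ∘ₗ LinearMap.inl (ZMod 2) Y PUnit) := by
      apply LinearMap.ext
      intro x
      apply LinearMap.ext
      intro y
      rfl
    rw [h4]
    omega
  · simp [iv_pos]

/-- All densities are at most `1 + 2^(finrank Y + R) (1/2)^σ`. -/
private theorem lr_le {A : V → ℝ} {g : V → Y} (hA : ∀ x, A x = 0 ∨ A x = 1)
    (hAg : ∀ x, A x ≠ 0 → g x = 0) {K R σ : ℕ} {t : ℝ}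
    (h : HasPieceR A g K R σ t) : t ≤ 1 + (2 : ℝ) ^ (finrank (ZMod 2) Y + R) * (1 / 2) ^ σ := by
  obtain ⟨W, Y', i1, i2, i3, i4, i5, i6, f, -, -, hR, w0, h, c, hg, hb, rfl⟩ := h
  have hc := count_zero hg hb
  have hE : 𝔼 w, A (w0 + f w) * iv (h w = 0) ≤
      𝔼 w, iv (((g (w0 + f w), h w) : Y × Y') = 0) := by
    refine Finset.expect_le_expect fun w _ => ?_
    rcases hA (w0 + f w) with h1 | h1
    · rw [h1, zero_mul]
      exact iv_nonneg _
    · rw [h1, one_mul]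
      refine iv_mono fun h2 => ?_
      rw [hAg (w0 + f w) (by rw [h1]; norm_num), h2]
      rfl
  have hcard : (Fintype.card (Y × Y') : ℝ) = 2 ^ (finrank (ZMod 2) Y + finrank (ZMod 2) Y') := by
    rw [Fintype.card_prod, Module.card_eq_pow_finrank (K := ZMod 2) (V := Y'),
      Module.card_eq_pow_finrank (K := ZMod 2) (V := Y), ZMod.card, pow_add]
    push_cast
    rfl
  have hcard2 : (Fintype.card (Y × Y') : ℝ) = (Fintype.card Y : ℝ) * Fintype.card Y' := by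
    rw [Fintype.card_prod]
    push_cast
    rfl
  have hpos : (0 : ℝ) < Fintype.card (Y × Y') := by rw [hcard]; positivity
  have hle : (Fintype.card (Y × Y') : ℝ) ≤ 2 ^ (finrank (ZMod 2) Y + R) := by
    rw [hcard]
    exact pow_le_pow_right₀ (by norm_num) (by omega)
  have h2 : 𝔼 w, iv (((g (w0 + f w), h w) : Y × Y') = 0) ≤
      1 / (Fintype.card (Y × Y') : ℝ) + (1 / 2) ^ σ := by
    have := (abs_le.mp hc).2
    linarith
  rw [← hcard2]
  calc (Fintype.card (Y × Y') : ℝ) * 𝔼 w, A (w0 + f w) * iv (h w = 0)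
      ≤ Fintype.card (Y × Y') * (1 / (Fintype.card (Y × Y') : ℝ) + (1 / 2) ^ σ) :=
        mul_le_mul_of_nonneg_left (hE.trans h2) hpos.le
    _ = 1 + Fintype.card (Y × Y') * (1 / 2) ^ σ := by
        rw [mul_add, mul_one_div_cancel hpos.ne']
    _ ≤ 1 + (2 : ℝ) ^ (finrank (ZMod 2) Y + R) * (1 / 2) ^ σ := by
        have := mul_le_mul_of_nonneg_right hle (show (0 : ℝ) ≤ (1 / 2) ^ σ by positivity)
        linarith

theorem levelsR (hg : IsQM g b) {σ0 : ℕ} (hreg : Reg b σ0)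
    (A : V → ℝ) (hA : ∀ x, A x = 0 ∨ A x = 1) (hAg : ∀ x, A x ≠ 0 → g x = 0)
    {d N κ r σ : ℕ} (hN : 1 ≤ N) (hd : (1 / 2 : ℝ) ^ d ≤ Fintype.card Y * 𝔼 x, A x)
    (hσ : (2 : ℝ) ^ (finrank (ZMod 2) Y + 2 * N * (d + 2) * r) * (1 / 2) ^ σ ≤ 1 / (8 * N))
    (hσ0 : σ ≤ σ0) :
    ∃ j < 2 * N * (d + 2), ∃ t : ℝ, (1 / 2 : ℝ) ^ d ≤ t ∧ HasPieceR A g (j * κ) (j * r) σ t ∧
      LevBdR A g ((j + 1) * κ) ((j + 1) * r) σ ((1 + 1 / (2 * N : ℝ)) * t) := by
  by_contra hcon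
  push Not at hcon
  have hN' : (1 : ℝ) ≤ N := by exact_mod_cast hN
  have hq : (1 : ℝ) ≤ 1 + 1 / (2 * N : ℝ) := by
    have : (0 : ℝ) ≤ 1 / (2 * N : ℝ) := by positivity
    linarith
  have hdp : (0 : ℝ) < (1 / 2 : ℝ) ^ d := by positivity
  have key : ∀ j, j ≤ 2 * N * (d + 2) → ∃ t : ℝ,
      (1 + 1 / (2 * N : ℝ)) ^ j * (1 / 2 : ℝ) ^ d ≤ t ∧ HasPieceR A g (j * κ) (j * r) σ t := by
    intro j
    induction j with
    | zero =>
      intro _
      refine ⟨Fintype.card Y * 𝔼 x, A x, ?_, lr_start hg hreg hσ0 A _ _⟩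
      simpa using hd
    | succ j ih =>
      intro hj
      obtain ⟨t, ht, hp⟩ := ih (by omega)
      have ht0 : (1 / 2 : ℝ) ^ d ≤ t := by
        refine le_trans ?_ ht
        have := mul_le_mul_of_nonneg_right (one_le_pow₀ hq (n := j)) hdp.le
        linarith
      have hno := hcon j (by omega) t ht0 hp
      unfold LevBdR at hno
      push Not at hno
      obtain ⟨W, Y', i1, i2, i3, i4, i5, i6, f, hf, hW, hR, w0, h, c, hh, hb, hlt⟩ := hno
      refine ⟨_, ?_, W, Y', i1, i2, i3, i4, i5, i6, f, hf, hW, hR, w0, h, c, hh, hb, rfl⟩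
      refine le_trans ?_ hlt.le
      calc (1 + 1 / (2 * N : ℝ)) ^ (j + 1) * (1 / 2 : ℝ) ^ d
          = (1 + 1 / (2 * N : ℝ)) * ((1 + 1 / (2 * N : ℝ)) ^ j * (1 / 2 : ℝ) ^ d) := by
            rw [pow_succ]; ring
        _ ≤ (1 + 1 / (2 * N : ℝ)) * t := mul_le_mul_of_nonneg_left ht (by linarith)
  obtain ⟨t, ht, hp⟩ := key _ le_rfl
  have hup := lr_le hA hAg hp
  have hB : (2 : ℝ) ≤ (1 + 1 / (2 * N : ℝ)) ^ (2 * N) := by
    have h1 := one_add_mul_le_pow (a := 1 / (2 * N : ℝ))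
      (by have : (0 : ℝ) ≤ 1 / (2 * N : ℝ) := by positivity
          linarith) (2 * N)
    have h2 : ((2 * N : ℕ) : ℝ) * (1 / (2 * N : ℝ)) = 1 := by
      push_cast
      have : (2 * N : ℝ) ≠ 0 := by positivity
      field_simp
    linarith
  have hB2 : (2 : ℝ) ^ (d + 2) ≤ (1 + 1 / (2 * N : ℝ)) ^ (2 * N * (d + 2)) := by
    rw [pow_mul]
    exact pow_le_pow_left₀ (by norm_num) hB _
  have h4 : (4 : ℝ) ≤ t := by
    refine le_trans ?_ ht
    have h5 := mul_le_mul_of_nonneg_right hB2 hdp.le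
    have h6 : (2 : ℝ) ^ (d + 2) * (1 / 2 : ℝ) ^ d = 4 := by
      rw [pow_add, mul_right_comm, ← mul_pow]
      norm_num
    linarith
  have h8 : 1 / (8 * N : ℝ) ≤ 1 := by
    rw [div_le_one (by positivity)]
    linarith
  linarith

end

end Pool.Agent.H22.QF
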