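import Pool.Agent.H22.QF.Seven
import Pool.Agent.H22.QF.Fin7
import Pool.Agent.H77.FL.Main

/-!
# Main7: the theorem for seven sets with an explicit bound (about 90 lines)

PROOF. `base_exists` (H77) for `I = {v : F3 // v ≠ 0}` (7 elements), `A i = A i.1`, `c = 7`,
`κ = (phP (d+4) (fnp d) 7).1`, `ρ = fnr0 d`, `σ = fns d`, `σ' = (phP (d+4) (fnp d) 7).2.2`. It gives
`W, Y, f, G, b` with `finrank Y ≤ 7 * d * fnr0 d = fnRR d`. `seven` for `fun v w => A v (f w)`,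
`s = d + 4`, `p = fnp d` (`phP_r` : `(phP (d+4) (fnp d) 7).2.1 = fnr0 d`); then `fin7` with
`R = fnRR d + fnr0 d` (`9^7/10^13 ≤ 1/2000000`, `s + 2 = d + 6`). Take `f ∘ ψ`; it is injective because
`A v 0 = 0`.
-/

set_option autoImplicit false

open Finset Function Module
open scoped BigOperators
open Pool.Agent.H77.KM
open Pool.Agent.H22.QK
open Pool.Agent.H77.FL

namespace Pool.Agent.H22.QF

theorem main7 {V : Type} [AddCommGroup V] [Module (ZMod 2) V] [Fintype V]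
    (A : F3 → V → ℝ) (hA : ∀ v x, A v x = 0 ∨ A v x = 1) (hA0 : ∀ v, A v 0 = 0) {d : ℕ}
    (hd : 1 ≤ d)
    (hU : ∀ v, v ≠ 0 → ∀ U : Submodule (ZMod 2) V, finrank (ZMod 2) U = d →
      ∃ u ∈ U, A v u = 1)
    (hV : fnD d ≤ finrank (ZMod 2) V) :
    ∃ ψ : F3 →ₗ[ZMod 2] V, Injective ψ ∧ ∀ v, v ≠ 0 → A v (ψ v) = 1 := by
  classical
  have hc : Fintype.card {v : F3 // v ≠ 0} ≤ 7 := by
    rw [Fintype.card_subtype_compl]
    simp
  have hr0 : (phP (d + 4) (fnp d) 7).2.1 = fnr0 d := by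
    rw [phP_r]
    rfl
  obtain ⟨W, Y, iW, mW, fW, iY, mY, fY, f, G, b, hf, hWV, hYR, hG, hG0, hb, hdense⟩ :=
    base_exists (I := {v : F3 // v ≠ 0}) (fun i v => A i.1 v) (fun i v => hA i.1 v)
      (fun i => hA0 i.1) (c := 7) (d := d) (κ := (phP (d + 4) (fnp d) 7).1) (ρ := fnr0 d)
      (σ := fns d) (σ' := (phP (d + 4) (fnp d) 7).2.2) hc hd
      (fun i U h => hU i.1 i.2 U h) (by unfold fns; omega) hV
  have hYR' : finrank (ZMod 2) Y ≤ fnRR d := hYR
  obtain ⟨κ0, ρ, hρ, hst⟩ := seven (fun v w => A v (f w)) (fun v w => hA v (f w)) hG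
    (s := d + 4) (p := fnp d) hb
    (by
      intro v hv
      rw [hr0]
      exact hdense ⟨v, hv⟩)
    (by
      rw [hr0]
      show finrank (ZMod 2) Y + fnr0 d + 47 ≤ fns d
      unfold fns
      omega)
  rw [hr0] at hρ
  obtain ⟨ψ, hψ⟩ := fin7 (fun v w => A v (f w)) (fun v w => hA v (f w)) hG hG0
    (R := fnRR d + fnr0 d) (δ := 9 ^ 7 / (10 ^ 13 : ℝ)) (s := d + 4) (by positivity)
    (by norm_num) (by omega)
    (by
      show qK (d + 6) (fnRR d + fnr0 d) ≤ fns d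
      unfold fns fnk
      omega)
    (by
      show qK (d + 6) (fnRR d + fnr0 d) ≤ fnk d
      exact le_rfl)
    hst
  refine ⟨f.comp ψ, ?_, fun v hv => hψ v hv⟩
  rw [injective_iff_map_eq_zero]
  intro v hv0
  by_contra hv
  have h1 : A v (f (ψ v)) = 1 := hψ v hv
  have h2 : f (ψ v) = 0 := hv0
  rw [h2, hA0 v] at h1
  exact zero_ne_one h1

end Pool.Agent.H22.QF
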