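import Pool.Agent.H22.QF.LevelsR
import Pool.Agent.H22.QK.MaxPiece

/-!
# MaxPieceR: a piece of almost maximal density is spread, relative version (about 150 lines)

Relative version of `QK/MaxPiece.lean`. `J = 2N(d+2)`.
PROOF of `maxpieceR`. Use `levelsR` with `κ1 = κ + J r (2σ+1)` in the place of `κ`
(`K_j = j κ1 ≤ J κ1`, `R_j = j r ≤ J r`). Let `(W, f, w0, Y', h, c)` be the piece of level `j`, `t` its
density. For `SprV`: a piece of `W` given by `f1 : W1 → W` (codimension at most `κ`), `w1` and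
`h1 : W1 → Y1`, `finrank Y1 ≤ r`, gives the piece of `V`: `f ∘ f1`, base point `w0 + f w1`,
quadratic map `w ↦ (h (w1 + f1 w), h1 w) ∈ Y' × Y1` (`h` is quadratic: second component of `c`),
codimension at most `K_j + κ`, dimension at most `R_j + r = R_(j+1)`, and `lemRR` (with `4N` in the
place of `N`, `K = K_(j+1) ≥ K_j + κ + R_(j+1) 2σ`, `σ + K_(j+1) ≤ σ0`):
`𝔼 A(..) iv (h = 0) iv (h1 = 0) ≤ (1+1/(4N)) (1+1/(2N)) t 𝔼 iv (g = 0) iv (h = 0) iv (h1 = 0)` and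
`(1+1/(4N)) (1+1/(2N)) ≤ 1 + 1/N`.
-/

set_option autoImplicit false

open Finset Function Module
open scoped BigOperators
open Pool.Agent.H77.KM
open Pool.Agent.H22.QK

namespace Pool.Agent.H22.QF

section

variable {V : Type} [AddCommGroup V] [Module (ZMod 2) V] [Fintype V]
variable {Y : Type} [AddCommGroup Y] [Module (ZMod 2) Y] [Fintype Y]
variable {g : V → Y} {b : V →ₗ[ZMod 2] V →ₗ[ZMod 2] Y}

private lemma aux_num {N : ℕ} (hN : 1 ≤ N) :
    (1 + 1 / ((4 * N : ℕ) : ℝ)) * (1 + 1 / (2 * N : ℝ)) ≤ 1 + 1 / (N : ℝ) := by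
  have hN' : (1 : ℝ) ≤ N := by exact_mod_cast hN
  have hx : 1 / (N : ℝ) ≤ 1 := by
    rw [div_le_one (by linarith)]; exact hN'
  have hx0 : 0 < 1 / (N : ℝ) := by positivity
  have e1 : 1 / ((4 * N : ℕ) : ℝ) = 1 / 4 * (1 / (N : ℝ)) := by
    push_cast; field_simp
  have e2 : 1 / (2 * N : ℝ) = 1 / 2 * (1 / (N : ℝ)) := by field_simp
  rw [e1, e2]
  nlinarith [mul_pos hx0 hx0]

theorem maxpieceR (hg : IsQM g b) {σ0 : ℕ} (hreg : Reg b σ0)
    (A : V → ℝ) (hA : ∀ x, A x = 0 ∨ A x = 1) (hAg : ∀ x, A x ≠ 0 → g x = 0)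
    {d N κ r σ : ℕ} (hN : 1 ≤ N) (hd : (1 / 2 : ℝ) ^ d ≤ Fintype.card Y * 𝔼 x, A x)
    (hσ : (2 : ℝ) ^ (finrank (ZMod 2) Y + 2 * N * (d + 2) * r) * (1 / 2) ^ σ ≤ 1 / (8 * N))
    (hσ0 : σ + (2 * N * (d + 2) + 1) * (κ + 2 * N * (d + 2) * r * (2 * σ + 1)) ≤ σ0) :
    ∃ (W Z : Type) (_ : AddCommGroup W) (_ : Module (ZMod 2) W) (_ : Fintype W)
      (_ : AddCommGroup Z) (_ : Module (ZMod 2) Z) (_ : Fintype Z) (f : W →ₗ[ZMod 2] V),
      Injective f ∧
      finrank (ZMod 2) V ≤ finrank (ZMod 2) W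
        + 2 * N * (d + 2) * (κ + 2 * N * (d + 2) * r * (2 * σ + 1)) ∧
      finrank (ZMod 2) Z ≤ 2 * N * (d + 2) * r ∧
      ∃ (w0 : V) (h : W → Z) (c : W →ₗ[ZMod 2] W →ₗ[ZMod 2] (Y × Z)),
        IsQM (fun w => ((g (w0 + f w), h w) : Y × Z)) c ∧ Reg c σ ∧
        (1 / 2 : ℝ) ^ d ≤ (Fintype.card Y : ℝ) * Fintype.card Z *
          𝔼 w, A (w0 + f w) * iv (h w = 0) ∧
        SprV (fun w => A (w0 + f w) * iv (h w = 0))
          (fun w => ((g (w0 + f w), h w) : Y × Z)) κ r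
          ((1 + 1 / (N : ℝ)) * ((Fintype.card Y : ℝ) * Fintype.card Z *
            𝔼 w, A (w0 + f w) * iv (h w = 0))) := by
  set κ1 : ℕ := κ + 2 * N * (d + 2) * r * (2 * σ + 1) with hκ1
  set J : ℕ := 2 * N * (d + 2) with hJ
  have hσ0' : σ ≤ σ0 := by omega
  obtain ⟨j, hj, t, hdt, hpiece, hlev⟩ := levelsR hg hreg A hA hAg
    (κ := κ1) hN hd hσ hσ0'
  obtain ⟨W, Z, iW, mW, fW, iY, mY, fY, f, hf, hW, hZ, w0, h, c, hc, hcreg, ht⟩ := hpiece
  have hj1 : j ≤ J := hj.le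
  refine ⟨W, Z, iW, mW, fW, iY, mY, fY, f, hf, ?_, ?_, w0, h, c, hc, hcreg, ?_, ?_⟩
  · refine le_trans hW (Nat.add_le_add_left ?_ _)
    exact Nat.mul_le_mul_right _ hj1
  · exact le_trans hZ (Nat.mul_le_mul_right _ hj1)
  · rw [ht]; exact hdt
  · rw [ht]
    intro W1 Y1 iW1 mW1 fW1 iY1 mY1 fY1 f1 hf1 hW1 hY1 w1 h1 c1 hh
    have ht0 : 0 ≤ t := le_trans (by positivity) hdt
    have ht' : 0 ≤ (1 + 1 / (2 * N : ℝ)) * t := by positivity
    have hσ' : (2 : ℝ) ^ (finrank (ZMod 2) Y + (j + 1) * r) * (1 / 2) ^ σ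
        ≤ 1 / (2 * ((4 * N : ℕ) : ℝ)) := by
      refine le_trans (mul_le_mul_of_nonneg_right ?_ (by positivity)) (le_trans hσ ?_)
      · refine pow_le_pow_right₀ (by norm_num) (Nat.add_le_add_left ?_ _)
        exact Nat.mul_le_mul_right _ (by omega)
      · apply le_of_eq
        push_cast
        ring
    have hcod : finrank (ZMod 2) V ≤ finrank (ZMod 2) W1 + (j * κ1 + κ) := by omega
    have hfin : finrank (ZMod 2) (Z × Y1) ≤ (j + 1) * r := by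
      rw [Module.finrank_prod]
      have : (j + 1) * r = j * r + r := by ring
      omega
    have hK : j * κ1 + κ + finrank (ZMod 2) (Z × Y1) * (2 * σ) ≤ (j + 1) * κ1 := by
      have h1 : finrank (ZMod 2) (Z × Y1) * (2 * σ) ≤ J * r * (2 * σ + 1) := by
        refine Nat.mul_le_mul (le_trans hfin (Nat.mul_le_mul_right _ (by omega))) (by omega)
      have h2 : (j + 1) * κ1 = j * κ1 + κ1 := by ring
      omega
    have hσK : σ + (j + 1) * κ1 ≤ σ0 := by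
      have h1 : (j + 1) * κ1 ≤ (J + 1) * κ1 := Nat.mul_le_mul_right _ (by omega)
      omega
    have hhq : IsQM h (c.compr₂ (LinearMap.snd (ZMod 2) Y Z)) :=
      hc.map (LinearMap.snd (ZMod 2) Y Z)
    have key := lemRR hg hreg A hA hAg (K := (j + 1) * κ1)
      (R := (j + 1) * r) (σ := σ) (N := 4 * N) (by omega) ht' hlev hσ' hσK
      (finrank (ZMod 2) (Z × Y1))
      (j * κ1 + κ) W1 (Z × Y1) (f ∘ₗ f1)
      (hf.comp hf1) hcod rfl hfin hK (w0 + f w1) (fun w => (h (w1 + f1 w), h1 w))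
      (bpair (pb (c.compr₂ (LinearMap.snd (ZMod 2) Y Z)) f1) c1) ((hhq.pull f1 w1).pair hh)
    have e3 : ∀ w : W1, w0 + f w1 + (f ∘ₗ f1) w = w0 + f (w1 + f1 w) := by
      intro w
      rw [map_add, LinearMap.comp_apply, add_assoc]
    have e1 : ∀ w : W1, A (w0 + f w1 + (f ∘ₗ f1) w)
        * iv ((fun w => (h (w1 + f1 w), h1 w)) w = 0)
        = A (w0 + f (w1 + f1 w)) * iv (h (w1 + f1 w) = 0) * iv (h1 w = 0) := by
      intro w
      have e4 : ((fun w => (h (w1 + f1 w), h1 w)) w = (0 : Z × Y1))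
          ↔ (h (w1 + f1 w) = 0 ∧ h1 w = 0) := Prod.mk_eq_zero
      rw [e3, iv_congr e4, iv_and, mul_assoc]
    have e2 : ∀ w : W1, iv (g (w0 + f w1 + (f ∘ₗ f1) w) = 0)
        * iv ((fun w => (h (w1 + f1 w), h1 w)) w = 0)
        = iv ((fun w => ((g (w0 + f w), h w) : Y × Z)) (w1 + f1 w) = 0) * iv (h1 w = 0) := by
      intro w
      have e4 : ((fun w => (h (w1 + f1 w), h1 w)) w = (0 : Z × Y1))
          ↔ (h (w1 + f1 w) = 0 ∧ h1 w = 0) := Prod.mk_eq_zero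
      have e5 : ((fun w => ((g (w0 + f w), h w) : Y × Z)) (w1 + f1 w) = (0 : Y × Z))
          ↔ (g (w0 + f (w1 + f1 w)) = 0 ∧ h (w1 + f1 w) = 0) := Prod.mk_eq_zero
      rw [e3, iv_congr e4, iv_congr e5, iv_and, iv_and, mul_assoc]
    rw [Finset.expect_congr rfl (fun w _ => e1 w), Finset.expect_congr rfl (fun w _ => e2 w)]
      at key
    refine le_trans key ?_
    refine mul_le_mul_of_nonneg_right ?_
      (Finset.expect_nonneg (fun w _ => mul_nonneg (iv_nonneg _) (iv_nonneg _)))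
    rw [← mul_assoc]
    exact mul_le_mul_of_nonneg_right (aux_num hN) ht0

end

end Pool.Agent.H22.QF
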