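import Pool.Agent.H22.QF.FbSpec
import Pool.Agent.H22.QF.FNums
import Pool.Agent.H22.QK.PerFrame

/-!
# PerFrame3: the increment on one good joint frame (about 140 lines)

Compare `QK/PerFrame.lean`.
PROOF of `per_frame3`. Let `U = Fin m → ZMod 2`, `E' u = E (y1 + lc u x)`, `F' u = F (y2 + lc u x)`,
`C' u = C (y1 + y2 + lc u x)` (values `0, 1`). `E' u * F' u' * C' (u + u') = 0`, since
`(y1 + lc u x) + (y2 + lc u' x) = y1 + y2 + lc (u+u') x`. `increment E' F' C'` (H77) with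
`d = q + 2`: `(1/2)^(q+2) ≤ 𝔼 E', 𝔼 F'` since `(999/1000) ε ≥ (999/1000) (1/2)^q`, and
`(1/2)^(q+3) < 𝔼 C'`. It gives `W ≤ U` of codimension at most `stepDim (q+2) = iiR q` (unfold) and
`x0` with `135/128 * 𝔼 E' ≤ avg (sf W) E' x0` or the same for `F'`. The rest is `frame_inc`.

PROOF of `frame_inc`. `extract` with `η = (1/2)^(iiR q + q + 8)`:
`2^(iiR q) η = (1/2)^(q+8) ≤ ε/256`, and `135/128 * 999/1000 ε - ε/256 ≥ 41/40 ε`. By the negation of
`SpecBad` every `φ i` is `u ↦ ξ_i (lc u x)` for some `ξ_i ∈ S`; the `ξ_i` are independent since the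
`φ i` are. Finally `ξ_i (y + lc u x) = ξ_i y + φ_i u`, so replace `e i` by `e i + ξ_i y`.
-/

set_option autoImplicit false

open Finset Function Module
open scoped BigOperators
open Pool.Agent.H77.KM
open Pool.Agent.H22.QK

namespace Pool.Agent.H22.QF

section

variable {V : Type} [AddCommGroup V] [Module (ZMod 2) V] [Fintype V] {m : ℕ}

/-- A density increment of `E` on a frame, with characters in `S`. -/
def FrInc (E : V → ℝ) (q : ℕ) (ε : ℝ) (S : Finset (Dual (ZMod 2) V)) (y : V) (x : Fin m → V) :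
    Prop :=
  ∃ r' ≤ iiR q, ∃ ξ : Fin r' → Dual (ZMod 2) V, LinearIndependent (ZMod 2) ξ ∧
    (∀ i, ξ i ∈ S) ∧ ∃ e : Fin r' → ZMod 2,
      41 / 40 * ε * (1 / 2) ^ r'
        ≤ 𝔼 u : Fin m → ZMod 2, E (y + lc u x) * iv (∀ i, ξ i (y + lc u x) = e i)

theorem frame_inc (E : V → ℝ) {q : ℕ} {ε : ℝ} (hε : (1 / 2 : ℝ) ^ q ≤ ε)
    (S : Finset (Dual (ZMod 2) V)) (y : V) (x : Fin m → V)
    (h1 : 999 / 1000 * ε ≤ 𝔼 u : Fin m → ZMod 2, E (y + lc u x))
    (hspec : ¬ SpecBad E S ((1 / 2) ^ (iiR q + q + 8)) y x)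
    (W : Submodule (ZMod 2) (Fin m → ZMod 2))
    (hW : finrank (ZMod 2) (Fin m → ZMod 2) ≤ finrank (ZMod 2) W + iiR q)
    (x0 : Fin m → ZMod 2)
    (hx0 : 135 / 128 * (𝔼 u : Fin m → ZMod 2, E (y + lc u x))
      ≤ avg (sf W) (fun u => E (y + lc u x)) x0) :
    FrInc E q ε S y x := by
  classical
  have hqpos : (0 : ℝ) < (1 / 2) ^ q := by positivity
  have hεpos : 0 < ε := lt_of_lt_of_le hqpos hε
  have hη : (0 : ℝ) ≤ (1 / 2) ^ (iiR q + q + 8) := by positivity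
  obtain ⟨r', hr', φ, hind, hφ, e, he⟩ := extract (fun u => E (y + lc u x)) (r := iiR q) W hW x0
    hη hx0
  have hch : ∀ i, ∃ ξ ∈ S, ∀ u, φ i u = ξ (lc u x) := by
    intro i
    by_contra hcon
    refine hspec ⟨φ i, hφ i, fun ξ hξ => ?_⟩
    by_contra hcon2
    refine hcon ⟨ξ, hξ, fun u => ?_⟩
    by_contra hne
    exact hcon2 ⟨u, hne⟩
  choose ξ hξS hξ using hch
  refine ⟨r', hr', ξ, ?_, hξS, fun i => e i + ξ i y, ?_⟩
  · refine LinearIndependent.of_comp (Fintype.linearCombination (ZMod 2) x).dualMap ?_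
    have hcomp : ((Fintype.linearCombination (ZMod 2) x).dualMap ∘ ξ) = φ := by
      funext i
      refine LinearMap.ext fun u => ?_
      rw [Function.comp_apply, LinearMap.dualMap_apply, Fintype.linearCombination_apply]
      exact (hξ i u).symm
    rw [hcomp]
    exact hind
  · have hiv : ∀ u : Fin m → ZMod 2, iv (∀ i, ξ i (y + lc u x) = e i + ξ i y)
        = iv (∀ i, φ i u = e i) := by
      intro u
      refine iv_congr (forall_congr' fun i => ?_)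
      rw [map_add, hξ i u, add_comm (e i) (ξ i y)]
      exact add_right_inj _
    have hsum : 𝔼 u : Fin m → ZMod 2, E (y + lc u x) * iv (∀ i, ξ i (y + lc u x) = e i + ξ i y)
        = 𝔼 u : Fin m → ZMod 2, E (y + lc u x) * iv (∀ i, φ i u = e i) :=
      Finset.expect_congr rfl fun u _ => by rw [hiv u]
    rw [hsum]
    refine le_trans ?_ he
    have hp : (0 : ℝ) ≤ (1 / 2) ^ r' := by positivity
    refine mul_le_mul_of_nonneg_right ?_ hp
    have h5 : (2 : ℝ) ^ iiR q * (1 / 2) ^ (iiR q + q + 8) = (1 / 2) ^ q * (1 / 256) := by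
      rw [pow_add, pow_add, ← mul_assoc, ← mul_assoc, ← mul_pow]
      norm_num
    rw [h5]
    linarith

theorem per_frame3 (E F C : V → ℝ) (hE : ∀ x, E x = 0 ∨ E x = 1) (hF : ∀ x, F x = 0 ∨ F x = 1)
    (hC : ∀ x, C x = 0 ∨ C x = 1) (hEFC : ∀ x y, E x * F y * C (x + y) = 0)
    {q : ℕ} {ε1 ε2 : ℝ} (hε1 : (1 / 2 : ℝ) ^ q ≤ ε1) (hε2 : (1 / 2 : ℝ) ^ q ≤ ε2)
    (S1 S2 : Finset (Dual (ZMod 2) V)) (y1 y2 : V) (x : Fin m → V)
    (h1 : 999 / 1000 * ε1 ≤ 𝔼 u : Fin m → ZMod 2, E (y1 + lc u x))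
    (h2 : 999 / 1000 * ε2 ≤ 𝔼 u : Fin m → ZMod 2, F (y2 + lc u x))
    (h3 : (1 / 2 : ℝ) ^ (q + 3) < 𝔼 u : Fin m → ZMod 2, C (y1 + y2 + lc u x))
    (s1 : ¬ SpecBad E S1 ((1 / 2) ^ (iiR q + q + 8)) y1 x)
    (s2 : ¬ SpecBad F S2 ((1 / 2) ^ (iiR q + q + 8)) y2 x) :
    FrInc E q ε1 S1 y1 x ∨ FrInc F q ε2 S2 y2 x := by
  classical
  have hqpos : (0 : ℝ) < (1 / 2) ^ q := by positivity
  obtain ⟨W, hW, hx⟩ := increment (V := Fin m → ZMod 2) (fun u => E (y1 + lc u x))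
    (fun u => F (y2 + lc u x)) (fun u => C (y1 + y2 + lc u x)) (fun u => hE _) (fun u => hF _)
    (fun u => hC _)
    (by
      intro u u'
      have h := hEFC (y1 + lc u x) (y2 + lc u' x)
      have h2 : y1 + lc u x + (y2 + lc u' x) = y1 + y2 + lc (u + u') x := by
        rw [lc_add]
        abel
      rw [h2] at h
      exact h)
    (d := q + 2) (by omega)
    (by
      refine le_trans ?_ h1
      rw [pow_add]
      norm_num
      linarith)
    (by
      refine le_trans ?_ h2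
      rw [pow_add]
      norm_num
      linarith)
    h3
  obtain ⟨x0, hx0⟩ | ⟨x0, hx0⟩ := hx
  · exact Or.inl (frame_inc E hε1 S1 y1 x h1 s1 W hW x0 hx0)
  · exact Or.inr (frame_inc F hε2 S2 y2 x h2 s2 W hW x0 hx0)

end

end Pool.Agent.H22.QF
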