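import Pool.Agent.H22.QF.FNums
import Pool.Agent.H77.FL.Defs

/-!
# PhNums: the numbers of the seven phases and the final bound

`phP s p m` is the triple `(κ, r, σ)` which is needed `m` phases before the end, if `p` is needed
at the end.
-/

set_option autoImplicit false

open Pool.Agent.H77.KM
open Pool.Agent.H22.QK
open Pool.Agent.H77.FL

namespace Pool.Agent.H22.QF

/-- The parameter `N` of the phases. -/
def phN : ℕ := 10 ^ 13

/-- The number of levels of a phase. -/
def phJ (s : ℕ) : ℕ := 2 * phN * (s + 2)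

/-- The triple `(κ, r, σ)` one phase earlier. -/
def phUp (s : ℕ) (p : ℕ × ℕ × ℕ) : ℕ × ℕ × ℕ :=
  (p.1 + phJ s * (p.1 + phJ s * p.2.1 * (2 * p.2.2 + 1)),
    p.2.1 + phJ s * p.2.1,
    p.2.2 + (phJ s + 1) * (p.1 + phJ s * p.2.1 * (2 * p.2.2 + 1)))

/-- The triple `m` phases before the end. -/
def phP (s : ℕ) (p : ℕ × ℕ × ℕ) : ℕ → ℕ × ℕ × ℕ
  | 0 => p
  | m + 1 => phUp s (phP s p m)

theorem phP_r (s : ℕ) (p : ℕ × ℕ × ℕ) (m : ℕ) :
    (phP s p m).2.1 = (1 + phJ s) ^ m * p.2.1 := by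
  induction m with
  | zero => simp [phP]
  | succ m ih =>
    have h : (phP s p (m + 1)).2.1 = (phP s p m).2.1 + phJ s * (phP s p m).2.1 := rfl
    rw [h, ih, pow_succ]
    ring

theorem phP_s (s : ℕ) (p : ℕ × ℕ × ℕ) (m : ℕ) : p.2.2 ≤ (phP s p m).2.2 := by
  induction m with
  | zero => exact le_rfl
  | succ m ih =>
    have h : (phP s p (m + 1)).2.2 = (phP s p m).2.2 + (phJ s + 1) *
      ((phP s p m).1 + phJ s * (phP s p m).2.1 * (2 * (phP s p m).2.2 + 1)) := rfl
    rw [h]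
    omega

/-- The number of additional equations of the whole process. -/
def fnr0 (d : ℕ) : ℕ := (1 + phJ (d + 4)) ^ 7 * qR (d + 6)

/-- The bound for the number of equations of the base. -/
def fnRR (d : ℕ) : ℕ := 7 * d * fnr0 d

/-- The codimension at the end. -/
def fnk (d : ℕ) : ℕ := qK (d + 6) (fnRR d + fnr0 d)

/-- The regularity at the end. -/
def fns (d : ℕ) : ℕ := fnk d + fnRR d + fnr0 d + 60 + flS d 7 (fnr0 d)

/-- The triple at the end. -/
def fnp (d : ℕ) : ℕ × ℕ × ℕ := (fnk d, qR (d + 6), fns d)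

/-- The dimension needed in `main7`. -/
def fnD (d : ℕ) : ℕ :=
  flD d 7 (phP (d + 4) (fnp d) 7).1 (fnr0 d) (phP (d + 4) (fnp d) 7).2.2

end Pool.Agent.H22.QF
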