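import Pool.Agent.H22.QK.Defs

/-!
# QDefs: dense on all quadratic pieces

`QDense A G κ ρ σ s`: on every regular piece of `{G = 0}` cut out by a coset of a subspace of
codimension at most `κ` and by at most `ρ` further quadratic equations, the normalised density of
`A` is at least `(1/2)^s`.

`F3 = Fin 3 → ZMod 2` is the space whose nonzero vectors are the points of the Fano plane.
-/

set_option autoImplicit false

open Finset Function Module
open scoped BigOperators
open Pool.Agent.H77.KM
open Pool.Agent.H22.QK

namespace Pool.Agent.H22.QF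

/-- The space whose nonzero vectors are the points of the Fano plane. -/
abbrev F3 : Type := Fin 3 → ZMod 2

/-- `A` has normalised density at least `(1/2)^s` on all regular pieces of `{G = 0}` of
codimension at most `κ` with at most `ρ` further equations. -/
def QDense {V Y : Type} [AddCommGroup V] [Module (ZMod 2) V] [Fintype V] [AddCommGroup Y]
    [Module (ZMod 2) Y] [Fintype Y] (A : V → ℝ) (G : V → Y) (κ ρ σ s : ℕ) : Prop :=
  ∀ (W Z : Type) [AddCommGroup W] [Module (ZMod 2) W] [Fintype W]
    [AddCommGroup Z] [Module (ZMod 2) Z] [Fintype Z] (f : W →ₗ[ZMod 2] V),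
    Injective f → finrank (ZMod 2) V ≤ finrank (ZMod 2) W + κ → finrank (ZMod 2) Z ≤ ρ →
    ∀ (w0 : V) (h : W → Z) (c : W →ₗ[ZMod 2] W →ₗ[ZMod 2] (Y × Z)),
      IsQM (fun w => ((G (w0 + f w), h w) : Y × Z)) c → Reg c σ →
      (1 / 2 : ℝ) ^ s ≤ (Fintype.card Y : ℝ) * Fintype.card Z *
        𝔼 w, A (w0 + f w) * iv (G (w0 + f w) = 0) * iv (h w = 0)

end Pool.Agent.H22.QF
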