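import Pool.Agent.H22.QF.AvgRef
import Pool.Agent.H22.QF.MaxPieceR
import Pool.Agent.H22.QF.QDefs

/-!
# Phase: one phase of the density increments (about 250 lines)

`State A G b D κ0 ρ σ κ r s δ`: there is a system (codimension at most `κ0`, at most `ρ` new
equations, regular with `σ`) on which the sets of the points `v ∈ D` are spread (parameters `κ`, `r`,
bound `T v`) and have density at least `(1-δ) T v`.

PROOF of `phase`. `J = 2N(s+2)`, `E = κ' + J r' (2σ'+1)`. Let `(W, Z, f, t, h, c)` be the system. Its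
piece for `v0` is a regular piece over `{G = 0}` (`t v0`, `f`, `h v0`; polarisation
`bpair (pb b f) c`, `Reg σ`, so `Reg σt`), so `QDense` gives `|Y| |Z| 𝔼 (BS .. v0) ≥ (1/2)^s`
(unfold `BS`). `maxpieceR` for `g = gS .. v0`, `A = BS .. v0` (`BS_val`, `gS_qm`), `σ0 = σ`, `d = s`
and `N, κ', r', σ'` gives `f' : W' → W` of codimension at most `J E`, `w0s`, `hs : W' → Z'`,
`finrank Z' ≤ J r'`, with polarisation `cc`, `Reg cc σ'`; by `qm_unique` `cc =
bpair (pb (bpair (pb b f) c) f') cs`, where `cs` is the polarisation of `hs` (second component of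
`cc`; `hs` is quadratic). Density at least `(1/2)^s`, `SprV` with `(1+1/N)` times the density.
`rand_lin` with `M = W × Z'`, `m0 = (w0s, hs 0)` gives `Ψ p`. For every `v ∈ D`
(`v ≠ 0, v0`) put `D_p = |Y| |Z| |Z'| 𝔼_w BS .. v ((Ψ p v).1 + f' w) iv (hs w + hs 0 + (Ψ p v).2 = 0)`:
by `avg_ref` and `rand_lin` the average over `p` is `|Y| |Z| 𝔼 (BS .. v) ≥ (1-δ) T v`; `upper_ref`
(`g = gS .. v`, `η = 1/(8N)`) gives `D_p ≤ (1+η) T v`. `markov_ref`: the proportion of bad `p` is at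
most `1/8` for each of the at most six `v ∈ D`, so some `p` is good for all `v ∈ D`. The refined
system `(f ∘ f', refT, refH, bpair (pb c f') cs)` with `Ψ = Ψ p` (`ref_qm`, `ref_fano`, `ref_reg`,
`ref_BS`, `ref_gS`) has the required properties: for `v ∈ D`, `T v` is unchanged, `SprV` by
`spr_refine` (`c0 = J E`, `ρ' = J r'`, `h' w = hs w + hs 0 + (Ψ v).2`) and `sprV_congr`; for `v0`
(`(Ψ v0) = (w0s, hs 0)`, `hs w + hs 0 + hs 0 = hs w`): `T v0 = (1+1/N) density`,
`density ≥ (1 - 1/N) T v0 ≥ (1-δ') T v0`, `T v0 ≥ (1/2)^s`.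

PROOF of `state_empty`: `W = V`, `Z = Fin 0 → ZMod 2`, `f = id`, `t = 0`, `h = 0`, `c = 0`.
-/

set_option autoImplicit false

open Finset Function Module
open scoped BigOperators
open Pool.Agent.H77.KM
open Pool.Agent.H22.QK

namespace Pool.Agent.H22.QF

section

variable {V : Type} [AddCommGroup V] [Module (ZMod 2) V] [Fintype V]
variable {Y : Type} [AddCommGroup Y] [Module (ZMod 2) Y] [Fintype Y]

/-- There is a system on which the sets of the points of `D` are spread. -/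
def State (A : F3 → V → ℝ) (G : V → Y) (b : V →ₗ[ZMod 2] V →ₗ[ZMod 2] Y) (D : Finset F3)
    (κ0 ρ σ κ r s : ℕ) (δ : ℝ) : Prop :=
  ∃ (W Z : Type) (_ : AddCommGroup W) (_ : Module (ZMod 2) W) (_ : Fintype W)
    (_ : AddCommGroup Z) (_ : Module (ZMod 2) Z) (_ : Fintype Z) (f : W →ₗ[ZMod 2] V)
    (t : F3 →ₗ[ZMod 2] V) (h : F3 → W → Z) (c : W →ₗ[ZMod 2] W →ₗ[ZMod 2] Z),
    Injective f ∧ finrank (ZMod 2) V ≤ finrank (ZMod 2) W + κ0 ∧ finrank (ZMod 2) Z ≤ ρ ∧
    (∀ v, IsQM (h v) c) ∧ FanoRel h ∧ Reg (bpair (pb b f) c) σ ∧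
    ∀ v ∈ D, ∃ T : ℝ, (1 / 2 : ℝ) ^ (s + 1) ≤ T ∧
      (1 - δ) * T ≤ (Fintype.card Y : ℝ) * Fintype.card Z * 𝔼 w, BS A G f t h v w ∧
      SprV (BS A G f t h v) (gS G f t h v) κ r T

theorem state_empty (A : F3 → V → ℝ) (G : V → Y) {b : V →ₗ[ZMod 2] V →ₗ[ZMod 2] Y} {σ : ℕ}
    (hb : Reg b σ) (κ r s : ℕ) (δ : ℝ) : State A G b ∅ 0 0 σ κ r s δ := by
  refine ⟨V, PUnit, inferInstance, inferInstance, inferInstance, inferInstance, inferInstance,
    inferInstance, LinearMap.id, 0, fun _ _ => 0, 0, fun _ _ h => h, Nat.le_add_right _ _, ?_,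
    ?_, ?_, ?_, ?_⟩
  · rw [Module.finrank_zero_of_subsingleton]
  · intro v x y
    rfl
  · intro φ
    exact Finset.sum_eq_zero fun v _ => rfl
  · intro l hl
    have hlg : l ∘ₗ LinearMap.inl (ZMod 2) Y PUnit ≠ 0 := by
      intro h0
      apply hl
      apply LinearMap.ext
      rintro ⟨y, u⟩
      have hy : l (y, 0) = 0 := by
        have := LinearMap.congr_fun h0 y
        simpa using this
      have hu : ((y, u) : Y × PUnit) = (y, 0) := rfl
      rw [hu, hy]
      rfl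
    have h3 := hb _ hlg
    have h4 : bl (bpair (pb b (LinearMap.id : V →ₗ[ZMod 2] V))
        (0 : V →ₗ[ZMod 2] V →ₗ[ZMod 2] PUnit)) l =
        bl b (l ∘ₗ LinearMap.inl (ZMod 2) Y PUnit) := by
      apply LinearMap.ext
      intro x
      apply LinearMap.ext
      intro y
      rfl
    rw [h4]
    exact h3
  · intro v hv
    exact absurd hv (Finset.notMem_empty v)

theorem phase (A : F3 → V → ℝ) (hA : ∀ v x, A v x = 0 ∨ A v x = 1) {G : V → Y}
    {b : V →ₗ[ZMod 2] V →ₗ[ZMod 2] Y} (hG : IsQM G b) (D : Finset F3)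
    (hD0 : (0 : F3) ∉ D) (hD6 : D.card ≤ 6) {v0 : F3} (hv0 : v0 ≠ 0) (hvD : v0 ∉ D)
    {κt ρt σt s κ0 ρ σ κ r : ℕ} {δ : ℝ} (hdense : QDense (A v0) G κt ρt σt s)
    (hκ0 : κ0 ≤ κt) (hρt : ρ ≤ ρt) (hσt : σt ≤ σ) {N κ' r' σ' : ℕ} {δ' : ℝ} (hN : 1 ≤ N)
    (hκ : κ' + 2 * N * (s + 2) * (κ' + 2 * N * (s + 2) * r' * (2 * σ' + 1)) ≤ κ)
    (hr : r' + 2 * N * (s + 2) * r' ≤ r)
    (hσ : σ' + (2 * N * (s + 2) + 1) * (κ' + 2 * N * (s + 2) * r' * (2 * σ' + 1)) ≤ σ)
    (hsmall : (2 : ℝ) ^ (finrank (ZMod 2) Y + ρ + 2 * N * (s + 2) * r') * (1 / 2) ^ σ'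
      ≤ 1 / (8 * N))
    (hδ : 0 ≤ δ) (hδ' : 8 * (δ + 1 / (8 * N : ℝ)) ≤ δ')
    (hst : State A G b D κ0 ρ σ κ r s δ) :
    State A G b (insert v0 D)
      (κ0 + 2 * N * (s + 2) * (κ' + 2 * N * (s + 2) * r' * (2 * σ' + 1)))
      (ρ + 2 * N * (s + 2) * r') σ' κ' r' s δ' := by
  obtain ⟨W, Z, i1, i2, i3, i4, i5, i6, f, t, h, c, hf, hκW, hρZ, hh, hF, hReg, hDD⟩ := hst
  have hN' : (1 : ℝ) ≤ N := by exact_mod_cast hN
  have hNp : (0 : ℝ) < 1 / (8 * N : ℝ) := by positivity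
  have hδ'p : 0 < δ' := by linarith
  have hfYZ : finrank (ZMod 2) (Y × Z) = finrank (ZMod 2) Y + finrank (ZMod 2) Z :=
    Module.finrank_prod
  -- density of the point `v0`
  have hd0 := hdense W Z f hf (hκW.trans (by omega)) (hρZ.trans hρt) (t v0) (h v0)
    (bpair (pb b f) c) (gS_qm hG f t h hh v0) (fun l hl => by have := hReg l hl; omega)
  have hcYZ : (Fintype.card (Y × Z) : ℝ) = (Fintype.card Y : ℝ) * Fintype.card Z := by
    rw [Fintype.card_prod]
    push_cast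
    rfl
  have hd1 : (1 / 2 : ℝ) ^ s ≤ Fintype.card (Y × Z) * 𝔼 w, BS A G f t h v0 w := by
    rw [hcYZ]
    exact hd0
  have hsm1 : (2 : ℝ) ^ (finrank (ZMod 2) (Y × Z) + 2 * N * (s + 2) * r') * (1 / 2) ^ σ'
      ≤ 1 / (8 * N) := by
    refine le_trans (mul_le_mul_of_nonneg_right ?_ (by positivity)) hsmall
    exact pow_le_pow_right₀ (by norm_num) (by omega)
  obtain ⟨W', Z', j1, j2, j3, j4, j5, j6, f', hf', hcod, hZ', w0s, hs, cc, hcc, hReg', hdens,
    hspr⟩ := maxpieceR (gS_qm hG f t h hh v0) hReg (BS A G f t h v0)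
      (fun x => (BS_val A hA G f t h v0 x).1) (fun x hx => ((BS_val A hA G f t h v0 x).2 hx).1)
      (d := s) (N := N) (κ := κ') (r := r') (σ := σ') hN hd1 hsm1 hσ
  set E : ℕ := κ' + 2 * N * (s + 2) * r' * (2 * σ' + 1) with hE
  have hhs : IsQM hs (cc.compr₂ (LinearMap.snd (ZMod 2) (Y × Z) Z')) :=
    hcc.map (LinearMap.snd (ZMod 2) (Y × Z) Z')
  set cs := cc.compr₂ (LinearMap.snd (ZMod 2) (Y × Z) Z') with hcs
  have hcc2 : cc = bpair (pb (bpair (pb b f) c) f') cs :=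
    qm_unique hcc (((gS_qm hG f t h hh v0).pull f' w0s).pair hhs)
  have hReg2 : Reg (bpair (pb (bpair (pb b f) c) f') cs) σ' := by
    rw [← hcc2]
    exact hReg'
  obtain ⟨Ψ, hΨ0, hΨ⟩ := rand_lin (M := W × Z') v0 hv0 (w0s, hs 0)
  choose! T hT1 hT2 hT3 using hDD
  -- densities of the random refined pieces
  have hbad : ∀ v ∈ D, 𝔼 p, iv ((Fintype.card (Y × Z) : ℝ) * Fintype.card Z' *
      𝔼 w, BS A G f t h v ((Ψ p v).1 + f' w) * iv (hs w + hs 0 + (Ψ p v).2 = 0)
        < (1 - δ') * T v) ≤ 1 / 8 := by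
    intro v hv
    have hTp : 0 < T v := lt_of_lt_of_le (by positivity) (hT1 v hv)
    have hvz : v ≠ 0 := fun h0 => hD0 (h0 ▸ hv)
    have hvv0 : v ≠ v0 := fun h0 => hvD (h0 ▸ hv)
    refine markov_ref _ (η := 1 / (8 * N : ℝ)) hTp hNp.le hδ'p hδ' ?_ ?_
    · have e1 := hΨ v hvz hvv0 (fun m : W × Z' => (Fintype.card Z' : ℝ) *
        𝔼 w, BS A G f t h v (m.1 + f' w) * iv (hs w + hs 0 + m.2 = 0))
      have e2 := avg_ref (BS A G f t h v) f' hs
      have e3 : 𝔼 p, (Fintype.card (Y × Z) : ℝ) * Fintype.card Z' *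
          𝔼 w, BS A G f t h v ((Ψ p v).1 + f' w) * iv (hs w + hs 0 + (Ψ p v).2 = 0)
          = Fintype.card (Y × Z) * 𝔼 w, BS A G f t h v w := by
        rw [← e2, ← e1, Finset.mul_expect]
        exact Finset.expect_congr rfl fun p _ => by rw [mul_assoc]
      rw [e3, hcYZ]
      exact hT2 v hv
    · intro p
      refine upper_ref (gS_qm hG f t h hh v) hTp.le (hT3 v hv) f' hf' ?_ ?_ hhs hReg2 ?_ _ _
      · omega
      · omega
      · have hc : (Fintype.card (Y × Z) : ℝ) * Fintype.card Z' =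
            2 ^ (finrank (ZMod 2) (Y × Z) + finrank (ZMod 2) Z') := by
          rw [Module.card_eq_pow_finrank (K := ZMod 2) (V := Z'),
            Module.card_eq_pow_finrank (K := ZMod 2) (V := Y × Z), ZMod.card, pow_add]
          push_cast
          rfl
        rw [hc]
        refine le_trans (mul_le_mul_of_nonneg_right ?_ (by positivity)) hsmall
        exact pow_le_pow_right₀ (by norm_num) (by omega)
  -- a good choice for all points of `D`
  obtain ⟨p, hp⟩ : ∃ p, ∀ v ∈ D, (1 - δ') * T v ≤ (Fintype.card (Y × Z) : ℝ) * Fintype.card Z' *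
      𝔼 w, BS A G f t h v ((Ψ p v).1 + f' w) * iv (hs w + hs 0 + (Ψ p v).2 = 0) := by
    by_contra hcon
    push Not at hcon
    have h1 : (1 : ℝ) ≤ 𝔼 p, ∑ v ∈ D, iv ((Fintype.card (Y × Z) : ℝ) * Fintype.card Z' *
        𝔼 w, BS A G f t h v ((Ψ p v).1 + f' w) * iv (hs w + hs 0 + (Ψ p v).2 = 0)
          < (1 - δ') * T v) := by
      have hc : (1 : ℝ) = 𝔼 _p : (W × Z') × (W × Z'), (1 : ℝ) :=
        (Finset.expect_const Finset.univ_nonempty 1).symm
      refine le_trans hc.le (Finset.expect_le_expect fun p _ => ?_)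
      obtain ⟨v, hv, hlt⟩ := hcon p
      exact le_trans (iv_pos hlt).ge
        (Finset.single_le_sum (f := fun v => iv ((Fintype.card (Y × Z) : ℝ) *
            Fintype.card Z' * 𝔼 w, BS A G f t h v ((Ψ p v).1 + f' w) *
              iv (hs w + hs 0 + (Ψ p v).2 = 0) < (1 - δ') * T v)) (fun v _ => iv_nonneg _) hv)
    rw [Finset.expect_sum_comm] at h1
    have h2 := Finset.sum_le_sum hbad
    rw [Finset.sum_const, nsmul_eq_mul] at h2
    have h3 : (D.card : ℝ) ≤ 6 := by exact_mod_cast hD6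
    linarith
  have hcZ : (Fintype.card (Z × Z') : ℝ) = (Fintype.card Z : ℝ) * Fintype.card Z' := by
    rw [Fintype.card_prod]
    push_cast
    rfl
  have hcA : (Fintype.card Y : ℝ) * Fintype.card (Z × Z') =
      (Fintype.card (Y × Z) : ℝ) * Fintype.card Z' := by
    rw [hcZ, hcYZ, mul_assoc]
  refine ⟨W', Z × Z', j1, j2, j3, inferInstance, inferInstance, inferInstance, f.comp f',
    refT f t (Ψ p), refH h f' hs (Ψ p), bpair (pb c f') cs, hf.comp hf', ?_, ?_,
    ref_qm hh f' hhs (Ψ p), ref_fano hF f' hhs (Ψ p), ref_reg hReg2, ?_⟩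
  · omega
  · rw [Module.finrank_prod]
    omega
  · intro v hv
    rcases Finset.mem_insert.1 hv with rfl | hvD'
    · -- the new point
      have hΨp := hΨ0 p
      have hBn : ∀ w, BS A G f t h v (w0s + f' w) * iv (hs w = 0) =
          BS A G (f.comp f') (refT f t (Ψ p)) (refH h f' hs (Ψ p)) v w := by
        intro w
        rw [ref_BS, hΨp]
        have : hs w + hs 0 + hs 0 = hs w := by rw [add_assoc, ZModModule.add_self, add_zero]
        rw [this]
      have hgn : ∀ w, ((gS G f t h v (w0s + f' w), hs w) : (Y × Z) × Z') = 0 ↔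
          gS G (f.comp f') (refT f t (Ψ p)) (refH h f' hs (Ψ p)) v w = 0 := by
        intro w
        rw [ref_gS, hΨp]
        have : hs w + hs 0 + hs 0 = hs w := by rw [add_assoc, ZModModule.add_self, add_zero]
        rw [this]
      refine ⟨_, ?_, ?_, sprV_congr hBn hgn hspr⟩
      · have h1 : (1 / 2 : ℝ) ^ (s + 1) ≤ (1 / 2) ^ s :=
          pow_le_pow_of_le_one (by norm_num) (by norm_num) (by omega)
        have h2 : (0 : ℝ) ≤ 1 / (N : ℝ) := by positivity
        have h3 : (0 : ℝ) < (1 / 2 : ℝ) ^ s := by positivity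
        nlinarith
      · rw [hcA]
        have e4 : 𝔼 w, BS A G (f.comp f') (refT f t (Ψ p)) (refH h f' hs (Ψ p)) v w =
            𝔼 w, BS A G f t h v (w0s + f' w) * iv (hs w = 0) :=
          Finset.expect_congr rfl fun w _ => (hBn w).symm
        rw [e4]
        set dn : ℝ := (Fintype.card (Y × Z) : ℝ) * Fintype.card Z' *
          𝔼 w, BS A G f t h v (w0s + f' w) * iv (hs w = 0) with hdn
        have h3 : (0 : ℝ) < (1 / 2 : ℝ) ^ s := by positivity
        have hdn0 : 0 < dn := lt_of_lt_of_le h3 hdens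
        have h5 : 1 / (N : ℝ) ≤ δ' := by
          have : 8 * (1 / (8 * N : ℝ)) = 1 / (N : ℝ) := by
            have : (N : ℝ) ≠ 0 := by positivity
            field_simp
          linarith
        have h6 : (0 : ℝ) ≤ 1 / (N : ℝ) := by positivity
        have h7 : (1 - δ') * (1 + 1 / (N : ℝ)) ≤ 1 := by nlinarith
        calc (1 - δ') * ((1 + 1 / (N : ℝ)) * dn) = ((1 - δ') * (1 + 1 / (N : ℝ))) * dn := by ring
          _ ≤ 1 * dn := mul_le_mul_of_nonneg_right h7 hdn0.le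
          _ = dn := one_mul _
    · -- an old point
      refine ⟨T v, hT1 v hvD', ?_, ?_⟩
      · rw [hcA]
        have e4 : 𝔼 w, BS A G (f.comp f') (refT f t (Ψ p)) (refH h f' hs (Ψ p)) v w =
            𝔼 w, BS A G f t h v ((Ψ p v).1 + f' w) * iv (hs w + hs 0 + (Ψ p v).2 = 0) :=
          Finset.expect_congr rfl fun w _ => ref_BS A G f t h f' hs (Ψ p) v w
        rw [e4]
        exact hp v hvD'
      · have hq : IsQM (fun w => hs w + hs 0 + (Ψ p v).2) cs := by
          have := hhs.addAffine 0 (hs 0 + (Ψ p v).2)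
          refine (funext fun w => ?_ : (fun w => hs w + (0 : W' →ₗ[ZMod 2] Z') w +
            (hs 0 + (Ψ p v).2)) = fun w => hs w + hs 0 + (Ψ p v).2) ▸ this
          rw [LinearMap.zero_apply, add_zero, add_assoc]
        refine sprV_congr (fun w => (ref_BS A G f t h f' hs (Ψ p) v w).symm)
          (fun w => (ref_gS G f t h f' hs (Ψ p) v w).symm)
          (spr_refine (hT3 v hvD') f' hf' hcod hZ' ?_ ?_ (Ψ p v).1 _ hq)
        · omega
        · omega

end

end Pool.Agent.H22.QF
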