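import Pool.Agent.H22.QK.PigeonS

/-!
# PigeonS2: the characters of the local increments of `B1 y * B2 (y + x)` (about 150 lines)

PROOF. Apply `pigeonS` (`QK/PigeonS.lean`) to `V' = V × ZMod 2`, `B (y, i) = B1 y` for `i = 0` and
`B2 y` for `i = 1`, the set `X' = {(x, 1) : x ∈ X}` (measure half that of `X`, so at least
`(1/2)^(k+1)`), the exponent `k + 1` and
`P' (x, j) r' ξ' e := P x r' (fun i => (ξ' i) ∘ inl) e ∧ ∀ i, (1/2)^k ≤ |𝔼_y B1 y * B2 (y+x) *
chi ((ξ' i) ∘ inl) y|`. For `x ∈ X` with data `(r', ξ, e)` put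
`ξ' i (y, j) = ξ i y + (ξ i x) * j`. Then with `(y, i) + (x, 1) = (y + x, i + 1)`:
`𝔼_{(y,i)} B (y,i) B ((y,i) + (x,1)) chi ξ' (y,i)
= (1/2) 𝔼_y B1 y B2 (y+x) chi ξ y + (1/2) (-1)^(ξ x) 𝔼_y B2 y B1 (y+x) chi ξ y`
and the second average is (`y → y + x`) `𝔼_y B1 y B2 (y+x) chi ξ y * (-1)^(ξ x)`; so the sum is
`𝔼_y B1 y B2 (y+x) chi ξ y`, of absolute value at least `(1/2)^k ≥ (1/2)^(k+1)`. The result
`T', c'` on `V'` gives `T i x = (T' i (x, 0)) ∘ inl`, `c i = (T' i (0, 1)) ∘ inl + (c' i) ∘ inl`; for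
`x' = (x, 1)`: `(T' i x' + c' i) ∘ inl = T i x + c i`. A set of `x' = (x,j) ∈ X'` (so `j = 1`) of measure
`μ` in `V'` gives a set of `x` of measure `2 μ ≥ μ` in `V`.
-/

set_option autoImplicit false

open Finset Function Module
open scoped BigOperators
open Pool.Agent.H77.KM
open Pool.Agent.H22.QK

namespace Pool.Agent.H22.QF

section

private lemma exp_prod2 {V : Type} [Fintype V] (F : V × ZMod 2 → ℝ) :
    𝔼 z, F z = (1 / 2) * ((𝔼 y, F (y, 0)) + 𝔼 y, F (y, 1)) := by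
  rw [Fintype.expect_eq_sum_div_card, Fintype.expect_eq_sum_div_card,
    Fintype.expect_eq_sum_div_card, Fintype.sum_prod_type, Fintype.card_prod, ZMod.card]
  have h : ∀ x : V, ∑ j : ZMod 2, F (x, j) = F (x, 0) + F (x, 1) := by
    intro x
    exact Fin.sum_univ_two (fun j : Fin 2 => F (x, j))
  rw [Finset.sum_congr rfl (fun x _ => h x), Finset.sum_add_distrib]
  push_cast
  ring

private lemma exp_shift {V : Type} [AddCommGroup V] [Fintype V] (F : V → ℝ) (x : V) :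
    𝔼 y, F (y + x) = 𝔼 y, F y := by
  exact Fintype.expect_equiv (Equiv.addRight x) _ _ (fun _ => rfl)

private lemma half_le {V : Type} [Nonempty V] [Fintype V] (F : V × ZMod 2 → ℝ) (G : V → ℝ)
    (h0 : ∀ y, F (y, 0) = 0) (h1 : ∀ y, F (y, 1) ≤ G y) (hG : ∀ y, 0 ≤ G y) :
    𝔼 z, F z ≤ 𝔼 y, G y := by
  rw [exp_prod2, Finset.expect_congr rfl (fun y _ => h0 y), Finset.expect_const_zero, zero_add]
  have h2 : 𝔼 y, F (y, 1) ≤ 𝔼 y, G y := Finset.expect_le_expect (fun y _ => h1 y)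
  have h3 : 0 ≤ 𝔼 y, G y := Finset.expect_nonneg (fun y _ => hG y)
  linarith

end

section

variable {V : Type} [AddCommGroup V] [Module (ZMod 2) V] [Fintype V]

theorem pigeonS2 (B1 B2 : V → ℝ) (hB1 : ∀ x, |B1 x| ≤ 1) (hB2 : ∀ x, |B2 x| ≤ 1) (X : Set V)
    {k r : ℕ} (hX : (1 / 2 : ℝ) ^ k ≤ 𝔼 x, iv (x ∈ X))
    (P : V → (r' : ℕ) → (Fin r' → Dual (ZMod 2) V) → (Fin r' → ZMod 2) → Prop)
    (hP : ∀ x ∈ X, ∃ r' ≤ r, ∃ ξ : Fin r' → Dual (ZMod 2) V, ∃ e : Fin r' → ZMod 2,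
      (∀ i, (1 / 2 : ℝ) ^ k ≤ |𝔼 y, B1 y * B2 (y + x) * chi (ξ i) y|) ∧ P x r' ξ e) :
    ∃ r' ≤ r, ∃ (T : Fin r' → V →ₗ[ZMod 2] Dual (ZMod 2) V) (c : Fin r' → Dual (ZMod 2) V)
      (e : Fin r' → ZMod 2),
      (1 / 2 : ℝ) ^ (k + 2 + r * (covK (k + 1) + 2)) ≤ 𝔼 x, iv (x ∈ X ∧
        (∀ i, (1 / 2 : ℝ) ^ k ≤ |𝔼 y, B1 y * B2 (y + x) * chi (T i x + c i) y|) ∧
        P x r' (fun i => T i x + c i) e) := by
  classical
  let B : V × ZMod 2 → ℝ := fun z => if z.2 = 0 then B1 z.1 else B2 z.1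
  have h10 : (1 : ZMod 2) ≠ 0 := by decide
  have h11 : (1 : ZMod 2) + 1 = 0 := by decide
  have hB : ∀ z, |B z| ≤ 1 := by
    intro z
    simp only [B]
    split_ifs
    · exact hB1 _
    · exact hB2 _
  have hB0 : ∀ y, B (y, 0) = B1 y := fun y => by simp [B]
  have hBo : ∀ y, B (y, 1) = B2 y := fun y => by simp [B]
  let X' : Set (V × ZMod 2) := {z | z.2 = 1 ∧ z.1 ∈ X}
  have hX' : (1 / 2 : ℝ) ^ (k + 1) ≤ 𝔼 z, iv (z ∈ X') := by
    rw [exp_prod2]
    have h0 : ∀ y : V, iv ((y, (0 : ZMod 2)) ∈ X') = 0 := by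
      intro y
      refine iv_neg ?_
      rintro ⟨h, _⟩
      exact h10 h.symm
    have h1 : ∀ y : V, iv ((y, (1 : ZMod 2)) ∈ X') = iv (y ∈ X) := by
      intro y
      refine iv_congr ⟨fun h => h.2, fun h => ⟨rfl, h⟩⟩
    rw [Finset.expect_congr rfl (fun y _ => h0 y), Finset.expect_congr rfl (fun y _ => h1 y),
      Finset.expect_const_zero, zero_add, pow_succ]
    linarith
  let inl := LinearMap.inl (ZMod 2) V (ZMod 2)
  obtain ⟨r', hr', T', c', e, hres⟩ := pigeonS B hB X' hX'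
    (fun z r' ξ' e => P z.1 r' (fun i => inl.dualMap (ξ' i)) e ∧
      ∀ i, (1 / 2 : ℝ) ^ k ≤ |𝔼 y, B1 y * B2 (y + z.1) * chi (inl.dualMap (ξ' i)) y|)
    (r := r) (by
      rintro ⟨x, j⟩ ⟨hj, hx⟩
      simp only at hj hx
      subst hj
      obtain ⟨r', hr', ξ, e, h1, h2⟩ := hP x hx
      have hinl : ∀ i, inl.dualMap ((ξ i).comp (LinearMap.fst (ZMod 2) V (ZMod 2)) +
          (ξ i x) • LinearMap.snd (ZMod 2) V (ZMod 2)) = ξ i := by
        intro i
        ext y
        simp [inl]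
      refine ⟨r', hr', fun i => (ξ i).comp (LinearMap.fst (ZMod 2) V (ZMod 2)) +
        (ξ i x) • LinearMap.snd (ZMod 2) V (ZMod 2), e, ?_, ?_, ?_⟩
      · intro i
        have key : 𝔼 z : V × ZMod 2, B z * B (z + (x, 1)) *
            chi ((ξ i).comp (LinearMap.fst (ZMod 2) V (ZMod 2)) +
              (ξ i x) • LinearMap.snd (ZMod 2) V (ZMod 2)) z =
            𝔼 y, B1 y * B2 (y + x) * chi (ξ i) y := by
          rw [exp_prod2]
          have e0 : ∀ y : V, B (y, 0) * B ((y, (0 : ZMod 2)) + (x, 1)) *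
              chi ((ξ i).comp (LinearMap.fst (ZMod 2) V (ZMod 2)) +
                (ξ i x) • LinearMap.snd (ZMod 2) V (ZMod 2)) (y, 0) =
              B1 y * B2 (y + x) * chi (ξ i) y := by
            intro y
            rw [Prod.mk_add_mk, zero_add, hB0, hBo]
            simp [chi]
          have e1 : ∀ y : V, B (y, 1) * B ((y, (1 : ZMod 2)) + (x, 1)) *
              chi ((ξ i).comp (LinearMap.fst (ZMod 2) V (ZMod 2)) +
                (ξ i x) • LinearMap.snd (ZMod 2) V (ZMod 2)) (y, 1) =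
              (fun w => B1 w * B2 (w + x) * chi (ξ i) w) (y + x) := by
            intro y
            have hxx : y + x + x = y := by
              rw [add_assoc, ZModModule.add_self, add_zero]
            rw [Prod.mk_add_mk, h11, hB0, hBo]
            simp only [hxx]
            have hc : chi ((ξ i).comp (LinearMap.fst (ZMod 2) V (ZMod 2)) +
                (ξ i x) • LinearMap.snd (ZMod 2) V (ZMod 2)) (y, (1 : ZMod 2)) =
                chi (ξ i) (y + x) := by
              simp [chi]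
            rw [hc]
            ring
          rw [Finset.expect_congr rfl (fun y _ => e0 y),
            Finset.expect_congr rfl (fun y _ => e1 y),
            exp_shift (fun w => B1 w * B2 (w + x) * chi (ξ i) w) x]
          ring
        rw [key]
        refine le_trans ?_ (h1 i)
        exact pow_le_pow_of_le_one (by norm_num) (by norm_num) (Nat.le_succ k)
      · simp only [hinl]
        exact h2
      · intro i
        simp only [hinl]
        exact h1 i)
  refine ⟨r', hr', fun i => inl.dualMap.comp ((T' i).comp inl),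
    fun i => inl.dualMap (T' i (0, 1)) + inl.dualMap (c' i), e, ?_⟩
  have hTc : ∀ i x, inl.dualMap (T' i (x, 1) + c' i) =
      (inl.dualMap.comp ((T' i).comp inl)) x +
        (inl.dualMap (T' i (0, 1)) + inl.dualMap (c' i)) := by
    intro i x
    have hx1 : ((x, 1) : V × ZMod 2) = inl x + (0, 1) := by simp [inl]
    rw [hx1, map_add, map_add, map_add, LinearMap.comp_apply, LinearMap.comp_apply, add_assoc]
  have hk : k + 2 + r * (covK (k + 1) + 2) = k + 1 + 1 + r * (covK (k + 1) + 2) := by ring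
  rw [hk]
  refine hres.trans ?_
  refine half_le _ _ (fun y => ?_) (fun y => iv_mono ?_) (fun y => iv_nonneg _)
  · refine iv_neg ?_
    rintro ⟨⟨h, _⟩, _⟩
    exact h10 h.symm
  · rintro ⟨⟨_, h1⟩, _, h2, h3⟩
    refine ⟨h1, ?_, ?_⟩
    · intro i
      have := h3 i
      simp only [hTc] at this
      exact this
    · simp only [hTc] at h2
      exact h2

end

end Pool.Agent.H22.QF
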