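import Pool.Agent.H22.QF.PhNums
import Pool.Agent.H22.QK.Poly

/-!
# Poly7: the bound is polynomial (about 130 lines)

PROOF as in `QK/Poly` (class `PB` of the polynomially bounded functions, lemmas `PB.add`, `PB.mul`,
`PB.pow`, `PB.kmDim`, `PB.iiR`, ..., which are in `QK/Poly`). Show that `iiReg3`, `qcP`, `qcK`,
`qR`, `qT`, `qK1`, `qM`, `qC1`, `qQ`, `qP`, `qMm`, `qKm`, `qSi`, `qK` of polynomially bounded
functions are polynomially bounded, then `phJ`, `flS`, `flK`, `flC`, `flD` (constant second
argument `7`), and by induction on `m` that the three components of `phP (s d) (p d) m` are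
polynomially bounded if `s` and the three components of `p` are. (`phN` is a constant.)
-/

set_option autoImplicit false

open Pool.Agent.H77.KM
open Pool.Agent.H22.QK
open Pool.Agent.H77.FL

namespace Pool.Agent.H22.QF

section

variable {f g h k : ℕ → ℕ}

private theorem p7_arg (hf : PB f) : PB (fun d => 2 * f d + 1) :=
  ((PB.const 2).mul hf).add (PB.const 1)

private theorem p7_iiReg3 (hf : PB f) (hg : PB g) : PB (fun d => iiReg3 (f d) (g d)) := by
  unfold iiReg3
  exact ((hg.mul (((hf.iiM hg).add (PB.const 2)).pow 2)).add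
    ((PB.const 3).mul (hf.iiM hg))).add (PB.const 6)

private theorem p7_qcP (hf : PB f) (hg : PB g) : PB (fun d => qcP (f d) (g d)) := by
  unfold qcP
  exact (PB.const 2).mul ((hf.add hg).add (PB.const 8))

private theorem p7_qcK (hf : PB f) (hg : PB g) : PB (fun d => qcK (f d) (g d)) := by
  unfold qcK
  exact (PB.const 800).kmDim (hf.add hg)
    ((PB.const (24 * 200 * 203)).mul ((p7_qcP hf hg).add (PB.const 1)))

private theorem p7_qR (hf : PB f) : PB (fun d => qR (f d)) := by
  unfold qR
  exact (p7_arg hf).iiR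

private theorem p7_qT (hf : PB f) (hg : PB g) : PB (fun d => qT (f d) (g d)) := by
  unfold qT
  exact ((p7_arg hf).iiT hg).add ((PB.const 2).mul hg)

private theorem p7_qK1 (hf : PB f) (hg : PB g) : PB (fun d => qK1 (f d) (g d)) := by
  unfold qK1
  exact (((p7_qT hf hg).add hf).add hg).add (PB.const 4)

private theorem p7_qM (hf : PB f) (hg : PB g) : PB (fun d => qM (f d) (g d)) := by
  unfold qM
  exact ((p7_qK1 hf hg).add (PB.const 2)).add
    ((p7_qR hf).mul (((p7_qK1 hf hg).add (PB.const 1)).covK.add (PB.const 2)))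

private theorem p7_qC1 (hf : PB f) (hg : PB g) : PB (fun d => qC1 (f d) (g d)) := by
  unfold qC1
  exact (p7_qR hf).mul (((PB.const 4).mul ((p7_qM hf hg).add
    ((PB.const 2).mul (p7_qK1 hf hg)))).add (PB.const 1))

private theorem p7_qQ (hf : PB f) (hg : PB g) : PB (fun d => qQ (f d) (g d)) := by
  unfold qQ
  exact hg.add (p7_qR hf)

private theorem p7_qP (hf : PB f) (hg : PB g) : PB (fun d => qP (f d) (g d)) := by
  unfold qP
  exact ((((((p7_qQ hf hg).add (p7_qM hf hg)).add ((PB.const 2).mul hf)).add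
    ((PB.const 2).mul hg)).add (p7_qR hf)).add (PB.const 10))

private theorem p7_qMm (hf : PB f) (hg : PB g) : PB (fun d => qMm (f d) (g d)) := by
  unfold qMm
  exact (PB.const (2001 * 1007)).add ((PB.const 1002).mul (p7_qP hf hg))

private theorem p7_qKm (hf : PB f) (hg : PB g) : PB (fun d => qKm (f d) (g d)) := by
  unfold qKm
  exact (PB.const 1000).kmDim (hf.add (p7_qQ hf hg)) (p7_qMm hf hg)

private theorem p7_qSi (hf : PB f) (hg : PB g) : PB (fun d => qSi (f d) (g d)) := by
  unfold qSi
  exact ((((p7_qKm hf hg).add ((PB.const 2).mul (p7_qQ hf hg))).add (PB.const 1000)).add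
    (p7_qP hf hg)).add (PB.const 6)

private theorem p7_qK (hf : PB f) (hg : PB g) : PB (fun d => qK (f d) (g d)) := by
  unfold qK
  exact (((((((p7_qC1 hf hg).add (((p7_qQ hf hg).mul (((PB.const 2).mul (p7_qSi hf hg)).add
    (PB.const 1))).add (p7_qKm hf hg))).add (p7_qcK hf hg)).add
    (p7_iiReg3 (p7_arg hf) hg)).add
    ((PB.const 2).mul hg)).add (p7_qR hf)).add hf).add (PB.const 40)

private theorem p7_phJ (hf : PB f) : PB (fun d => phJ (f d)) := by
  unfold phJ
  exact (PB.const (2 * phN)).mul (hf.add (PB.const 2))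

private theorem p7_flS (hf : PB f) : PB (fun d => flS d 7 (f d)) := by
  unfold flS
  exact ((((PB.id.add (PB.const 1)).pow 2).mul (((PB.const 7).mul PB.id).mul hf)).add
    PB.id).add (PB.const 2)

private theorem p7_flK (hf : PB f) (hg : PB g) (hh : PB h) :
    PB (fun d => flK d 7 (f d) (g d) (h d)) := by
  unfold flK
  exact ((PB.const 2).mul hh).add (hf.add ((PB.const 2).mul (p7_flS hg)))

private theorem p7_flC (hf : PB f) (hg : PB g) (hh : PB h) (hk : PB k) :
    PB (fun d => flC d 7 (f d) (g d) (h d) (k d)) := by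
  unfold flC
  exact (hk.mul hf).add ((p7_flK hf hg hh).mul
    (hk.mul (hg.add (((PB.const 7).mul PB.id).mul hg))))

private theorem p7_flD (hf : PB f) (hg : PB g) (hh : PB h) :
    PB (fun d => flD d 7 (f d) (g d) (h d)) := by
  unfold flD
  exact (p7_flC hf hg hh ((PB.const 7).mul PB.id)).add
    (((((PB.const 7).mul PB.id).mul hg).add PB.id).add (PB.const 4))

end

theorem phP_poly {s : ℕ → ℕ} {p : ℕ → ℕ × ℕ × ℕ} (hs : PB s) (h1 : PB fun d => (p d).1)
    (h2 : PB fun d => (p d).2.1) (h3 : PB fun d => (p d).2.2) (m : ℕ) :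
    PB (fun d => (phP (s d) (p d) m).1) ∧ PB (fun d => (phP (s d) (p d) m).2.1) ∧
      PB (fun d => (phP (s d) (p d) m).2.2) := by
  induction m with
  | zero => exact ⟨h1, h2, h3⟩
  | succ m ih =>
    obtain ⟨i1, i2, i3⟩ := ih
    have hJ := p7_phJ hs
    have hA : PB (fun d => (phP (s d) (p d) m).1 + phJ (s d) * (phP (s d) (p d) m).2.1 *
        (2 * (phP (s d) (p d) m).2.2 + 1)) :=
      i1.add ((hJ.mul i2).mul (((PB.const 2).mul i3).add (PB.const 1)))
    exact ⟨i1.add (hJ.mul hA), i2.add (hJ.mul i2), i3.add ((hJ.add (PB.const 1)).mul hA)⟩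

theorem qK_poly {f g : ℕ → ℕ} (hf : PB f) (hg : PB g) : PB (fun d => qK (f d) (g d)) := by
  exact p7_qK hf hg

theorem fnD_poly : PB fnD := by
  have hn : PB (fun d => d + 6) := PB.id.add (PB.const 6)
  have hs : PB (fun d => d + 4) := PB.id.add (PB.const 4)
  have hr0 : PB fnr0 := by
    unfold fnr0
    exact (((PB.const 1).add (p7_phJ hs)).pow 7).mul (p7_qR hn)
  have hRR : PB fnRR := by
    unfold fnRR
    exact ((PB.const 7).mul PB.id).mul hr0
  have hk : PB fnk := by
    unfold fnk
    exact p7_qK hn (hRR.add hr0)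
  have hfs : PB fns := by
    unfold fns
    exact (((hk.add hRR).add hr0).add (PB.const 60)).add (p7_flS hr0)
  obtain ⟨a1, a2, a3⟩ := phP_poly (p := fnp) hs hk (p7_qR hn) hfs 7
  unfold fnD
  exact p7_flD a1 hr0 a3

end Pool.Agent.H22.QF
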