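import Pool.Agent.H22.QF.Main7
import Pool.Agent.H22.QF.Poly7

/-!
# Ramsey7: the polynomial form (about 50 lines)

PROOF. `fnD_poly` gives `C` with `fnD d ≤ (d+2)^C`; replace `C` by `C + 1`; `main7` in
`V = Fin n → ZMod 2` for the indicators `ind (A v)` (H77, `ind_cases`, `ind_of_notMem`).
-/

set_option autoImplicit false

open Finset Function Module
open scoped BigOperators
open Pool.Agent.H77.KM
open Pool.Agent.H22.QK

namespace Pool.Agent.H22.QF

theorem ramsey7 : ∃ C : ℕ, 1 ≤ C ∧ ∀ n d : ℕ, 1 ≤ d → (d + 2) ^ C ≤ n →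
    ∀ A : F3 → Set (Fin n → ZMod 2), (∀ v, (0 : Fin n → ZMod 2) ∉ A v) →
      (∃ v, v ≠ 0 ∧ ∃ U : Submodule (ZMod 2) (Fin n → ZMod 2), finrank (ZMod 2) U = d ∧
        ∀ u ∈ U, u ∉ A v) ∨
      ∃ ψ : F3 →ₗ[ZMod 2] (Fin n → ZMod 2), Injective ψ ∧ ∀ v, v ≠ 0 → ψ v ∈ A v := by
  classical
  obtain ⟨C, hC⟩ := fnD_poly
  refine ⟨C + 1, Nat.le_add_left 1 C, ?_⟩
  intro n d hd hn A hA
  have hfr : finrank (ZMod 2) (Fin n → ZMod 2) = n := by
    rw [Module.finrank_pi, Fintype.card_fin]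
  have hV : fnD d ≤ finrank (ZMod 2) (Fin n → ZMod 2) := by
    rw [hfr]
    refine (hC d).trans (le_trans ?_ hn)
    exact Nat.pow_le_pow_right (by omega) (Nat.le_succ C)
  by_cases h : ∃ v, v ≠ 0 ∧ ∃ U : Submodule (ZMod 2) (Fin n → ZMod 2),
      finrank (ZMod 2) U = d ∧ ∀ u ∈ U, u ∉ A v
  · exact Or.inl h
  · right
    push Not at h
    obtain ⟨ψ, hinj, hψ⟩ := main7 (fun v => ind (A v)) (fun v x => ind_cases (A v) x)
      (fun v => ind_of_notMem (hA v)) hd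
      (by
        intro v hv U hU
        obtain ⟨u, hu, huA⟩ := h v hv U hU
        exact ⟨u, hu, ind_of_mem huA⟩) hV
    refine ⟨ψ, hinj, fun v hv => ?_⟩
    by_contra hcon
    have h1 := hψ v hv
    simp only [ind_of_notMem hcon] at h1
    exact zero_ne_one h1

end Pool.Agent.H22.QF
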