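import Pool.Agent.H22.QF.QDefs

/-!
# RandLin: a random linear map `F3 → M` with one prescribed value (about 90 lines)

PROOF. Choose linear forms `α, β, γ : F3 → ZMod 2` with `α v0 = 1`, `β v0 = γ v0 = 0` and: `β v = 0`,
`γ v = 0` imply `v = 0` or `v = v0` (extend `v0` to a basis and take the dual basis; or: check the
seven cases by `decide` with explicit forms). Put
`Ψ (a, a') v = α v • m0 + β v • a + γ v • a'`. If `v ≠ 0, v0`, then `β v = 1` or `γ v = 1`; if
`β v = 1`, for fixed `a'` the average over `a` of `F (α v • m0 + a + γ v • a')` is `𝔼 F` by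
translation (`expect_add_left`), and similarly if `γ v = 1`.
(For `sum_lin`: pair `v` with `v + u` for some `u`, or expand in coordinates: every coordinate
vector occurs in four of the eight vectors of `F3`.)
-/

set_option autoImplicit false

open Finset Function Module
open scoped BigOperators
open Pool.Agent.H77.KM
open Pool.Agent.H22.QK

namespace Pool.Agent.H22.QF

section

private theorem rl_trans {M : Type} [AddCommGroup M] [Fintype M] (F : M → ℝ) (x : M) :
    𝔼 m, F (x + m) = 𝔼 m, F m :=
  Fintype.expect_equiv (Equiv.addLeft x) _ _ (fun _ => rfl)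

private theorem rl_one : ∀ x : ZMod 2, x ≠ 0 → x = 1 := by decide

private theorem rl_add : ∀ x : ZMod 2, x + x = 0 := by decide

private theorem rl_fin : ∀ i j : Fin 3, j = i ∨ j = i + 1 ∨ j = i + 2 := by decide

private theorem rl_sol : ∀ x y : ZMod 2, x + y = 0 → x = y := by decide

theorem rand_lin {M : Type} [AddCommGroup M] [Module (ZMod 2) M] [Fintype M] (v0 : F3)
    (hv0 : v0 ≠ 0) (m0 : M) :
    ∃ Ψ : M × M → (F3 →ₗ[ZMod 2] M), (∀ p, Ψ p v0 = m0) ∧
      ∀ v, v ≠ 0 → v ≠ v0 → ∀ F : M → ℝ, 𝔼 p, F (Ψ p v) = 𝔼 m, F m := by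
  obtain ⟨i, hi⟩ : ∃ i, v0 i ≠ 0 := by
    by_contra h
    push Not at h
    exact hv0 (funext h)
  have hi1 : v0 i = 1 := rl_one _ hi
  set P : Fin 3 → (F3 →ₗ[ZMod 2] ZMod 2) := fun j => LinearMap.proj j with hP
  set B : Fin 3 → (F3 →ₗ[ZMod 2] ZMod 2) := fun j => P j + v0 j • P i with hB
  have hBv : ∀ j v, B j v = v j + v0 j * v i := fun j v => rfl
  refine ⟨fun p => (P i).smulRight m0 + (B (i + 1)).smulRight p.1 + (B (i + 2)).smulRight p.2,
    ?_, ?_⟩
  · intro p
    have h1 : ∀ j, B j v0 = 0 := fun j => by rw [hBv, hi1, mul_one, rl_add]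
    have h2 : P i v0 = 1 := hi1
    simp only [LinearMap.add_apply, LinearMap.smulRight_apply, h1, h2, one_smul, zero_smul, add_zero]
  · intro v hv hvv F
    have key : ∀ p : M × M, ((P i).smulRight m0 + (B (i + 1)).smulRight p.1 +
        (B (i + 2)).smulRight p.2) v = (P i v) • m0 + (B (i + 1) v) • p.1 + (B (i + 2) v) • p.2 :=
      fun p => rfl
    have hne : B (i + 1) v = 1 ∨ B (i + 2) v = 1 := by
      by_contra h
      push Not at h
      have h1 : B (i + 1) v = 0 := by
        by_contra h0; exact h.1 (rl_one _ h0)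
      have h2 : B (i + 2) v = 0 := by
        by_contra h0; exact h.2 (rl_one _ h0)
      rw [hBv] at h1 h2
      have e1 := rl_sol _ _ h1
      have e2 := rl_sol _ _ h2
      have e3 : v = v i • v0 := by
        funext j
        have hj : j = i ∨ j = i + 1 ∨ j = i + 2 := rl_fin i j
        rcases hj with rfl | rfl | rfl
        · rw [Pi.smul_apply, hi1, smul_eq_mul, mul_one]
        · rw [Pi.smul_apply, smul_eq_mul, mul_comm]; exact e1
        · rw [Pi.smul_apply, smul_eq_mul, mul_comm]; exact e2
      by_cases h3 : v i = 0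
      · rw [h3, zero_smul] at e3; exact hv e3
      · rw [rl_one _ h3, one_smul] at e3; exact hvv e3
    rw [Finset.expect_congr rfl (fun p _ => congrArg F (key p)), ← Finset.univ_product_univ,
      Finset.expect_product]
    rcases hne with h | h
    · rw [Finset.expect_comm]
      have h4 : ∀ b : M, 𝔼 a, F ((P i v) • m0 + (B (i + 1) v) • a + (B (i + 2) v) • b) =
          𝔼 m, F m := by
        intro b
        rw [← rl_trans F ((P i v) • m0 + (B (i + 2) v) • b)]
        refine Finset.expect_congr rfl fun a _ => ?_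
        rw [h, one_smul]
        congr 1
        abel
      rw [Finset.expect_congr rfl (fun b _ => h4 b)]
      exact Fintype.expect_const _
    · have h4 : ∀ a : M, 𝔼 b, F ((P i v) • m0 + (B (i + 1) v) • a + (B (i + 2) v) • b) =
          𝔼 m, F m := by
        intro a
        rw [← rl_trans F ((P i v) • m0 + (B (i + 1) v) • a)]
        refine Finset.expect_congr rfl fun b _ => ?_
        rw [h, one_smul]
      rw [Finset.expect_congr rfl (fun a _ => h4 a)]
      exact Fintype.expect_const _

/-- The sum of the values of a linear map at the nonzero vectors vanishes. -/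
theorem sum_lin {M : Type} [AddCommGroup M] [Module (ZMod 2) M] (Φ : F3 →ₗ[ZMod 2] M) :
    ∑ v ∈ univ.erase (0 : F3), Φ v = 0 := by
  rw [← map_sum]
  have h : ∑ v ∈ univ.erase (0 : F3), v = 0 := by decide
  rw [h, map_zero]

end

end Pool.Agent.H22.QF
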