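import Pool.Agent.H22.QF.SysDefs

/-!
# RefSys: refinement of a system (about 150 lines)

Old system `(f, t, h, c)` over `G`; piece `(f', hs)` with `hs : W' → Z'` quadratic with polarisation
`cs`; a linear map `Ψ : F3 → W × Z'`. New system: `f ∘ f'`, `t + f ∘ fst ∘ Ψ`,
`h' v w = (h v ((Ψ v).1 + f' w), hs w + hs 0 + (Ψ v).2)`, polarisation `bpair (pb c f') cs`.

PROOFS. `ref_qm`: `IsQM.pull`, `IsQM.addAffine`, `IsQM.pair`. `ref_fano`: first component: the Fano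
relation of `h` for the linear map `v ↦ (Ψ v).1 + f' (φ v)`; second component: `fano_quad` for
`w ↦ hs w + hs 0` and `φ`, and `sum_lin` for `v ↦ (Ψ v).2`. `ref_BS`: `t' v + f (f' w) =
t v + f ((Ψ v).1 + f' w)`, `iv_and`, `Prod.mk_eq_zero`. `ref_reg`: the polarisation of
`w ↦ ((gS .. v (w0 + f' w), hs w) : (Y × Z) × Z')` is `bpair (pb (bpair (pb b f) c) f') cs`; the
linear equivalence `(Y × Z) × Z' ≃ Y × (Z × Z')` transforms `Reg` of it into `Reg` of
`bpair (pb b (f ∘ f')) (bpair (pb c f') cs)` (a functional `l` of `Y × (Z × Z')` composed with the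
equivalence is a functional of `(Y × Z) × Z'` with the same `bl`).
-/

set_option autoImplicit false

open Finset Function Module
open scoped BigOperators
open Pool.Agent.H77.KM
open Pool.Agent.H22.QK

namespace Pool.Agent.H22.QF

section

variable {V Y W Z W' Z' : Type} [AddCommGroup V] [Module (ZMod 2) V] [AddCommGroup Y]
  [Module (ZMod 2) Y] [AddCommGroup W] [Module (ZMod 2) W] [AddCommGroup Z] [Module (ZMod 2) Z]
  [AddCommGroup W'] [Module (ZMod 2) W'] [AddCommGroup Z'] [Module (ZMod 2) Z']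

/-- The translations of the refined system. -/
def refT (f : W →ₗ[ZMod 2] V) (t : F3 →ₗ[ZMod 2] V) (Ψ : F3 →ₗ[ZMod 2] (W × Z')) :
    F3 →ₗ[ZMod 2] V := t + f.comp ((LinearMap.fst (ZMod 2) W Z').comp Ψ)

/-- The quadratic maps of the refined system. -/
def refH (h : F3 → W → Z) (f' : W' →ₗ[ZMod 2] W) (hs : W' → Z')
    (Ψ : F3 →ₗ[ZMod 2] (W × Z')) (v : F3) (w : W') : Z × Z' :=
  (h v ((Ψ v).1 + f' w), hs w + hs 0 + (Ψ v).2)

theorem ref_qm {h : F3 → W → Z} {c : W →ₗ[ZMod 2] W →ₗ[ZMod 2] Z} (hh : ∀ v, IsQM (h v) c)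
    (f' : W' →ₗ[ZMod 2] W) {hs : W' → Z'} {cs : W' →ₗ[ZMod 2] W' →ₗ[ZMod 2] Z'}
    (hhs : IsQM hs cs) (Ψ : F3 →ₗ[ZMod 2] (W × Z')) (v : F3) :
    IsQM (refH h f' hs Ψ v) (bpair (pb c f') cs) := by
  have h2 : IsQM (fun w => hs w + hs 0 + (Ψ v).2) cs := by
    have e : (fun w => hs w + hs 0 + (Ψ v).2) =
        fun x => hs x + (0 : W' →ₗ[ZMod 2] Z') x + (hs 0 + (Ψ v).2) := by
      funext x
      rw [LinearMap.zero_apply, add_zero, add_assoc]
    rw [e]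
    exact hhs.addAffine 0 _
  exact ((hh v).pull f' (Ψ v).1).pair h2

theorem ref_fano {h : F3 → W → Z} (hF : FanoRel h)
    (f' : W' →ₗ[ZMod 2] W) {hs : W' → Z'} {cs : W' →ₗ[ZMod 2] W' →ₗ[ZMod 2] Z'}
    (hhs : IsQM hs cs) (Ψ : F3 →ₗ[ZMod 2] (W × Z')) : FanoRel (refH h f' hs Ψ) := by
  intro φ
  have h2 : IsQM (fun w => hs w + hs 0) cs := by
    have e : (fun w => hs w + hs 0) =
        fun x => hs x + (0 : W' →ₗ[ZMod 2] Z') x + hs 0 := by
      funext x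
      rw [LinearMap.zero_apply, add_zero]
    rw [e]
    exact hhs.addAffine 0 _
  have h20 : (fun w => hs w + hs 0) (0 : W') = 0 := ZModModule.add_self _
  apply Prod.ext
  · rw [Prod.fst_sum]
    exact hF ((LinearMap.fst (ZMod 2) W Z').comp Ψ + f'.comp φ)
  · rw [Prod.snd_sum]
    have h3 := fano_quad h2 h20 φ
    have h4 := sum_lin ((LinearMap.snd (ZMod 2) W Z').comp Ψ)
    change ∑ v ∈ univ.erase (0 : F3), (hs (φ v) + hs 0 + (Ψ v).2) = 0
    rw [sum_add_distrib]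
    change ∑ v ∈ univ.erase (0 : F3), (hs (φ v) + hs 0) = 0 at h3
    change ∑ v ∈ univ.erase (0 : F3), (Ψ v).2 = 0 at h4
    rw [h3, h4, add_zero]

theorem ref_BS (A : F3 → V → ℝ) (G : V → Y) (f : W →ₗ[ZMod 2] V) (t : F3 →ₗ[ZMod 2] V)
    (h : F3 → W → Z) (f' : W' →ₗ[ZMod 2] W) (hs : W' → Z') (Ψ : F3 →ₗ[ZMod 2] (W × Z'))
    (v : F3) (w : W') :
    BS A G (f.comp f') (refT f t Ψ) (refH h f' hs Ψ) v w
      = BS A G f t h v ((Ψ v).1 + f' w) * iv (hs w + hs 0 + (Ψ v).2 = 0) := by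
  have e : refT f t Ψ v + (f.comp f') w = t v + f ((Ψ v).1 + f' w) := by
    simp only [refT, LinearMap.add_apply, LinearMap.comp_apply, LinearMap.fst_apply, map_add]
    abel
  unfold BS
  rw [e]
  have e2 : iv (refH h f' hs Ψ v w = 0) =
      iv (h v ((Ψ v).1 + f' w) = 0) * iv (hs w + hs 0 + (Ψ v).2 = 0) := by
    rw [← iv_and]
    apply iv_congr
    unfold refH
    rw [Prod.mk_eq_zero]
  rw [e2]
  ring

theorem ref_gS (G : V → Y) (f : W →ₗ[ZMod 2] V) (t : F3 →ₗ[ZMod 2] V)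
    (h : F3 → W → Z) (f' : W' →ₗ[ZMod 2] W) (hs : W' → Z') (Ψ : F3 →ₗ[ZMod 2] (W × Z'))
    (v : F3) (w : W') :
    gS G (f.comp f') (refT f t Ψ) (refH h f' hs Ψ) v w = 0 ↔
      ((gS G f t h v ((Ψ v).1 + f' w), hs w + hs 0 + (Ψ v).2) : (Y × Z) × Z') = 0 := by
  have e : refT f t Ψ v + (f.comp f') w = t v + f ((Ψ v).1 + f' w) := by
    simp only [refT, LinearMap.add_apply, LinearMap.comp_apply, LinearMap.fst_apply, map_add]
    abel
  unfold gS
  rw [e]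
  unfold refH
  rw [Prod.mk_eq_zero, Prod.mk_eq_zero, Prod.mk_eq_zero, Prod.mk_eq_zero, and_assoc]

theorem ref_reg {b : V →ₗ[ZMod 2] V →ₗ[ZMod 2] Y} {f : W →ₗ[ZMod 2] V}
    {c : W →ₗ[ZMod 2] W →ₗ[ZMod 2] Z} {f' : W' →ₗ[ZMod 2] W}
    {cs : W' →ₗ[ZMod 2] W' →ₗ[ZMod 2] Z'} {s : ℕ}
    (hr : Reg (bpair (pb (bpair (pb b f) c) f') cs) s) :
    Reg (bpair (pb b (f.comp f')) (bpair (pb c f') cs)) s := by
  intro l hl
  obtain ⟨e, he⟩ : ∃ e : ((Y × Z) × Z') →ₗ[ZMod 2] (Y × (Z × Z')),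
      ∀ y z z', e ((y, z), z') = (y, (z, z')) :=
    ⟨(LinearEquiv.prodAssoc (ZMod 2) Y Z Z').toLinearMap, fun _ _ _ => rfl⟩
  have hl' : l.comp e ≠ 0 := by
    intro h0
    apply hl
    apply LinearMap.ext
    rintro ⟨y, z, z'⟩
    have h1 := LinearMap.congr_fun h0 ((y, z), z')
    rw [LinearMap.comp_apply, he] at h1
    rw [h1]
    rfl
  have h1 := hr (l.comp e) hl'
  have e2 : bl (bpair (pb (bpair (pb b f) c) f') cs) (l.comp e) =
      bl (bpair (pb b (f.comp f')) (bpair (pb c f') cs)) l := by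
    apply LinearMap.ext
    intro x
    apply LinearMap.ext
    intro y
    rw [bl_apply, bl_apply, LinearMap.comp_apply, bpair_apply, bpair_apply, bpair_apply,
      pb_apply, pb_apply, pb_apply, bpair_apply, he]
    rfl
  rw [e2] at h1
  exact h1

end

end Pool.Agent.H22.QF
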