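import Pool.Agent.H22.QF.Phase
import Pool.Agent.H22.QF.PhNums

/-!
# Seven: the seven phases (about 110 lines)

PROOF. Put `q j = phP s p (7 - j)`. By induction on `j ≤ 7`: for every `D : Finset F3` with
`0 ∉ D`, `D.card = j` there are `κ0, ρ` with `κ0 + (q j).1 ≤ (q 0).1`,
`ρ + (q j).2.1 ≤ (q 0).2.1` and
`State A G b D κ0 ρ (q j).2.2 (q j).1 (q j).2.1 s (9^j / phN)`.
* `j = 0`: `state_empty`.
* `j + 1`: `D = insert v0 D'`; `phase` with `κt = (q 0).1`, `ρt = (q 0).2.1`, `σt = p.2.2`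
  (`phP_s`), `N = phN`, `(κ', r', σ') = q (j+1)`; `q j = phUp s (q (j+1))`, so `hκ`, `hr`, `hσ` hold
  by definition (with `2 * phN * (s + 2)` in the place of `phJ s`);
  `ρ + J r' ≤ ρ + (q j).2.1 ≤ (q 0).2.1`, so `hsmall` follows from
  `finrank Y + (q 0).2.1 + 47 ≤ p.2.2 ≤ σ'` and `8 * 10^13 ≤ 2^47`;
  `8 (9^j/N + 1/(8N)) ≤ 9^(j+1)/N`. New `κ0' = κ0 + J (..)` and `κ0' + (q (j+1)).1 = κ0 + (q j).1`.
At the end `D = univ.erase 0` has 7 elements (`decide` or `card_erase_of_mem`).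
-/

set_option autoImplicit false

open Finset Function Module
open scoped BigOperators
open Pool.Agent.H77.KM
open Pool.Agent.H22.QK

namespace Pool.Agent.H22.QF

section

variable {V : Type} [AddCommGroup V] [Module (ZMod 2) V] [Fintype V]
variable {Y : Type} [AddCommGroup Y] [Module (ZMod 2) Y] [Fintype Y]

private theorem seven_aux (A : F3 → V → ℝ) (hA : ∀ v x, A v x = 0 ∨ A v x = 1) {G : V → Y}
    {b : V →ₗ[ZMod 2] V →ₗ[ZMod 2] Y} (hG : IsQM G b) {s : ℕ} {p : ℕ × ℕ × ℕ}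
    (hb : Reg b (phP s p 7).2.2)
    (hdense : ∀ v, v ≠ 0 → QDense (A v) G (phP s p 7).1 (phP s p 7).2.1 p.2.2 s)
    (hp : finrank (ZMod 2) Y + (phP s p 7).2.1 + 47 ≤ p.2.2) (j : ℕ) :
    ∀ m : ℕ, m + j = 7 → ∀ D : Finset F3, (0 : F3) ∉ D → D.card = j →
    ∃ κ0 ρ : ℕ, κ0 + (phP s p m).1 ≤ (phP s p 7).1 ∧
      ρ + (phP s p m).2.1 ≤ (phP s p 7).2.1 ∧
      State A G b D κ0 ρ (phP s p m).2.2 (phP s p m).1 (phP s p m).2.1 s
        (9 ^ j / (10 ^ 13 : ℝ)) := by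
  induction j with
  | zero =>
    intro m hm D hD hc
    have hm7 : m = 7 := by omega
    subst hm7
    rw [Finset.card_eq_zero.1 hc]
    exact ⟨0, 0, by omega, by omega, state_empty A G hb _ _ _ _⟩
  | succ j ih =>
    intro m hm D hD hc
    obtain ⟨v0, D', hv0, rfl, hD'⟩ := Finset.card_eq_succ.1 hc
    have hz : (0 : F3) ≠ v0 := fun h => hD (by rw [h]; exact Finset.mem_insert_self _ _)
    have hD0 : (0 : F3) ∉ D' := fun h => hD (Finset.mem_insert_of_mem h)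
    obtain ⟨κ0, ρ, h1, h2, h3⟩ := ih (m + 1) (by omega) D' hD0 hD'
    have e1 : (phP s p (m + 1)).1 = (phP s p m).1 + 2 * phN * (s + 2) * ((phP s p m).1 +
        2 * phN * (s + 2) * (phP s p m).2.1 * (2 * (phP s p m).2.2 + 1)) := rfl
    have e2 : (phP s p (m + 1)).2.1 = (phP s p m).2.1 +
        2 * phN * (s + 2) * (phP s p m).2.1 := rfl
    have e3 : (phP s p (m + 1)).2.2 = (phP s p m).2.2 + (2 * phN * (s + 2) + 1) *
        ((phP s p m).1 +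
        2 * phN * (s + 2) * (phP s p m).2.1 * (2 * (phP s p m).2.2 + 1)) := rfl
    have hσm := phP_s s p m
    have hσm1 := phP_s s p (m + 1)
    have hNv : (phN : ℝ) = 10 ^ 13 := by
      unfold phN
      norm_num
    have hN1 : 1 ≤ phN := by
      unfold phN
      norm_num
    have hj6 : D'.card ≤ 6 := by omega
    have hsmall : (2 : ℝ) ^ (finrank (ZMod 2) Y + ρ + 2 * phN * (s + 2) * (phP s p m).2.1) *
        (1 / 2) ^ (phP s p m).2.2 ≤ 1 / (8 * phN) := by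
      have hle : finrank (ZMod 2) Y + ρ + 2 * phN * (s + 2) * (phP s p m).2.1 + 47 ≤
          (phP s p m).2.2 := by
        generalize 2 * phN * (s + 2) * (phP s p m).2.1 = t at *
        omega
      obtain ⟨u, hu⟩ := Nat.exists_eq_add_of_le hle
      rw [hu, pow_add (1 / 2 : ℝ), pow_add (1 / 2 : ℝ), ← mul_assoc, ← mul_assoc, ← mul_pow]
      have hu1 : (1 / 2 : ℝ) ^ u ≤ 1 := pow_le_one₀ (by norm_num) (by norm_num)
      have h47 : (1 / 2 : ℝ) ^ 47 ≤ 1 / (8 * (10 ^ 13 : ℝ)) := by norm_num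
      rw [hNv]
      have hb1 : ((2 : ℝ) * (1 / 2)) = 1 := by norm_num
      rw [hb1, one_pow, one_mul]
      calc (1 / 2 : ℝ) ^ 47 * (1 / 2) ^ u ≤ (1 / 2 : ℝ) ^ 47 * 1 :=
            mul_le_mul_of_nonneg_left hu1 (by positivity)
        _ ≤ 1 / (8 * (10 ^ 13 : ℝ)) := by rw [mul_one]; exact h47
    have hδ : 8 * ((9 : ℝ) ^ j / 10 ^ 13 + 1 / (8 * (phN : ℝ))) ≤ 9 ^ (j + 1) / 10 ^ 13 := by
      rw [hNv]
      have h9 : (1 : ℝ) ≤ 9 ^ j := one_le_pow₀ (by norm_num)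
      have e : 8 * ((9 : ℝ) ^ j / 10 ^ 13 + 1 / (8 * (10 ^ 13 : ℝ))) =
          (8 * 9 ^ j + 1) / 10 ^ 13 := by
        ring
      have h9' : (9 : ℝ) ^ (j + 1) = 9 ^ j * 9 := pow_succ _ _
      rw [e, h9']
      apply div_le_div_of_nonneg_right _ (by positivity)
      linarith
    have key := phase A hA hG D' hD0 hj6 hz.symm hv0 (hdense v0 hz.symm)
      (le_trans (Nat.le_add_right _ _) h1) (le_trans (Nat.le_add_right _ _) h2) hσm1
      (N := phN) (κ' := (phP s p m).1) (r' := (phP s p m).2.1) (σ' := (phP s p m).2.2) hN1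
      e1.ge e2.ge e3.ge hsmall (by positivity) hδ h3
    refine ⟨_, _, ?_, ?_, key⟩
    · rw [e1] at h1
      omega
    · rw [e2] at h2
      omega

theorem seven (A : F3 → V → ℝ) (hA : ∀ v x, A v x = 0 ∨ A v x = 1) {G : V → Y}
    {b : V →ₗ[ZMod 2] V →ₗ[ZMod 2] Y} (hG : IsQM G b) {s : ℕ} {p : ℕ × ℕ × ℕ}
    (hb : Reg b (phP s p 7).2.2)
    (hdense : ∀ v, v ≠ 0 → QDense (A v) G (phP s p 7).1 (phP s p 7).2.1 p.2.2 s)
    (hp : finrank (ZMod 2) Y + (phP s p 7).2.1 + 47 ≤ p.2.2) :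
    ∃ κ0 ρ : ℕ, ρ ≤ (phP s p 7).2.1 ∧
      State A G b (univ.erase 0) κ0 ρ p.2.2 p.1 p.2.1 s (9 ^ 7 / (10 ^ 13 : ℝ)) := by
  obtain ⟨κ0, ρ, _, h2, h3⟩ := seven_aux A hA hG hb hdense hp 7 0 rfl (univ.erase 0)
    (Finset.notMem_erase _ _) (by decide)
  exact ⟨κ0, ρ, le_trans (Nat.le_add_right _ _) h2, h3⟩

end

end Pool.Agent.H22.QF
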