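import Pool.Agent.H22.QF.RandLin
import Pool.Agent.H22.QK.QBase

/-!
# SysDefs: Fano-compatible systems of quadratic pieces (about 120 lines)

A system over the base `{G = 0}` in `V`: `f : W → V` linear injective, `t : F3 → V` linear,
`h v : W → Z` quadratic with a common polarisation `c` and the Fano relation. The piece of the point
`v` of the Fano plane is `{w : G (t v + f w) = 0, h v w = 0}`.

PROOF of `fano_quad`. With `Φ e_i = x_i` the seven values are `G` at `x_1, x_2, x_3, x_1+x_2, ...,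
x_1+x_2+x_3`; expand with `hG` (`G 0 = 0`): every `G x_i` occurs four times, every `b x_i x_j`
(`i < j`) occurs twice. (Use `Fin 3` expansions: `univ.erase 0` has seven explicit elements,
`decide`.)
PROOF of `qm_unique`: `c x y = g (x+y) + g x + g y + g 0`.
PROOF of `sprV_congr`: `SprV` involves `g` only through `g .. = 0`.
PROOF of `spr_refine`: a piece `(f1, w1, h1)` of `W'` (codimension at most `κ'`, dimension at most
`r'`) gives the piece `f' ∘ f1`, base point `w0 + f' w1`, `w ↦ (h' (w1 + f1 w), h1 w)` of `W`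
(codimension at most `κ' + c0 ≤ κ`, dimension at most `ρ' + r' ≤ r`) and the inequality of `SprV` is
the same (`iv_and`, `Prod.mk_eq_zero`).
-/

set_option autoImplicit false

open Finset Function Module
open scoped BigOperators
open Pool.Agent.H77.KM
open Pool.Agent.H22.QK

namespace Pool.Agent.H22.QF

/-- The Fano relation. -/
def FanoRel {W Z : Type} [AddCommGroup W] [Module (ZMod 2) W] [AddCommGroup Z]
    (h : F3 → W → Z) : Prop :=
  ∀ φ : F3 →ₗ[ZMod 2] W, ∑ v ∈ univ.erase (0 : F3), h v (φ v) = 0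

section

variable {V Y W Z : Type} [AddCommGroup V] [Module (ZMod 2) V] [AddCommGroup Y]
  [Module (ZMod 2) Y] [AddCommGroup W] [Module (ZMod 2) W] [AddCommGroup Z] [Module (ZMod 2) Z]

/-- The quadratic map of the point `v`. -/
def gS (G : V → Y) (f : W →ₗ[ZMod 2] V) (t : F3 →ₗ[ZMod 2] V) (h : F3 → W → Z) (v : F3)
    (w : W) : Y × Z := (G (t v + f w), h v w)

/-- The set of the point `v` on its piece. -/
noncomputable def BS (A : F3 → V → ℝ) (G : V → Y) (f : W →ₗ[ZMod 2] V) (t : F3 →ₗ[ZMod 2] V)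
    (h : F3 → W → Z) (v : F3) (w : W) : ℝ :=
  A v (t v + f w) * iv (G (t v + f w) = 0) * iv (h v w = 0)

theorem fano_quad {G : V → Y} {b : V →ₗ[ZMod 2] V →ₗ[ZMod 2] Y} (hG : IsQM G b) (hG0 : G 0 = 0)
    (Φ : F3 →ₗ[ZMod 2] V) : ∑ v ∈ univ.erase (0 : F3), G (Φ v) = 0 := by
  have hS : (univ.erase (0 : F3)) = {![1,0,0], ![0,1,0], ![0,0,1], ![1,1,0], ![1,0,1], ![0,1,1],
      ![1,1,1]} := by decide
  rw [hS]
  rw [Finset.sum_insert (by decide), Finset.sum_insert (by decide), Finset.sum_insert (by decide),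
    Finset.sum_insert (by decide), Finset.sum_insert (by decide), Finset.sum_insert (by decide),
    Finset.sum_singleton]
  have e1 : Φ ![1,1,0] = Φ ![1,0,0] + Φ ![0,1,0] := by
    rw [← map_add]; congr 1; decide
  have e2 : Φ ![1,0,1] = Φ ![1,0,0] + Φ ![0,0,1] := by
    rw [← map_add]; congr 1; decide
  have e3 : Φ ![0,1,1] = Φ ![0,1,0] + Φ ![0,0,1] := by
    rw [← map_add]; congr 1; decide
  have e4 : Φ ![1,1,1] = Φ ![1,0,0] + Φ ![0,1,0] + Φ ![0,0,1] := by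
    rw [← map_add, ← map_add]; congr 1; decide
  rw [e1, e2, e3, e4]
  generalize Φ ![1,0,0] = x
  generalize Φ ![0,1,0] = y
  generalize Φ ![0,0,1] = z
  rw [hG (x + y) z, hG x y, hG x z, hG y z, hG0, map_add, LinearMap.add_apply]
  have e := ZModModule.add_self (G x + G x + G y + G y + G z + G z + b x y + b x z + b y z)
  refine Eq.trans ?_ e
  abel

theorem qm_unique {g : V → Y} {b b' : V →ₗ[ZMod 2] V →ₗ[ZMod 2] Y} (h : IsQM g b)
    (h' : IsQM g b') : b = b' := by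
  apply LinearMap.ext
  intro x
  apply LinearMap.ext
  intro y
  have h1 := h x y
  have h2 := h' x y
  rw [h1] at h2
  exact add_left_cancel h2

theorem gS_qm {G : V → Y} {b : V →ₗ[ZMod 2] V →ₗ[ZMod 2] Y} (hG : IsQM G b)
    (f : W →ₗ[ZMod 2] V) (t : F3 →ₗ[ZMod 2] V) (h : F3 → W → Z)
    {c : W →ₗ[ZMod 2] W →ₗ[ZMod 2] Z} (hh : ∀ v, IsQM (h v) c) (v : F3) :
    IsQM (gS G f t h v) (bpair (pb b f) c) := by
  exact (hG.pull f (t v)).pair (hh v)

theorem BS_val (A : F3 → V → ℝ) (hA : ∀ v x, A v x = 0 ∨ A v x = 1) (G : V → Y)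
    (f : W →ₗ[ZMod 2] V) (t : F3 →ₗ[ZMod 2] V) (h : F3 → W → Z) (v : F3) (w : W) :
    (BS A G f t h v w = 0 ∨ BS A G f t h v w = 1) ∧
      (BS A G f t h v w ≠ 0 → gS G f t h v w = 0 ∧ A v (t v + f w) = 1) := by
  unfold BS gS
  by_cases h1 : G (t v + f w) = 0
  · by_cases h2 : h v w = 0
    · rw [iv_pos h1, iv_pos h2, mul_one, mul_one]
      refine ⟨hA v _, fun h3 => ⟨by rw [h1, h2]; rfl, ?_⟩⟩
      rcases hA v (t v + f w) with h4 | h4
      · exact absurd h4 h3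
      · exact h4
    · rw [iv_neg h2, mul_zero]
      exact ⟨Or.inl rfl, fun h3 => absurd rfl h3⟩
  · rw [iv_neg h1, mul_zero, zero_mul]
    exact ⟨Or.inl rfl, fun h3 => absurd rfl h3⟩

end

theorem sprV_congr {W Y Y1 : Type} [AddCommGroup W] [Module (ZMod 2) W] [Fintype W]
    [AddCommGroup Y] [Module (ZMod 2) Y] [AddCommGroup Y1] [Module (ZMod 2) Y1]
    {B B' : W → ℝ} {g : W → Y} {g' : W → Y1} {κ r : ℕ} {t : ℝ} (hB : ∀ w, B w = B' w)
    (hg : ∀ w, g w = 0 ↔ g' w = 0) (h : SprV B g κ r t) : SprV B' g' κ r t := by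
  intro W1 Y2 _ _ _ _ _ _ f hf hk hr w0 h1 c hh
  have := h W1 Y2 f hf hk hr w0 h1 c hh
  have e1 : 𝔼 w, B' (w0 + f w) * iv (h1 w = 0) = 𝔼 w, B (w0 + f w) * iv (h1 w = 0) :=
    Finset.expect_congr rfl fun w _ => by rw [hB]
  have e2 : 𝔼 w, iv (g' (w0 + f w) = 0) * iv (h1 w = 0) =
      𝔼 w, iv (g (w0 + f w) = 0) * iv (h1 w = 0) :=
    Finset.expect_congr rfl fun w _ => by rw [iv_congr (hg (w0 + f w))]
  rw [e1, e2]
  exact this

theorem spr_refine {W W' Y Z : Type} [AddCommGroup W] [Module (ZMod 2) W] [Fintype W]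
    [AddCommGroup W'] [Module (ZMod 2) W'] [Fintype W'] [AddCommGroup Y] [Module (ZMod 2) Y]
    [AddCommGroup Z] [Module (ZMod 2) Z] [Fintype Z] {B : W → ℝ} {g : W → Y}
    {κ r : ℕ} {T : ℝ} (hB : SprV B g κ r T) (f' : W' →ₗ[ZMod 2] W) (hf' : Injective f')
    {c0 ρ' κ' r' : ℕ} (hc0 : finrank (ZMod 2) W ≤ finrank (ZMod 2) W' + c0)
    (hρ : finrank (ZMod 2) Z ≤ ρ') (hκ : κ' + c0 ≤ κ) (hr : r' + ρ' ≤ r)
    (w0 : W) (h' : W' → Z) {c : W' →ₗ[ZMod 2] W' →ₗ[ZMod 2] Z} (hh : IsQM h' c) :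
    SprV (fun w => B (w0 + f' w) * iv (h' w = 0))
      (fun w => ((g (w0 + f' w), h' w) : Y × Z)) κ' r' T := by
  intro W1 Y1 _ _ _ _ _ _ f1 hf1 hk1 hr1 w1 h1 c1 hh1
  have hfin : finrank (ZMod 2) (Z × Y1) = finrank (ZMod 2) Z + finrank (ZMod 2) Y1 :=
    Module.finrank_prod
  have key := hB W1 (Z × Y1) (f' ∘ₗ f1) (hf'.comp hf1) (by omega) (by omega)
    (w0 + f' w1) (fun w => (h' (w1 + f1 w), h1 w)) (bpair (pb c f1) c1)
    ((hh.pull f1 w1).pair hh1)
  have hx : ∀ w, w0 + f' w1 + (f' ∘ₗ f1) w = w0 + f' (w1 + f1 w) := by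
    intro w
    rw [LinearMap.comp_apply, map_add]
    abel
  have e1 : 𝔼 w, (B (w0 + f' (w1 + f1 w)) * iv (h' (w1 + f1 w) = 0)) * iv (h1 w = 0) =
      𝔼 w, B (w0 + f' w1 + (f' ∘ₗ f1) w) *
        iv (((h' (w1 + f1 w), h1 w) : Z × Y1) = 0) := by
    refine Finset.expect_congr rfl fun w _ => ?_
    rw [hx, iv_congr (Prod.mk_eq_zero (x := h' (w1 + f1 w)) (y := h1 w)), iv_and, mul_assoc]
  have e2 : 𝔼 w, iv (((g (w0 + f' (w1 + f1 w)), h' (w1 + f1 w)) : Y × Z) = 0) * iv (h1 w = 0) =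
      𝔼 w, iv (g (w0 + f' w1 + (f' ∘ₗ f1) w) = 0) *
        iv (((h' (w1 + f1 w), h1 w) : Z × Y1) = 0) := by
    refine Finset.expect_congr rfl fun w _ => ?_
    rw [hx, iv_congr (Prod.mk_eq_zero (x := h' (w1 + f1 w)) (y := h1 w)), iv_and,
      iv_congr (Prod.mk_eq_zero (x := g (w0 + f' (w1 + f1 w))) (y := h' (w1 + f1 w))), iv_and,
      mul_assoc]
  show 𝔼 w, (B (w0 + f' (w1 + f1 w)) * iv (h' (w1 + f1 w) = 0)) * iv (h1 w = 0) ≤
    T * 𝔼 w, iv (((g (w0 + f' (w1 + f1 w)), h' (w1 + f1 w)) : Y × Z) = 0) * iv (h1 w = 0)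
  rw [e1, e2]
  exact key

end Pool.Agent.H22.QF
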