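import Pool.Agent.H22.QF.IncRare
import Pool.Agent.H22.QF.FtMarg

/-!
# Two3: the local increment for three different sets in quadrics (about 150 lines)

PROOF of `two3`. Suppose that both conclusions fail. `m = iiM q R`, `τ = tauB Y m s ≤ 1/64`,
`kk = kk g1 g2 g3` (`kk_qm`, `kk_zero`), `S1 = bigS Y E (iiT q R)`, `S2 = bigS Y F (iiT q R)`. Consider
the joint frames `(y1, y2, x)` and the seven events
* `𝔼_u E (y1 + lc u x) < 999/1000 |Y| 𝔼 E`, the same for `F` at `y2` and for `C` at `y1 + y2`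
  (`bad_avg` for `g1, g2, g3` and `FT_marg1`, `FT_marg2`, `FT_marg3`: each at most `1/64 + τ`);
* `SpecBad E S1 .. y1 x`, `SpecBad F S2 .. y2 x` (`bad_spec`: each at most `1/64 + τ`);
* `FrInc E .. y1 x`, `FrInc F .. y2 x` (`inc_rare`: each at most `1/8 + τ`).
The sum of the measures is at most `5/64 + 2/8 + 7 τ < 1/2 < 1 - 2 τ ≤ FT 1` (`FT_marg1` with `F = 1`,
`FB_one`). So (`FT_mono`, `FT_add`, `FT_sub`) there is a joint frame where none of the events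
happens: otherwise `1 ≤ ∑ iv (event)` on all joint frames and `FT 1 ≤ ∑ FT (iv ..)`. This
contradicts `per_frame3` (`999/1000 (1/2)^q > (1/2)^(q+3)`).
-/

set_option autoImplicit false

open Finset Function Module
open scoped BigOperators
open Pool.Agent.H77.KM
open Pool.Agent.H22.QK

namespace Pool.Agent.H22.QF

section

variable {V : Type} [AddCommGroup V] [Module (ZMod 2) V] [Fintype V]
variable {Y : Type} [AddCommGroup Y] [Module (ZMod 2) Y] [Fintype Y]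
variable {g1 g2 g3 : V → Y} {b : V →ₗ[ZMod 2] V →ₗ[ZMod 2] Y} {m : ℕ}

theorem two3 (h1 : IsQM g1 b) (h2 : IsQM g2 b) (h3 : IsQM g3 b) {q s : ℕ} (hs : Reg b s)
    (hq : iiReg3 q (finrank (ZMod 2) Y) ≤ s)
    (E F C : V → ℝ) (hE : ∀ x, E x = 0 ∨ E x = 1) (hF : ∀ x, F x = 0 ∨ F x = 1)
    (hC : ∀ x, C x = 0 ∨ C x = 1) (hEg : ∀ x, E x ≠ 0 → g1 x = 0)
    (hFg : ∀ x, F x ≠ 0 → g2 x = 0) (hCg : ∀ x, C x ≠ 0 → g3 x = 0)
    (hEFC : ∀ x y, E x * F y * C (x + y) = 0)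
    (hEq : (1 / 2 : ℝ) ^ q ≤ Fintype.card Y * 𝔼 x, E x)
    (hFq : (1 / 2 : ℝ) ^ q ≤ Fintype.card Y * 𝔼 x, F x)
    (hCq : (1 / 2 : ℝ) ^ q ≤ Fintype.card Y * 𝔼 x, C x) :
    LocInc Y E q ∨ LocInc Y F q := by
  classical
  by_contra hcon
  have hnoE : ¬ LocInc Y E q := fun h => hcon (Or.inl h)
  have hnoF : ¬ LocInc Y F q := fun h => hcon (Or.inr h)
  have hk := kk_qm h1 h2 h3
  have hk0 : kk g1 g2 g3 0 = 0 := kk_zero
  have hτ0 := tauB_small (Y := Y) hq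
  -- the seven rare events
  have a1 := bad_avg h1 hk hk0 hs hq E hE hEg hEq
  have a2 := bad_avg h2 hk hk0 hs hq F hF hFg hFq
  have a3 := bad_avg h3 hk hk0 hs hq C hC hCg hCq
  have b1 := bad_spec h1 hk hk0 hs hq E hE hEg
  have b2 := bad_spec h2 hk hk0 hs hq F hF hFg
  have c1 := inc_rare h1 hk hk0 hs hq E hE hEg hEq hnoE
  have c2 := inc_rare h2 hk hk0 hs hq F hF hFg hFq hnoF
  generalize iiM q (finrank (ZMod 2) Y) = m at hτ0 a1 a2 a3 b1 b2 c1 c2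
  have hτ1 : tauB Y m s ≤ 1 / 16 := by
    refine hτ0.trans ?_
    have e : (1 / 2 : ℝ) ^ (2 * m + 4) = (1 / 2) ^ (2 * m) * (1 / 16) := by
      rw [pow_add]
      norm_num
    rw [e]
    have e2 : (1 / 2 : ℝ) ^ (2 * m) ≤ 1 := pow_le_one₀ (by norm_num) (by norm_num)
    linarith
  have hτ : tauB Y m s ≤ 1 := by linarith
  have hiv : ∀ P : V → (Fin m → V) → Prop, ∀ y x, |iv (P y x)| ≤ 1 := by
    intro P y x
    rw [abs_of_nonneg (iv_nonneg _)]
    exact iv_le_one _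
  have m1 := (abs_le.1 (FT_marg1 h1 h2 h3 hs hτ (fun y x =>
    iv (𝔼 u : Fin m → ZMod 2, E (y + lc u x) < 999 / 1000 * (Fintype.card Y * 𝔼 x, E x)))
    (hiv (fun y x => 𝔼 u : Fin m → ZMod 2, E (y + lc u x)
      < 999 / 1000 * (Fintype.card Y * 𝔼 x, E x))))).2
  have m2 := (abs_le.1 (FT_marg2 h1 h2 h3 hs hτ (fun y x =>
    iv (𝔼 u : Fin m → ZMod 2, F (y + lc u x) < 999 / 1000 * (Fintype.card Y * 𝔼 x, F x)))
    (hiv (fun y x => 𝔼 u : Fin m → ZMod 2, F (y + lc u x)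
      < 999 / 1000 * (Fintype.card Y * 𝔼 x, F x))))).2
  have m3 := (abs_le.1 (FT_marg3 h1 h2 h3 hs hτ (fun y x =>
    iv (𝔼 u : Fin m → ZMod 2, C (y + lc u x) < 999 / 1000 * (Fintype.card Y * 𝔼 x, C x)))
    (hiv (fun y x => 𝔼 u : Fin m → ZMod 2, C (y + lc u x)
      < 999 / 1000 * (Fintype.card Y * 𝔼 x, C x))))).2
  have m4 := (abs_le.1 (FT_marg1 h1 h2 h3 hs hτ (fun y x =>
    iv (SpecBad E (bigS Y E (iiT q (finrank (ZMod 2) Y))) ((1 / 2) ^ (iiR q + q + 8)) y x))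
    (hiv (fun y x =>
      SpecBad E (bigS Y E (iiT q (finrank (ZMod 2) Y))) ((1 / 2) ^ (iiR q + q + 8)) y x)))).2
  have m5 := (abs_le.1 (FT_marg2 h1 h2 h3 hs hτ (fun y x =>
    iv (SpecBad F (bigS Y F (iiT q (finrank (ZMod 2) Y))) ((1 / 2) ^ (iiR q + q + 8)) y x))
    (hiv (fun y x =>
      SpecBad F (bigS Y F (iiT q (finrank (ZMod 2) Y))) ((1 / 2) ^ (iiR q + q + 8)) y x)))).2
  have m6 := (abs_le.1 (FT_marg1 h1 h2 h3 hs hτ (fun y x =>
    iv (FrInc E q (Fintype.card Y * 𝔼 x, E x) (bigS Y E (iiT q (finrank (ZMod 2) Y))) y x))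
    (hiv (fun y x =>
      FrInc E q (Fintype.card Y * 𝔼 x, E x) (bigS Y E (iiT q (finrank (ZMod 2) Y))) y x)))).2
  have m7 := (abs_le.1 (FT_marg2 h1 h2 h3 hs hτ (fun y x =>
    iv (FrInc F q (Fintype.card Y * 𝔼 x, F x) (bigS Y F (iiT q (finrank (ZMod 2) Y))) y x))
    (hiv (fun y x =>
      FrInc F q (Fintype.card Y * 𝔼 x, F x) (bigS Y F (iiT q (finrank (ZMod 2) Y))) y x)))).2
  have m8 := (abs_le.1 (FT_marg1 h1 h2 h3 hs hτ (fun _ _ => 1) (by
    intro y x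
    rw [abs_one]))).1
  have m9 := (abs_le.1 (FB_one h1 hk hk0 hs hτ)).1
  have hpt : FT g1 g2 g3 m (fun _ _ _ => 1) ≤ FT g1 g2 g3 m (fun y1 y2 x =>
      iv (𝔼 u : Fin m → ZMod 2, E (y1 + lc u x) < 999 / 1000 * (Fintype.card Y * 𝔼 x, E x))
      + (iv (𝔼 u : Fin m → ZMod 2, F (y2 + lc u x) < 999 / 1000 * (Fintype.card Y * 𝔼 x, F x))
      + (iv (𝔼 u : Fin m → ZMod 2, C (y1 + y2 + lc u x)
          < 999 / 1000 * (Fintype.card Y * 𝔼 x, C x))
      + (iv (SpecBad E (bigS Y E (iiT q (finrank (ZMod 2) Y))) ((1 / 2) ^ (iiR q + q + 8)) y1 x)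
      + (iv (SpecBad F (bigS Y F (iiT q (finrank (ZMod 2) Y))) ((1 / 2) ^ (iiR q + q + 8)) y2 x)
      + (iv (FrInc E q (Fintype.card Y * 𝔼 x, E x)
          (bigS Y E (iiT q (finrank (ZMod 2) Y))) y1 x)
      + iv (FrInc F q (Fintype.card Y * 𝔼 x, F x)
          (bigS Y F (iiT q (finrank (ZMod 2) Y))) y2 x))))))) := by
    refine FT_mono fun y1 y2 x _ => ?_
    by_cases e1 : 𝔼 u : Fin m → ZMod 2, E (y1 + lc u x)
        < 999 / 1000 * (Fintype.card Y * 𝔼 x, E x)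
    · rw [iv_pos e1]
      have := iv_nonneg (𝔼 u : Fin m → ZMod 2, F (y2 + lc u x)
        < 999 / 1000 * (Fintype.card Y * 𝔼 x, F x))
      have := iv_nonneg (𝔼 u : Fin m → ZMod 2, C (y1 + y2 + lc u x)
        < 999 / 1000 * (Fintype.card Y * 𝔼 x, C x))
      have := iv_nonneg (SpecBad E (bigS Y E (iiT q (finrank (ZMod 2) Y)))
        ((1 / 2) ^ (iiR q + q + 8)) y1 x)
      have := iv_nonneg (SpecBad F (bigS Y F (iiT q (finrank (ZMod 2) Y)))
        ((1 / 2) ^ (iiR q + q + 8)) y2 x)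
      have := iv_nonneg (FrInc E q (Fintype.card Y * 𝔼 x, E x)
        (bigS Y E (iiT q (finrank (ZMod 2) Y))) y1 x)
      have := iv_nonneg (FrInc F q (Fintype.card Y * 𝔼 x, F x)
        (bigS Y F (iiT q (finrank (ZMod 2) Y))) y2 x)
      linarith
    rw [iv_neg e1, zero_add]
    by_cases e2 : 𝔼 u : Fin m → ZMod 2, F (y2 + lc u x)
        < 999 / 1000 * (Fintype.card Y * 𝔼 x, F x)
    · rw [iv_pos e2]
      have := iv_nonneg (𝔼 u : Fin m → ZMod 2, C (y1 + y2 + lc u x)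
        < 999 / 1000 * (Fintype.card Y * 𝔼 x, C x))
      have := iv_nonneg (SpecBad E (bigS Y E (iiT q (finrank (ZMod 2) Y)))
        ((1 / 2) ^ (iiR q + q + 8)) y1 x)
      have := iv_nonneg (SpecBad F (bigS Y F (iiT q (finrank (ZMod 2) Y)))
        ((1 / 2) ^ (iiR q + q + 8)) y2 x)
      have := iv_nonneg (FrInc E q (Fintype.card Y * 𝔼 x, E x)
        (bigS Y E (iiT q (finrank (ZMod 2) Y))) y1 x)
      have := iv_nonneg (FrInc F q (Fintype.card Y * 𝔼 x, F x)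
        (bigS Y F (iiT q (finrank (ZMod 2) Y))) y2 x)
      linarith
    rw [iv_neg e2, zero_add]
    by_cases e3 : 𝔼 u : Fin m → ZMod 2, C (y1 + y2 + lc u x)
        < 999 / 1000 * (Fintype.card Y * 𝔼 x, C x)
    · rw [iv_pos e3]
      have := iv_nonneg (SpecBad E (bigS Y E (iiT q (finrank (ZMod 2) Y)))
        ((1 / 2) ^ (iiR q + q + 8)) y1 x)
      have := iv_nonneg (SpecBad F (bigS Y F (iiT q (finrank (ZMod 2) Y)))
        ((1 / 2) ^ (iiR q + q + 8)) y2 x)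
      have := iv_nonneg (FrInc E q (Fintype.card Y * 𝔼 x, E x)
        (bigS Y E (iiT q (finrank (ZMod 2) Y))) y1 x)
      have := iv_nonneg (FrInc F q (Fintype.card Y * 𝔼 x, F x)
        (bigS Y F (iiT q (finrank (ZMod 2) Y))) y2 x)
      linarith
    rw [iv_neg e3, zero_add]
    by_cases e4 : SpecBad E (bigS Y E (iiT q (finrank (ZMod 2) Y)))
        ((1 / 2) ^ (iiR q + q + 8)) y1 x
    · rw [iv_pos e4]
      have := iv_nonneg (SpecBad F (bigS Y F (iiT q (finrank (ZMod 2) Y)))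
        ((1 / 2) ^ (iiR q + q + 8)) y2 x)
      have := iv_nonneg (FrInc E q (Fintype.card Y * 𝔼 x, E x)
        (bigS Y E (iiT q (finrank (ZMod 2) Y))) y1 x)
      have := iv_nonneg (FrInc F q (Fintype.card Y * 𝔼 x, F x)
        (bigS Y F (iiT q (finrank (ZMod 2) Y))) y2 x)
      linarith
    rw [iv_neg e4, zero_add]
    by_cases e5 : SpecBad F (bigS Y F (iiT q (finrank (ZMod 2) Y)))
        ((1 / 2) ^ (iiR q + q + 8)) y2 x
    · rw [iv_pos e5]
      have := iv_nonneg (FrInc E q (Fintype.card Y * 𝔼 x, E x)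
        (bigS Y E (iiT q (finrank (ZMod 2) Y))) y1 x)
      have := iv_nonneg (FrInc F q (Fintype.card Y * 𝔼 x, F x)
        (bigS Y F (iiT q (finrank (ZMod 2) Y))) y2 x)
      linarith
    rw [iv_neg e5, zero_add]
    have hpow : (0 : ℝ) < (1 / 2) ^ q := by positivity
    have hC3 : (1 / 2 : ℝ) ^ (q + 3) < 𝔼 u : Fin m → ZMod 2, C (y1 + y2 + lc u x) := by
      refine lt_of_lt_of_le ?_ (not_lt.1 e3)
      rw [pow_add]
      norm_num
      linarith
    rcases per_frame3 E F C hE hF hC hEFC hEq hFq _ _ y1 y2 x (not_lt.1 e1) (not_lt.1 e2) hC3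
      e4 e5 with e6 | e6
    · rw [iv_pos e6]
      have := iv_nonneg (FrInc F q (Fintype.card Y * 𝔼 x, F x)
        (bigS Y F (iiT q (finrank (ZMod 2) Y))) y2 x)
      linarith
    · rw [iv_pos e6]
      have := iv_nonneg (FrInc E q (Fintype.card Y * 𝔼 x, E x)
        (bigS Y E (iiT q (finrank (ZMod 2) Y))) y1 x)
      linarith
  rw [FT_add, FT_add, FT_add, FT_add, FT_add, FT_add] at hpt
  linarith

end

end Pool.Agent.H22.QF
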